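import Mathlib
import Pool.Agent.H35.NI.Defs
import Pool.Agent.H89.EN.Defs
import Pool.Agent.H89.CZ.KSer

set_option autoImplicit false

/-!
# Project ISO (MP_6cdc09_gt): definitions

Aim.  If `E` (real dimension `i`, `2 ≤ i ≤ 2n - 2`) or its orthogonal complement is isotropic, the
Brunn-Minkowski inequality for `V_E` holds on zonoids.

Notation of `H35/NI/Defs.lean`: `gg e w = ∫ |det ⟨φ e_a, w_b⟩| dφ`,
`dz w z = det (⟨w_a, w_b⟩ + z om(w_a, w_b))`, `GG w = dz w 0`.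

(F) For isotropic (or coisotropic) orthonormal `e`:
`gg e w √GG(w) = C ∫_{-1}^1 (1-x²)^(n-i) p(-x²) dx`, `p(z²) = dz w z` (`n - i` natural subtraction).
Modules `PelR`, `PelC`, `AqS`, `Pol`, `FunL`, `FunD`.
(L) Link.  For `W` orthonormal, `u, v ⊥ W`, with `B` complex coordinates `a = ζ u`, `b = ζ v` and
Kähler cosines `c_k ∈ [0,1]` on `W^⊥`:
`gg e (u, v, W) √(|u|²|v|² - ⟨u,v⟩²) = C ∫_{-1}^1 (1-x²)^κ qq c a b x Px c x dx`, `κ = i - n`,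
`Λ_k = La c x k = 1/(1 - x² c_k²)`, `Px = ∏ (1 - x² c_k²)`,
`qq = (∑ Λ_k |a_k|²)(∑ Λ_k |b_k|²) - (∑ Λ_k Re a_k b̄_k)² - x² (∑ c_k Λ_k Im a_k b̄_k)²`.
Modules `Lnk`, `Ana`, `Ker`.
(C) Core.  This kernel divided by `√(1 - ⟨a,b⟩²)` is conditionally negative definite on unit
vectors: expansion in the modes `n : Fin B × Bool → ℕ`, `t = Re ∑ a_k b̄_k`.
Modules `Mul`, `Exp`, `Shf`, `SchP`, `SchI`, `SchT`, `Nz`, `Zeq`, `Zaf`, `Zve`, `Cor`, `CorK`.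
(M) `Rev`, `HypI`, `Main`.
-/

open MeasureTheory Pool.Agent.H61.UProj Pool.Agent.H89.CZ Pool.Agent.H35.NI
open scoped ComplexConjugate

noncomputable section

namespace Pool.Agent.H35.ISO

variable {n i B : ℕ}

/-- `e` is isotropic. -/
def IsoF (e : Fin i → Cn n) : Prop := ∀ a b, om (e a) (e b) = 0

/-- `e` or an orthonormal basis of the orthogonal complement of `e` is isotropic. -/
def IsoC (e : Fin i → Cn n) : Prop :=
  IsoF e ∨ ∃ (j : ℕ) (e' : Fin j → Cn n), i + j = 2 * n ∧ Cpl e e' ∧ IsoF e'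

/-! ### The kernel in block coordinates -/

/-- `Λ_k = 1/(1 - x² c_k²)`. -/
def La (c : Fin B → ℝ) (x : ℝ) (k : Fin B) : ℝ := 1 / (1 - x ^ 2 * c k ^ 2)

/-- `∏ (1 - x² c_k²)`. -/
def Px (c : Fin B → ℝ) (x : ℝ) : ℝ := ∏ k, (1 - x ^ 2 * c k ^ 2)

/-- `∫_{-1}^1 f Px`. -/
def EE (c : Fin B → ℝ) (f : ℝ → ℝ) : ℝ := ∫ x in (-1 : ℝ)..1, f x * Px c x

/-- `S = ∑ N_k Λ_k`. -/
def SS (c : Fin B → ℝ) (N : Fin B → ℕ) (x : ℝ) : ℝ := ∑ k, (N k : ℝ) * La c x k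

/-- `Re ∑ a_k conj b_k`. -/
def tt (a b : Fin B → ℂ) : ℝ := ∑ k, (a k * conj (b k)).re

/-- `σ σ' - |S|²`. -/
def qq (c : Fin B → ℝ) (a b : Fin B → ℂ) (x : ℝ) : ℝ :=
  (∑ k, La c x k * ‖a k‖ ^ 2) * (∑ k, La c x k * ‖b k‖ ^ 2) -
    (∑ k, La c x k * (a k * conj (b k)).re) ^ 2 -
    x ^ 2 * (∑ k, c k * La c x k * (a k * conj (b k)).im) ^ 2

/-- `∫_{-1}^1 (1 - x²)^κ qq Px`. -/
def KK (κ : ℕ) (c : Fin B → ℝ) (a b : Fin B → ℂ) : ℝ :=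
  ∫ x in (-1 : ℝ)..1, (1 - x ^ 2) ^ κ * (qq c a b x * Px c x)

/-- The same with `t` in place of `-x²`. -/
def LT (c : Fin B → ℝ) (t : ℝ) (k : Fin B) : ℝ := 1 / (1 + t * c k ^ 2)

def PT (c : Fin B → ℝ) (t : ℝ) : ℝ := ∏ k, (1 + t * c k ^ 2)

def qT (c : Fin B → ℝ) (a b : Fin B → ℂ) (t : ℝ) : ℝ :=
  (∑ k, LT c t k * ‖a k‖ ^ 2) * (∑ k, LT c t k * ‖b k‖ ^ 2) -
    (∑ k, LT c t k * (a k * conj (b k)).re) ^ 2 +
    t * (∑ k, c k * LT c t k * (a k * conj (b k)).im) ^ 2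

/-- Partial sums of `1/√(1 - t²)`. -/
def tr (M : ℕ) (t : ℝ) : ℝ := ∑ p ∈ Finset.range (M + 1), dd p * t ^ (2 * p)

/-! ### Modes -/

/-- Modes: exponents of `a_k` (`true`) and `conj a_k` (`false`). -/
abbrev Md (B : ℕ) := Fin B × Bool → ℕ

/-- Modes of degree `N`. -/
def lev (B N : ℕ) : Finset (Md B) := Finset.univ.piAntidiag N

def nk (n : Md B) (k : Fin B) : ℕ := n (k, true) + n (k, false)

def ek (n : Md B) (k : Fin B) : ℝ := (n (k, true) : ℝ) - n (k, false)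

/-- Both exponents of the block `k` increased by one. -/
def up (n : Md B) (k : Fin B) : Md B := fun μ => n μ + if μ.1 = k then 1 else 0

/-- Multinomial coefficient over `2^|n|`. -/
def mm (n : Md B) : ℝ := (Nat.multinomial Finset.univ n : ℝ) / 2 ^ (∑ μ, n μ)

/-- The monomial. -/
def mo (a : Fin B → ℂ) (n : Md B) : ℂ := ∏ k, a k ^ n (k, true) * conj (a k) ^ n (k, false)

def FF {ι : Type*} [Fintype ι] (u : ι → Fin B → ℂ) (lam : ι → ℝ) (n : Md B) : ℂ :=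
  ∑ j, (lam j : ℂ) * mo (u j) n

/-- `S² - S - x² (∑ e_k c_k Λ_k)²`. -/
def CC (c : Fin B → ℝ) (n : Md B) (x : ℝ) : ℝ :=
  SS c (nk n) x ^ 2 - SS c (nk n) x - x ^ 2 * (∑ k, ek n k * c k * La c x k) ^ 2

/-- The mode with both exponents `ν_k`. -/
def dbl (ν : Fin B → ℕ) : Md B := fun μ => ν μ.1

/-- `ν` with the entry `k` increased by one. -/
def u1 (ν : Fin B → ℕ) (k : Fin B) : Fin B → ℕ := fun l => ν l + if l = k then 1 else 0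

/-- `∫ ∏_{l ≠ k} (1 - x² γ_l)`. -/
def G1 (γ : Fin B → ℝ) (k : Fin B) : ℝ :=
  ∫ x in (-1 : ℝ)..1, ∏ l ∈ Finset.univ.erase k, (1 - x ^ 2 * γ l)

/-- `∫ ∏_{j ≠ k, l} (1 - x² γ_j)`. -/
def G2 (γ : Fin B → ℝ) (k l : Fin B) : ℝ :=
  ∫ x in (-1 : ℝ)..1, ∏ j ∈ (Finset.univ.erase k).erase l, (1 - x ^ 2 * γ j)

/-- The charge-free part of the truncated form after cancellation of the terms `Λ_k²`. -/
def Zf (γ : Fin B → ℝ) (M : ℕ) (f : (Fin B → ℕ) → ℝ) : ℝ :=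
  ∑ p ∈ Finset.range (M + 1), (dd p / ((2 * p + 2) * (2 * p + 1)) *
      ∑ ν ∈ Finset.univ.piAntidiag (p + 1), mm (dbl ν) * f ν ^ 2 *
        ((∑ k, ∑ l ∈ Finset.univ.erase k, 4 * (ν k : ℝ) * ν l * G2 γ k l) -
          ∑ k, 2 * (ν k : ℝ) * G1 γ k) -
    dd p * ∑ ν ∈ Finset.univ.piAntidiag p, mm (dbl ν) *
      ∑ k, ∑ l ∈ Finset.univ.erase k, G2 γ k l * (f (u1 ν k) * f (u1 ν l)))

end Pool.Agent.H35.ISO
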