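import Mathlib
import Pool.Agent.H35.ISO.Defs

set_option autoImplicit false

/-!
# Ana: from `t = s² ≥ 0` to `t = -x²`

`PT(t)² qT(t)` is a polynomial in `t` (`PT LT_k = ∏_{l ≠ k} (1 + t c_l²)` where `1 + t c_k² ≠ 0`); so
`(1+t)^n PT(t) p(t) = (1+t)^m R(t)`, `R` the polynomial `PT² qT`, for all `t ≥ 0`, hence as
polynomials (`Polynomial.eq_of_infinite_eval_eq`), hence at `t = -x²`, where
`LT c (-x²) = La c x`, `PT = Px > 0`; divide by `Px`.
-/

open Pool.Agent.H35.NI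
open scoped ComplexConjugate

noncomputable section

namespace Pool.Agent.H35.ISO

variable {B : ℕ}

theorem Px_pos {c : Fin B → ℝ} (hc : ∀ k, 0 ≤ c k ∧ c k ≤ 1) {x : ℝ} (hx : x ^ 2 < 1) :
    0 < Px c x := by
  unfold Px
  refine Finset.prod_pos fun k _ => ?_
  obtain ⟨h0, h1⟩ := hc k
  have h2 : c k ^ 2 ≤ 1 := by nlinarith
  have h3 : x ^ 2 * c k ^ 2 ≤ x ^ 2 * 1 := mul_le_mul_of_nonneg_left h2 (sq_nonneg x)
  linarith

/-- `1 + t c_k²` as a polynomial. -/
private def Fk (c : Fin B → ℝ) (k : Fin B) : Polynomial ℝ :=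
  1 + Polynomial.C (c k ^ 2) * Polynomial.X

private def Pk (c : Fin B → ℝ) (k : Fin B) : Polynomial ℝ :=
  ∏ l ∈ Finset.univ.erase k, Fk c l

private def PP (c : Fin B → ℝ) : Polynomial ℝ := ∏ l, Fk c l

private def RR (c : Fin B → ℝ) (a b : Fin B → ℂ) : Polynomial ℝ :=
  (∑ k, Polynomial.C (‖a k‖ ^ 2) * Pk c k) * (∑ k, Polynomial.C (‖b k‖ ^ 2) * Pk c k) -
    (∑ k, Polynomial.C ((a k * conj (b k)).re) * Pk c k) ^ 2 +
    Polynomial.X * (∑ k, Polynomial.C (c k * (a k * conj (b k)).im) * Pk c k) ^ 2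

private lemma eval_Fk (c : Fin B → ℝ) (k : Fin B) (t : ℝ) :
    (Fk c k).eval t = 1 + t * c k ^ 2 := by
  simp [Fk, mul_comm]

private lemma eval_PP (c : Fin B → ℝ) (t : ℝ) : (PP c).eval t = PT c t := by
  simp only [PP, PT, Polynomial.eval_prod, eval_Fk]

private lemma PT_LT {c : Fin B → ℝ} {t : ℝ} (h : ∀ k, 1 + t * c k ^ 2 ≠ 0) (k : Fin B) :
    (Pk c k).eval t = PT c t * LT c t k := by
  have h1 : PT c t = (1 + t * c k ^ 2) * (Pk c k).eval t := by
    simp only [PT, Pk, Polynomial.eval_prod, eval_Fk]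
    exact (Finset.mul_prod_erase Finset.univ (fun l => 1 + t * c l ^ 2) (Finset.mem_univ k)).symm
  rw [h1, LT]
  field_simp [h k]

private lemma sum_eval {c : Fin B → ℝ} {t : ℝ} (h : ∀ k, 1 + t * c k ^ 2 ≠ 0) (w : Fin B → ℝ) :
    (∑ k, Polynomial.C (w k) * Pk c k).eval t = PT c t * ∑ k, LT c t k * w k := by
  rw [Polynomial.eval_finsetSum, Finset.mul_sum]
  refine Finset.sum_congr rfl fun k _ => ?_
  rw [Polynomial.eval_mul, Polynomial.eval_C, PT_LT h k]
  ring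

private lemma eval_RR {c : Fin B → ℝ} {t : ℝ} (h : ∀ k, 1 + t * c k ^ 2 ≠ 0)
    (a b : Fin B → ℂ) : (RR c a b).eval t = PT c t ^ 2 * qT c a b t := by
  have h4 : (∑ k, LT c t k * (c k * (a k * conj (b k)).im)) =
      ∑ k, c k * LT c t k * (a k * conj (b k)).im :=
    Finset.sum_congr rfl fun k _ => by ring
  rw [RR, qT, Polynomial.eval_add, Polynomial.eval_sub, Polynomial.eval_mul, Polynomial.eval_mul,
    Polynomial.eval_pow, Polynomial.eval_pow, Polynomial.eval_X,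
    sum_eval h (fun k => ‖a k‖ ^ 2), sum_eval h (fun k => ‖b k‖ ^ 2),
    sum_eval h (fun k => (a k * conj (b k)).re),
    sum_eval h (fun k => c k * (a k * conj (b k)).im), h4]
  ring

theorem ana {n m : ℕ} {c : Fin B → ℝ} (hc : ∀ k, 0 ≤ c k ∧ c k ≤ 1) (a b : Fin B → ℂ)
    (p : Polynomial ℝ)
    (h : ∀ s : ℝ, (1 + s ^ 2) ^ n * p.eval (s ^ 2) =
      (1 + s ^ 2) ^ m * (PT c (s ^ 2) * qT c a b (s ^ 2)))
    {x : ℝ} (hx : x ^ 2 < 1) :
    (1 - x ^ 2) ^ n * p.eval (-(x ^ 2)) = (1 - x ^ 2) ^ m * (qq c a b x * Px c x) := by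
  -- the identity of polynomials
  have hpoly : (1 + Polynomial.X) ^ n * (PP c * p) = (1 + Polynomial.X) ^ m * RR c a b := by
    refine Polynomial.eq_of_infinite_eval_eq _ _ ?_
    refine (Set.Ici_infinite (0 : ℝ)).mono fun t ht => ?_
    have ht0 : (0 : ℝ) ≤ t := ht
    have hs : Real.sqrt t ^ 2 = t := Real.sq_sqrt ht0
    have h1 := h (Real.sqrt t)
    rw [hs] at h1
    have hne : ∀ k, 1 + t * c k ^ 2 ≠ 0 := fun k => by positivity
    show Polynomial.eval t _ = Polynomial.eval t _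
    rw [Polynomial.eval_mul, Polynomial.eval_mul, Polynomial.eval_mul, Polynomial.eval_pow,
      Polynomial.eval_pow, Polynomial.eval_add, Polynomial.eval_one, Polynomial.eval_X, eval_PP,
      eval_RR hne]
    linear_combination (PT c t) * h1
  have hne : ∀ k, 1 + (-(x ^ 2)) * c k ^ 2 ≠ 0 := fun k => by
    obtain ⟨h0, h1⟩ := hc k
    have h2 : c k ^ 2 ≤ 1 := by nlinarith
    have h3 : x ^ 2 * c k ^ 2 ≤ x ^ 2 * 1 := mul_le_mul_of_nonneg_left h2 (sq_nonneg x)
    have : 0 < 1 + (-(x ^ 2)) * c k ^ 2 := by linarith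
    exact this.ne'
  have hL : ∀ k, LT c (-(x ^ 2)) k = La c x k := fun k => by
    unfold LT La
    congr 1
    ring
  have hP : PT c (-(x ^ 2)) = Px c x := by
    unfold PT Px
    exact Finset.prod_congr rfl fun k _ => by ring
  have hq : qT c a b (-(x ^ 2)) = qq c a b x := by
    unfold qT qq
    simp only [hL]
    ring
  have h5 := congrArg (Polynomial.eval (-(x ^ 2))) hpoly
  rw [Polynomial.eval_mul, Polynomial.eval_mul, Polynomial.eval_mul, Polynomial.eval_pow,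
    Polynomial.eval_pow, Polynomial.eval_add, Polynomial.eval_one, Polynomial.eval_X, eval_PP,
    eval_RR hne, hP, hq] at h5
  have hpos := Px_pos hc hx
  refine mul_left_cancel₀ hpos.ne' ?_
  rw [show (1 : ℝ) - x ^ 2 = 1 + -(x ^ 2) by ring]
  linear_combination h5

end Pool.Agent.H35.ISO
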