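import Mathlib
import Pool.Agent.H35.ISO.Defs
import Pool.Agent.H35.NI.Lin
import Pool.Agent.H35.NI.NFu
import Pool.Agent.H89.EN.GEmb

set_option autoImplicit false

/-!
# PelR: integration over the stabilizer of a vector, one real vector peeled off

Model: `Pool/Agent/H89/EN/GReal.lean` (complex line; copy its private lemmas).

`gg_isoF`.  `gg e H = 0 = √GG H` if `GG H = 0` (`frame`); else `H = R f`, `f` orthonormal with the
same real span (see the proof of `frame` in `NI/Lin`: take an orthonormal basis of the span,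
real combinations of isotropic vectors: `om (f a) (f b) = 0`), so `inner ℂ (f a) (f b) = δ`,
`f = ψ (st n ·)` by `uni_of_gram`; `gg_comb`, `gg_symm`, `gg_uni`; `√GG H = |det R|`.  (`i = 0`: both sides 1.)

`peel_real`.  `ε = st (n+1) 0`, `h = g ψ` from `exists_embL`, `int_embL`.  Fix `φ`; `w_b = st (n+1) b`,
`b < i + 1`, `x_b = ⟨φ ε, w_b⟩`.  Orthonormal basis `O` of `ℝ^(i+1)` with `O_l ⊥ x` for `l ≥ 1`;
`w'_l = ∑_b O_l b w_b`; `|DD X w| = |DD X w'|`; first row of `DD ((φ h)(ε, lf e)) w'` is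
`(⟨x, O_0⟩, 0, …, 0)`, `|⟨x, O_0⟩| = |x|`.  `φ⁻¹ w'_l` (`l ≥ 1`) has first coordinate purely imaginary
(real inner product with `ε` is `0`); `H_l` = the other coordinates (`Cn n`):
`⟨lf (ψ e), φ⁻¹ w'_l⟩ = ⟨ψ e, H_l⟩`; `inner ℂ (H_k) (H_l) = inner ℂ (w'_k) (w'_l) - conj (i y_k) (i y_l)` is
real: `H` is isotropic.  So `∫_ψ |DD ((φ h ψ)(ε, lf e)) w| = |x| gg e H = |x| √GG(H) gg e (st n ·)`
for EVERY `e`, with `|x| √GG(H) = C_φ` independent of `e`.
Take also `e0 = st n ·`: `gg e0 e0 > 0` (`gg_self_pos`), so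
`∫_ψ F_e(φ, ψ) = ∫_ψ F_(e0)(φ, ψ) · gg e (st) / gg e0 (st)` for all `φ`, and
`κ = gg (st (n+1) ·) (st (n+1) ·) / gg e0 e0` (`Fin.cons ε (lf e0) = st (n+1) ·`); no measurability problem.
-/

open MeasureTheory Pool.Agent.H61.UProj Pool.Agent.H89.CZ Pool.Agent.H35.NI Pool.Agent.H89.EN

noncomputable section

namespace Pool.Agent.H35.ISO

variable {n i : ℕ}

/-! ### Isotropic frames -/

private theorem pelR_span {H : Fin i → Cn n} (hH : IsoF H) {x y : Cn n}
    (hx : x ∈ Submodule.span ℝ (Set.range H)) (hy : y ∈ Submodule.span ℝ (Set.range H)) :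
    om x y = 0 := by
  have h1 : ∀ a, ∀ z ∈ Submodule.span ℝ (Set.range H), om (H a) z = 0 := by
    intro a z hz
    induction hz using Submodule.span_induction with
    | mem z hz =>
      obtain ⟨b, rfl⟩ := hz
      exact hH a b
    | zero => simp [om]
    | add u v _ _ hu hv => rw [om_add_right, hu, hv, add_zero]
    | smul t u _ hu => rw [om_smul_right, hu, mul_zero]
  induction hx using Submodule.span_induction with
  | mem z hz =>
    obtain ⟨b, rfl⟩ := hz
    exact h1 b y hy
  | zero => simp [om]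
  | add u v _ _ hu hv => rw [om_add_left, hu, hv, add_zero]
  | smul t u _ hu => rw [om_smul_left, hu, mul_zero]

private theorem pelR_dep {w : Fin i → Cn n} (h : ¬ LinearIndependent ℝ w) (x : Fin i → Cn n) :
    DD x w = 0 := by
  rw [Fintype.not_linearIndependent_iff] at h
  obtain ⟨g, hg, k, hk⟩ := h
  unfold DD
  rw [← Matrix.exists_mulVec_eq_zero_iff]
  refine ⟨g, fun h0 => hk (congrFun h0 k), ?_⟩
  ext a
  simp only [Matrix.mulVec, dotProduct, Matrix.of_apply, Pi.zero_apply]
  have h1 : ∑ b, (inner ℝ (x a) (w b) : ℝ) * g b = inner ℝ (x a) (∑ b, g b • w b) := by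
    rw [inner_sum]
    refine Finset.sum_congr rfl fun b _ => ?_
    rw [real_inner_smul_right, mul_comm]
  rw [h1, hg, inner_zero_right]

theorem gg_isoF (hin : i ≤ n) (e H : Fin i → Cn n) (hH : IsoF H) :
    gg e H = √(GG H) * gg e (fun a : Fin i => st n a) := by
  by_cases hw : LinearIndependent ℝ H
  · set S := Submodule.span ℝ (Set.range H) with hS
    have hfr : Module.finrank ℝ S = i := by
      rw [hS, finrank_span_eq_card hw, Fintype.card_fin]
    set b := (stdOrthonormalBasis ℝ S).reindex (finCongr hfr) with hb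
    set f : Fin i → Cn n := fun j => (b j : Cn n) with hfd
    have hf : Orthonormal ℝ f := b.orthonormal.comp_linearIsometry S.subtypeₗᵢ
    have hwS : ∀ k, H k ∈ S := fun k => Submodule.subset_span ⟨k, rfl⟩
    set R : Matrix (Fin i) (Fin i) ℝ :=
      Matrix.of fun k j => (inner ℝ (b j) (⟨H k, hwS k⟩ : S) : ℝ) with hR
    have hwR : ∀ k, H k = ∑ j, R k j • f j := by
      intro k
      have h1 := b.sum_repr' (⟨H k, hwS k⟩ : S)
      have h2 := congrArg (fun x : S => (x : Cn n)) h1
      simp only [Submodule.coe_sum, Submodule.coe_smul] at h2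
      exact h2.symm
    have hom : ∀ a c, om (f a) (f c) = 0 := fun a c => pelR_span hH (b a).2 (b c).2
    have hcf : ∀ a c, (inner ℂ (f a) (f c) : ℂ) = inner ℂ (st n a) (st n c) := by
      intro a c
      rw [cinner_st n a c (by omega)]
      refine Complex.ext ?_ ?_
      · rw [← rinner_eq, orthonormal_iff_ite.1 hf]
        by_cases hac : a = c
        · subst hac
          simp
        · rw [if_neg hac, if_neg (fun h => hac (Fin.ext h))]
          simp
      · have h1 : (inner ℂ (f a) (f c) : ℂ).im = 0 := hom a c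
        rw [h1]
        split_ifs <;> simp
    obtain ⟨ψ, hψ⟩ := uni_of_gram (e := f) (f := fun a : Fin i => st n a) hcf
    have hfψ : f = fun a : Fin i => uni ψ (st n a) := funext hψ
    have hG : √(GG H) = |R.det| := by
      have h1 := dz_comb hwR 0
      rw [dz_zero, dz_zero, GG_orth hf, mul_one] at h1
      rw [h1, Real.sqrt_sq_eq_abs]
    rw [hG, gg_symm, gg_comb hwR, hfψ, gg_uni, gg_symm]
  · have h1 : GG H = 0 := pelR_dep hw H
    rw [h1, Real.sqrt_zero, zero_mul]
    unfold gg
    simp only [pelR_dep hw, abs_zero, integral_zero]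

/-! ### An orthonormal basis adapted to a vector -/

private theorem pelR_basis (x : EuclideanSpace ℝ (Fin (i + 1))) :
    ∃ b : OrthonormalBasis (Fin (i + 1)) ℝ (EuclideanSpace ℝ (Fin (i + 1))),
      ∀ l : Fin i, (inner ℝ x (b l.succ) : ℝ) = 0 := by
  classical
  let S : Submodule ℝ (EuclideanSpace ℝ (Fin (i + 1))) := Submodule.span ℝ {x}
  have hS : Module.finrank ℝ S ≤ 1 := by
    have := finrank_span_le_card (R := ℝ) ({x} : Set (EuclideanSpace ℝ (Fin (i + 1))))
    simpa [S] using this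
  have hd : i ≤ Module.finrank ℝ Sᗮ := by
    have h1 := Submodule.finrank_add_finrank_orthogonal S
    rw [finrank_euclideanSpace_fin] at h1
    omega
  have hx : x ∈ S := Submodule.subset_span rfl
  let g := stdOrthonormalBasis ℝ Sᗮ
  let v : Fin (i + 1) → EuclideanSpace ℝ (Fin (i + 1)) := fun a =>
    if h : 1 ≤ (a : ℕ) then ((g ⟨(a : ℕ) - 1, by omega⟩ : Sᗮ) : EuclideanSpace ℝ _) else 0
  have hva : ∀ (a : Fin (i + 1)) (h : 1 ≤ (a : ℕ)),
      v a = ((g ⟨(a : ℕ) - 1, by omega⟩ : Sᗮ) : EuclideanSpace ℝ _) := fun a h => dif_pos h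
  have hv : Orthonormal ℝ (Set.domRestrict {a : Fin (i + 1) | 1 ≤ (a : ℕ)} v) := by
    rw [orthonormal_iff_ite]
    rintro ⟨a, ha⟩ ⟨c, hc⟩
    have ha' : 1 ≤ (a : ℕ) := ha
    have hc' : 1 ≤ (c : ℕ) := hc
    have h1 := orthonormal_iff_ite.1 g.orthonormal ⟨(a : ℕ) - 1, by omega⟩ ⟨(c : ℕ) - 1, by omega⟩
    rw [Submodule.coe_inner] at h1
    change (inner ℝ (v a) (v c) : ℝ) = _
    rw [hva a ha', hva c hc', h1]
    by_cases hac : a = c
    · subst hac
      simp
    · rw [if_neg, if_neg]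
      · intro h
        exact hac (Subtype.mk.inj h)
      · intro h
        have := Fin.mk.inj h
        exact hac (Fin.ext (by omega))
  obtain ⟨b, hb⟩ := hv.exists_orthonormalBasis_extension_of_card_eq (by simp)
  refine ⟨b, fun l => ?_⟩
  have ha : 1 ≤ ((l.succ : Fin (i + 1)) : ℕ) := by simp
  rw [hb l.succ ha, hva l.succ ha]
  exact Submodule.inner_right_of_mem_orthogonal hx (Subtype.mem _)

/-! ### The determinant for fixed `φ` -/

private theorem pelR_st_lf (n j : ℕ) : st (n + 1) (j + 1) = lf (st n j) := by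
  ext i
  refine Fin.cases ?_ (fun i => ?_) i
  · rw [st_apply, lf_zero]
    simp
  · rw [st_apply, lf_succ, st_apply]
    simp

private theorem pelR_cinner_uni {n : ℕ} (φ : Un n) (u v : Cn n) :
    (inner ℂ (uni φ u) (uni φ v) : ℂ) = inner ℂ u v := by
  refine Complex.ext ?_ ?_
  · rw [← rinner_eq, ← rinner_eq, LinearIsometry.inner_map_map]
  · exact om_uni φ u v

private theorem pelR_csum {n m : ℕ} (s t : Fin m → ℝ) (hmn : m ≤ n) :
    (inner ℂ (∑ b, s b • st n b) (∑ c, t c • st n c) : ℂ) = ((∑ b, s b * t b : ℝ) : ℂ) := by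
  rw [sum_inner]
  push_cast
  refine Finset.sum_congr rfl fun b _ => ?_
  rw [inner_sum, Finset.sum_eq_single b]
  · rw [← Complex.coe_smul, ← Complex.coe_smul, inner_smul_left, inner_smul_right,
      cinner_st n b b (by omega), if_pos rfl, Complex.conj_ofReal, mul_one]
  · intro c _ hc
    have h : (b : ℕ) ≠ c := fun h => hc (Fin.ext h.symm)
    rw [← Complex.coe_smul, ← Complex.coe_smul, inner_smul_left, inner_smul_right,
      cinner_st n b c (by omega), if_neg h, mul_zero, mul_zero]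
  · intro h
    exact absurd (Finset.mem_univ _) h

/-- The last coordinates of a vector. -/
private def pelR_tl {n : ℕ} (u : Cn (n + 1)) : Cn n := WithLp.toLp 2 (fun j => u j.succ)

private theorem pelR_tl_apply {n : ℕ} (u : Cn (n + 1)) (j : Fin n) :
    pelR_tl u j = u j.succ := rfl

private theorem pelR_tl_rinner {n : ℕ} (z : Cn n) (u : Cn (n + 1)) :
    (inner ℝ (lf z) u : ℝ) = inner ℝ z (pelR_tl u) := by
  rw [rinner_eq, rinner_eq, cinner_eq, cinner_eq, Fin.sum_univ_succ]
  simp only [lf_zero, lf_succ, pelR_tl_apply]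
  simp

private theorem pelR_tl_cinner {n : ℕ} (u v : Cn (n + 1)) :
    (inner ℂ u v : ℂ) = v 0 * (starRingEnd ℂ) (u 0) + inner ℂ (pelR_tl u) (pelR_tl v) := by
  rw [cinner_eq, cinner_eq, Fin.sum_univ_succ]
  rfl

private theorem pelR_tl_om {n : ℕ} (u v : Cn (n + 1)) (hu : (u 0).re = 0) (hv : (v 0).re = 0)
    (h : om u v = 0) : om (pelR_tl u) (pelR_tl v) = 0 := by
  unfold om at h ⊢
  rw [pelR_tl_cinner, Complex.add_im, Complex.mul_im, Complex.conj_im, Complex.conj_re, hu, hv] at h
  linarith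

private theorem pelR_fix (h : i ≤ n) (φ : Un (n + 1)) :
    ∃ (H : Fin i → Cn n) (c : ℝ), IsoF H ∧
      ∀ (z : Fin i → Cn n) (X : Fin (i + 1) → Cn (n + 1)),
        X 0 = uni φ (st (n + 1) 0) → (∀ l : Fin i, X l.succ = uni φ (lf (z l))) →
        |DD X (fun b : Fin (i + 1) => st (n + 1) b)| = c * |DD z H| := by
  set x : EuclideanSpace ℝ (Fin (i + 1)) := WithLp.toLp 2 (fun b : Fin (i + 1) =>
    (inner ℝ (uni φ (st (n + 1) 0)) (st (n + 1) b) : ℝ)) with hx
  obtain ⟨O, hO⟩ := pelR_basis x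
  let w : Fin (i + 1) → Cn (n + 1) := fun a => ∑ b : Fin (i + 1), O a b • st (n + 1) b
  have hinn : ∀ u v : EuclideanSpace ℝ (Fin (i + 1)), (inner ℝ u v : ℝ) = ∑ b, u b * v b := by
    intro u v
    rw [PiLp.inner_apply]
    refine Finset.sum_congr rfl fun b _ => ?_
    simp [mul_comm]
  have hwx : ∀ a, (inner ℝ (uni φ (st (n + 1) 0)) (w a) : ℝ) = inner ℝ x (O a) := by
    intro a
    rw [hinn]
    simp only [w]
    rw [inner_sum]
    refine Finset.sum_congr rfl fun b _ => ?_
    rw [real_inner_smul_right, mul_comm]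
  have hOO : ∀ a c, ∑ b, O a b * O c b = if a = c then 1 else 0 := by
    intro a c
    rw [← hinn]
    exact orthonormal_iff_ite.1 O.orthonormal a c
  have hww : ∀ a c, om (w a) (w c) = 0 := by
    intro a c
    unfold om
    simp only [w]
    rw [pelR_csum _ _ (by omega), Complex.ofReal_im]
  have hre : ∀ k : Fin i, ((uni φ⁻¹ (w k.succ)) 0).re = 0 := by
    intro k
    have h1 : (inner ℂ (st (n + 1) 0) (uni φ⁻¹ (w k.succ)) : ℂ) = (uni φ⁻¹ (w k.succ)) 0 :=
      inner_st_left (n + 1) 0 _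
    rw [← h1, ← rinner_eq, ← LinearIsometry.inner_map_map (uni φ), uni_uni_inv, hwx]
    exact hO k
  refine ⟨fun k => pelR_tl (uni φ⁻¹ (w k.succ)), |(inner ℝ x (O 0) : ℝ)|, fun k l => ?_,
    fun z X hX0 hX1 => ?_⟩
  · refine pelR_tl_om _ _ (hre k) (hre l) ?_
    rw [om_uni]
    exact hww _ _
  · -- change of the frame
    let R : Matrix (Fin (i + 1)) (Fin (i + 1)) ℝ := Matrix.of fun a b => O a b
    have hR : R * R.transpose = 1 := by
      ext a c
      rw [Matrix.mul_apply, Matrix.one_apply]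
      simp only [R, Matrix.transpose_apply, Matrix.of_apply]
      exact hOO a c
    have hdet : |R.det| = 1 := by
      have h1 : R.det * R.det = 1 := by
        have h2 := congrArg Matrix.det hR
        rw [Matrix.det_mul, Matrix.det_transpose, Matrix.det_one] at h2
        exact h2
      have h3 : |R.det| * |R.det| = 1 := by rw [← abs_mul, h1, abs_one]
      nlinarith [abs_nonneg R.det]
    have h1 : DD X w = R.det * DD X (fun b : Fin (i + 1) => st (n + 1) b) := by
      rw [DD_comm X, DD_comm X]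
      exact DD_comb (fun a => rfl) X
    have h2 : |DD X (fun b : Fin (i + 1) => st (n + 1) b)| = |DD X w| := by
      rw [h1, abs_mul, hdet, one_mul]
    rw [h2]
    have h3 : DD X w = (inner ℝ x (O 0) : ℝ) *
        DD z (fun k => pelR_tl (uni φ⁻¹ (w k.succ))) := by
      unfold DD
      rw [Matrix.det_succ_row_zero, Finset.sum_eq_single 0]
      · simp only [Matrix.of_apply, Fin.val_zero, pow_zero, one_mul, Fin.succAbove_zero]
        rw [hX0, hwx]
        congr 2
        ext l k
        simp only [Matrix.of_apply, Matrix.submatrix_apply]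
        rw [hX1, ← pelR_tl_rinner, ← LinearIsometry.inner_map_map (uni φ) (lf (z l)), uni_uni_inv]
      · intro a _ ha
        obtain ⟨l, rfl⟩ := Fin.exists_succ_eq.2 ha
        simp only [Matrix.of_apply]
        rw [hX0, hwx, hO l]
        ring
      · intro h0
        exact absurd (Finset.mem_univ _) h0
    rw [h3, abs_mul]

private theorem pelR_cont {n m : ℕ} (E W : Fin m → Cn n) :
    Continuous (fun φ : Un n => |DD (fun a => uni φ (E a)) W|) := by
  refine Continuous.abs ?_
  have h1 : Continuous (fun φ : Un n => ((fun a => uni φ (E a), W) :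
      (Fin m → Cn n) × (Fin m → Cn n))) :=
    (continuous_pi fun a => continuous_uni (E a)).prodMk continuous_const
  have h2 := (continuous_DD (n := n) (i := m)).comp h1
  exact h2

/-- The inner integral. -/
private theorem pelR_inner (h : i ≤ n) (g : Un n → Un (n + 1))
    (hg : ∀ ψ, (∀ u : Cn n, uni (g ψ) (lf u) = lf (uni ψ u)) ∧
      uni (g ψ) (st (n + 1) 0) = st (n + 1) 0) (φ : Un (n + 1)) :
    ∃ C : ℝ, ∀ e : Fin i → Cn n, ∫ ψ,
      |DD (fun a => uni (φ * g ψ)
          ((Fin.cons (st (n + 1) 0) (fun a => lf (e a)) : Fin (i + 1) → Cn (n + 1)) a))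
        (fun a : Fin (i + 1) => st (n + 1) a)| ∂(haarU n) =
      C * gg e (fun a : Fin i => st n a) := by
  obtain ⟨H, c, hH, hfix⟩ := pelR_fix h φ
  refine ⟨c * √(GG H), fun e => ?_⟩
  have h3 : ∀ ψ : Un n,
      |DD (fun a => uni (φ * g ψ)
          ((Fin.cons (st (n + 1) 0) (fun a => lf (e a)) : Fin (i + 1) → Cn (n + 1)) a))
        (fun a : Fin (i + 1) => st (n + 1) a)| = c * |DD (fun l => uni ψ (e l)) H| := by
    intro ψ
    refine hfix (fun l => uni ψ (e l)) _ ?_ ?_
    · rw [uni_mul, Fin.cons_zero, (hg ψ).2]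
    · intro l
      rw [uni_mul, Fin.cons_succ, (hg ψ).1]
  simp only [h3]
  rw [integral_const_mul]
  change c * gg e H = _
  rw [gg_isoF h e H hH, mul_assoc]

theorem peel_real (n i : ℕ) (h : i ≤ n) : ∃ κ : ℝ, 0 < κ ∧ ∀ e : Fin i → Cn n,
    gg (Fin.cons (st (n + 1) 0) (fun a => lf (e a)) : Fin (i + 1) → Cn (n + 1))
      (fun a : Fin (i + 1) => st (n + 1) a) = κ * gg e (fun a : Fin i => st n a) := by
  obtain ⟨g, hc, hg⟩ := exists_embL n
  choose C hC using pelR_inner h g hg
  have hmain : ∀ e : Fin i → Cn n,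
      gg (Fin.cons (st (n + 1) 0) (fun a => lf (e a)) : Fin (i + 1) → Cn (n + 1))
        (fun a : Fin (i + 1) => st (n + 1) a) =
        (∫ φ, C φ ∂(haarU (n + 1))) * gg e (fun a : Fin i => st n a) := by
    intro e
    have h1 := int_embL (pelR_cont
      (Fin.cons (st (n + 1) 0) (fun a => lf (e a)) : Fin (i + 1) → Cn (n + 1))
      (fun a : Fin (i + 1) => st (n + 1) a)) hc
    change gg _ _ = _ at h1
    rw [h1, ← integral_mul_const]
    congr 1
    funext φ
    exact hC φ e
  refine ⟨∫ φ, C φ ∂(haarU (n + 1)), ?_, hmain⟩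
  have ho : ∀ m j : ℕ, j ≤ m → Orthonormal ℝ (fun a : Fin j => st m a) := by
    intro m j hj
    rw [orthonormal_iff_ite]
    intro a c
    rw [rinner_eq, cinner_st m a c (by omega)]
    by_cases hac : a = c
    · subst hac
      simp
    · rw [if_neg hac, if_neg (fun h => hac (Fin.ext h))]
      simp
  have h2 := gg_self_pos (ho n i h)
  have h3 := gg_self_pos (ho (n + 1) (i + 1) (by omega))
  have h4 : (Fin.cons (st (n + 1) 0) (fun a : Fin i => lf (st n a)) : Fin (i + 1) → Cn (n + 1)) =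
      fun a : Fin (i + 1) => st (n + 1) a := by
    funext a
    refine Fin.cases ?_ (fun l => ?_) a
    · simp
    · rw [Fin.cons_succ, Fin.val_succ, pelR_st_lf]
  have h5 := hmain (fun a : Fin i => st n a)
  rw [h4] at h5
  rw [h5] at h3
  exact pos_of_mul_pos_left h3 h2.le

end Pool.Agent.H35.ISO
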