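import Mathlib
import Pool.Agent.H35.ISO.PelR
import Pool.Agent.H35.ISO.PelC
import Pool.Agent.H89.CZ.TFin

set_option autoImplicit false

/-!
# AqS: `gg (ℂ^q ⊕ ℝ^(i-2q)) (ℝ^i)`, ratio of consecutive values

`a_q(n, i) = gg (vf n q) (st n ·)` (`vf n q` on `Fin i` is the frame of `ℂ^q ⊕ ℝ^(i-2q)`).
Claim `a_(q+1) / a_q = 2(n-i+q+1) / (2(n-i+q+1)+1)`.
(1) `vf (n+1) (q+1)` on `Fin (i+2)` is `(ε, I ε, lf (vf n q))` (as `gr_cf0`, `gr_cf1`, `gr_cf2` in
`H89/EN/GReal`); `peel_cplx` reduces `(n+1, i+2, q+1)` to `(n, i, q)` for `q ≥ 1`, same ratio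
(`n - i + q` is invariant).  So `q = 0` remains.
(2) `q = 0`, `i ≥ 3`: `peel_real`: for `k = 0, 1`, `gg (vf (n+1) k) st = κ gg (vf n k) st` on
`Fin (i+1)`, `i ≥ 2`: `k = 0`: `vf (n+1) 0 = (ε, lf (vf n 0))`.  `k = 1`: `(ε, lf (vf n 1))` is
`s_0, s_1, I s_1, s_2, …`; `vf (n+1) 1` is `s_0, I s_0, s_1, s_2, …`; after a permutation of the
vectors (`|det|` unchanged: `DD` with permuted rows, `Matrix.det_permute'`) both have the same
complex Gram matrix: `uni_of_gram`, `gg_uni`.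
(3) `i = 2`: `tasaki` (`H89/CZ/TFin`): `gg ![s_0, I s_0] ![s_0, s_1] = al n 1 = (2n-2)/(4n(n-1))`,
`gg ![s_0, s_1] ![s_0, s_1] = al n 0 = (2n-1)/(4n(n-1))` (`area s_0 s_1 = 1`, `om s_0 s_1 = 0`; `DD` for
`Fin 2` is `pair2`).
-/

open MeasureTheory Pool.Agent.H61.UProj Pool.Agent.H89.CZ Pool.Agent.H35.NI Pool.Agent.H89.EN

noncomputable section

namespace Pool.Agent.H35.ISO

/-! ### Frames -/

private theorem aq_st_lf (n k : ℕ) : st (n + 1) (k + 1) = lf (st n k) := by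
  ext j
  refine Fin.cases ?_ (fun i => ?_) j
  · rw [lf_zero, st_apply]
    simp
  · rw [lf_succ, st_apply, st_apply]
    simp

private theorem aq_vf0 (n k : ℕ) : vf (n + 1) (k + 1) 0 = st (n + 1) 0 := by
  unfold vf
  rw [if_pos (by omega)]
  simp

private theorem aq_vf1 (n k : ℕ) : vf (n + 1) (k + 1) 1 = Complex.I • st (n + 1) 0 := by
  unfold vf
  rw [if_pos (by omega)]
  simp

private theorem aq_vf2 (n k a : ℕ) : vf (n + 1) (k + 1) (a + 2) = lf (vf n k a) := by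
  unfold vf
  by_cases ha : a < 2 * k
  · rw [if_pos ha, if_pos (by omega)]
    have h2 : (a + 2) / 2 = a / 2 + 1 := by omega
    have h3 : (a + 2) % 2 = a % 2 := by omega
    rw [h2, h3, aq_st_lf]
    split_ifs
    · rfl
    · rw [lf_smul]
  · rw [if_neg ha, if_neg (by omega)]
    have h2 : k + 1 + (a + 2 - 2 * (k + 1)) = (k + (a - 2 * k)) + 1 := by omega
    rw [h2, aq_st_lf]

private theorem aq_vfr (n a : ℕ) : vf n 0 a = st n a := by
  unfold vf
  rw [if_neg (by omega)]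
  simp

private theorem aq_cplx (n i k : ℕ) :
    (fun a : Fin (i + 2) => vf (n + 1) (k + 1) a) =
      (Fin.cons (st (n + 1) 0) (Fin.cons (Complex.I • st (n + 1) 0)
        (fun a : Fin i => lf (vf n k a)) : Fin (i + 1) → Cn (n + 1)) :
        Fin (i + 2) → Cn (n + 1)) := by
  funext a
  refine Fin.cases ?_ (fun b => Fin.cases ?_ (fun c => ?_) b) a
  · exact aq_vf0 n k
  · exact aq_vf1 n k
  · rw [Fin.cons_succ, Fin.cons_succ]
    exact aq_vf2 n k c

private theorem aq_real (n i : ℕ) :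
    (fun a : Fin (i + 1) => vf (n + 1) 0 a) =
      (Fin.cons (st (n + 1) 0) (fun a : Fin i => lf (vf n 0 a)) : Fin (i + 1) → Cn (n + 1)) := by
  funext a
  refine Fin.cases ?_ (fun b => ?_) a
  · rw [Fin.cons_zero, aq_vfr]
    rfl
  · rw [Fin.cons_succ, aq_vfr, aq_vfr, ← aq_st_lf]
    rfl

private theorem aq_perm {n i : ℕ} (π : Equiv.Perm (Fin i)) (e w : Fin i → Cn n) :
    gg (fun a => e (π a)) w = gg e w := by
  unfold gg
  refine integral_congr_ae (Filter.Eventually.of_forall fun φ => ?_)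
  have h : DD (fun a => uni φ (e (π a))) w =
      ((Equiv.Perm.sign π : ℤ) : ℝ) * DD (fun a => uni φ (e a)) w := by
    unfold DD
    rw [← Matrix.det_permute π]
    rfl
  simp only []
  rw [h, abs_mul]
  rcases Int.units_eq_one_or (Equiv.Perm.sign π) with h1 | h1 <;> rw [h1] <;> simp

/-! ### The permuted frame -/

private def aq_c (a : ℕ) : ℂ := if a = 2 then Complex.I else 1

private def aq_d1 (a : ℕ) : ℕ := if a = 0 then 0 else if a ≤ 2 then 1 else a - 1

private def aq_d2 (a : ℕ) : ℕ := if a = 0 then 1 else if a ≤ 2 then 0 else a - 1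

private theorem aq_e1 (n i : ℕ) (a : Fin (i + 1)) :
    (Fin.cons (st (n + 1) 0) (fun a : Fin i => lf (vf n 1 a)) : Fin (i + 1) → Cn (n + 1)) a =
      aq_c a • st (n + 1) (aq_d1 a) := by
  refine Fin.cases ?_ (fun b => ?_) a
  · rw [Fin.cons_zero]
    simp [aq_c, aq_d1]
  · rw [Fin.cons_succ, Fin.val_succ]
    obtain ⟨b, hb⟩ := b
    simp only []
    match b, hb with
    | 0, _ =>
      unfold vf aq_c aq_d1
      simp [← aq_st_lf]
    | 1, _ =>
      unfold vf aq_c aq_d1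
      simp [lf_smul, ← aq_st_lf]
    | b + 2, _ =>
      unfold vf aq_c aq_d1
      rw [if_neg (by omega), if_neg (by omega), if_neg (by omega), if_neg (by omega), one_smul,
        ← aq_st_lf]
      congr 1
      omega

private theorem aq_e2 (n a : ℕ) : vf (n + 1) 1 a =
    (if a = 1 then Complex.I else 1) • st (n + 1) (if a = 0 then 0 else a - 1) := by
  match a with
  | 0 => simp [aq_vf0 n 0]
  | 1 => simp [aq_vf1 n 0]
  | a + 2 =>
    unfold vf
    rw [if_neg (by omega), if_neg (by omega), if_neg (by omega), one_smul]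
    congr 1
    omega

private theorem aq_swap (i : ℕ) (hi : 2 ≤ i) : ∃ π : Equiv.Perm (Fin (i + 1)), ∀ a,
    ((π a : Fin (i + 1)) : ℕ) =
      (if (a : ℕ) = 0 then (2 : ℕ) else if (a : ℕ) = 1 then (0 : ℕ) else
        if (a : ℕ) = 2 then (1 : ℕ) else (a : ℕ) : ℕ) := by
  let x0 : Fin (i + 1) := ⟨0, by omega⟩
  let x1 : Fin (i + 1) := ⟨1, by omega⟩
  let x2 : Fin (i + 1) := ⟨2, by omega⟩
  have h01 : x0 ≠ x1 := by simp [x0, x1]
  have h02 : x0 ≠ x2 := by simp [x0, x2]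
  have h12 : x1 ≠ x2 := by simp [x1, x2]
  refine ⟨(Equiv.swap x0 x2).trans (Equiv.swap x0 x1), fun a => ?_⟩
  rw [Equiv.trans_apply]
  by_cases h0 : a = x0
  · rw [h0, Equiv.swap_apply_left, Equiv.swap_apply_of_ne_of_ne h02.symm h12.symm]
    simp [x0, x2]
  by_cases h1 : a = x1
  · rw [h1, Equiv.swap_apply_of_ne_of_ne h01.symm h12, Equiv.swap_apply_right]
    simp [x0, x1]
  by_cases h2 : a = x2
  · rw [h2, Equiv.swap_apply_right, Equiv.swap_apply_left]
    simp [x1, x2]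
  · rw [Equiv.swap_apply_of_ne_of_ne h0 h2, Equiv.swap_apply_of_ne_of_ne h0 h1]
    rw [if_neg fun h => h0 (Fin.ext h), if_neg fun h => h1 (Fin.ext h),
      if_neg fun h => h2 (Fin.ext h)]

private theorem aq_mix (n i : ℕ) (hi : 2 ≤ i) (hin : i ≤ n) (w : Fin (i + 1) → Cn (n + 1)) :
    gg (fun a : Fin (i + 1) => vf (n + 1) 1 a) w =
      gg (Fin.cons (st (n + 1) 0) (fun a : Fin i => lf (vf n 1 a)) :
        Fin (i + 1) → Cn (n + 1)) w := by
  obtain ⟨π, hπ⟩ := aq_swap i hi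
  have hπ2 : ∀ a : Fin (i + 1), vf (n + 1) 1 (π a : Fin (i + 1)) =
      aq_c a • st (n + 1) (aq_d2 a) := by
    intro a
    rw [aq_e2, hπ a]
    unfold aq_c aq_d2
    by_cases h0 : (a : ℕ) = 0
    · simp [h0]
    by_cases h1 : (a : ℕ) = 1
    · simp [h1]
    by_cases h2 : (a : ℕ) = 2
    · simp [h2]
    · have h3 : ¬ (a : ℕ) ≤ 2 := by omega
      simp only [h0, h1, h2, h3, if_false]
  have hd1 : ∀ a : Fin (i + 1), aq_d1 a < n + 1 := by
    intro a
    have := a.2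
    unfold aq_d1
    split_ifs <;> omega
  have hd2 : ∀ a : Fin (i + 1), aq_d2 a < n + 1 := by
    intro a
    have := a.2
    unfold aq_d2
    split_ifs <;> omega
  have hdd : ∀ a b : Fin (i + 1), aq_d1 a = aq_d1 b ↔ aq_d2 a = aq_d2 b := by
    intro a b
    unfold aq_d1 aq_d2
    constructor <;> intro h <;> split_ifs at h ⊢ <;> omega
  have hgram : ∀ a b : Fin (i + 1),
      (inner ℂ ((Fin.cons (st (n + 1) 0) (fun a : Fin i => lf (vf n 1 a)) :
        Fin (i + 1) → Cn (n + 1)) a)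
        ((Fin.cons (st (n + 1) 0) (fun a : Fin i => lf (vf n 1 a)) :
        Fin (i + 1) → Cn (n + 1)) b) : ℂ) =
      inner ℂ ((fun a : Fin (i + 1) => vf (n + 1) 1 (π a : Fin (i + 1))) a)
        ((fun a : Fin (i + 1) => vf (n + 1) 1 (π a : Fin (i + 1))) b) := by
    intro a b
    simp only []
    rw [aq_e1, aq_e1, hπ2, hπ2, inner_smul_left, inner_smul_right, inner_smul_left,
      inner_smul_right, cinner_st _ _ _ (hd1 a), cinner_st _ _ _ (hd2 a)]
    by_cases h : aq_d1 a = aq_d1 b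
    · rw [if_pos h, if_pos ((hdd a b).1 h)]
    · rw [if_neg h, if_neg fun h' => h ((hdd a b).2 h')]
  obtain ⟨ψ, hψ⟩ := uni_of_gram hgram
  have e1 : (Fin.cons (st (n + 1) 0) (fun a : Fin i => lf (vf n 1 a)) :
        Fin (i + 1) → Cn (n + 1)) =
      fun a => uni ψ ((fun a : Fin (i + 1) => vf (n + 1) 1 (π a : Fin (i + 1))) a) :=
    funext hψ
  rw [e1, gg_uni]
  exact (aq_perm π (fun a : Fin (i + 1) => vf (n + 1) 1 a) w).symm

/-! ### Planes -/

private theorem aq_plane {n : ℕ} (hn : 2 ≤ n) (e : Fin 2 → Cn n) (he : Orthonormal ℝ e) :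
    gg e (fun a : Fin 2 => st n a) = al n (om (e 0) (e 1) ^ 2) := by
  have h1 := tasaki hn he (st n 0) (st n 1)
  have h01 : (inner ℂ (st n 0) (st n 1) : ℂ) = 0 := by
    rw [cinner_st _ _ _ (by omega), if_neg (by omega)]
  have hn0 : ∀ j, j < n → ‖st n j‖ ^ 2 = 1 := by
    intro j hj
    rw [← real_inner_self_eq_norm_sq, rinner_eq, cinner_st _ _ _ hj, if_pos rfl]
    rfl
  have ha : area (st n 0) (st n 1) = 1 := by
    unfold area
    rw [hn0 0 (by omega), hn0 1 (by omega), rinner_eq, h01]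
    simp
  have ho : om (st n 0) (st n 1) = 0 := by
    unfold om
    rw [h01]
    rfl
  rw [ha, ho] at h1
  rw [show al n (om (e 0) (e 1) ^ 2) * 1 + be n (om (e 0) (e 1) ^ 2) * 0 ^ 2 / 1 =
    al n (om (e 0) (e 1) ^ 2) by ring] at h1
  rw [← h1]
  unfold gg
  refine integral_congr_ae (Filter.Eventually.of_forall fun φ => ?_)
  simp only []
  congr 1
  unfold DD pair2
  rw [Matrix.det_fin_two]
  rfl

private theorem aq_norm {n j : ℕ} (hj : j < n) : ‖st n j‖ = 1 := by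
  have h : ‖st n j‖ ^ 2 = 1 := by
    rw [← real_inner_self_eq_norm_sq, rinner_eq, cinner_st _ _ _ hj, if_pos rfl]
    rfl
  exact (pow_eq_one_iff_of_nonneg (norm_nonneg _) two_ne_zero).1 h

private theorem aq_orth {n : ℕ} (hn : 2 ≤ n) (k : ℕ) (hk : k ≤ 1) :
    Orthonormal ℝ (fun a : Fin 2 => vf n k a) := by
  rw [orthonormal_iff_ite]
  have h00 := aq_norm (n := n) (j := 0) (by omega)
  have h11 := aq_norm (n := n) (j := 1) (by omega)
  have h01 : (inner ℂ (st n 0) (st n 1) : ℂ) = 0 := by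
    rw [cinner_st _ _ _ (by omega), if_neg (by omega)]
  have h10 : (inner ℂ (st n 1) (st n 0) : ℂ) = 0 := by
    rw [cinner_st _ _ _ (by omega), if_neg (by omega)]
  intro a b
  rw [rinner_eq]
  interval_cases k
  · fin_cases a <;> fin_cases b <;> simp [vf, h00, h11, h01, h10]
  · fin_cases a <;> fin_cases b <;> simp [vf, h00, norm_smul]

private theorem aq_two {n : ℕ} (hn : 2 ≤ n) :
    (2 * ((n : ℝ) - 1) + 1) *
        gg (fun a : Fin 2 => vf n 1 a) (fun a : Fin 2 => st n a) =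
      2 * ((n : ℝ) - 1) *
        gg (fun a : Fin 2 => vf n 0 a) (fun a : Fin 2 => st n a) := by
  rw [aq_plane hn _ (aq_orth hn 1 le_rfl), aq_plane hn _ (aq_orth hn 0 (by omega))]
  have h1 : om (vf n 1 ((0 : Fin 2) : ℕ)) (vf n 1 ((1 : Fin 2) : ℕ)) = 1 := by
    have h00 := aq_norm (n := n) (j := 0) (by omega)
    unfold om
    simp [vf, h00]
  have h0 : om (vf n 0 ((0 : Fin 2) : ℕ)) (vf n 0 ((1 : Fin 2) : ℕ)) = 0 := by
    have h01 : (inner ℂ (st n 0) (st n 1) : ℂ) = 0 := by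
      rw [cinner_st _ _ _ (by omega), if_neg (by omega)]
    unfold om
    simp [vf, h01]
  rw [h1, h0]
  unfold al
  ring

theorem aq_step {n i q : ℕ} (hi : i ≤ n) (hq : 2 * (q + 1) ≤ i) :
    (2 * ((n : ℝ) - i + q + 1) + 1) *
        gg (fun a : Fin i => vf n (q + 1) a) (fun a : Fin i => st n a) =
      2 * ((n : ℝ) - i + q + 1) *
        gg (fun a : Fin i => vf n q a) (fun a : Fin i => st n a) := by
  induction q generalizing n i with
  | zero =>
    obtain ⟨m, rfl⟩ : ∃ m, i = m + 2 := ⟨i - 2, by omega⟩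
    clear hq
    induction m generalizing n with
    | zero =>
      have h := aq_two (n := n) hi
      have e1 : (n : ℝ) - ((0 + 2 : ℕ) : ℝ) + ((0 : ℕ) : ℝ) + 1 = n - 1 := by
        push_cast
        ring
      rw [e1]
      exact h
    | succ m ih =>
      obtain ⟨n, rfl⟩ : ∃ n', n = n' + 1 := ⟨n - 1, by omega⟩
      have hi' : m + 2 ≤ n := by omega
      have h := ih hi'
      obtain ⟨κ, -, hκ⟩ := peel_real n (m + 2) hi'
      have e0 := hκ (fun a => vf n 0 a)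
      have e1 := hκ (fun a => vf n 1 a)
      rw [← aq_real] at e0
      rw [← aq_mix n (m + 2) (by omega) hi'] at e1
      have e2 : ((n + 1 : ℕ) : ℝ) - ((m + 1 + 2 : ℕ) : ℝ) + ((0 : ℕ) : ℝ) + 1 =
          (n : ℝ) - ((m + 2 : ℕ) : ℝ) + ((0 : ℕ) : ℝ) + 1 := by
        push_cast
        ring
      rw [e2]
      change (2 * ((n : ℝ) - ((m + 2 : ℕ) : ℝ) + ((0 : ℕ) : ℝ) + 1) + 1) *
        gg (fun a : Fin (m + 2 + 1) => vf (n + 1) 1 a) (fun a : Fin (m + 2 + 1) => st (n + 1) a) =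
        2 * ((n : ℝ) - ((m + 2 : ℕ) : ℝ) + ((0 : ℕ) : ℝ) + 1) *
        gg (fun a : Fin (m + 2 + 1) => vf (n + 1) 0 a) (fun a : Fin (m + 2 + 1) => st (n + 1) a)
      rw [e0, e1]
      have h' : (2 * ((n : ℝ) - ((m + 2 : ℕ) : ℝ) + ((0 : ℕ) : ℝ) + 1) + 1) *
        gg (fun a : Fin (m + 2) => vf n 1 a) (fun a : Fin (m + 2) => st n a) =
        2 * ((n : ℝ) - ((m + 2 : ℕ) : ℝ) + ((0 : ℕ) : ℝ) + 1) *
        gg (fun a : Fin (m + 2) => vf n 0 a) (fun a : Fin (m + 2) => st n a) := h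
      linear_combination κ * h'
  | succ q ih =>
    obtain ⟨m, rfl⟩ : ∃ m, i = m + 2 := ⟨i - 2, by omega⟩
    obtain ⟨n, rfl⟩ : ∃ n', n = n' + 1 := ⟨n - 1, by omega⟩
    have h := ih (n := n) (i := m) (by omega) (by omega)
    obtain ⟨κ, -, hκ⟩ := peel_cplx n m (by omega)
    have e0 := hκ (fun a => vf n q a)
    have e1 := hκ (fun a => vf n (q + 1) a)
    rw [← aq_cplx] at e0 e1
    rw [e0, e1]
    have e2 : ((n + 1 : ℕ) : ℝ) - ((m + 2 : ℕ) : ℝ) + ((q + 1 : ℕ) : ℝ) + 1 =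
        (n : ℝ) - m + q + 1 := by
      push_cast
      ring
    rw [e2]
    linear_combination κ * h

end Pool.Agent.H35.ISO
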