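import Mathlib

set_option autoImplicit false

/-!
# Mul: multinomial sums with linear factors

`multi_two` from differentiating `(∑ e^(s α_m + r β_m) g_m)^(N+2) = ∑ multinomial e^(s α·n + r β·n) g^n`
twice at `0` (`Finset.sum_pow_eq_sum_piAntidiag`), or algebraically: the derivation
`D_α = ∑ α_m g_m ∂_m` of `MvPolynomial`: `D_α (∑ g)^N = N (∑ α g)(∑ g)^(N-1)`, `D_α g^n = (α·n) g^n`; then
`D_β D_α`; or by induction from the one-factor version.
-/

namespace Pool.Agent.H35.ISO

open Finset in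
private lemma Mul_prod_exp {μ : Type*} [Fintype μ] (g β : μ → ℂ) (n : μ → ℕ) (t : ℂ) :
    ∏ m, (g m * Complex.exp (t * β m)) ^ n m =
      (∏ m, g m ^ n m) * Complex.exp (t * ∑ m, β m * n m) := by
  have h1 : ∀ m, (g m * Complex.exp (t * β m)) ^ n m =
      g m ^ n m * Complex.exp (t * (β m * n m)) := by
    intro m
    rw [mul_pow, ← Complex.exp_nat_mul]
    congr 2
    ring
  rw [prod_congr rfl fun m _ => h1 m, prod_mul_distrib, ← Complex.exp_sum, ← mul_sum]

private lemma Mul_deriv {ι : Type*} (s : Finset ι) (c a : ι → ℂ) :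
    HasDerivAt (fun t : ℂ => ∑ i ∈ s, c i * Complex.exp (t * a i)) (∑ i ∈ s, c i * a i) 0 := by
  refine HasDerivAt.fun_sum fun i _ => ?_
  have h1 : HasDerivAt (fun t : ℂ => t * a i) (a i) 0 := by
    simpa using (hasDerivAt_id (0 : ℂ)).mul_const (a i)
  have h2 := (h1.cexp).const_mul (c i)
  simpa using h2

private lemma Mul_one {μ : Type*} [Fintype μ] [DecidableEq μ] (g α : μ → ℂ) (M : ℕ) :
    (M : ℂ) * (∑ m, α m * g m) * (∑ m, g m) ^ (M - 1) =
      ∑ n ∈ (Finset.univ : Finset μ).piAntidiag M,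
        (Nat.multinomial Finset.univ n : ℂ) * (∑ m, α m * n m) * ∏ m, g m ^ n m := by
  have h1 := (Mul_deriv Finset.univ g α).fun_pow M
  have h2 := Mul_deriv ((Finset.univ : Finset μ).piAntidiag M)
    (fun n => (Nat.multinomial Finset.univ n : ℂ) * ∏ m, g m ^ n m) (fun n => ∑ m, α m * n m)
  have h3 : (fun t : ℂ => (∑ i, g i * Complex.exp (t * α i)) ^ M) =
      fun t : ℂ => ∑ n ∈ (Finset.univ : Finset μ).piAntidiag M,
        (Nat.multinomial Finset.univ n : ℂ) * (∏ m, g m ^ n m) *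
          Complex.exp (t * ∑ m, α m * n m) := by
    funext t
    rw [Finset.sum_pow_eq_sum_piAntidiag]
    refine Finset.sum_congr rfl fun n _ => ?_
    rw [Mul_prod_exp, mul_assoc]
  rw [h3] at h1
  have h4 := h1.unique h2
  simp only [zero_mul, Complex.exp_zero, mul_one] at h4
  rw [show (∑ m, α m * g m) = ∑ m, g m * α m from Finset.sum_congr rfl fun m _ => mul_comm _ _]
  calc (M : ℂ) * (∑ m, g m * α m) * (∑ m, g m) ^ (M - 1)
      = (M : ℂ) * (∑ m, g m) ^ (M - 1) * (∑ m, g m * α m) := by ring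
    _ = _ := by
      rw [h4]
      exact Finset.sum_congr rfl fun n _ => by ring

theorem multi_two {μ : Type*} [Fintype μ] [DecidableEq μ] (g α β : μ → ℂ) (N : ℕ) :
    ((N : ℂ) + 2) * (N + 1) * ((∑ m, α m * g m) * (∑ m, β m * g m)) * (∑ m, g m) ^ N =
      ∑ n ∈ (Finset.univ : Finset μ).piAntidiag (N + 2),
        (Nat.multinomial Finset.univ n : ℂ) *
          ((∑ m, α m * n m) * (∑ m, β m * n m) - ∑ m, α m * β m * n m) * ∏ m, g m ^ n m := by
  have h0 := Mul_one g (fun m => α m * β m) (N + 2)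
  have h1 := (Mul_deriv Finset.univ (fun m => α m * g m) β).fun_mul
    ((Mul_deriv Finset.univ g β).fun_pow (N + 1))
  have h1' := h1.const_mul ((N + 2 : ℕ) : ℂ)
  have h2 := Mul_deriv ((Finset.univ : Finset μ).piAntidiag (N + 2))
    (fun n => (Nat.multinomial Finset.univ n : ℂ) * (∑ m, α m * n m) * ∏ m, g m ^ n m)
    (fun n => ∑ m, β m * n m)
  have h3 : (fun t : ℂ => ((N + 2 : ℕ) : ℂ) * ((∑ i, α i * g i * Complex.exp (t * β i)) *
      (∑ i, g i * Complex.exp (t * β i)) ^ (N + 1))) =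
      fun t : ℂ => ∑ n ∈ (Finset.univ : Finset μ).piAntidiag (N + 2),
        (Nat.multinomial Finset.univ n : ℂ) * (∑ m, α m * n m) * (∏ m, g m ^ n m) *
          Complex.exp (t * ∑ m, β m * n m) := by
    funext t
    have h5 := Mul_one (fun m => g m * Complex.exp (t * β m)) α (N + 2)
    have h6 : (∑ i, α i * g i * Complex.exp (t * β i)) =
        ∑ i, α i * (g i * Complex.exp (t * β i)) :=
      Finset.sum_congr rfl fun i _ => mul_assoc _ _ _
    rw [h6, ← mul_assoc]
    refine Eq.trans h5 (Finset.sum_congr rfl fun n _ => ?_)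
    rw [Mul_prod_exp]
    ring
  rw [h3] at h1'
  have h4 := h1'.unique h2
  simp only [zero_mul, Complex.exp_zero, mul_one] at h4
  have h7 : ∀ n ∈ (Finset.univ : Finset μ).piAntidiag (N + 2),
      (Nat.multinomial Finset.univ n : ℂ) *
          ((∑ m, α m * n m) * (∑ m, β m * n m) - ∑ m, α m * β m * n m) * ∏ m, g m ^ n m =
      (Nat.multinomial Finset.univ n : ℂ) * (∑ m, α m * n m) * (∏ m, g m ^ n m) *
        (∑ m, β m * n m) - (Nat.multinomial Finset.univ n : ℂ) * (∑ m, α m * β m * n m) *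
        ∏ m, g m ^ n m := fun n _ => by ring
  rw [Finset.sum_congr rfl h7, Finset.sum_sub_distrib, ← h4, ← h0]
  have h8 : (∑ m, α m * β m * g m) = ∑ m, α m * g m * β m :=
    Finset.sum_congr rfl fun m _ => by ring
  have h9 : (∑ m, β m * g m) = ∑ m, g m * β m := Finset.sum_congr rfl fun m _ => by ring
  rw [h8, h9, show N + 2 - 1 = N + 1 from rfl, show N + 1 - 1 = N from rfl]
  push_cast
  ring

end Pool.Agent.H35.ISO
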