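import Mathlib
import Pool.Agent.H35.ISO.Defs
import Pool.Agent.H35.ISO.Mul

set_option autoImplicit false

/-!
# Exp: the truncated kernel in modes

`h_k = a_k conj b_k`, `t = ∑_μ g_μ`, `g_(k,+) = h_k/2`, `g_(k,-) = conj h_k / 2`,
`∏ g^n = 2^(-|n|) mo a n conj (mo b n)`.  With `α_(k,±) = Λ_k (1 ± x c_k)`, `β_(k,±) = Λ_k (1 ∓ x c_k)`:
`S = ∑ α g = ∑ Λ_k (Re h_k + i x c_k Im h_k)`, `∑ β g = conj S`, `α·n = S_n + x ∑ c_k Λ_k e_k`,
`β·n = S_n - x ∑ c_k Λ_k e_k`, `∑ α β n = ∑ Λ_k² (1 - x² c_k²) N_k = S_n`: `multi_two` gives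
`(N+2)(N+1) |S|² t^N = ∑_{|n| = N+2} mm n (CC c n x) mo a n conj (mo b n)` (`absS`), and
`σ σ' t^N = ∑_{|n| = N} mm n (∑_k Λ_k mo a (up n k)) conj (∑_k Λ_k mo b (up n k))` (`sigS`;
`|a_k|² mo a n = mo a (up n k)`).  Sum over `j, k` with `λ_j λ_k`, take real parts.
`qq = σσ' - |S|²`.
-/

open MeasureTheory Pool.Agent.H89.CZ
open scoped ComplexConjugate

noncomputable section

namespace Pool.Agent.H35.ISO

variable {B : ℕ}

private def gm (a b : Fin B → ℂ) (μ : Fin B × Bool) : ℂ :=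
  if μ.2 then a μ.1 * conj (b μ.1) / 2 else conj (a μ.1 * conj (b μ.1)) / 2

private theorem re_half (z : ℂ) : z / 2 + conj z / 2 = (z.re : ℂ) := by
  rw [← add_div, Complex.add_conj]
  push_cast
  ring

private theorem im_half (z : ℂ) : z / 2 - conj z / 2 = Complex.I * (z.im : ℂ) := by
  rw [← sub_div, Complex.sub_conj]
  push_cast
  ring

private theorem prod_gm (a b : Fin B → ℂ) (n : Md B) :
    ∏ μ, gm a b μ ^ n μ = 1 / 2 ^ (∑ μ, n μ) * (mo a n * conj (mo b n)) := by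
  unfold mo
  rw [map_prod, ← Finset.prod_mul_distrib, ← Finset.prod_pow_eq_pow_sum Finset.univ n (2 : ℂ),
    one_div, ← Finset.prod_inv_distrib, Fintype.prod_prod_type, Fintype.prod_prod_type,
    ← Finset.prod_mul_distrib]
  apply Finset.prod_congr rfl
  intro k _
  rw [Fintype.prod_bool, Fintype.prod_bool]
  unfold gm
  simp only [if_true, Bool.false_eq_true, if_false, map_mul, map_pow, Complex.conj_conj, div_pow,
    mul_pow]
  field_simp

private theorem sum_gm (a b : Fin B → ℂ) : ∑ μ, gm a b μ = (tt a b : ℂ) := by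
  unfold tt
  rw [Fintype.sum_prod_type, Complex.ofReal_sum]
  apply Finset.sum_congr rfl
  intro k _
  rw [Fintype.sum_bool]
  unfold gm
  simp only [if_true, Bool.false_eq_true, if_false]
  exact re_half _

private def al (c : Fin B → ℝ) (x s : ℝ) (μ : Fin B × Bool) : ℂ :=
  if μ.2 then (La c x μ.1 : ℂ) * (1 + s * (x * c μ.1 : ℝ)) else
    (La c x μ.1 : ℂ) * (1 - s * (x * c μ.1 : ℝ))

private theorem sum_al_g (c : Fin B → ℝ) (x s : ℝ) (a b : Fin B → ℂ) :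
    ∑ μ, al c x s μ * gm a b μ =
      ((∑ k, La c x k * (a k * conj (b k)).re : ℝ) : ℂ) +
        s * Complex.I * ((x * ∑ k, c k * La c x k * (a k * conj (b k)).im : ℝ) : ℂ) := by
  rw [Fintype.sum_prod_type]
  push_cast
  rw [Finset.mul_sum, Finset.mul_sum, ← Finset.sum_add_distrib]
  apply Finset.sum_congr rfl
  intro k _
  rw [Fintype.sum_bool]
  unfold al gm
  simp only [if_true, Bool.false_eq_true, if_false]
  have h1 := re_half (a k * conj (b k))
  have h2 := im_half (a k * conj (b k))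
  push_cast
  linear_combination (La c x k : ℂ) * h1 + (La c x k : ℂ) * (s * (x * c k)) * h2

private theorem sum_al_n (c : Fin B → ℝ) (x s : ℝ) (n : Md B) :
    ∑ μ, al c x s μ * n μ =
      ((SS c (nk n) x + s * (x * ∑ k, ek n k * c k * La c x k) : ℝ) : ℂ) := by
  rw [Fintype.sum_prod_type]
  unfold SS nk ek
  push_cast
  rw [Finset.mul_sum, Finset.mul_sum, ← Finset.sum_add_distrib]
  apply Finset.sum_congr rfl
  intro k _
  rw [Fintype.sum_bool]
  unfold al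
  simp only [if_true, Bool.false_eq_true, if_false]
  push_cast
  ring

private theorem sum_al_al (c : Fin B → ℝ) {x : ℝ} (hx : ∀ k, x ^ 2 * c k ^ 2 < 1) (n : Md B) :
    ∑ μ, al c x 1 μ * al c x (-1) μ * n μ = ((SS c (nk n) x : ℝ) : ℂ) := by
  rw [Fintype.sum_prod_type]
  unfold SS nk
  push_cast
  apply Finset.sum_congr rfl
  intro k _
  rw [Fintype.sum_bool]
  unfold al
  simp only [if_true, Bool.false_eq_true, if_false]
  have h1 : La c x k * (1 - x ^ 2 * c k ^ 2) = 1 := by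
    unfold La
    have : 1 - x ^ 2 * c k ^ 2 ≠ 0 := by have := hx k; linarith
    field_simp
  have h2 : (La c x k : ℂ) * (1 - (x : ℂ) ^ 2 * (c k : ℂ) ^ 2) = 1 := by exact_mod_cast h1
  push_cast
  linear_combination (La c x k : ℂ) * ((n (k, true) : ℂ) + n (k, false)) * h2

/-- `|S|²` -/
private def S2 (c : Fin B → ℝ) (a b : Fin B → ℂ) (x : ℝ) : ℝ :=
  (∑ k, La c x k * (a k * conj (b k)).re) ^ 2 +
    x ^ 2 * (∑ k, c k * La c x k * (a k * conj (b k)).im) ^ 2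

private theorem absS (c : Fin B → ℝ) {x : ℝ} (hx : ∀ k, x ^ 2 * c k ^ 2 < 1) (a b : Fin B → ℂ)
    (N : ℕ) :
    ((N : ℂ) + 2) * (N + 1) * ((S2 c a b x : ℂ) * (tt a b : ℂ) ^ N) =
      ∑ n ∈ lev B (N + 2), ((mm n * CC c n x : ℝ) : ℂ) * (mo a n * conj (mo b n)) := by
  have h := multi_two (gm a b) (al c x 1) (al c x (-1)) N
  rw [sum_gm, sum_al_g, sum_al_g] at h
  have h1 : (((∑ k, La c x k * (a k * conj (b k)).re : ℝ) : ℂ) +
      ((1 : ℝ) : ℂ) * Complex.I * ((x * ∑ k, c k * La c x k * (a k * conj (b k)).im : ℝ) : ℂ)) *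
      (((∑ k, La c x k * (a k * conj (b k)).re : ℝ) : ℂ) +
      ((-1 : ℝ) : ℂ) * Complex.I * ((x * ∑ k, c k * La c x k * (a k * conj (b k)).im : ℝ) : ℂ)) =
      (S2 c a b x : ℂ) := by
    unfold S2
    push_cast
    linear_combination (-((x : ℂ) * ∑ k, (c k : ℂ) * (La c x k : ℂ) *
      (((a k * conj (b k)).im : ℝ) : ℂ)) ^ 2) * Complex.I_sq
  rw [h1] at h
  rw [← mul_assoc, h]
  unfold lev
  apply Finset.sum_congr rfl
  intro n _
  rw [sum_al_n, sum_al_n, sum_al_al c hx, prod_gm]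
  unfold mm CC
  push_cast
  ring

private theorem powS (a b : Fin B → ℂ) (N : ℕ) :
    (tt a b : ℂ) ^ N = ∑ n ∈ lev B N, (mm n : ℂ) * (mo a n * conj (mo b n)) := by
  rw [← sum_gm, Finset.sum_pow_eq_sum_piAntidiag]
  unfold lev
  apply Finset.sum_congr rfl
  intro n _
  rw [prod_gm]
  unfold mm
  push_cast
  ring

private theorem mo_up (a : Fin B → ℂ) (n : Md B) (k : Fin B) :
    mo a (up n k) = ((‖a k‖ ^ 2 : ℝ) : ℂ) * mo a n := by
  have h1 : ((‖a k‖ ^ 2 : ℝ) : ℂ) = ∏ l, (a l * conj (a l)) ^ (if l = k then 1 else 0) := by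
    simp only [pow_ite, pow_one, pow_zero]
    rw [Finset.prod_ite_eq' Finset.univ k, if_pos (Finset.mem_univ k), Complex.mul_conj,
      Complex.normSq_eq_norm_sq]
  rw [h1]
  unfold mo
  rw [← Finset.prod_mul_distrib]
  apply Finset.prod_congr rfl
  intro l _
  unfold up
  simp only
  rw [pow_add, pow_add, mul_pow]
  ring

private theorem sigS (c : Fin B → ℝ) (x : ℝ) (a b : Fin B → ℂ) (N : ℕ) :
    (((∑ k, La c x k * ‖a k‖ ^ 2) * (∑ k, La c x k * ‖b k‖ ^ 2) : ℝ) : ℂ) * (tt a b : ℂ) ^ N =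
      ∑ n ∈ lev B N, (mm n : ℂ) * ((∑ k, (La c x k : ℂ) * mo a (up n k)) *
        conj (∑ k, (La c x k : ℂ) * mo b (up n k))) := by
  rw [powS, Finset.mul_sum]
  apply Finset.sum_congr rfl
  intro n _
  have h : ∀ a : Fin B → ℂ, ∑ k, (La c x k : ℂ) * mo a (up n k) =
      ((∑ k, La c x k * ‖a k‖ ^ 2 : ℝ) : ℂ) * mo a n := by
    intro a
    push_cast
    rw [Finset.sum_mul]
    apply Finset.sum_congr rfl
    intro k _
    rw [mo_up]
    push_cast
    ring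
  rw [h, h, map_mul, Complex.conj_ofReal]
  push_cast
  ring

private theorem sum_sq {ι : Type*} [Fintype ι] (lam : ι → ℝ) (f : ι → ℂ) :
    ∑ j, ∑ k, ((lam j * lam k : ℝ) : ℂ) * (f j * conj (f k)) =
      ((‖∑ j, (lam j : ℂ) * f j‖ ^ 2 : ℝ) : ℂ) := by
  rw [← Complex.normSq_eq_norm_sq, ← Complex.mul_conj, map_sum, Finset.sum_mul_sum]
  apply Finset.sum_congr rfl
  intro j _
  apply Finset.sum_congr rfl
  intro k _
  rw [map_mul, Complex.conj_ofReal]
  push_cast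
  ring

private theorem sumS (c : Fin B → ℝ) {x : ℝ} (hx : ∀ k, x ^ 2 * c k ^ 2 < 1) {ι : Type*} [Fintype ι]
    (u : ι → Fin B → ℂ) (lam : ι → ℝ) (N : ℕ) :
    ((N : ℝ) + 2) * (N + 1) * ∑ j, ∑ k, lam j * lam k * (S2 c (u j) (u k) x * tt (u j) (u k) ^ N) =
      ∑ n ∈ lev B (N + 2), mm n * CC c n x * ‖FF u lam n‖ ^ 2 := by
  apply Complex.ofReal_injective
  push_cast
  rw [Finset.mul_sum]
  have h1 : ∀ j, ((N : ℂ) + 2) * (N + 1) * ∑ k, (lam j : ℂ) * lam k *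
      ((S2 c (u j) (u k) x : ℂ) * (tt (u j) (u k) : ℂ) ^ N) =
      ∑ k, ∑ n ∈ lev B (N + 2), ((mm n * CC c n x : ℝ) : ℂ) *
        (((lam j * lam k : ℝ) : ℂ) * (mo (u j) n * conj (mo (u k) n))) := by
    intro j
    rw [Finset.mul_sum]
    apply Finset.sum_congr rfl
    intro k _
    have h2 := absS c hx (u j) (u k) N
    calc ((N : ℂ) + 2) * (N + 1) * ((lam j : ℂ) * lam k *
          ((S2 c (u j) (u k) x : ℂ) * (tt (u j) (u k) : ℂ) ^ N)) =
          (lam j : ℂ) * lam k * (((N : ℂ) + 2) * (N + 1) *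
            ((S2 c (u j) (u k) x : ℂ) * (tt (u j) (u k) : ℂ) ^ N)) := by ring
      _ = _ := by
        rw [h2, Finset.mul_sum]
        apply Finset.sum_congr rfl
        intro n _
        push_cast
        ring
  rw [Finset.sum_congr rfl (fun j _ => h1 j)]
  have h3 : ∀ j, ∑ k, ∑ n ∈ lev B (N + 2), ((mm n * CC c n x : ℝ) : ℂ) *
        (((lam j * lam k : ℝ) : ℂ) * (mo (u j) n * conj (mo (u k) n))) =
      ∑ n ∈ lev B (N + 2), ∑ k, ((mm n * CC c n x : ℝ) : ℂ) *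
        (((lam j * lam k : ℝ) : ℂ) * (mo (u j) n * conj (mo (u k) n))) :=
    fun j => Finset.sum_comm
  rw [Finset.sum_congr rfl (fun j _ => h3 j), Finset.sum_comm]
  apply Finset.sum_congr rfl
  intro n _
  have h4 := sum_sq lam (fun j => mo (u j) n)
  have h5 : ∑ j, ∑ k, ((mm n * CC c n x : ℝ) : ℂ) *
        (((lam j * lam k : ℝ) : ℂ) * (mo (u j) n * conj (mo (u k) n))) =
      ((mm n * CC c n x : ℝ) : ℂ) *
        ∑ j, ∑ k, ((lam j * lam k : ℝ) : ℂ) * (mo (u j) n * conj (mo (u k) n)) := by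
    simp only [Finset.mul_sum]
  rw [h5, h4]
  unfold FF
  push_cast
  ring

private theorem sumSig (c : Fin B → ℝ) (x : ℝ) {ι : Type*} [Fintype ι]
    (u : ι → Fin B → ℂ) (lam : ι → ℝ) (N : ℕ) :
    ∑ j, ∑ k, lam j * lam k * (((∑ l, La c x l * ‖u j l‖ ^ 2) * (∑ l, La c x l * ‖u k l‖ ^ 2)) *
        tt (u j) (u k) ^ N) =
      ∑ n ∈ lev B N, mm n * ‖∑ k, (La c x k : ℂ) * FF u lam (up n k)‖ ^ 2 := by
  apply Complex.ofReal_injective
  have h1 : ∀ j k, ((lam j * lam k * (((∑ l, La c x l * ‖u j l‖ ^ 2) *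
      (∑ l, La c x l * ‖u k l‖ ^ 2)) * tt (u j) (u k) ^ N) : ℝ) : ℂ) =
      ∑ n ∈ lev B N, (mm n : ℂ) * (((lam j * lam k : ℝ) : ℂ) *
        ((∑ l, (La c x l : ℂ) * mo (u j) (up n l)) *
        conj (∑ l, (La c x l : ℂ) * mo (u k) (up n l)))) := by
    intro j k
    rw [Complex.ofReal_mul (lam j * lam k), Complex.ofReal_mul (_ * _) (_ ^ N), Complex.ofReal_pow,
      sigS, Finset.mul_sum]
    apply Finset.sum_congr rfl
    intro n _
    ring
  rw [Complex.ofReal_sum, Complex.ofReal_sum]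
  have h2 : ∀ j, ((∑ k, lam j * lam k * (((∑ l, La c x l * ‖u j l‖ ^ 2) *
      (∑ l, La c x l * ‖u k l‖ ^ 2)) * tt (u j) (u k) ^ N) : ℝ) : ℂ) =
      ∑ n ∈ lev B N, ∑ k, (mm n : ℂ) * (((lam j * lam k : ℝ) : ℂ) *
        ((∑ l, (La c x l : ℂ) * mo (u j) (up n l)) *
        conj (∑ l, (La c x l : ℂ) * mo (u k) (up n l)))) := by
    intro j
    rw [Complex.ofReal_sum, Finset.sum_congr rfl (fun k _ => h1 j k), Finset.sum_comm]
  rw [Finset.sum_congr rfl (fun j _ => h2 j), Finset.sum_comm]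
  apply Finset.sum_congr rfl
  intro n _
  have h4 := sum_sq lam (fun j => ∑ l, (La c x l : ℂ) * mo (u j) (up n l))
  have h5 : ∑ j, ∑ k, (mm n : ℂ) * (((lam j * lam k : ℝ) : ℂ) *
        ((∑ l, (La c x l : ℂ) * mo (u j) (up n l)) *
        conj (∑ l, (La c x l : ℂ) * mo (u k) (up n l)))) =
      (mm n : ℂ) * ∑ j, ∑ k, ((lam j * lam k : ℝ) : ℂ) *
        ((∑ l, (La c x l : ℂ) * mo (u j) (up n l)) *
        conj (∑ l, (La c x l : ℂ) * mo (u k) (up n l))) := by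
    simp only [Finset.mul_sum]
  rw [h5, h4, ← Complex.ofReal_mul]
  congr 4
  unfold FF
  simp only [Finset.mul_sum]
  rw [Finset.sum_comm]
  apply Finset.sum_congr rfl
  intro k _
  apply Finset.sum_congr rfl
  intro j _
  ring

theorem expand (c : Fin B → ℝ) (M : ℕ) {ι : Type*} [Fintype ι] (u : ι → Fin B → ℂ) (lam : ι → ℝ)
    {x : ℝ} (hx : ∀ k, x ^ 2 * c k ^ 2 < 1) :
    -(∑ j, ∑ k, lam j * lam k * (qq c (u j) (u k) x * tr M (tt (u j) (u k)))) =
      ∑ p ∈ Finset.range (M + 1), (dd p / ((2 * p + 2) * (2 * p + 1)) *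
          ∑ n ∈ lev B (2 * p + 2), mm n * CC c n x * ‖FF u lam n‖ ^ 2 -
        dd p * ∑ n ∈ lev B (2 * p), mm n *
          ‖∑ k, (La c x k : ℂ) * FF u lam (up n k)‖ ^ 2) := by
  have h1 : ∀ j k, lam j * lam k * (qq c (u j) (u k) x * tr M (tt (u j) (u k))) =
      ∑ p ∈ Finset.range (M + 1), dd p *
        (lam j * lam k * (((∑ l, La c x l * ‖u j l‖ ^ 2) * (∑ l, La c x l * ‖u k l‖ ^ 2)) *
          tt (u j) (u k) ^ (2 * p)) -
        lam j * lam k * (S2 c (u j) (u k) x * tt (u j) (u k) ^ (2 * p))) := by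
    intro j k
    unfold tr
    rw [Finset.mul_sum, Finset.mul_sum]
    apply Finset.sum_congr rfl
    intro p _
    unfold qq S2
    ring
  have h2 : ∑ j, ∑ k, lam j * lam k * (qq c (u j) (u k) x * tr M (tt (u j) (u k))) =
      ∑ p ∈ Finset.range (M + 1), dd p * ∑ j, ∑ k,
        (lam j * lam k * (((∑ l, La c x l * ‖u j l‖ ^ 2) * (∑ l, La c x l * ‖u k l‖ ^ 2)) *
          tt (u j) (u k) ^ (2 * p)) -
        lam j * lam k * (S2 c (u j) (u k) x * tt (u j) (u k) ^ (2 * p))) := by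
    have h3 : ∀ j, ∑ k, lam j * lam k * (qq c (u j) (u k) x * tr M (tt (u j) (u k))) =
        ∑ p ∈ Finset.range (M + 1), ∑ k, dd p *
        (lam j * lam k * (((∑ l, La c x l * ‖u j l‖ ^ 2) * (∑ l, La c x l * ‖u k l‖ ^ 2)) *
          tt (u j) (u k) ^ (2 * p)) -
        lam j * lam k * (S2 c (u j) (u k) x * tt (u j) (u k) ^ (2 * p))) := by
      intro j
      rw [Finset.sum_congr rfl (fun k _ => h1 j k), Finset.sum_comm]
    rw [Finset.sum_congr rfl (fun j _ => h3 j), Finset.sum_comm]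
    simp only [Finset.mul_sum]
  rw [h2, ← Finset.sum_neg_distrib]
  apply Finset.sum_congr rfl
  intro p _
  simp only [Finset.sum_sub_distrib]
  rw [sumSig c x u lam (2 * p), ← sumS c hx u lam (2 * p)]
  push_cast
  have h4 : (2 * (p : ℝ) + 2) * (2 * p + 1) ≠ 0 := by positivity
  field_simp
  ring

/-- For unit vectors `F_n = ∑_k F_(n + (1,1)_k)`. -/
theorem FF_up {ι : Type*} [Fintype ι] (u : ι → Fin B → ℂ) (hu : ∀ j, ∑ k, ‖u j k‖ ^ 2 = 1)
    (lam : ι → ℝ) (n : Md B) : FF u lam n = ∑ k, FF u lam (up n k) := by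
  unfold FF
  rw [Finset.sum_comm]
  apply Finset.sum_congr rfl
  intro j _
  have h1 : ∑ k, (lam j : ℂ) * mo (u j) (up n k) =
      (lam j : ℂ) * (((∑ k, ‖u j k‖ ^ 2 : ℝ) : ℂ) * mo (u j) n) := by
    push_cast
    rw [Finset.sum_mul, Finset.mul_sum]
    apply Finset.sum_congr rfl
    intro k _
    rw [mo_up]
    push_cast
    ring
  rw [h1, hu j, Complex.ofReal_one, one_mul]

/-- Charge-free modes: real numbers. -/
theorem FF_dbl {ι : Type*} [Fintype ι] (u : ι → Fin B → ℂ) (lam : ι → ℝ) (ν : Fin B → ℕ) :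
    FF u lam (dbl ν) = ((∑ j, lam j * ∏ k, (‖u j k‖ ^ 2) ^ ν k : ℝ) : ℂ) := by
  unfold FF
  push_cast
  apply Finset.sum_congr rfl
  intro j _
  congr 1
  unfold mo dbl
  apply Finset.prod_congr rfl
  intro k _
  simp only
  rw [← mul_pow, Complex.mul_conj, Complex.normSq_eq_norm_sq]
  push_cast
  rfl

theorem up_dbl (ν : Fin B → ℕ) (k : Fin B) : up (dbl ν) k = dbl (u1 ν k) := by
  funext μ
  rfl

end Pool.Agent.H35.ISO
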