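import Mathlib
import Pool.Agent.H35.ISO.Defs

set_option autoImplicit false

/-!
# SchI: integration by parts

`y_k = Λ_k - 1 = x² c_k² Λ_k`, `τ = 2 ∑ y_k`, `0 ≤ c_k < 1`, everything is smooth on `[-1,1]`.
`(x P)' = P (1 - τ)`, `∫_{-1}^1 = 2 P(1) ≥ 0`; `(x P y_k)' = P y_k (1 - τ + 2 Λ_k)`,
`∫_{-1}^1 = 2 P(1) y_k(1) ≥ 0` (`intervalIntegral.integral_eq_sub_of_hasDerivAt`).
`EE` is linear and monotone on continuous functions.
-/

open MeasureTheory
open scoped ComplexConjugate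

noncomputable section

namespace Pool.Agent.H35.ISO

variable {B : ℕ}

theorem dk_pos {c : Fin B → ℝ} (hc : ∀ k, 0 ≤ c k ∧ c k < 1) {x : ℝ} (hx : x ∈ Set.Icc (-1 : ℝ) 1)
    (k : Fin B) : 0 < 1 - x ^ 2 * c k ^ 2 := by
  have h1 : x ^ 2 ≤ 1 := by nlinarith [hx.1, hx.2]
  have h2 : c k ^ 2 < 1 := by nlinarith [(hc k).1, (hc k).2]
  have h3 : x ^ 2 * c k ^ 2 ≤ 1 * c k ^ 2 := mul_le_mul_of_nonneg_right h1 (sq_nonneg _)
  linarith

theorem La_ge {c : Fin B → ℝ} (hc : ∀ k, 0 ≤ c k ∧ c k < 1) {x : ℝ}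
    (hx : x ∈ Set.Icc (-1 : ℝ) 1) (k : Fin B) : 1 ≤ La c x k := by
  unfold La
  rw [one_le_div (dk_pos hc hx k)]
  have : 0 ≤ x ^ 2 * c k ^ 2 := by positivity
  linarith

theorem continuousOn_La {c : Fin B → ℝ} (hc : ∀ k, 0 ≤ c k ∧ c k < 1) (k : Fin B) :
    ContinuousOn (fun x => La c x k) (Set.Icc (-1 : ℝ) 1) := by
  unfold La
  refine ContinuousOn.div continuousOn_const ?_ ?_
  · fun_prop
  · intro x hx
    exact (dk_pos hc hx k).ne'

private theorem continuous_Px (c : Fin B → ℝ) : Continuous (Px c) := by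
  unfold Px
  fun_prop

private theorem ii {c : Fin B → ℝ} {f : ℝ → ℝ} (hf : ContinuousOn f (Set.Icc (-1 : ℝ) 1)) :
    IntervalIntegrable (fun x => f x * Px c x) volume (-1) 1 :=
  (hf.mul (continuous_Px c).continuousOn).intervalIntegrable_of_Icc (by norm_num)

theorem EE_mono {c : Fin B → ℝ} (hc : ∀ k, 0 ≤ c k ∧ c k < 1) {f g : ℝ → ℝ}
    (hf : ContinuousOn f (Set.Icc (-1 : ℝ) 1)) (hg : ContinuousOn g (Set.Icc (-1 : ℝ) 1))
    (h : ∀ x ∈ Set.Icc (-1 : ℝ) 1, f x ≤ g x) : EE c f ≤ EE c g := by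
  unfold EE
  refine intervalIntegral.integral_mono_on (by norm_num) (ii hf) (ii hg) fun x hx => ?_
  refine mul_le_mul_of_nonneg_right (h x hx) ?_
  unfold Px
  exact Finset.prod_nonneg fun k _ => (dk_pos hc hx k).le

theorem EE_add (c : Fin B → ℝ) {f g : ℝ → ℝ} (hf : ContinuousOn f (Set.Icc (-1 : ℝ) 1))
    (hg : ContinuousOn g (Set.Icc (-1 : ℝ) 1)) :
    EE c (fun x => f x + g x) = EE c f + EE c g := by
  unfold EE
  rw [← intervalIntegral.integral_add (ii hf) (ii hg)]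
  refine intervalIntegral.integral_congr fun x _ => ?_
  simp only
  ring

theorem EE_sub (c : Fin B → ℝ) {f g : ℝ → ℝ} (hf : ContinuousOn f (Set.Icc (-1 : ℝ) 1))
    (hg : ContinuousOn g (Set.Icc (-1 : ℝ) 1)) :
    EE c (fun x => f x - g x) = EE c f - EE c g := by
  unfold EE
  rw [← intervalIntegral.integral_sub (ii hf) (ii hg)]
  refine intervalIntegral.integral_congr fun x _ => ?_
  simp only
  ring

theorem EE_mul (c : Fin B → ℝ) (r : ℝ) (f : ℝ → ℝ) : EE c (fun x => r * f x) = r * EE c f := by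
  unfold EE
  rw [← intervalIntegral.integral_const_mul]
  refine intervalIntegral.integral_congr fun x _ => ?_
  simp only
  ring

theorem EE_sum (c : Fin B → ℝ) {ι : Type*} (s : Finset ι) {f : ι → ℝ → ℝ}
    (hf : ∀ j ∈ s, ContinuousOn (f j) (Set.Icc (-1 : ℝ) 1)) :
    EE c (fun x => ∑ j ∈ s, f j x) = ∑ j ∈ s, EE c (f j) := by
  unfold EE
  rw [← intervalIntegral.integral_finsetSum (fun j hj => ii (hf j hj))]
  refine intervalIntegral.integral_congr fun x _ => ?_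
  simp only
  rw [Finset.sum_mul]

private theorem erase_prod {c : Fin B → ℝ} (hc : ∀ k, 0 ≤ c k ∧ c k < 1) {x : ℝ}
    (hx : x ∈ Set.Icc (-1 : ℝ) 1) (k : Fin B) :
    ∏ l ∈ Finset.univ.erase k, (1 - x ^ 2 * c l ^ 2) = Px c x * La c x k := by
  have h := Finset.mul_prod_erase Finset.univ (fun l => 1 - x ^ 2 * c l ^ 2) (Finset.mem_univ k)
  unfold Px La
  rw [← h]
  have := (dk_pos hc hx k).ne'
  field_simp

/-- Derivative of `P`. -/
private theorem hasDerivAt_Px {c : Fin B → ℝ} (hc : ∀ k, 0 ≤ c k ∧ c k < 1) {x : ℝ}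
    (hx : x ∈ Set.Icc (-1 : ℝ) 1) :
    HasDerivAt (Px c) (∑ l, Px c x * La c x l * (-(2 * x) * c l ^ 2)) x := by
  have h1 : ∀ l ∈ (Finset.univ : Finset (Fin B)),
      HasDerivAt (fun x : ℝ => 1 - x ^ 2 * c l ^ 2) (-(2 * x) * c l ^ 2) x := by
    intro l _
    have h := ((hasDerivAt_pow 2 x).mul_const (c l ^ 2)).const_sub 1
    refine h.congr_deriv ?_
    simp
  have h := HasDerivAt.fun_finsetProd h1
  have h2 : HasDerivAt (Px c) (∑ i ∈ (Finset.univ : Finset (Fin B)),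
      (∏ j ∈ Finset.univ.erase i, (1 - x ^ 2 * c j ^ 2)) • (-(2 * x) * c i ^ 2)) x := h
  refine h2.congr_deriv ?_
  refine Finset.sum_congr rfl fun l _ => ?_
  rw [erase_prod hc hx l, smul_eq_mul]

private theorem y_eq {c : Fin B → ℝ} (hc : ∀ k, 0 ≤ c k ∧ c k < 1) {x : ℝ}
    (hx : x ∈ Set.Icc (-1 : ℝ) 1) (k : Fin B) :
    x ^ 2 * c k ^ 2 * La c x k = La c x k - 1 := by
  have := (dk_pos hc hx k).ne'
  unfold La
  field_simp
  ring

/-- Derivative of `x P`. -/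
private theorem hasDerivAt_xP {c : Fin B → ℝ} (hc : ∀ k, 0 ≤ c k ∧ c k < 1) {x : ℝ}
    (hx : x ∈ Set.Icc (-1 : ℝ) 1) :
    HasDerivAt (fun x => x * Px c x) ((1 - 2 * ∑ l, (La c x l - 1)) * Px c x) x := by
  have h := (hasDerivAt_id x).mul (hasDerivAt_Px hc hx)
  have h' : HasDerivAt (fun x => x * Px c x) _ x := h
  refine h'.congr_deriv ?_
  simp only [id]
  have e : ∀ l : Fin B, La c x l - 1 = x ^ 2 * c l ^ 2 * La c x l := fun l => (y_eq hc hx l).symm
  simp only [e]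
  rw [sub_mul, Finset.mul_sum, Finset.mul_sum, Finset.sum_mul, sub_eq_add_neg,
    ← Finset.sum_neg_distrib]
  congr 1
  refine Finset.sum_congr rfl fun l _ => ?_
  ring

private theorem hasDerivAt_La {c : Fin B → ℝ} (hc : ∀ k, 0 ≤ c k ∧ c k < 1) {x : ℝ}
    (hx : x ∈ Set.Icc (-1 : ℝ) 1) (k : Fin B) :
    HasDerivAt (fun x => La c x k - 1) (2 * x * c k ^ 2 * La c x k ^ 2) x := by
  have h1 : HasDerivAt (fun x : ℝ => 1 - x ^ 2 * c k ^ 2) (-(2 * x) * c k ^ 2) x := by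
    have h := ((hasDerivAt_pow 2 x).mul_const (c k ^ 2)).const_sub 1
    refine h.congr_deriv ?_
    simp
  have h2 := (h1.fun_inv (dk_pos hc hx k).ne').sub_const 1
  have h3 : (fun x => La c x k - 1) = fun x : ℝ => (1 - x ^ 2 * c k ^ 2)⁻¹ - 1 := by
    funext x
    unfold La
    rw [one_div]
  rw [h3]
  refine h2.congr_deriv ?_
  have := (dk_pos hc hx k).ne'
  unfold La
  field_simp

/-- `E τ ≤ E 1`. -/
theorem ibp_one {c : Fin B → ℝ} (hc : ∀ k, 0 ≤ c k ∧ c k < 1) :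
    EE c (fun x => 2 * ∑ l, (La c x l - 1)) ≤ EE c (fun _ => 1) := by
  have hcont : ContinuousOn (fun x => 2 * ∑ l, (La c x l - 1)) (Set.Icc (-1 : ℝ) 1) := by
    refine continuousOn_const.mul ?_
    exact continuousOn_finsetSum _ fun l _ => (continuousOn_La hc l).sub continuousOn_const
  have hcont2 : ContinuousOn (fun x => 1 - 2 * ∑ l, (La c x l - 1)) (Set.Icc (-1 : ℝ) 1) :=
    continuousOn_const.sub hcont
  have h := intervalIntegral.integral_eq_sub_of_hasDerivAt (a := -1) (b := 1)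
    (f := fun x => x * Px c x) (f' := fun x => (1 - 2 * ∑ l, (La c x l - 1)) * Px c x)
    (fun x hx => hasDerivAt_xP hc (by rwa [Set.uIcc_of_le (by norm_num)] at hx)) (ii hcont2)
  have h2 : EE c (fun _ => 1) - EE c (fun x => 2 * ∑ l, (La c x l - 1)) =
      EE c (fun x => 1 - 2 * ∑ l, (La c x l - 1)) := (EE_sub c continuousOn_const hcont).symm
  have h3 : EE c (fun x => 1 - 2 * ∑ l, (La c x l - 1)) = 1 * Px c 1 - -1 * Px c (-1) := h
  have p1 : 0 ≤ Px c 1 := by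
    unfold Px
    exact Finset.prod_nonneg fun k _ => (dk_pos hc (by norm_num) k).le
  have p2 : 0 ≤ Px c (-1) := by
    unfold Px
    exact Finset.prod_nonneg fun k _ => (dk_pos hc (by norm_num) k).le
  linarith

/-- `E y_k (1 - τ + 2 Λ_k) ≥ 0`. -/
theorem ibp_two {c : Fin B → ℝ} (hc : ∀ k, 0 ≤ c k ∧ c k < 1) (k : Fin B) :
    0 ≤ EE c (fun x => (La c x k - 1) * (1 - 2 * ∑ l, (La c x l - 1) + 2 * La c x k)) := by
  have hcont : ContinuousOn
      (fun x => (La c x k - 1) * (1 - 2 * ∑ l, (La c x l - 1) + 2 * La c x k))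
      (Set.Icc (-1 : ℝ) 1) := by
    refine ((continuousOn_La hc k).sub continuousOn_const).mul
      ((continuousOn_const.sub (continuousOn_const.mul ?_)).add
        (continuousOn_const.mul (continuousOn_La hc k)))
    exact continuousOn_finsetSum _ fun l _ => (continuousOn_La hc l).sub continuousOn_const
  have hd : ∀ x ∈ Set.uIcc (-1 : ℝ) 1, HasDerivAt (fun x => (x * Px c x) * (La c x k - 1))
      ((La c x k - 1) * (1 - 2 * ∑ l, (La c x l - 1) + 2 * La c x k) * Px c x) x := by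
    intro x hx
    rw [Set.uIcc_of_le (by norm_num)] at hx
    have h := (hasDerivAt_xP hc hx).mul (hasDerivAt_La hc hx k)
    have h' : HasDerivAt (fun x => (x * Px c x) * (La c x k - 1)) _ x := h
    refine h'.congr_deriv ?_
    have e := y_eq hc hx k
    have e2 : x * Px c x * (2 * x * c k ^ 2 * La c x k ^ 2) =
        2 * La c x k * (x ^ 2 * c k ^ 2 * La c x k) * Px c x := by ring
    rw [e2, e]
    ring
  have h := intervalIntegral.integral_eq_sub_of_hasDerivAt (a := -1) (b := 1) hd (ii hcont)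
  have h3 : EE c (fun x => (La c x k - 1) * (1 - 2 * ∑ l, (La c x l - 1) + 2 * La c x k)) =
      1 * Px c 1 * (La c 1 k - 1) - -1 * Px c (-1) * (La c (-1) k - 1) := h
  have p1 : 0 ≤ Px c 1 := by
    unfold Px
    exact Finset.prod_nonneg fun k _ => (dk_pos hc (by norm_num) k).le
  have p2 : 0 ≤ Px c (-1) := by
    unfold Px
    exact Finset.prod_nonneg fun k _ => (dk_pos hc (by norm_num) k).le
  have q1 : 0 ≤ La c 1 k - 1 := sub_nonneg.2 (La_ge hc (by norm_num) k)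
  have q2 : 0 ≤ La c (-1) k - 1 := sub_nonneg.2 (La_ge hc (by norm_num) k)
  rw [h3]
  have r1 := mul_nonneg p1 q1
  have r2 := mul_nonneg p2 q2
  linarith

end Pool.Agent.H35.ISO
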