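import Mathlib

set_option autoImplicit false

/-!
# SchP: the pointwise inequality

`y_k ≥ 0` (`= Λ_k - 1`), `V_k = N_k + 2 > 0`, `V = ∑ V_k`, `v_k = V_k (w + u_k)`, `∑ V_k u_k = 0`,
i.e. `w = (∑ v_k)/V`, `u_k = v_k/V_k - w`; `Y = ∑ V_k y_k`, `A1 = ∑ V_k y_k u_k`, `A2 = ∑ V_k y_k u_k²`,
`N = ∑ N_k ≥ 2`, `D = V - N = 2B`.
right - left `= w² Y (D+1)²/(N-1) - 2 w (D+1) A1 + (N-1) A2 + (Y A2 - A1²) ≥ 0` (Cauchy
`A1² ≤ Y A2`).
-/

namespace Pool.Agent.H35.ISO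

theorem pointwise {B : ℕ} (N : Fin B → ℕ) (hN : 2 ≤ ∑ k, N k) (y v : Fin B → ℝ)
    (hy : ∀ k, 0 ≤ y k) :
    (∑ k, (1 + y k) * v k) ^ 2 ≤
      (((∑ k, N k : ℕ) : ℝ) - 1 + ∑ k, ((N k : ℝ) + 2) * y k) / (((∑ k, N k : ℕ) : ℝ) - 1) *
          (∑ k, v k) ^ 2 +
        ∑ k, (((∑ k, N k : ℕ) : ℝ) - 1 + ∑ k, ((N k : ℝ) + 2) * y k) * y k / ((N k : ℝ) + 2) *
          v k ^ 2 := by
  set M : ℝ := ((∑ k, N k : ℕ) : ℝ) - 1 with hM
  have hM1 : 0 < M := by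
    have : (2 : ℝ) ≤ ((∑ k, N k : ℕ) : ℝ) := by exact_mod_cast hN
    rw [hM]; linarith
  set Y : ℝ := ∑ k, ((N k : ℝ) + 2) * y k with hY
  have hY0 : 0 ≤ Y := Finset.sum_nonneg fun k _ => mul_nonneg (by positivity) (hy k)
  set T : ℝ := ∑ k, v k with hT
  set Z : ℝ := ∑ k, y k * v k with hZ
  set Q : ℝ := ∑ k, y k / ((N k : ℝ) + 2) * v k ^ 2 with hQ
  have hQ0 : 0 ≤ Q := Finset.sum_nonneg fun k _ =>
    mul_nonneg (div_nonneg (hy k) (by positivity)) (sq_nonneg _)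
  have e1 : ∑ k, (1 + y k) * v k = T + Z := by
    rw [hT, hZ, ← Finset.sum_add_distrib]
    exact Finset.sum_congr rfl fun k _ => by ring
  have e2 : ∑ k, (M + Y) * y k / ((N k : ℝ) + 2) * v k ^ 2 = (M + Y) * Q := by
    rw [hQ, Finset.mul_sum]
    exact Finset.sum_congr rfl fun k _ => by ring
  have hC : Z ^ 2 ≤ Y * Q := by
    have h := Finset.sum_mul_sq_le_sq_mul_sq Finset.univ
      (fun k => Real.sqrt (((N k : ℝ) + 2) * y k))
      (fun k => Real.sqrt (y k / ((N k : ℝ) + 2)) * v k)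
    have h1 : ∀ k, Real.sqrt (((N k : ℝ) + 2) * y k) *
        (Real.sqrt (y k / ((N k : ℝ) + 2)) * v k) = y k * v k := by
      intro k
      have hp : (0 : ℝ) < (N k : ℝ) + 2 := by positivity
      rw [← mul_assoc, ← Real.sqrt_mul (mul_nonneg hp.le (hy k))]
      have : ((N k : ℝ) + 2) * y k * (y k / ((N k : ℝ) + 2)) = y k ^ 2 := by
        field_simp
      rw [this, Real.sqrt_sq (hy k)]
    have h2 : ∀ k, Real.sqrt (((N k : ℝ) + 2) * y k) ^ 2 = ((N k : ℝ) + 2) * y k := fun k =>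
      Real.sq_sqrt (mul_nonneg (by positivity) (hy k))
    have h3 : ∀ k, (Real.sqrt (y k / ((N k : ℝ) + 2)) * v k) ^ 2 =
        y k / ((N k : ℝ) + 2) * v k ^ 2 := fun k => by
      rw [mul_pow, Real.sq_sqrt (div_nonneg (hy k) (by positivity))]
    simp only [h1, h2, h3] at h
    exact h
  rw [e1, e2]
  have hk : 0 ≤ Y / M * T ^ 2 - 2 * T * Z + M * Q := by
    rcases hY0.eq_or_lt with h0 | hpos
    · have hZ0 : Z = 0 := by
        have : Z ^ 2 ≤ 0 := by rw [← h0] at hC; simpa using hC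
        exact pow_eq_zero_iff (two_ne_zero) |>.mp (le_antisymm this (sq_nonneg _))
      rw [hZ0, ← h0]
      have := mul_nonneg hM1.le hQ0
      simpa using this
    · have h1 : M / Y * Z ^ 2 ≤ M * Q := by
        rw [div_mul_eq_mul_div, div_le_iff₀ hpos]
        nlinarith [hC, hM1.le]
      have h2 : Y / M * T ^ 2 - 2 * T * Z + M / Y * Z ^ 2 = Y / M * (T - M / Y * Z) ^ 2 := by
        field_simp
        ring
      have h3 : 0 ≤ Y / M * (T - M / Y * Z) ^ 2 := by positivity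
      linarith
  have h4 : (M + Y) / M * T ^ 2 = T ^ 2 + Y / M * T ^ 2 := by
    field_simp
  rw [h4]
  nlinarith [hk, hC]

end Pool.Agent.H35.ISO
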