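import Mathlib
import Pool.Agent.H35.ISO.SchP
import Pool.Agent.H35.ISO.SchI

set_option autoImplicit false

/-!
# SchT: the two inequalities of the scheme

(II) `y_k = Λ_k - 1`, `Y = ∑ (N_k + 2) y_k`, `τ = 2 ∑ y_k`, `S = N + Y - τ`.
`E[y_k (S + 2Λ_k)] ≥ E[y_k (N + Y - τ)] + E[y_k (τ - 1)] = E[y_k (N - 1 + Y)]` (`ibp_two`; this is used for
each `k` separately with the nonnegative factor `v_k²/(N_k + 2)`),
`E[S] ≥ E[N - 1 + Y]` (`ibp_one`); then `pointwise` integrated (`EE_mono`).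
(I) `S² - S - (N-1) S - ∑ (N_k² - e_k²) (Λ_k - 1) S / N_k = S ∑ (e_k²/N_k) y_k` (blocks with `N_k = 0`
have `e_k = 0`, `x/0 = 0`), and `x² (∑ e_k c_k Λ_k)² ≤ S ∑ (e_k²/N_k) x² c_k² Λ_k` (Cauchy),
`x² c_k² Λ_k = y_k`.  Integrate.
-/

open MeasureTheory
open scoped ComplexConjugate

noncomputable section

namespace Pool.Agent.H35.ISO

variable {B : ℕ}

theorem continuousOn_SS {c : Fin B → ℝ} (hc : ∀ k, 0 ≤ c k ∧ c k < 1) (N : Fin B → ℕ) :
    ContinuousOn (SS c N) (Set.Icc (-1 : ℝ) 1) := by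
  have h : SS c N = fun x => ∑ k, (N k : ℝ) * La c x k := rfl
  rw [h]
  exact continuousOn_finsetSum _ fun k _ => continuousOn_const.mul (continuousOn_La hc k)

theorem continuousOn_CC {c : Fin B → ℝ} (hc : ∀ k, 0 ≤ c k ∧ c k < 1) (n : Md B) :
    ContinuousOn (CC c n) (Set.Icc (-1 : ℝ) 1) := by
  have h : CC c n = fun x => SS c (nk n) x ^ 2 - SS c (nk n) x -
      x ^ 2 * (∑ k, ek n k * c k * La c x k) ^ 2 := rfl
  rw [h]
  have hS := continuousOn_SS hc (nk n)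
  refine ((hS.pow 2).sub hS).sub ((continuousOn_id.pow 2).mul (ContinuousOn.pow ?_ 2))
  exact continuousOn_finsetSum _ fun k _ => continuousOn_const.mul (continuousOn_La hc k)

private theorem SS_nonneg {c : Fin B → ℝ} (hc : ∀ k, 0 ≤ c k ∧ c k < 1) (N : Fin B → ℕ) {x : ℝ}
    (hx : x ∈ Set.Icc (-1 : ℝ) 1) : 0 ≤ SS c N x := by
  unfold SS
  exact Finset.sum_nonneg fun k _ => mul_nonneg (Nat.cast_nonneg _)
    (zero_le_one.trans (La_ge hc hx k))

theorem EE_SS_nonneg {c : Fin B → ℝ} (hc : ∀ k, 0 ≤ c k ∧ c k < 1) (N : Fin B → ℕ) :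
    0 ≤ EE c (SS c N) := by
  have h := EE_mono hc (f := fun _ => (0 : ℝ)) continuousOn_const (continuousOn_SS hc N)
    (fun x hx => SS_nonneg hc N hx)
  have h0 : EE c (fun _ => (0 : ℝ)) = 0 := by
    unfold EE
    simp
  linarith

private theorem SS_eq (c : Fin B → ℝ) (N : Fin B → ℕ) (x : ℝ) :
    SS c N x = ((∑ k, N k : ℕ) : ℝ) + ∑ k, ((N k : ℝ) + 2) * (La c x k - 1) -
      2 * ∑ k, (La c x k - 1) := by
  unfold SS
  push_cast
  rw [Finset.mul_sum, ← Finset.sum_add_distrib, ← Finset.sum_sub_distrib]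
  exact Finset.sum_congr rfl fun k _ => by ring

theorem scheme_two {c : Fin B → ℝ} (hc : ∀ k, 0 ≤ c k ∧ c k < 1) (N : Fin B → ℕ)
    (hN : 2 ≤ ∑ k, N k) (v : Fin B → ℝ) :
    EE c (fun x => (∑ k, La c x k * v k) ^ 2) ≤
      EE c (SS c N) / (((∑ k, N k : ℕ) : ℝ) - 1) * (∑ k, v k) ^ 2 +
        ∑ k, EE c (fun x => (La c x k - 1) * (SS c N x + 2 * La c x k)) / ((N k : ℝ) + 2) *
          v k ^ 2 := by
  set M : ℝ := ((∑ k, N k : ℕ) : ℝ) - 1 with hM
  have hM1 : 0 < M := by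
    have : (2 : ℝ) ≤ ((∑ k, N k : ℕ) : ℝ) := by exact_mod_cast hN
    rw [hM]; linarith
  have cLa : ∀ k, ContinuousOn (fun x => La c x k) (Set.Icc (-1 : ℝ) 1) := continuousOn_La hc
  have cy : ∀ k, ContinuousOn (fun x => La c x k - 1) (Set.Icc (-1 : ℝ) 1) := fun k =>
    (cLa k).sub continuousOn_const
  have cS := continuousOn_SS hc N
  have ct : ContinuousOn (fun x => 2 * ∑ l, (La c x l - 1)) (Set.Icc (-1 : ℝ) 1) :=
    continuousOn_const.mul (continuousOn_finsetSum _ fun l _ => cy l)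
  have cY : ContinuousOn (fun x => ∑ l, ((N l : ℝ) + 2) * (La c x l - 1)) (Set.Icc (-1 : ℝ) 1) :=
    continuousOn_finsetSum _ fun l _ => continuousOn_const.mul (cy l)
  have cMY : ContinuousOn (fun x => M + ∑ l, ((N l : ℝ) + 2) * (La c x l - 1))
      (Set.Icc (-1 : ℝ) 1) := continuousOn_const.add cY
  -- E S ≥ E (M + Y)
  have hS : EE c (fun x => M + ∑ l, ((N l : ℝ) + 2) * (La c x l - 1)) ≤ EE c (SS c N) := by
    have h1 : EE c (SS c N) - EE c (fun x => M + ∑ l, ((N l : ℝ) + 2) * (La c x l - 1)) =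
        EE c (fun _ => 1) - EE c (fun x => 2 * ∑ l, (La c x l - 1)) := by
      rw [← EE_sub c cS cMY, ← EE_sub c continuousOn_const ct]
      congr 1
      funext x
      rw [SS_eq]
      rw [hM]
      ring
    have := ibp_one hc
    linarith
  -- E y_k (S + 2Λ_k) ≥ E y_k (M + Y)
  have hD : ∀ k, EE c (fun x => (La c x k - 1) * (M + ∑ l, ((N l : ℝ) + 2) * (La c x l - 1))) ≤
      EE c (fun x => (La c x k - 1) * (SS c N x + 2 * La c x k)) := by
    intro k
    have c1 : ContinuousOn (fun x => (La c x k - 1) * (SS c N x + 2 * La c x k))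
        (Set.Icc (-1 : ℝ) 1) := (cy k).mul (cS.add (continuousOn_const.mul (cLa k)))
    have c2 : ContinuousOn
        (fun x => (La c x k - 1) * (M + ∑ l, ((N l : ℝ) + 2) * (La c x l - 1)))
        (Set.Icc (-1 : ℝ) 1) := (cy k).mul cMY
    have h1 : EE c (fun x => (La c x k - 1) * (SS c N x + 2 * La c x k)) -
        EE c (fun x => (La c x k - 1) * (M + ∑ l, ((N l : ℝ) + 2) * (La c x l - 1))) =
        EE c (fun x => (La c x k - 1) * (1 - 2 * ∑ l, (La c x l - 1) + 2 * La c x k)) := by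
      rw [← EE_sub c c1 c2]
      congr 1
      funext x
      rw [SS_eq]
      rw [hM]
      ring
    have := ibp_two hc k
    linarith
  -- the pointwise inequality integrated
  have c3 : ContinuousOn (fun x => (∑ k, La c x k * v k) ^ 2) (Set.Icc (-1 : ℝ) 1) :=
    (continuousOn_finsetSum _ fun k _ => (cLa k).mul continuousOn_const).pow 2
  have c4 : ∀ k ∈ (Finset.univ : Finset (Fin B)), ContinuousOn
      (fun x => (v k ^ 2 / ((N k : ℝ) + 2)) *
        ((La c x k - 1) * (M + ∑ l, ((N l : ℝ) + 2) * (La c x l - 1)))) (Set.Icc (-1 : ℝ) 1) :=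
    fun k _ => continuousOn_const.mul ((cy k).mul cMY)
  have c5 : ContinuousOn (fun x => ((∑ k, v k) ^ 2 / M) *
      (M + ∑ l, ((N l : ℝ) + 2) * (La c x l - 1))) (Set.Icc (-1 : ℝ) 1) :=
    continuousOn_const.mul cMY
  have c6 : ContinuousOn (fun x => ∑ k, (v k ^ 2 / ((N k : ℝ) + 2)) *
        ((La c x k - 1) * (M + ∑ l, ((N l : ℝ) + 2) * (La c x l - 1)))) (Set.Icc (-1 : ℝ) 1) :=
    continuousOn_finsetSum _ c4
  have hP : EE c (fun x => (∑ k, La c x k * v k) ^ 2) ≤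
      EE c (fun x => ((∑ k, v k) ^ 2 / M) * (M + ∑ l, ((N l : ℝ) + 2) * (La c x l - 1)) +
        ∑ k, (v k ^ 2 / ((N k : ℝ) + 2)) *
          ((La c x k - 1) * (M + ∑ l, ((N l : ℝ) + 2) * (La c x l - 1)))) := by
    refine EE_mono hc c3 (c5.add c6) fun x hx => ?_
    have h := pointwise N hN (fun k => La c x k - 1) v (fun k => sub_nonneg.2 (La_ge hc hx k))
    simp only [add_sub_cancel] at h
    refine h.trans (le_of_eq ?_)
    rw [← hM]
    congr 1
    · ring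
    · exact Finset.sum_congr rfl fun k _ => by ring
  rw [EE_add c c5 c6, EE_mul, EE_sum c _ c4] at hP
  simp only [EE_mul] at hP
  refine hP.trans (add_le_add ?_ (Finset.sum_le_sum fun k _ => ?_))
  · have h0 : 0 ≤ (∑ k, v k) ^ 2 / M := by positivity
    calc (∑ k, v k) ^ 2 / M * EE c (fun x => M + ∑ l, ((N l : ℝ) + 2) * (La c x l - 1))
        ≤ (∑ k, v k) ^ 2 / M * EE c (SS c N) := mul_le_mul_of_nonneg_left hS h0
      _ = EE c (SS c N) / M * (∑ k, v k) ^ 2 := by ring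
  · have h0 : 0 ≤ v k ^ 2 / ((N k : ℝ) + 2) := by positivity
    calc v k ^ 2 / ((N k : ℝ) + 2) *
          EE c (fun x => (La c x k - 1) * (M + ∑ l, ((N l : ℝ) + 2) * (La c x l - 1)))
        ≤ v k ^ 2 / ((N k : ℝ) + 2) *
          EE c (fun x => (La c x k - 1) * (SS c N x + 2 * La c x k)) :=
          mul_le_mul_of_nonneg_left (hD k) h0
      _ = EE c (fun x => (La c x k - 1) * (SS c N x + 2 * La c x k)) / ((N k : ℝ) + 2) *
          v k ^ 2 := by ring

private theorem y_eq' {c : Fin B → ℝ} (hc : ∀ k, 0 ≤ c k ∧ c k < 1) {x : ℝ}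
    (hx : x ∈ Set.Icc (-1 : ℝ) 1) (k : Fin B) :
    x ^ 2 * c k ^ 2 * La c x k = La c x k - 1 := by
  have := (dk_pos hc hx k).ne'
  unfold La
  field_simp
  ring

/-- Cauchy: `x² (∑ e_k c_k Λ_k)² ≤ S ∑ (e_k²/N_k) y_k`. -/
private theorem charge_le {c : Fin B → ℝ} (hc : ∀ k, 0 ≤ c k ∧ c k < 1) (n : Md B) {x : ℝ}
    (hx : x ∈ Set.Icc (-1 : ℝ) 1) :
    x ^ 2 * (∑ k, ek n k * c k * La c x k) ^ 2 ≤
      SS c (nk n) x * ∑ k, ek n k ^ 2 / (nk n k : ℝ) * (La c x k - 1) := by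
  have hL : ∀ k, 0 ≤ La c x k := fun k => zero_le_one.trans (La_ge hc hx k)
  have hy : ∀ k, 0 ≤ La c x k - 1 := fun k => sub_nonneg.2 (La_ge hc hx k)
  have h := Finset.sum_mul_sq_le_sq_mul_sq Finset.univ
    (fun k => Real.sqrt ((nk n k : ℝ) * La c x k))
    (fun k => ek n k / Real.sqrt (nk n k : ℝ) * (x * c k * Real.sqrt (La c x k)))
  have h1 : ∀ k, Real.sqrt ((nk n k : ℝ) * La c x k) *
      (ek n k / Real.sqrt (nk n k : ℝ) * (x * c k * Real.sqrt (La c x k))) =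
      x * (ek n k * c k * La c x k) := by
    intro k
    rcases Nat.eq_zero_or_pos (nk n k) with h0 | h0
    · have he : ek n k = 0 := by
        unfold nk at h0
        unfold ek
        have a1 : n (k, true) = 0 := by omega
        have a2 : n (k, false) = 0 := by omega
        rw [a1, a2]
        simp
      rw [he]
      simp
    · have hp : (0 : ℝ) < (nk n k : ℝ) := by exact_mod_cast h0
      have hs : Real.sqrt (nk n k : ℝ) ≠ 0 := (Real.sqrt_pos.2 hp).ne'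
      rw [Real.sqrt_mul hp.le]
      have e2 : Real.sqrt (La c x k) * Real.sqrt (La c x k) = La c x k :=
        Real.mul_self_sqrt (hL k)
      calc Real.sqrt (nk n k : ℝ) * Real.sqrt (La c x k) *
            (ek n k / Real.sqrt (nk n k : ℝ) * (x * c k * Real.sqrt (La c x k)))
          = ek n k * x * c k * (Real.sqrt (nk n k : ℝ) / Real.sqrt (nk n k : ℝ)) *
            (Real.sqrt (La c x k) * Real.sqrt (La c x k)) := by ring
        _ = x * (ek n k * c k * La c x k) := by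
            rw [e2, div_self hs]; ring
  have h2 : ∀ k, Real.sqrt ((nk n k : ℝ) * La c x k) ^ 2 = (nk n k : ℝ) * La c x k := fun k =>
    Real.sq_sqrt (mul_nonneg (Nat.cast_nonneg _) (hL k))
  have h3 : ∀ k, (ek n k / Real.sqrt (nk n k : ℝ) * (x * c k * Real.sqrt (La c x k))) ^ 2 =
      ek n k ^ 2 / (nk n k : ℝ) * (La c x k - 1) := by
    intro k
    rw [mul_pow, div_pow, Real.sq_sqrt (Nat.cast_nonneg _), mul_pow, mul_pow,
      Real.sq_sqrt (hL k), ← y_eq' hc hx k]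
  simp only [h1, h2, h3] at h
  rw [← Finset.mul_sum, mul_pow] at h
  exact h

/-- The exact identity behind (I). -/
private theorem CC_ge {c : Fin B → ℝ} (hc : ∀ k, 0 ≤ c k ∧ c k < 1) (n : Md B) {x : ℝ}
    (hx : x ∈ Set.Icc (-1 : ℝ) 1) :
    (((∑ k, nk n k : ℕ) : ℝ) - 1) * SS c (nk n) x +
        ∑ k, ((nk n k : ℝ) ^ 2 - ek n k ^ 2) / (nk n k : ℝ) *
          ((La c x k - 1) * SS c (nk n) x) ≤ CC c n x := by
  have h := charge_le hc n hx
  have e1 : ∑ k, ((nk n k : ℝ) ^ 2 - ek n k ^ 2) / (nk n k : ℝ) *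
      ((La c x k - 1) * SS c (nk n) x) =
      SS c (nk n) x * (SS c (nk n) x - ((∑ k, nk n k : ℕ) : ℝ)) -
        SS c (nk n) x * ∑ k, ek n k ^ 2 / (nk n k : ℝ) * (La c x k - 1) := by
    have e2 : SS c (nk n) x - ((∑ k, nk n k : ℕ) : ℝ) =
        ∑ k, (nk n k : ℝ) * (La c x k - 1) := by
      unfold SS
      push_cast
      rw [← Finset.sum_sub_distrib]
      exact Finset.sum_congr rfl fun k _ => by ring
    rw [e2, Finset.mul_sum, Finset.mul_sum, ← Finset.sum_sub_distrib]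
    refine Finset.sum_congr rfl fun k _ => ?_
    rcases Nat.eq_zero_or_pos (nk n k) with h0 | h0
    · rw [h0]
      simp
    · have hp : (nk n k : ℝ) ≠ 0 := by exact_mod_cast h0.ne'
      field_simp
  rw [e1]
  unfold CC
  linarith

theorem scheme_one {c : Fin B → ℝ} (hc : ∀ k, 0 ≤ c k ∧ c k < 1) (n : Md B) :
    (((∑ k, nk n k : ℕ) : ℝ) - 1) * EE c (SS c (nk n)) +
        ∑ k, ((nk n k : ℝ) ^ 2 - ek n k ^ 2) *
          (EE c (fun x => (La c x k - 1) * SS c (nk n) x) / (nk n k : ℝ)) ≤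
      EE c (CC c n) := by
  have cS := continuousOn_SS hc (nk n)
  have cy : ∀ k, ContinuousOn (fun x => La c x k - 1) (Set.Icc (-1 : ℝ) 1) := fun k =>
    (continuousOn_La hc k).sub continuousOn_const
  have c1 : ContinuousOn (fun x => (((∑ k, nk n k : ℕ) : ℝ) - 1) * SS c (nk n) x)
      (Set.Icc (-1 : ℝ) 1) := continuousOn_const.mul cS
  have c2 : ∀ k ∈ (Finset.univ : Finset (Fin B)), ContinuousOn
      (fun x => ((nk n k : ℝ) ^ 2 - ek n k ^ 2) / (nk n k : ℝ) *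
        ((La c x k - 1) * SS c (nk n) x)) (Set.Icc (-1 : ℝ) 1) := fun k _ =>
    continuousOn_const.mul ((cy k).mul cS)
  have c3 : ContinuousOn (fun x => ∑ k, ((nk n k : ℝ) ^ 2 - ek n k ^ 2) / (nk n k : ℝ) *
        ((La c x k - 1) * SS c (nk n) x)) (Set.Icc (-1 : ℝ) 1) := continuousOn_finsetSum _ c2
  have h := EE_mono hc (c1.add c3) (continuousOn_CC hc n) (fun x hx => CC_ge hc n hx)
  have h' : EE c (fun x => (((∑ k, nk n k : ℕ) : ℝ) - 1) * SS c (nk n) x +
      ∑ k, ((nk n k : ℝ) ^ 2 - ek n k ^ 2) / (nk n k : ℝ) *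
        ((La c x k - 1) * SS c (nk n) x)) ≤ EE c (CC c n) := h
  rw [EE_add c c1 c3, EE_mul, EE_sum c _ c2] at h'
  simp only [EE_mul] at h'
  refine le_trans (le_of_eq ?_) h'
  congr 1
  refine Finset.sum_congr rfl fun k _ => ?_
  have : (fun x => SS c (nk n) x) = SS c (nk n) := rfl
  ring

end Pool.Agent.H35.ISO
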