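import Mathlib
import Pool.Agent.H35.ISO.Defs

set_option autoImplicit false

/-!
# Shf: level shift `n ↦ n + (1,1)_k`, splitting by charge

`mm_up`: `n' = up n k`: `multinomial n' (n_+ + 1)(n_- + 1) = multinomial n (|n|+2)(|n|+1)`
(`Nat.multinomial_spec`), `N_k'² - e_k'² = 4 n'_+ n'_-`.
`sum_up`: `(n, k) ↦ (up n k, k)` is a bijection onto the pairs `(n', k)` with `n'_(k,±) ≥ 1`.
`u1` versions: the same for `ν`; `mm_u1` is `mm_up` for `dbl ν` (`4 (ν_k + 1)²`).
`sum_split`: `ν ↦ dbl ν` is a bijection of `piAntidiag p` onto the charge-free modes of degree `2p`;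
in odd degree there are none (not needed).
-/

open Pool.Agent.H89.CZ

noncomputable section

namespace Pool.Agent.H35.ISO

variable {B : ℕ}

/-! ### Auxiliary facts -/

private lemma mem_lev {N : ℕ} {n : Md B} : n ∈ lev B N ↔ ∑ μ, n μ = N := by
  simp [lev, Finset.mem_piAntidiag]

private lemma mem_anti {p : ℕ} {ν : Fin B → ℕ} :
    ν ∈ (Finset.univ : Finset (Fin B)).piAntidiag p ↔ ∑ k, ν k = p := by
  simp [Finset.mem_piAntidiag]

private lemma sum_delta (k : Fin B) : ∑ μ : Fin B × Bool, (if μ.1 = k then 1 else 0) = 2 := by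
  rw [Fintype.sum_prod_type, Finset.sum_eq_single k]
  · simp
  · intro l _ hl
    simp [hl]
  · intro h
    exact absurd (Finset.mem_univ _) h

private lemma sum_up_val (n : Md B) (k : Fin B) : ∑ μ, up n k μ = ∑ μ, n μ + 2 := by
  unfold up
  rw [Finset.sum_add_distrib, sum_delta]

private lemma prod_delta (n : Md B) (k : Fin B) :
    ∏ μ : Fin B × Bool, (if μ.1 = k then n μ + 1 else 1) =
      (n (k, true) + 1) * (n (k, false) + 1) := by
  rw [Fintype.prod_prod_type, Finset.prod_eq_single k]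
  · simp
  · intro l _ hl
    simp [hl]
  · intro h
    exact absurd (Finset.mem_univ _) h

private lemma prod_fact (n : Md B) (k : Fin B) :
    ∏ μ, (up n k μ).factorial =
      (∏ μ, (n μ).factorial) * ((n (k, true) + 1) * (n (k, false) + 1)) := by
  rw [← prod_delta, ← Finset.prod_mul_distrib]
  refine Finset.prod_congr rfl fun μ _ => ?_
  unfold up
  split_ifs
  · rw [Nat.factorial_succ, mul_comm]
  · rw [add_zero, mul_one]

private lemma multi_up (n : Md B) (k : Fin B) :
    Nat.multinomial Finset.univ (up n k) * ((n (k, true) + 1) * (n (k, false) + 1)) =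
      Nat.multinomial Finset.univ n * ((∑ μ, n μ + 2) * (∑ μ, n μ + 1)) := by
  have h1 := Nat.multinomial_spec Finset.univ (up n k)
  have h2 := Nat.multinomial_spec Finset.univ n
  rw [prod_fact, sum_up_val] at h1
  have h3 : (∑ μ, n μ + 2).factorial = (∑ μ, n μ + 2) * ((∑ μ, n μ + 1) *
      (∑ μ, n μ).factorial) := by
    rw [Nat.factorial_succ, Nat.factorial_succ]
  rw [h3, ← h2] at h1
  have hpos : 0 < ∏ μ, (n μ).factorial := Finset.prod_pos fun μ _ => Nat.factorial_pos _
  apply Nat.eq_of_mul_eq_mul_left hpos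
  calc _ = (∏ μ, (n μ).factorial) * ((n (k, true) + 1) * (n (k, false) + 1)) *
        Nat.multinomial Finset.univ (up n k) := by ring
    _ = _ := by rw [h1]; ring

theorem mm_pos (n : Md B) : 0 < mm n := by
  unfold mm
  have h : 0 < Nat.multinomial Finset.univ n := Nat.multinomial_pos _ _
  positivity

private lemma four_mul (n : Md B) (k : Fin B) :
    (nk n k : ℝ) ^ 2 - ek n k ^ 2 = 4 * ((n (k, true) : ℝ) * n (k, false)) := by
  unfold nk ek
  push_cast
  ring

theorem mm_up {N : ℕ} {n : Md B} (hn : n ∈ lev B N) (k : Fin B) :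
    mm (up n k) * ((nk (up n k) k : ℝ) ^ 2 - ek (up n k) k ^ 2) =
      mm n * (((N : ℝ) + 2) * (N + 1)) := by
  have hN := mem_lev.1 hn
  have h1 := multi_up n k
  rw [hN] at h1
  have h2 : (Nat.multinomial Finset.univ (up n k) : ℝ) *
      (((n (k, true) : ℝ) + 1) * ((n (k, false) : ℝ) + 1)) =
        (Nat.multinomial Finset.univ n : ℝ) * (((N : ℝ) + 2) * ((N : ℝ) + 1)) := by
    exact_mod_cast h1
  rw [four_mul]
  unfold mm
  rw [sum_up_val, hN]
  have h3 : ((up n k (k, true) : ℕ) : ℝ) = (n (k, true) : ℝ) + 1 := by simp [up]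
  have h4 : ((up n k (k, false) : ℕ) : ℝ) = (n (k, false) : ℝ) + 1 := by simp [up]
  rw [h3, h4, pow_add]
  calc _ = (Nat.multinomial Finset.univ (up n k) : ℝ) *
      (((n (k, true) : ℝ) + 1) * ((n (k, false) : ℝ) + 1)) / 2 ^ N := by
        field_simp
        ring
    _ = _ := by rw [h2]; ring

/-- Both exponents of the block `k` decreased by one. -/
private def dn (n : Md B) (k : Fin B) : Md B := fun μ => n μ - if μ.1 = k then 1 else 0

private lemma dn_up (n : Md B) (k : Fin B) : dn (up n k) k = n := by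
  funext μ
  simp [dn, up]

private lemma up_dn {n : Md B} {k : Fin B} (h1 : n (k, true) ≠ 0) (h2 : n (k, false) ≠ 0) :
    up (dn n k) k = n := by
  funext μ
  obtain ⟨l, b⟩ := μ
  by_cases hl : l = k
  · subst hl
    cases b
    · simp only [dn, up, if_true]
      omega
    · simp only [dn, up, if_true]
      omega
  · simp [dn, up, hl]

private lemma sum_up_one (N : ℕ) (k : Fin B) (g : Md B → ℝ)
    (hg : ∀ n : Md B, n (k, true) = 0 ∨ n (k, false) = 0 → g n = 0) :
    ∑ n ∈ lev B N, g (up n k) = ∑ n ∈ lev B (N + 2), g n := by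
  rw [← Finset.sum_filter_of_ne (s := lev B (N + 2))
    (p := fun n : Md B => n (k, true) ≠ 0 ∧ n (k, false) ≠ 0)]
  · refine Finset.sum_nbij' (fun n => up n k) (fun n => dn n k) ?_ ?_ ?_ ?_ ?_
    · intro n hn
      rw [Finset.mem_filter, mem_lev, sum_up_val, mem_lev.1 hn]
      refine ⟨rfl, ?_, ?_⟩ <;> simp [up]
    · intro n hn
      rw [Finset.mem_filter] at hn
      have h1 := up_dn hn.2.1 hn.2.2
      have h2 := sum_up_val (dn n k) k
      rw [h1, mem_lev.1 hn.1] at h2
      rw [mem_lev]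
      omega
    · intro n _
      exact dn_up n k
    · intro n hn
      rw [Finset.mem_filter] at hn
      exact up_dn hn.2.1 hn.2.2
    · intro n _
      rfl
  · intro n _ hne
    constructor
    · intro h
      exact hne (hg n (Or.inl h))
    · intro h
      exact hne (hg n (Or.inr h))

theorem sum_up (N : ℕ) (g : Md B → Fin B → ℝ)
    (hg : ∀ n k, (nk n k : ℝ) ^ 2 - ek n k ^ 2 = 0 → g n k = 0) :
    ∑ n ∈ lev B N, ∑ k, g (up n k) k = ∑ n ∈ lev B (N + 2), ∑ k, g n k := by
  rw [Finset.sum_comm, Finset.sum_comm (s := lev B (N + 2))]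
  refine Finset.sum_congr rfl fun k _ => ?_
  refine sum_up_one N k (fun n => g n k) fun n hn => hg n k ?_
  rw [four_mul]
  rcases hn with h | h <;> simp [h]

/-- The charges are unchanged by `up`. -/
theorem ek_up (n : Md B) (k l : Fin B) : ek (up n k) l = ek n l := by
  unfold ek up
  push_cast
  ring

theorem nk_up (n : Md B) (k l : Fin B) : nk (up n k) l = nk n l + if l = k then 2 else 0 := by
  unfold nk up
  simp only
  split_ifs <;> omega

theorem sum_up_charged (N : ℕ) (g : Md B → Fin B → ℝ)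
    (hg : ∀ n k, (nk n k : ℝ) ^ 2 - ek n k ^ 2 = 0 → g n k = 0) :
    ∑ n ∈ (lev B N).filter (fun n => ∃ k, ek n k ≠ 0), ∑ k, g (up n k) k =
      ∑ n ∈ (lev B (N + 2)).filter (fun n => ∃ k, ek n k ≠ 0), ∑ k, g n k := by
  classical
  have h1 := sum_up N (fun n k => if ∃ l, ek n l ≠ 0 then g n k else 0) (by
    intro n k h
    rw [hg n k h]
    split_ifs <;> rfl)
  simp only [ek_up] at h1
  rw [Finset.sum_filter, Finset.sum_filter]
  refine Eq.trans (Finset.sum_congr rfl fun n _ => ?_)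
    (h1.trans (Finset.sum_congr rfl fun n _ => ?_))
  · by_cases h : ∃ k, ek n k ≠ 0
    · rw [if_pos h]
      exact Finset.sum_congr rfl fun k _ => (if_pos h).symm
    · rw [if_neg h]
      symm
      exact Finset.sum_eq_zero fun k _ => if_neg h
  · by_cases h : ∃ k, ek n k ≠ 0
    · rw [if_pos h]
      exact Finset.sum_congr rfl fun k _ => if_pos h
    · rw [if_neg h]
      exact Finset.sum_eq_zero fun k _ => if_neg h

/-! ### Modes without charge -/

private lemma sum_dbl (ν : Fin B → ℕ) : ∑ μ, dbl ν μ = 2 * ∑ k, ν k := by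
  unfold dbl
  rw [Fintype.sum_prod_type, Finset.mul_sum]
  refine Finset.sum_congr rfl fun k _ => ?_
  simp [two_mul]

private lemma dbl_u1 (ν : Fin B → ℕ) (k : Fin B) : dbl (u1 ν k) = up (dbl ν) k := by
  funext μ
  rfl

theorem mm_u1 {p : ℕ} {ν : Fin B → ℕ} (hν : ν ∈ (Finset.univ : Finset (Fin B)).piAntidiag p)
    (k : Fin B) :
    mm (dbl (u1 ν k)) * (4 * ((ν k : ℝ) + 1) ^ 2) =
      mm (dbl ν) * ((2 * (p : ℝ) + 2) * (2 * p + 1)) := by
  have hl : dbl ν ∈ lev B (2 * p) := by
    rw [mem_lev, sum_dbl, mem_anti.1 hν]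
  have h1 := mm_up hl k
  rw [four_mul] at h1
  have h3 : ((up (dbl ν) k (k, true) : ℕ) : ℝ) = (ν k : ℝ) + 1 := by simp [up, dbl]
  have h4 : ((up (dbl ν) k (k, false) : ℕ) : ℝ) = (ν k : ℝ) + 1 := by simp [up, dbl]
  rw [h3, h4] at h1
  rw [dbl_u1]
  push_cast at h1
  rw [← h1]
  ring

private lemma sum_u1_val (ν : Fin B → ℕ) (k : Fin B) : ∑ l, u1 ν k l = ∑ l, ν l + 1 := by
  unfold u1
  rw [Finset.sum_add_distrib]
  simp

/-- The entry `k` decreased by one. -/
private def d1 (ν : Fin B → ℕ) (k : Fin B) : Fin B → ℕ := fun l => ν l - if l = k then 1 else 0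

private lemma d1_u1 (ν : Fin B → ℕ) (k : Fin B) : d1 (u1 ν k) k = ν := by
  funext l
  simp [d1, u1]

private lemma u1_d1 {ν : Fin B → ℕ} {k : Fin B} (h : ν k ≠ 0) : u1 (d1 ν k) k = ν := by
  funext l
  by_cases hl : l = k
  · subst hl
    simp only [d1, u1, if_true]
    omega
  · simp [d1, u1, hl]

theorem sum_u1 (p : ℕ) (g : (Fin B → ℕ) → Fin B → ℝ) (hg : ∀ ν k, ν k = 0 → g ν k = 0) :
    ∑ ν ∈ (Finset.univ : Finset (Fin B)).piAntidiag p, ∑ k, g (u1 ν k) k =
      ∑ ν ∈ (Finset.univ : Finset (Fin B)).piAntidiag (p + 1), ∑ k, g ν k := by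
  rw [Finset.sum_comm, Finset.sum_comm (s := (Finset.univ : Finset (Fin B)).piAntidiag (p + 1))]
  refine Finset.sum_congr rfl fun k _ => ?_
  rw [← Finset.sum_filter_of_ne (s := (Finset.univ : Finset (Fin B)).piAntidiag (p + 1))
    (p := fun ν : Fin B → ℕ => ν k ≠ 0)]
  · refine Finset.sum_nbij' (fun ν => u1 ν k) (fun ν => d1 ν k) ?_ ?_ ?_ ?_ ?_
    · intro ν hν
      rw [Finset.mem_filter, mem_anti, sum_u1_val, mem_anti.1 hν]
      refine ⟨rfl, ?_⟩
      simp [u1]
    · intro ν hν
      rw [Finset.mem_filter] at hν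
      have h1 := u1_d1 hν.2
      have h2 := sum_u1_val (d1 ν k) k
      rw [h1, mem_anti.1 hν.1] at h2
      rw [mem_anti]
      omega
    · intro ν _
      exact d1_u1 ν k
    · intro ν hν
      rw [Finset.mem_filter] at hν
      exact u1_d1 hν.2
    · intro ν _
      rfl
  · intro ν _ hne h
    exact hne (hg ν k h)

theorem sum_split (p : ℕ) (g : Md B → ℝ) :
    ∑ n ∈ lev B (2 * p), g n =
      ∑ n ∈ (lev B (2 * p)).filter (fun n => ∃ k, ek n k ≠ 0), g n +
        ∑ ν ∈ (Finset.univ : Finset (Fin B)).piAntidiag p, g (dbl ν) := by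
  rw [← Finset.sum_filter_add_sum_filter_not (lev B (2 * p)) (fun n => ∃ k, ek n k ≠ 0)]
  congr 1
  symm
  refine Finset.sum_nbij' (fun ν => dbl ν) (fun n k => n (k, true)) ?_ ?_ ?_ ?_ ?_
  · intro ν hν
    rw [Finset.mem_filter, mem_lev, sum_dbl, mem_anti.1 hν]
    refine ⟨rfl, ?_⟩
    rintro ⟨k, hk⟩
    apply hk
    simp [ek, dbl]
  · intro n hn
    rw [Finset.mem_filter] at hn
    have h0 : ∀ k, n (k, true) = n (k, false) := by
      intro k
      by_contra hne
      apply hn.2
      refine ⟨k, fun h => hne ?_⟩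
      unfold ek at h
      exact_mod_cast sub_eq_zero.1 h
    have h1 : dbl (fun k => n (k, true)) = n := by
      funext μ
      obtain ⟨l, b⟩ := μ
      cases b
      · exact h0 l
      · rfl
    have h2 := sum_dbl fun k => n (k, true)
    rw [h1, mem_lev.1 hn.1] at h2
    rw [mem_anti]
    omega
  · intro ν _
    rfl
  · intro n hn
    rw [Finset.mem_filter] at hn
    have h0 : ∀ k, n (k, true) = n (k, false) := by
      intro k
      by_contra hne
      apply hn.2
      refine ⟨k, fun h => hne ?_⟩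
      unfold ek at h
      exact_mod_cast sub_eq_zero.1 h
    funext μ
    obtain ⟨l, b⟩ := μ
    cases b
    · exact h0 l
    · rfl
  · intro ν _
    rfl

end Pool.Agent.H35.ISO
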