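import Mathlib
import Pool.Agent.H35.ISO.SchT
import Pool.Agent.H35.ISO.Shf

set_option autoImplicit false

/-!
# Nz: the charged modes

`ω(n) = dd p / ((2p+2)(2p+1)) mm n` for `|n| = 2p+2`; for `|n| = 2p ≥ 2`: `dd p mm n = (2p-1)² ω(n)`
(`dd_succ`), `|n| = 0` is charge-free (empty sum).  For a charged `n`, `|n| = 2p ≥ 2`, `N_k = nk n k`:
`‖∑ Λ_k F(up n k)‖² = (∑ Λ_k Re)² + (∑ Λ_k Im)²`, `scheme_two` twice, `∑_k F(up n k) = F n`:
`dd p mm n EE ‖…‖² ≤ (2p-1)² ω(n) (EE S_n/(2p-1)) ‖F n‖² + ∑_k dd p mm n D_k(n) ‖F (up n k)‖²`,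
`D_k(n) = EE[(Λ_k - 1)(S_n + 2Λ_k)]/(N_k + 2) = EE[(Λ_k - 1) S_(n')]/N'_k` with `n' = up n k` (`nk_up`), and
`dd p mm n = ω(n')(N'_k² - e'_k²)` (`mm_up`).  Sum (`sum_up_charged`, the summand vanishes when
`N_k² - e_k² = 0`) and compare coefficients of `ω(n)‖F n‖²`, `2 ≤ |n| ≤ 2M+2`:
`EE CC - [|n| ≤ 2M](|n|-1) EE S_n - ∑_k (N_k² - e_k²) EE[(Λ_k - 1) S_n]/N_k ≥ 0` by `scheme_one`
(`EE_SS_nonneg` for the top level).  `∑_k nk n k = |n|`.
-/

open MeasureTheory Pool.Agent.H89.CZ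
open scoped ComplexConjugate

noncomputable section

namespace Pool.Agent.H35.ISO

variable {B : ℕ}

private theorem Nz_sum_nk (n : Md B) : ∑ k, nk n k = ∑ μ, n μ := by
  rw [Fintype.sum_prod_type]
  refine Finset.sum_congr rfl fun k _ => ?_
  rw [Fintype.sum_bool]
  rfl

private theorem Nz_lev_sum {N : ℕ} {n : Md B} (hn : n ∈ lev B N) : ∑ k, nk n k = N := by
  rw [Nz_sum_nk]
  unfold lev at hn
  rw [Finset.mem_piAntidiag] at hn
  exact hn.1

/-- `EE[(Λ_k - 1) S_n]/N_k`. -/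
private def Hd (c : Fin B → ℝ) (n : Md B) (k : Fin B) : ℝ :=
  EE c (fun x => (La c x k - 1) * SS c (nk n) x) / (nk n k : ℝ)

private theorem Nz_SS_up (c : Fin B → ℝ) (n : Md B) (k : Fin B) (x : ℝ) :
    SS c (nk (up n k)) x = SS c (nk n) x + 2 * La c x k := by
  unfold SS
  simp only [nk_up]
  have h : ∀ l : Fin B, ((nk n l + if l = k then 2 else 0 : ℕ) : ℝ) * La c x l =
      (nk n l : ℝ) * La c x l + if l = k then 2 * La c x l else 0 := by
    intro l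
    split_ifs with h
    · push_cast
      ring
    · push_cast
      ring
  rw [Finset.sum_congr rfl fun l _ => h l, Finset.sum_add_distrib, Finset.sum_ite_eq' Finset.univ k]
  simp

private theorem Nz_Hd_up (c : Fin B → ℝ) (n : Md B) (k : Fin B) :
    Hd c (up n k) k = EE c (fun x => (La c x k - 1) * (SS c (nk n) x + 2 * La c x k)) /
      ((nk n k : ℝ) + 2) := by
  unfold Hd
  have h1 : (fun x => (La c x k - 1) * SS c (nk (up n k)) x) =
      fun x => (La c x k - 1) * (SS c (nk n) x + 2 * La c x k) := by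
    funext x
    rw [Nz_SS_up]
  have h2 : ((nk (up n k) k : ℕ) : ℝ) = (nk n k : ℝ) + 2 := by
    rw [nk_up]
    simp
  rw [h1, h2]

private theorem Nz_sq_norm (c : Fin B → ℝ) (x : ℝ) (z : Fin B → ℂ) :
    ‖∑ k, (La c x k : ℂ) * z k‖ ^ 2 =
      (∑ k, La c x k * (z k).re) ^ 2 + (∑ k, La c x k * (z k).im) ^ 2 := by
  rw [Complex.sq_norm, Complex.normSq_apply, Complex.re_sum, Complex.im_sum]
  have h1 : ∀ k, ((La c x k : ℂ) * z k).re = La c x k * (z k).re := by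
    intro k
    simp
  have h2 : ∀ k, ((La c x k : ℂ) * z k).im = La c x k * (z k).im := by
    intro k
    simp
  simp only [h1, h2]
  ring

private theorem Nz_cont {c : Fin B → ℝ} (hc : ∀ k, 0 ≤ c k ∧ c k < 1) (v : Fin B → ℝ) :
    ContinuousOn (fun x => (∑ k, La c x k * v k) ^ 2) (Set.Icc (-1 : ℝ) 1) := by
  refine ContinuousOn.pow (continuousOn_finsetSum _ fun k _ => ?_) 2
  exact (continuousOn_La hc k).mul continuousOn_const

private theorem Nz_mode {c : Fin B → ℝ} (hc : ∀ k, 0 ≤ c k ∧ c k < 1) (F : Md B → ℂ)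
    (hF : ∀ n, F n = ∑ k, F (up n k)) (n : Md B) (hn : 2 ≤ ∑ k, nk n k) :
    EE c (fun x => ‖∑ k, (La c x k : ℂ) * F (up n k)‖ ^ 2) ≤
      EE c (SS c (nk n)) / (((∑ k, nk n k : ℕ) : ℝ) - 1) * ‖F n‖ ^ 2 +
        ∑ k, Hd c (up n k) k * ‖F (up n k)‖ ^ 2 := by
  have h0 : (fun x => ‖∑ k, (La c x k : ℂ) * F (up n k)‖ ^ 2) =
      fun x => (∑ k, La c x k * (F (up n k)).re) ^ 2 + (∑ k, La c x k * (F (up n k)).im) ^ 2 := by
    funext x
    exact Nz_sq_norm c x fun k => F (up n k)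
  rw [h0, EE_add c (Nz_cont hc _) (Nz_cont hc _)]
  have h1 := scheme_two hc (nk n) hn (fun k => (F (up n k)).re)
  have h2 := scheme_two hc (nk n) hn (fun k => (F (up n k)).im)
  refine (add_le_add h1 h2).trans (le_of_eq ?_)
  have h3 : ‖F n‖ ^ 2 = (∑ k, (F (up n k)).re) ^ 2 + (∑ k, (F (up n k)).im) ^ 2 := by
    rw [Complex.sq_norm, Complex.normSq_apply, hF n, Complex.re_sum, Complex.im_sum]
    ring
  have h4 : ∀ k, Hd c (up n k) k * ‖F (up n k)‖ ^ 2 =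
      EE c (fun x => (La c x k - 1) * (SS c (nk n) x + 2 * La c x k)) / ((nk n k : ℝ) + 2) *
        (F (up n k)).re ^ 2 +
      EE c (fun x => (La c x k - 1) * (SS c (nk n) x + 2 * La c x k)) / ((nk n k : ℝ) + 2) *
        (F (up n k)).im ^ 2 := by
    intro k
    rw [Nz_Hd_up, Complex.sq_norm, Complex.normSq_apply]
    ring
  rw [h3, Finset.sum_congr rfl fun k _ => h4 k, Finset.sum_add_distrib]
  ring

/-- `∑ mm n EE S_n ‖F n‖²` over the charged modes of degree `N`. -/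
private def Tt (c : Fin B → ℝ) (F : Md B → ℂ) (N : ℕ) : ℝ :=
  ∑ n ∈ (lev B N).filter (fun n => ∃ k, ek n k ≠ 0), mm n * EE c (SS c (nk n)) * ‖F n‖ ^ 2

private def Aa (c : Fin B → ℝ) (F : Md B → ℂ) (N : ℕ) : ℝ :=
  ∑ n ∈ (lev B N).filter (fun n => ∃ k, ek n k ≠ 0), mm n * EE c (CC c n) * ‖F n‖ ^ 2

private def Bb (c : Fin B → ℝ) (F : Md B → ℂ) (N : ℕ) : ℝ :=
  ∑ n ∈ (lev B N).filter (fun n => ∃ k, ek n k ≠ 0), mm n *
    EE c (fun x => ‖∑ k, (La c x k : ℂ) * F (up n k)‖ ^ 2)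

private def Dd (c : Fin B → ℝ) (F : Md B → ℂ) (N : ℕ) : ℝ :=
  ∑ n ∈ (lev B N).filter (fun n => ∃ k, ek n k ≠ 0), ∑ k,
    mm n * ((nk n k : ℝ) ^ 2 - ek n k ^ 2) * Hd c n k * ‖F n‖ ^ 2

private theorem Tt_nonneg {c : Fin B → ℝ} (hc : ∀ k, 0 ≤ c k ∧ c k < 1) (F : Md B → ℂ) (N : ℕ) :
    0 ≤ Tt c F N := by
  unfold Tt
  refine Finset.sum_nonneg fun n _ => ?_
  exact mul_nonneg (mul_nonneg (mm_pos n).le (EE_SS_nonneg hc _)) (sq_nonneg _)

/-- `scheme_one` summed. -/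
private theorem Aa_ge {c : Fin B → ℝ} (hc : ∀ k, 0 ≤ c k ∧ c k < 1) (F : Md B → ℂ) (N : ℕ) :
    ((N : ℝ) - 1) * Tt c F N + Dd c F N ≤ Aa c F N := by
  unfold Tt Dd Aa
  rw [Finset.mul_sum, ← Finset.sum_add_distrib]
  refine Finset.sum_le_sum fun n hn => ?_
  have hn1 := Nz_lev_sum (Finset.mem_filter.mp hn).1
  have h := scheme_one hc n
  rw [hn1] at h
  have hpos : 0 ≤ mm n * ‖F n‖ ^ 2 := mul_nonneg (mm_pos n).le (sq_nonneg _)
  have h2 := mul_le_mul_of_nonneg_left h hpos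
  have h3 : mm n * ‖F n‖ ^ 2 * (((N : ℝ) - 1) * EE c (SS c (nk n)) +
        ∑ k, ((nk n k : ℝ) ^ 2 - ek n k ^ 2) *
          (EE c (fun x => (La c x k - 1) * SS c (nk n) x) / (nk n k : ℝ))) =
      ((N : ℝ) - 1) * (mm n * EE c (SS c (nk n)) * ‖F n‖ ^ 2) +
        ∑ k, mm n * ((nk n k : ℝ) ^ 2 - ek n k ^ 2) * Hd c n k * ‖F n‖ ^ 2 := by
    rw [mul_add, Finset.mul_sum]
    congr 1
    · ring
    · refine Finset.sum_congr rfl fun k _ => ?_
      unfold Hd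
      ring
  rw [h3] at h2
  refine h2.trans (le_of_eq ?_)
  ring

private theorem Nz_empty : (lev B 0).filter (fun n => ∃ k, ek n k ≠ 0) = ∅ := by
  refine Finset.filter_eq_empty_iff.mpr fun n h1 => ?_
  rintro ⟨k, hk⟩
  have h2 := Nz_lev_sum h1
  have h3 : nk n k = 0 := by
    have := Finset.single_le_sum (f := fun k => nk n k) (fun k _ => Nat.zero_le _)
      (Finset.mem_univ k)
    omega
  apply hk
  unfold nk at h3
  have h4 : n (k, true) = 0 := by omega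
  have h5 : n (k, false) = 0 := by omega
  unfold ek
  rw [h4, h5]
  simp

private theorem Bb_zero (c : Fin B → ℝ) (F : Md B → ℂ) : Bb c F 0 = 0 := by
  unfold Bb
  rw [Nz_empty, Finset.sum_empty]

private theorem Dd_shift (c : Fin B → ℝ) (F : Md B → ℂ) (N : ℕ) :
    Dd c F (N + 2) = ∑ n ∈ (lev B N).filter (fun n => ∃ k, ek n k ≠ 0), ∑ k,
        mm (up n k) * ((nk (up n k) k : ℝ) ^ 2 - ek (up n k) k ^ 2) * Hd c (up n k) k *
          ‖F (up n k)‖ ^ 2 := by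
  have h1 := sum_up_charged (B := B) N
    (fun n k => mm n * ((nk n k : ℝ) ^ 2 - ek n k ^ 2) * Hd c n k * ‖F n‖ ^ 2) (by
      intro n k h
      rw [h]
      ring)
  unfold Dd
  exact h1.symm

private theorem Dd_two (c : Fin B → ℝ) (F : Md B → ℂ) : Dd c F 2 = 0 := by
  have h := Dd_shift c F 0
  rw [Nz_empty, Finset.sum_empty] at h
  exact h

/-- `scheme_two` summed. -/
private theorem Bb_le {c : Fin B → ℝ} (hc : ∀ k, 0 ≤ c k ∧ c k < 1) (F : Md B → ℂ)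
    (hF : ∀ n, F n = ∑ k, F (up n k)) (N : ℕ) (hN : 2 ≤ N) :
    Bb c F N ≤ Tt c F N / ((N : ℝ) - 1) + Dd c F (N + 2) / (((N : ℝ) + 2) * (N + 1)) := by
  have hN1 : (0 : ℝ) < ((N : ℝ) + 2) * (N + 1) := by positivity
  -- the shift
  have hs : ∑ n ∈ (lev B N).filter (fun n => ∃ k, ek n k ≠ 0), mm n *
      (∑ k, Hd c (up n k) k * ‖F (up n k)‖ ^ 2) =
      Dd c F (N + 2) / (((N : ℝ) + 2) * (N + 1)) := by
    rw [Dd_shift, eq_div_iff hN1.ne', Finset.sum_mul]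
    refine Finset.sum_congr rfl fun n hn => ?_
    rw [Finset.mul_sum, Finset.sum_mul]
    refine Finset.sum_congr rfl fun k _ => ?_
    rw [mm_up (Finset.mem_filter.mp hn).1 k]
    ring
  rw [← hs]
  unfold Bb Tt
  rw [Finset.sum_div, ← Finset.sum_add_distrib]
  refine Finset.sum_le_sum fun n hn => ?_
  have hn1 := Nz_lev_sum (Finset.mem_filter.mp hn).1
  have h := Nz_mode hc F hF n (by rw [hn1]; exact hN)
  rw [hn1] at h
  have h2 := mul_le_mul_of_nonneg_left h (mm_pos n).le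
  refine h2.trans (le_of_eq ?_)
  ring

private theorem Nz_arith {m d d1 T1 T2 D2 A2 B2 S : ℝ} (hm : 0 ≤ m) (hd1 : 0 < d1)
    (hds : d1 = d * ((2 * m + 1) / (2 * m + 2)))
    (h1 : (2 * (m + 1) + 2 - 1) * T2 + D2 ≤ A2)
    (h2 : B2 ≤ T1 / (2 * (m + 1) - 1) + D2 / ((2 * (m + 1) + 2) * (2 * (m + 1) + 1)))
    (ih : d / ((2 * m + 2) * (2 * m + 1)) * ((2 * m + 1) * T1) ≤ S) :
    d1 / ((2 * (m + 1) + 2) * (2 * (m + 1) + 1)) * ((2 * (m + 1) + 1) * T2) ≤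
      S + (d1 / ((2 * (m + 1) + 2) * (2 * (m + 1) + 1)) * A2 - d1 * B2) := by
  have hw : 0 ≤ d1 / ((2 * (m + 1) + 2) * (2 * (m + 1) + 1)) := by positivity
  have k1 := mul_le_mul_of_nonneg_left h1 hw
  have k2 := mul_le_mul_of_nonneg_left h2 hd1.le
  have q2 : (2 * m + 1) ≠ 0 := by positivity
  have q3 : (2 * m + 2) ≠ 0 := by positivity
  have q6 : 2 * (m + 1) - 1 = 2 * m + 1 := by ring
  have q7 : d1 * (T1 / (2 * m + 1)) = d / ((2 * m + 2) * (2 * m + 1)) * ((2 * m + 1) * T1) := by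
    rw [hds]
    field_simp
  have q8 : d1 * (D2 / ((2 * (m + 1) + 2) * (2 * (m + 1) + 1))) =
      d1 / ((2 * (m + 1) + 2) * (2 * (m + 1) + 1)) * D2 := by ring
  rw [q6, mul_add, q7, q8] at k2
  have k4 : d1 / ((2 * (m + 1) + 2) * (2 * (m + 1) + 1)) * ((2 * (m + 1) + 2 - 1) * T2 + D2) =
      d1 / ((2 * (m + 1) + 2) * (2 * (m + 1) + 1)) * ((2 * (m + 1) + 1) * T2) +
        d1 / ((2 * (m + 1) + 2) * (2 * (m + 1) + 1)) * D2 := by ring
  rw [k4] at k1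
  linarith

private theorem Nz_step {c : Fin B → ℝ} (hc : ∀ k, 0 ≤ c k ∧ c k < 1) (F : Md B → ℂ)
    (hF : ∀ n, F n = ∑ k, F (up n k)) (M : ℕ) :
    dd M / ((2 * M + 2) * (2 * M + 1)) * ((2 * (M : ℝ) + 1) * Tt c F (2 * M + 2)) ≤
      ∑ p ∈ Finset.range (M + 1), (dd p / ((2 * p + 2) * (2 * p + 1)) * Aa c F (2 * p + 2) -
        dd p * Bb c F (2 * p)) := by
  induction M with
  | zero =>
    rw [Finset.sum_range_one]
    have h1 := Aa_ge hc F 2
    simp only [Nat.cast_zero, Nat.cast_ofNat, mul_zero, zero_add, mul_one, one_mul] at h1 ⊢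
    rw [Dd_two c F] at h1
    rw [Bb_zero c F]
    have h4 : (0 : ℝ) < dd 0 / 2 := by
      have := dd_pos 0
      positivity
    have h5 : Tt c F 2 ≤ Aa c F 2 := by linarith
    have := mul_le_mul_of_nonneg_left h5 h4.le
    linarith
  | succ M ih =>
    rw [Finset.sum_range_succ]
    have h1 := Aa_ge hc F (2 * (M + 1) + 2)
    have h2 := Bb_le hc F hF (2 * (M + 1)) (by omega)
    push_cast at h1 h2 ⊢
    exact Nz_arith (Nat.cast_nonneg M) (dd_pos (M + 1)) (dd_succ M) h1 h2 ih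

theorem nz_nonneg {c : Fin B → ℝ} (hc : ∀ k, 0 ≤ c k ∧ c k < 1) (M : ℕ) (F : Md B → ℂ)
    (hF : ∀ n, F n = ∑ k, F (up n k)) :
    0 ≤ ∑ p ∈ Finset.range (M + 1), (dd p / ((2 * p + 2) * (2 * p + 1)) *
          ∑ n ∈ (lev B (2 * p + 2)).filter (fun n => ∃ k, ek n k ≠ 0),
            mm n * EE c (CC c n) * ‖F n‖ ^ 2 -
        dd p * ∑ n ∈ (lev B (2 * p)).filter (fun n => ∃ k, ek n k ≠ 0), mm n *
          EE c (fun x => ‖∑ k, (La c x k : ℂ) * F (up n k)‖ ^ 2)) := by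
  have h := Nz_step hc F hF M
  have h1 : 0 ≤ dd M / ((2 * M + 2) * (2 * M + 1)) * ((2 * (M : ℝ) + 1) * Tt c F (2 * M + 2)) := by
    have h2 := dd_pos M
    have h3 := Tt_nonneg hc F (2 * M + 2)
    positivity
  exact h1.trans h

end Pool.Agent.H35.ISO
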