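import Mathlib
import Pool.Agent.H35.ISO.Defs

set_option autoImplicit false

/-!
# Zaf: `Zf` is affine in each `γ_k`

`G1 γ k`, `G2 γ k l` are affine in each coordinate of `γ` (integral of a product in which each
`1 - x² γ_j` occurs at most once; the integrands are polynomials in `x`), so `Zf` is:
`Zf (update γ k s) = (1 - s) Zf (update γ k 0) + s Zf (update γ k 1)`.  Induction on the number of
coordinates not in `{0, 1}` (or `Finset` induction on the set of coordinates already replaced).
-/

open MeasureTheory Pool.Agent.H89.CZ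

noncomputable section

namespace Pool.Agent.H35.ISO

variable {B : ℕ}

/-- `F` is affine in the coordinate `k` -/
private def Aff (k : Fin B) (F : (Fin B → ℝ) → ℝ) : Prop :=
  ∀ (γ : Fin B → ℝ) (s : ℝ), F (Function.update γ k s) =
    (1 - s) * F (Function.update γ k 0) + s * F (Function.update γ k 1)

private theorem Aff.sum {k : Fin B} {ι : Type*} (S : Finset ι) (F : ι → (Fin B → ℝ) → ℝ)
    (h : ∀ i ∈ S, Aff k (F i)) : Aff k (fun γ => ∑ i ∈ S, F i γ) := by
  intro γ s
  show ∑ i ∈ S, F i (Function.update γ k s) = (1 - s) * ∑ i ∈ S, F i (Function.update γ k 0) +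
    s * ∑ i ∈ S, F i (Function.update γ k 1)
  rw [Finset.mul_sum, Finset.mul_sum, ← Finset.sum_add_distrib]
  exact Finset.sum_congr rfl fun i hi => h i hi γ s

private theorem Aff.mul {k : Fin B} {F : (Fin B → ℝ) → ℝ} (h : Aff k F) (c : ℝ) :
    Aff k (fun γ => c * F γ) := by
  intro γ s
  show c * F (Function.update γ k s) = (1 - s) * (c * F (Function.update γ k 0)) +
    s * (c * F (Function.update γ k 1))
  rw [h γ s]
  ring

private theorem Aff.mulr {k : Fin B} {F : (Fin B → ℝ) → ℝ} (h : Aff k F) (c : ℝ) :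
    Aff k (fun γ => F γ * c) := by
  intro γ s
  show F (Function.update γ k s) * c = (1 - s) * (F (Function.update γ k 0) * c) +
    s * (F (Function.update γ k 1) * c)
  rw [h γ s]
  ring

private theorem Aff.sub {k : Fin B} {F G : (Fin B → ℝ) → ℝ} (h : Aff k F) (h' : Aff k G) :
    Aff k (fun γ => F γ - G γ) := by
  intro γ s
  show F (Function.update γ k s) - G (Function.update γ k s) =
    (1 - s) * (F (Function.update γ k 0) - G (Function.update γ k 0)) +
    s * (F (Function.update γ k 1) - G (Function.update γ k 1))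
  rw [h γ s, h' γ s]
  ring

private theorem aff_prod (k : Fin B) (S : Finset (Fin B)) (x : ℝ) :
    Aff k (fun γ => ∏ l ∈ S, (1 - x ^ 2 * γ l)) := by
  intro γ s
  show ∏ l ∈ S, (1 - x ^ 2 * Function.update γ k s l) =
    (1 - s) * ∏ l ∈ S, (1 - x ^ 2 * Function.update γ k 0 l) +
    s * ∏ l ∈ S, (1 - x ^ 2 * Function.update γ k 1 l)
  by_cases hk : k ∈ S
  · have h : ∀ r : ℝ, ∏ l ∈ S, (1 - x ^ 2 * Function.update γ k r l) =
        (1 - x ^ 2 * r) * ∏ l ∈ S.erase k, (1 - x ^ 2 * γ l) := by
      intro r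
      rw [← Finset.mul_prod_erase S _ hk, Function.update_self]
      congr 1
      refine Finset.prod_congr rfl fun l hl => ?_
      rw [Function.update_of_ne (Finset.ne_of_mem_erase hl)]
    rw [h, h, h]
    ring
  · have h : ∀ r : ℝ, ∏ l ∈ S, (1 - x ^ 2 * Function.update γ k r l) =
        ∏ l ∈ S, (1 - x ^ 2 * γ l) := by
      intro r
      refine Finset.prod_congr rfl fun l hl => ?_
      have hlk : l ≠ k := fun e => hk (by rw [← e]; exact hl)
      rw [Function.update_of_ne hlk]
    rw [h, h, h]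
    ring

private theorem aff_int (k : Fin B) (S : Finset (Fin B)) :
    Aff k (fun γ => ∫ x in (-1 : ℝ)..1, ∏ l ∈ S, (1 - x ^ 2 * γ l)) := by
  intro γ s
  show (∫ x in (-1 : ℝ)..1, ∏ l ∈ S, (1 - x ^ 2 * Function.update γ k s l)) =
    (1 - s) * (∫ x in (-1 : ℝ)..1, ∏ l ∈ S, (1 - x ^ 2 * Function.update γ k 0 l)) +
    s * (∫ x in (-1 : ℝ)..1, ∏ l ∈ S, (1 - x ^ 2 * Function.update γ k 1 l))
  have hc : ∀ g : Fin B → ℝ, IntervalIntegrable (fun x : ℝ => ∏ l ∈ S, (1 - x ^ 2 * g l))
      volume (-1) 1 := fun g => (by fun_prop : Continuous fun x : ℝ =>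
        ∏ l ∈ S, (1 - x ^ 2 * g l)).intervalIntegrable _ _
  rw [← intervalIntegral.integral_const_mul, ← intervalIntegral.integral_const_mul,
    ← intervalIntegral.integral_add ((hc _).const_mul _) ((hc _).const_mul _)]
  exact intervalIntegral.integral_congr fun x _ => aff_prod k S x γ s

private theorem aff_G1 (k j : Fin B) : Aff k (fun γ => G1 γ j) := aff_int k _

private theorem aff_G2 (k j l : Fin B) : Aff k (fun γ => G2 γ j l) := aff_int k _

private theorem aff_Zf (k : Fin B) (M : ℕ) (f : (Fin B → ℕ) → ℝ) : Aff k (fun γ => Zf γ M f) := by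
  unfold Zf
  refine Aff.sum _ _ fun p _ => Aff.sub ?_ ?_
  · refine Aff.mul (Aff.sum _ _ fun ν _ => Aff.mul (Aff.sub ?_ ?_) _) _
    · exact Aff.sum _ _ fun j _ => Aff.sum _ _ fun l _ => Aff.mul (aff_G2 k j l) _
    · exact Aff.sum _ _ fun j _ => Aff.mul (aff_G1 k j) _
  · refine Aff.mul (Aff.sum _ _ fun ν _ => Aff.mul ?_ _) _
    exact Aff.sum _ _ fun j _ => Aff.sum _ _ fun l _ => Aff.mulr (aff_G2 k j l) _

theorem zf_of_vert (M : ℕ) (f : (Fin B → ℕ) → ℝ)
    (h : ∀ Z : Finset (Fin B), 0 ≤ Zf (fun k => if k ∈ Z then 1 else 0) M f)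
    {γ : Fin B → ℝ} (hγ : ∀ k, 0 ≤ γ k ∧ γ k ≤ 1) : 0 ≤ Zf γ M f := by
  have key : ∀ (S : Finset (Fin B)) (γ : Fin B → ℝ), (∀ k, 0 ≤ γ k ∧ γ k ≤ 1) →
      (∀ k, k ∉ S → γ k = 0 ∨ γ k = 1) → 0 ≤ Zf γ M f := by
    intro S
    induction S using Finset.induction_on with
    | empty =>
      intro γ _ h1
      have h2 : γ = fun k => if k ∈ Finset.univ.filter (fun k => γ k = 1) then 1 else 0 := by
        funext k
        by_cases h3 : γ k = 1
        · simp [h3]
        · rcases h1 k (Finset.notMem_empty k) with h4 | h4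
          · simp [h4]
          · exact absurd h4 h3
      rw [h2]
      exact h _
    | insert k S hk ih =>
      intro γ h0 h1
      have h2 := aff_Zf k M f γ (γ k)
      simp only [Function.update_eq_self] at h2
      rw [h2]
      have h3 : ∀ r : ℝ, (r = 0 ∨ r = 1) → 0 ≤ Zf (Function.update γ k r) M f := by
        intro r hr
        have hr1 : 0 ≤ r ∧ r ≤ 1 := by
          rcases hr with e | e <;> rw [e] <;> norm_num
        refine ih _ (fun j => ?_) (fun j hj => ?_)
        · by_cases hjk : j = k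
          · rw [hjk, Function.update_self]
            exact hr1
          · rw [Function.update_of_ne hjk]
            exact h0 j
        · by_cases hjk : j = k
          · rw [hjk, Function.update_self]
            exact hr
          · rw [Function.update_of_ne hjk]
            exact h1 j (fun hm => (Finset.mem_insert.1 hm).elim hjk hj)
      have h4 := h3 0 (Or.inl rfl)
      have h5 := h3 1 (Or.inr rfl)
      have h6 := h0 k
      have h7 : 0 ≤ (1 - γ k) * Zf (Function.update γ k 0) M f :=
        mul_nonneg (by linarith [h6.2]) h4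
      have h8 : 0 ≤ γ k * Zf (Function.update γ k 1) M f := mul_nonneg h6.1 h5
      linarith
  exact key Finset.univ γ hγ (fun k hk => absurd (Finset.mem_univ k) hk)

end Pool.Agent.H35.ISO
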