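import Mathlib
import Pool.Agent.H35.ISO.SchT
import Pool.Agent.H35.ISO.Shf

set_option autoImplicit false

/-!
# Zeq: cancellation of the terms `Λ_k²` in the charge-free part

`S = ∑ 2 ν_k Λ_k`: `EE S² = ∑ 4 ν_k² EE Λ_k² + ∑_{k ≠ l} 4 ν_k ν_l EE(Λ_k Λ_l)`,
`EE Λ_k = G1 (c²) k`, `EE (Λ_k Λ_l) = G2 (c²) k l` for `k ≠ l` (`Px Λ_k = ∏_{l ≠ k}`, `1 - x² c_k² > 0` on
`[-1,1]`, `dk_pos`).  Second sum: the diagonal part is
`dd p ∑_{|ν| = p} ∑_k mm (dbl ν) EE Λ_k² f(u1 ν k)²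
 = dd p/((2p+2)(2p+1)) ∑_{|ν'| = p+1} ∑_k mm (dbl ν') 4 ν'_k² EE Λ_k² f(ν')²` (`mm_u1`, `sum_u1`).
-/

open MeasureTheory Pool.Agent.H89.CZ

noncomputable section

namespace Pool.Agent.H35.ISO

variable {B : ℕ}

private lemma Px_erase (c : Fin B → ℝ) (x : ℝ) (k : Fin B) :
    Px c x = (1 - x ^ 2 * c k ^ 2) * ∏ l ∈ Finset.univ.erase k, (1 - x ^ 2 * c l ^ 2) := by
  unfold Px
  exact (Finset.mul_prod_erase Finset.univ (fun l => 1 - x ^ 2 * c l ^ 2)
    (Finset.mem_univ k)).symm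

private lemma Px_erase2 (c : Fin B → ℝ) (x : ℝ) {k l : Fin B} (hl : l ∈ Finset.univ.erase k) :
    Px c x = (1 - x ^ 2 * c k ^ 2) * ((1 - x ^ 2 * c l ^ 2) *
      ∏ j ∈ (Finset.univ.erase k).erase l, (1 - x ^ 2 * c j ^ 2)) := by
  rw [Px_erase c x k, Finset.mul_prod_erase _ (fun l => 1 - x ^ 2 * c l ^ 2) hl]

private lemma mem_Icc_of {x : ℝ} (hx : x ∈ Set.uIcc (-1 : ℝ) 1) : x ∈ Set.Icc (-1 : ℝ) 1 := by
  rwa [Set.uIcc_of_le (by norm_num)] at hx

private lemma EE_La {c : Fin B → ℝ} (hc : ∀ k, 0 ≤ c k ∧ c k < 1) (k : Fin B) :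
    EE c (fun x => La c x k) = G1 (fun k => c k ^ 2) k := by
  unfold EE G1
  refine intervalIntegral.integral_congr fun x hx => ?_
  have h := dk_pos hc (mem_Icc_of hx) k
  simp only
  rw [Px_erase c x k]
  unfold La
  rw [← mul_assoc, one_div, inv_mul_cancel₀ h.ne', one_mul]

private lemma EE_LaLa {c : Fin B → ℝ} (hc : ∀ k, 0 ≤ c k ∧ c k < 1) {k l : Fin B}
    (hl : l ∈ Finset.univ.erase k) :
    EE c (fun x => La c x k * La c x l) = G2 (fun k => c k ^ 2) k l := by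
  unfold EE G2
  refine intervalIntegral.integral_congr fun x hx => ?_
  have h := dk_pos hc (mem_Icc_of hx) k
  have h' := dk_pos hc (mem_Icc_of hx) l
  simp only
  rw [Px_erase2 c x hl]
  unfold La
  field_simp

private lemma sq_expand (y v : Fin B → ℝ) :
    (∑ k, y k * v k) ^ 2 = ∑ k, v k ^ 2 * y k ^ 2 +
      ∑ k, ∑ l ∈ Finset.univ.erase k, (v k * v l) * (y k * y l) := by
  rw [sq, Finset.sum_mul_sum, ← Finset.sum_add_distrib]
  refine Finset.sum_congr rfl fun k _ => ?_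
  rw [← Finset.add_sum_erase Finset.univ (fun j => y k * v k * (y j * v j)) (Finset.mem_univ k)]
  congr 1
  · ring
  · refine Finset.sum_congr rfl fun l _ => ?_
    ring

private lemma EE_sq {c : Fin B → ℝ} (hc : ∀ k, 0 ≤ c k ∧ c k < 1) (v : Fin B → ℝ) :
    EE c (fun x => (∑ k, La c x k * v k) ^ 2) =
      ∑ k, v k ^ 2 * EE c (fun x => La c x k ^ 2) +
        ∑ k, ∑ l ∈ Finset.univ.erase k, (v k * v l) * G2 (fun k => c k ^ 2) k l := by
  have h1 : (fun x => (∑ k, La c x k * v k) ^ 2) = fun x =>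
      (∑ k, v k ^ 2 * La c x k ^ 2) +
        ∑ k, ∑ l ∈ Finset.univ.erase k, (v k * v l) * (La c x k * La c x l) := by
    funext x
    exact sq_expand _ _
  have hL := fun k => continuousOn_La hc k
  have c1 : ∀ k, ContinuousOn (fun x => v k ^ 2 * La c x k ^ 2) (Set.Icc (-1 : ℝ) 1) :=
    fun k => ((hL k).pow 2).const_mul _
  have c2 : ∀ k l, ContinuousOn (fun x => (v k * v l) * (La c x k * La c x l))
      (Set.Icc (-1 : ℝ) 1) := fun k l => ((hL k).mul (hL l)).const_mul _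
  have c3 : ∀ k, ContinuousOn (fun x => ∑ l ∈ Finset.univ.erase k,
      (v k * v l) * (La c x k * La c x l)) (Set.Icc (-1 : ℝ) 1) :=
    fun k => continuousOn_finsetSum _ fun l _ => c2 k l
  rw [h1, EE_add c (continuousOn_finsetSum _ fun k _ => c1 k)
    (continuousOn_finsetSum _ fun k _ => c3 k),
    EE_sum c Finset.univ (fun k _ => c1 k), EE_sum c Finset.univ (fun k _ => c3 k)]
  congr 1
  · refine Finset.sum_congr rfl fun k _ => ?_
    exact EE_mul c _ _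
  · refine Finset.sum_congr rfl fun k _ => ?_
    rw [EE_sum c _ (fun l _ => c2 k l)]
    refine Finset.sum_congr rfl fun l hl => ?_
    rw [EE_mul c, EE_LaLa hc hl]

private lemma SS_eq (c : Fin B → ℝ) (ν : Fin B → ℕ) (x : ℝ) :
    SS c (fun k => 2 * ν k) x = ∑ k, La c x k * (2 * (ν k : ℝ)) := by
  unfold SS
  refine Finset.sum_congr rfl fun k _ => ?_
  push_cast
  ring

private lemma EE_lin {c : Fin B → ℝ} (hc : ∀ k, 0 ≤ c k ∧ c k < 1) (v : Fin B → ℝ) :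
    EE c (fun x => ∑ k, La c x k * v k) = ∑ k, v k * G1 (fun k => c k ^ 2) k := by
  have hL := fun k => continuousOn_La hc k
  have h1 : (fun x => ∑ k, La c x k * v k) = fun x => ∑ k, v k * La c x k := by
    funext x
    exact Finset.sum_congr rfl fun k _ => mul_comm _ _
  rw [h1, EE_sum c Finset.univ (fun k _ => (hL k).const_mul _)]
  refine Finset.sum_congr rfl fun k _ => ?_
  rw [EE_mul c, EE_La hc]

private lemma EE_SS {c : Fin B → ℝ} (hc : ∀ k, 0 ≤ c k ∧ c k < 1) (ν : Fin B → ℕ) :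
    EE c (fun x => SS c (fun k => 2 * ν k) x ^ 2 - SS c (fun k => 2 * ν k) x) =
      ∑ k, 4 * (ν k : ℝ) ^ 2 * EE c (fun x => La c x k ^ 2) +
        ((∑ k, ∑ l ∈ Finset.univ.erase k,
            4 * (ν k : ℝ) * ν l * G2 (fun k => c k ^ 2) k l) -
          ∑ k, 2 * (ν k : ℝ) * G1 (fun k => c k ^ 2) k) := by
  have hL := fun k => continuousOn_La hc k
  have hS : ContinuousOn (fun x => ∑ k, La c x k * (2 * (ν k : ℝ))) (Set.Icc (-1 : ℝ) 1) :=
    continuousOn_finsetSum _ fun k _ => (hL k).mul_const _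
  have hS2 : ContinuousOn (fun x => (∑ k, La c x k * (2 * (ν k : ℝ))) ^ 2)
      (Set.Icc (-1 : ℝ) 1) := hS.pow 2
  simp only [SS_eq]
  rw [EE_sub c hS2 hS, EE_sq hc, EE_lin hc, add_sub_assoc]
  congr 1
  · refine Finset.sum_congr rfl fun k _ => ?_
    ring
  · congr 1
    refine Finset.sum_congr rfl fun k _ => Finset.sum_congr rfl fun l _ => ?_
    ring

private lemma diag {c : Fin B → ℝ} (p : ℕ) (f : (Fin B → ℕ) → ℝ) :
    ∑ ν ∈ (Finset.univ : Finset (Fin B)).piAntidiag p, mm (dbl ν) *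
        ∑ k, f (u1 ν k) ^ 2 * EE c (fun x => La c x k ^ 2) =
      1 / ((2 * (p : ℝ) + 2) * (2 * p + 1)) *
        ∑ ν ∈ (Finset.univ : Finset (Fin B)).piAntidiag (p + 1), mm (dbl ν) *
          (∑ k, 4 * (ν k : ℝ) ^ 2 * EE c (fun x => La c x k ^ 2)) * f ν ^ 2 := by
  have h0 : (2 * (p : ℝ) + 2) * (2 * p + 1) ≠ 0 := by positivity
  have h1 := sum_u1 p (fun ν k => mm (dbl ν) * (4 * (ν k : ℝ) ^ 2) *
    EE c (fun x => La c x k ^ 2) * f ν ^ 2) (by
      intro ν k h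
      simp [h])
  have h2 : ∑ ν ∈ (Finset.univ : Finset (Fin B)).piAntidiag (p + 1), mm (dbl ν) *
          (∑ k, 4 * (ν k : ℝ) ^ 2 * EE c (fun x => La c x k ^ 2)) * f ν ^ 2 =
      ∑ ν ∈ (Finset.univ : Finset (Fin B)).piAntidiag (p + 1), ∑ k, mm (dbl ν) *
        (4 * (ν k : ℝ) ^ 2) * EE c (fun x => La c x k ^ 2) * f ν ^ 2 := by
    refine Finset.sum_congr rfl fun ν _ => ?_
    rw [Finset.mul_sum, Finset.sum_mul]
    refine Finset.sum_congr rfl fun k _ => ?_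
    ring
  rw [h2, ← h1, Finset.mul_sum]
  refine Finset.sum_congr rfl fun ν hν => ?_
  rw [Finset.mul_sum, Finset.mul_sum]
  refine Finset.sum_congr rfl fun k _ => ?_
  have h3 := mm_u1 hν k
  have h4 : ((u1 ν k k : ℕ) : ℝ) = (ν k : ℝ) + 1 := by simp [u1]
  rw [h4, h3]
  field_simp

theorem z_eq {c : Fin B → ℝ} (hc : ∀ k, 0 ≤ c k ∧ c k < 1) (M : ℕ) (f : (Fin B → ℕ) → ℝ) :
    ∑ p ∈ Finset.range (M + 1), (dd p / ((2 * p + 2) * (2 * p + 1)) *
          ∑ ν ∈ (Finset.univ : Finset (Fin B)).piAntidiag (p + 1), mm (dbl ν) *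
            EE c (fun x => SS c (fun k => 2 * ν k) x ^ 2 - SS c (fun k => 2 * ν k) x) * f ν ^ 2 -
        dd p * ∑ ν ∈ (Finset.univ : Finset (Fin B)).piAntidiag p, mm (dbl ν) *
          EE c (fun x => (∑ k, La c x k * f (u1 ν k)) ^ 2)) =
      Zf (fun k => c k ^ 2) M f := by
  unfold Zf
  refine Finset.sum_congr rfl fun p _ => ?_
  have h1 : ∑ ν ∈ (Finset.univ : Finset (Fin B)).piAntidiag (p + 1), mm (dbl ν) *
            EE c (fun x => SS c (fun k => 2 * ν k) x ^ 2 - SS c (fun k => 2 * ν k) x) * f ν ^ 2 =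
      ∑ ν ∈ (Finset.univ : Finset (Fin B)).piAntidiag (p + 1), mm (dbl ν) *
          (∑ k, 4 * (ν k : ℝ) ^ 2 * EE c (fun x => La c x k ^ 2)) * f ν ^ 2 +
      ∑ ν ∈ (Finset.univ : Finset (Fin B)).piAntidiag (p + 1), mm (dbl ν) * f ν ^ 2 *
        ((∑ k, ∑ l ∈ Finset.univ.erase k,
            4 * (ν k : ℝ) * ν l * G2 (fun k => c k ^ 2) k l) -
          ∑ k, 2 * (ν k : ℝ) * G1 (fun k => c k ^ 2) k) := by
    rw [← Finset.sum_add_distrib]
    refine Finset.sum_congr rfl fun ν _ => ?_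
    rw [EE_SS hc]
    ring
  have h2 : ∑ ν ∈ (Finset.univ : Finset (Fin B)).piAntidiag p, mm (dbl ν) *
          EE c (fun x => (∑ k, La c x k * f (u1 ν k)) ^ 2) =
      ∑ ν ∈ (Finset.univ : Finset (Fin B)).piAntidiag p, mm (dbl ν) *
        ∑ k, f (u1 ν k) ^ 2 * EE c (fun x => La c x k ^ 2) +
      ∑ ν ∈ (Finset.univ : Finset (Fin B)).piAntidiag p, mm (dbl ν) *
        ∑ k, ∑ l ∈ Finset.univ.erase k,
          G2 (fun k => c k ^ 2) k l * (f (u1 ν k) * f (u1 ν l)) := by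
    rw [← Finset.sum_add_distrib]
    refine Finset.sum_congr rfl fun ν _ => ?_
    rw [EE_sq hc, mul_add]
    congr 2
    refine Finset.sum_congr rfl fun k _ => Finset.sum_congr rfl fun l _ => ?_
    ring
  rw [h1, h2, diag]
  ring

end Pool.Agent.H35.ISO
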