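import Mathlib
import Pool.Agent.H35.ISO.Defs
import Pool.Agent.H35.NI.Lin
import Pool.Agent.H35.NI.NFa
import Pool.Agent.H35.NI.NF

set_option autoImplicit false

/-!
# Pol: `dz w z` is a polynomial in `z²`

Orthonormal `f`: `antisymm_nf` for `Ω_(ab) = om (f a) (f b)`: `R (1 + z Ω) Rᵀ` is block diagonal
(blocks `(1, z c; -z c, 1)`), determinant `∏ (1 + z² c_k²)` (see `det_wf`, `dz_ef` in `NI/NF`; here
also `i > n`, so do not use `ef`); `0 ≤ c_k ≤ 1` since `c_k = om (f' (2k)) (f' (2k+1))`, `f' = R f`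
orthonormal.  General `w`: `frame` (`p = 0` or `t² ∏`).
-/

open MeasureTheory Pool.Agent.H61.UProj Pool.Agent.H89.CZ Pool.Agent.H35.NI

noncomputable section

namespace Pool.Agent.H35.ISO

variable {n i : ℕ}

/-- the entries of `om` on the normal frame -/
private def wf (c : ℕ → ℝ) (a b : ℕ) : ℝ :=
  if a % 2 = 0 ∧ b = a + 1 then c (a / 2)
  else if b % 2 = 0 ∧ a = b + 1 then -c (b / 2) else 0

/-- block diagonal determinant -/
private theorem det_wf : ∀ (m : ℕ) (c : ℕ → ℝ) (z : ℝ),
    (Matrix.of fun a b : Fin m => (if a = b then (1 : ℝ) else 0) + z * wf c a b).det =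
      ∏ j ∈ Finset.range (m / 2), (1 + z ^ 2 * c j ^ 2)
  | 0, c, z => by simp
  | 1, c, z => by
    rw [Matrix.det_fin_one]
    simp [wf]
  | (m + 2), c, z => by
    have ih := det_wf m (fun j => c (j + 1)) z
    have e : m + 2 = 2 + m := by omega
    rw [← Matrix.det_reindex_self ((finCongr e).trans finSumFinEquiv.symm)]
    have hM : (Matrix.reindex ((finCongr e).trans finSumFinEquiv.symm)
        ((finCongr e).trans finSumFinEquiv.symm))
        (Matrix.of fun a b : Fin (m + 2) => (if a = b then (1 : ℝ) else 0) + z * wf c a b) =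
        Matrix.fromBlocks !![1, z * c 0; -(z * c 0), 1] 0 0
          (Matrix.of fun a b : Fin m => (if a = b then (1 : ℝ) else 0) +
            z * wf (fun j => c (j + 1)) a b) := by
      ext p q
      have hs : ∀ r : Fin 2 ⊕ Fin m, ((((finCongr e).trans finSumFinEquiv.symm).symm r : Fin (m + 2)) : ℕ)
          = Sum.elim (fun k : Fin 2 => (k : ℕ)) (fun k : Fin m => 2 + (k : ℕ)) r := by
        intro r
        rcases r with k | k
        · simp
        · simp [add_comm]
      have hq : ∀ r s : Fin 2 ⊕ Fin m, (if ((finCongr e).trans finSumFinEquiv.symm).symm r =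
          ((finCongr e).trans finSumFinEquiv.symm).symm s then (1 : ℝ) else 0) =
          if r = s then 1 else 0 := by
        intro r s
        exact if_congr (Equiv.apply_eq_iff_eq _) rfl rfl
      rw [Matrix.reindex_apply, Matrix.submatrix_apply, Matrix.of_apply, hs, hs, hq]
      rcases p with p | p <;> rcases q with q | q
      · rw [Matrix.fromBlocks_apply₁₁]
        fin_cases p <;> fin_cases q <;> simp [wf]
      · rw [Matrix.fromBlocks_apply₁₂]
        have h1 : ¬ ((p : ℕ) % 2 = 0 ∧ 2 + (q : ℕ) = p + 1) := by omega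
        have h2 : ¬ ((2 + (q : ℕ)) % 2 = 0 ∧ (p : ℕ) = 2 + q + 1) := by omega
        rw [Sum.elim_inl, Sum.elim_inr, wf, if_neg h1, if_neg h2, if_neg (by simp)]
        simp
      · rw [Matrix.fromBlocks_apply₂₁]
        have h1 : ¬ ((2 + (p : ℕ)) % 2 = 0 ∧ (q : ℕ) = 2 + p + 1) := by omega
        have h2 : ¬ ((q : ℕ) % 2 = 0 ∧ 2 + (p : ℕ) = q + 1) := by omega
        rw [Sum.elim_inl, Sum.elim_inr, wf, if_neg h1, if_neg h2, if_neg (by simp)]
        simp
      · rw [Matrix.fromBlocks_apply₂₂]
        have h1 : ∀ x : ℕ, (2 + x) % 2 = x % 2 := by intro x; omega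
        have h2 : ∀ x : ℕ, (2 + x) / 2 = x / 2 + 1 := by intro x; omega
        have h3 : ∀ x y : ℕ, (2 + x = 2 + y + 1) = (x = y + 1) := by
          intro x y
          exact propext ⟨fun h => by omega, fun h => by omega⟩
        simp only [wf, Sum.elim_inr, h1, h2, h3, Matrix.of_apply, Sum.inr.injEq]
    rw [hM, Matrix.det_fromBlocks_zero₂₁, ih, Matrix.det_fin_two]
    have h4 : (m + 2) / 2 = m / 2 + 1 := by omega
    rw [h4, Finset.prod_range_succ']
    simp
    ring

theorem orth_pol {f : Fin i → Cn n} (hf : Orthonormal ℝ f) :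
    ∃ c : Fin (i / 2) → ℝ, (∀ k, 0 ≤ c k ∧ c k ≤ 1) ∧
      ∀ z : ℝ, dz f z = ∏ k, (1 + z ^ 2 * c k ^ 2) := by
  obtain ⟨R, c, hR, hc0, hcz, hRO⟩ := antisymm_nf i (Matrix.of fun a b => om (f a) (f b)) (by
    ext a b
    rw [Matrix.transpose_apply, Matrix.neg_apply, Matrix.of_apply, Matrix.of_apply, om_swap])
  set e' : Fin i → Cn n := fun a => ∑ b, R a b • f b with he'
  have hin' : ∀ a b, (inner ℝ (e' a) (e' b) : ℝ) = if a = b then 1 else 0 := by
    intro a b
    have h1 : (inner ℝ (e' a) (e' b) : ℝ) = (R * R.transpose) a b := by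
      simp only [he']
      rw [sum_inner, Matrix.mul_apply]
      refine Finset.sum_congr rfl fun k _ => ?_
      rw [inner_sum, Finset.sum_eq_single k]
      · rw [inner_smul_left, inner_smul_right, orthonormal_iff_ite.1 hf, if_pos rfl,
          Matrix.transpose_apply]
        simp
      · intro l _ hl
        rw [inner_smul_left, inner_smul_right, orthonormal_iff_ite.1 hf, if_neg (Ne.symm hl)]
        simp
      · intro h
        exact absurd (Finset.mem_univ k) h
    rw [h1, hR, Matrix.one_apply]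
  have hsum_l : ∀ (s : Finset (Fin i)) (g : Fin i → Cn n) (y : Cn n),
      om (∑ k ∈ s, g k) y = ∑ k ∈ s, om (g k) y := by
    intro s g y
    simp only [om]
    rw [sum_inner, Complex.im_sum]
  have hsum_r : ∀ (s : Finset (Fin i)) (x : Cn n) (g : Fin i → Cn n),
      om x (∑ k ∈ s, g k) = ∑ k ∈ s, om x (g k) := by
    intro s x g
    simp only [om]
    rw [inner_sum, Complex.im_sum]
  have hom' : ∀ a b : Fin i, om (e' a) (e' b) = wf c a b := by
    intro a b
    have h1 : om (e' a) (e' b) =
        (R * (Matrix.of fun a b => om (f a) (f b)) * R.transpose) a b := by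
      simp only [he']
      rw [hsum_r, Matrix.mul_apply]
      refine Finset.sum_congr rfl fun l _ => ?_
      rw [hsum_l, Matrix.mul_apply, Finset.sum_mul]
      refine Finset.sum_congr rfl fun k _ => ?_
      rw [om_smul_left, om_smul_right, Matrix.of_apply, Matrix.transpose_apply]
      ring
    rw [h1, hRO]
    rfl
  have hnorm : ∀ a, ‖e' a‖ = 1 := by
    intro a
    have h1 := hin' a a
    rw [if_pos rfl, real_inner_self_eq_norm_sq] at h1
    have h2 := norm_nonneg (e' a)
    nlinarith [sq_nonneg (‖e' a‖ - 1)]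
  have hc1 : ∀ j, 0 ≤ c j ∧ c j ≤ 1 := by
    intro j
    refine ⟨hc0 j, ?_⟩
    by_cases hj : 2 * j + 1 < i
    · have h1 := hom' ⟨2 * j, by omega⟩ ⟨2 * j + 1, hj⟩
      have h2 : wf c (2 * j) (2 * j + 1) = c j := by
        rw [wf, if_pos ⟨by omega, rfl⟩]
        congr 1
        omega
      have h3 := abs_om_le (e' ⟨2 * j, by omega⟩) (e' ⟨2 * j + 1, hj⟩)
      rw [hnorm, hnorm, h1] at h3
      have h4 : c j ≤ |wf c (2 * j) (2 * j + 1)| := by
        rw [h2]
        exact le_abs_self _
      linarith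
    · rw [hcz j (by omega)]
      exact zero_le_one
  refine ⟨fun k => c k, fun k => hc1 k, fun z => ?_⟩
  have hd : R.det ^ 2 = 1 := by
    have h2 := congrArg Matrix.det hR
    rw [Matrix.det_mul, Matrix.det_transpose, Matrix.det_one] at h2
    rw [sq, h2]
  have h1 : dz e' z = R.det ^ 2 * dz f z := dz_comb (fun a => rfl) z
  rw [hd, one_mul] at h1
  rw [← h1, Fin.prod_univ_eq_prod_range (fun k => 1 + z ^ 2 * c k ^ 2) (i / 2),
    ← det_wf i c z, dz]
  congr 1
  ext a b
  rw [Matrix.of_apply, Matrix.of_apply, hin', hom']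

theorem exists_pol (w : Fin i → Cn n) :
    ∃ p : Polynomial ℝ, p.natDegree ≤ i / 2 ∧ ∀ z : ℝ, p.eval (z ^ 2) = dz w z := by
  rcases Nat.eq_zero_or_pos i with hi | hi
  · subst hi
    refine ⟨1, by simp, fun z => ?_⟩
    unfold dz
    rw [Matrix.det_isEmpty, Polynomial.eval_one]
  · rcases frame hi w with ⟨-, -, h⟩ | ⟨f, t, hf, -, -, -, h⟩
    · exact ⟨0, by simp, fun z => by rw [h z, Polynomial.eval_zero]⟩
    · obtain ⟨c, -, hc⟩ := orth_pol hf
      refine ⟨Polynomial.C (t ^ 2) * ∏ k, (1 + Polynomial.X * Polynomial.C (c k ^ 2)), ?_,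
        fun z => ?_⟩
      · refine (Polynomial.natDegree_C_mul_le _ _).trans ?_
        refine (Polynomial.natDegree_prod_le _ _).trans ?_
        refine (Finset.sum_le_card_nsmul _ _ 1 fun k _ => ?_).trans ?_
        · refine (Polynomial.natDegree_add_le _ _).trans ?_
          rw [Polynomial.natDegree_one]
          refine max_le (Nat.zero_le _) ?_
          refine (Polynomial.natDegree_mul_C_le _ _).trans ?_
          exact Polynomial.natDegree_X_le
        · simp
      · rw [h z, hc z, Polynomial.eval_mul, Polynomial.eval_C, Polynomial.eval_prod]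
        congr 1
        refine Finset.prod_congr rfl fun k _ => ?_
        simp

theorem pol_unique {p q : Polynomial ℝ} (h : ∀ z : ℝ, p.eval (z ^ 2) = q.eval (z ^ 2)) :
    p = q := by
  refine Polynomial.eq_of_infinite_eval_eq p q ?_
  refine (Set.Ici_infinite (0 : ℝ)).mono fun x hx => ?_
  have h1 := h (√x)
  rw [Real.sq_sqrt hx] at h1
  exact h1

end Pool.Agent.H35.ISO
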