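import Mathlib
import Pool.Agent.H35.ISO.AqS
import Pool.Agent.H35.ISO.Pol
import Pool.Agent.H35.NI.Str

set_option autoImplicit false

/-!
# FunL: the kernel of an isotropic frame

`gg_str` (`NI/Str`): `gg e w √GG(w) = ∑_l β_l dz w l`, `β_l = ∑_k Γ k l dz e k`; for isotropic
orthonormal `e`, `dz e k = 1`, so `β_l` does not depend on `e`.  For `p(z²) = dz w z`:
`∑_l β_l dz w l = L p`, `L p = ∑_l β_l p(l²)`, linear.  For `w = vf n q` on `Fin i`, `2q ≤ i`
(orthonormal, `dz (vf n q) z = (1 + z²)^q`, `GG = 1`): `L ((1+X)^q) = gg e (vf n q) = a_q` (`e = ψ (st n ·)` by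
`uni_of_gram`; `gg_symm`, `gg_uni`).  With `J_m = ∫_{-1}^1 (1-x²)^m`, `J_(m+1) = (2m+2)/(2m+3) J_m`
(integration by parts, or `integral_sin_pow`…), and `c = a_0 / J_(n-i) > 0`, `aq_step` gives
`a_q = c J_(n-i+q) = c ∫ (1-x²)^(n-i) (1 + (-x²))^q`.  `(1+X)^q`, `q ≤ i/2`, span the polynomials
of degree `≤ i/2` (`p = (p.comp (X - 1)).comp (X + 1)`), so `L p = c ∫ (1-x²)^(n-i) p(-x²)` for
these; the degree bound holds by `exists_pol`, `pol_unique`.
-/

open MeasureTheory Pool.Agent.H61.UProj Pool.Agent.H89.CZ Pool.Agent.H35.NI Pool.Agent.H89.EN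

noncomputable section

namespace Pool.Agent.H35.ISO

variable {n i : ℕ}

theorem J_succ (m : ℕ) : (2 * (m : ℝ) + 3) * ∫ x in (-1 : ℝ)..1, (1 - x ^ 2) ^ (m + 1) =
    (2 * m + 2) * ∫ x in (-1 : ℝ)..1, (1 - x ^ 2) ^ m := by
  have hd : ∀ x ∈ Set.uIcc (-1 : ℝ) 1, HasDerivAt (fun x : ℝ => x * (1 - x ^ 2) ^ (m + 1))
      ((2 * (m : ℝ) + 3) * (1 - x ^ 2) ^ (m + 1) - (2 * m + 2) * (1 - x ^ 2) ^ m) x := by
    intro x _
    have h1 : HasDerivAt (fun x : ℝ => 1 - x ^ 2) (-(2 * x)) x := by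
      have := (hasDerivAt_pow 2 x).const_sub 1
      simpa using this
    have h2 := (hasDerivAt_id x).mul (h1.pow (m + 1))
    have h3 : (fun x : ℝ => x * (1 - x ^ 2) ^ (m + 1)) =
        id * (fun x : ℝ => 1 - x ^ 2) ^ (m + 1) := by
      funext y
      simp
    rw [h3]
    refine h2.congr_deriv ?_
    simp only [id, Pi.pow_apply, Nat.add_sub_cancel]
    push_cast
    ring
  have hint : IntervalIntegrable (fun x : ℝ =>
      (2 * (m : ℝ) + 3) * (1 - x ^ 2) ^ (m + 1) - (2 * m + 2) * (1 - x ^ 2) ^ m)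
      volume (-1) 1 := Continuous.intervalIntegrable (by fun_prop) _ _
  have h := intervalIntegral.integral_eq_sub_of_hasDerivAt hd hint
  rw [intervalIntegral.integral_sub (Continuous.intervalIntegrable (by fun_prop) _ _)
    (Continuous.intervalIntegrable (by fun_prop) _ _), intervalIntegral.integral_const_mul,
    intervalIntegral.integral_const_mul] at h
  have h0 : (1 : ℝ) * (1 - 1 ^ 2) ^ (m + 1) - -1 * (1 - (-1) ^ 2) ^ (m + 1) = 0 := by
    norm_num
  rw [h0] at h
  linarith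

theorem J_pos (m : ℕ) : 0 < ∫ x in (-1 : ℝ)..1, (1 - x ^ 2) ^ m := by
  refine intervalIntegral.intervalIntegral_pos_of_pos_on
    (Continuous.intervalIntegrable (by fun_prop) _ _) ?_ (by norm_num)
  intro x hx
  have h1 := hx.1
  have h2 := hx.2
  exact pow_pos (by nlinarith) _

/-! ### The standard frames -/

/-- The cosines `1, …, 1, 0, …` (`j` ones). -/
private def fl_sc (j m : ℕ) : ℝ := if m < j then 1 else 0

private theorem fl_bd (j m : ℕ) : 0 ≤ fl_sc j m ∧ fl_sc j m ≤ 1 := by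
  unfold fl_sc
  split_ifs <;> norm_num

private def fl_c (q a : ℕ) : ℂ := if a < 2 * q ∧ a % 2 = 1 then Complex.I else 1

private def fl_d (q a : ℕ) : ℕ := if a < 2 * q then a / 2 else q + (a - 2 * q)

private def fl_e (q a : ℕ) : ℕ := if a < 2 * q then 2 * (a / 2) else a

private theorem fl_vf (n q a : ℕ) : vf n q a = fl_c q a • st n (fl_d q a) := by
  unfold vf fl_c fl_d
  by_cases h : a < 2 * q
  · rw [if_pos h, if_pos h]
    rcases Nat.mod_two_eq_zero_or_one a with h2 | h2
    · rw [if_pos h2, if_neg (by omega), one_smul]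
    · rw [if_neg (by omega), if_pos ⟨h, h2⟩]
  · rw [if_neg h, if_neg h, if_neg (by omega), one_smul]

private theorem fl_ef (hin : i ≤ n) (q : ℕ) (a : Fin i) :
    ef hin (fl_sc q) a = fl_c q a • st n (fl_e q a) := by
  have ha : (a : ℕ) < n := lt_of_lt_of_le a.2 hin
  unfold ef fl_c fl_e
  rcases Nat.mod_two_eq_zero_or_one (a : ℕ) with h2 | h2
  · rw [if_pos h2, if_neg (by omega), one_smul]
    have h3 : (if (a : ℕ) < 2 * q then 2 * ((a : ℕ) / 2) else (a : ℕ)) = a := by
      split_ifs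
      · omega
      · rfl
    rw [h3]
    ext j
    rw [st_apply, PiLp.single_apply]
    by_cases hj : j = Fin.castLE hin a
    · rw [if_pos hj, if_pos (by rw [hj]; rfl)]
    · rw [if_neg hj, if_neg]
      intro h
      exact hj (Fin.ext h)
  · rw [if_neg (by omega)]
    by_cases h : (a : ℕ) < 2 * q
    · have h4 : fl_sc q ((a : ℕ) / 2) = 1 := by
        unfold fl_sc
        rw [if_pos (by omega)]
      rw [if_pos ⟨h, h2⟩, if_pos h, h4]
      ext j
      simp only [Complex.ofReal_one, one_mul, one_pow, sub_self, Real.sqrt_zero,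
        Complex.ofReal_zero, PiLp.add_apply, PiLp.single_apply, PiLp.smul_apply, st_apply,
        smul_eq_mul]
      have h5 : 2 * ((a : ℕ) / 2) = (a : ℕ) - 1 := by omega
      rw [h5]
      by_cases hj : (j : ℕ) = (a : ℕ) - 1
      · rw [if_pos hj, if_pos (Fin.ext hj)]
        simp
      · rw [if_neg hj, if_neg (fun h => hj (congrArg Fin.val h))]
        simp
    · have h4 : fl_sc q ((a : ℕ) / 2) = 0 := by
        unfold fl_sc
        rw [if_neg (by omega)]
      rw [if_neg (fun h' => h h'.1), if_neg h, h4]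
      ext j
      simp only [Complex.ofReal_zero, zero_mul, ne_eq, OfNat.ofNat_ne_zero, not_false_eq_true,
        zero_pow, sub_zero, Real.sqrt_one, Complex.ofReal_one, PiLp.add_apply, PiLp.single_apply,
        PiLp.smul_apply, st_apply, smul_eq_mul, one_mul, ite_self, zero_add]
      by_cases hj : (j : ℕ) = (a : ℕ)
      · rw [if_pos hj, if_pos (Fin.ext hj)]
      · rw [if_neg hj, if_neg (fun h => hj (congrArg Fin.val h))]

private theorem fl_gram (hin : i ≤ n) {q : ℕ} (_hq : 2 * q ≤ i) (a b : Fin i) :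
    (inner ℂ (vf n q a) (vf n q b) : ℂ) =
      inner ℂ (ef hin (fl_sc q) a) (ef hin (fl_sc q) b) := by
  have ha : (a : ℕ) < n := lt_of_lt_of_le a.2 hin
  have h1 : fl_d q a < n := by
    unfold fl_d
    split_ifs <;> omega
  have h2 : fl_e q a < n := by
    unfold fl_e
    split_ifs <;> omega
  have h3 : fl_d q a = fl_d q b ↔ fl_e q a = fl_e q b := by
    unfold fl_d fl_e
    constructor <;> intro h <;> split_ifs at h ⊢ <;> omega
  rw [fl_vf, fl_vf, fl_ef, fl_ef, inner_smul_left, inner_smul_right, inner_smul_left,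
    inner_smul_right, cinner_st _ _ _ h1, cinner_st _ _ _ h2]
  by_cases h : fl_d q a = fl_d q b
  · rw [if_pos h, if_pos (h3.1 h)]
  · rw [if_neg h, if_neg fun h' => h (h3.2 h')]

private theorem fl_dz (hin : i ≤ n) {q : ℕ} (hq : 2 * q ≤ i) (z : ℝ) :
    dz (fun a : Fin i => vf n q a) z = (1 + z ^ 2) ^ q := by
  have h1 : dz (fun a : Fin i => vf n q a) z = dz (ef hin (fl_sc q)) z := by
    unfold dz
    congr 1
    ext a b
    simp only [Matrix.of_apply]
    unfold om
    rw [rinner_eq, rinner_eq, fl_gram hin hq]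
  rw [h1, dz_ef hin (fl_bd q) z]
  have h2 : ∀ m, (1 + z ^ 2 * fl_sc q m ^ 2 : ℝ) = if m < q then 1 + z ^ 2 else 1 := by
    intro m
    unfold fl_sc
    split_ifs <;> simp
  simp only [h2]
  rw [Finset.prod_ite, Finset.prod_const_one, mul_one, Finset.prod_const]
  congr 1
  have h3 : (Finset.range (i / 2)).filter (fun m => m < q) = Finset.range q := by
    ext m
    simp only [Finset.mem_filter, Finset.mem_range]
    omega
  rw [h3, Finset.card_range]

private theorem fl_st_orth (hin : i ≤ n) : Orthonormal ℝ (fun a : Fin i => st n a) := by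
  rw [orthonormal_iff_ite]
  intro a b
  rw [rinner_eq, cinner_st _ _ _ (lt_of_lt_of_le a.2 hin)]
  by_cases h : a = b
  · rw [if_pos h, if_pos (by rw [h])]
    simp
  · rw [if_neg h, if_neg fun h' => h (Fin.ext h')]
    simp

private theorem fl_dz_iso {e : Fin i → Cn n} (he : Orthonormal ℝ e) (h : IsoF e) (z : ℝ) :
    dz e z = 1 := by
  have h1 := orthonormal_iff_ite.1 he
  unfold dz
  have h2 : (Matrix.of fun a b => (inner ℝ (e a) (e b) : ℝ) + z * om (e a) (e b)) = 1 := by
    ext a b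
    simp only [Matrix.of_apply, h1, h a b, mul_zero, add_zero, Matrix.one_apply]
  rw [h2, Matrix.det_one]

/-- The values `a_q`. -/
private theorem fl_aq (hin : i ≤ n) {q : ℕ} (hq : 2 * q ≤ i) :
    gg (fun a : Fin i => vf n q a) (fun a : Fin i => st n a) *
        (∫ x in (-1 : ℝ)..1, (1 - x ^ 2) ^ (n - i)) =
      gg (fun a : Fin i => vf n 0 a) (fun a : Fin i => st n a) *
        ∫ x in (-1 : ℝ)..1, (1 - x ^ 2) ^ (n - i + q) := by
  induction q with
  | zero => rfl
  | succ q ih =>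
    have h1 := ih (by omega)
    have h2 := aq_step (n := n) (i := i) (q := q) hin hq
    have h3 := J_succ (n - i + q)
    have h4 : (((n - i + q : ℕ)) : ℝ) = (n : ℝ) - i + q := by
      rw [Nat.cast_add, Nat.cast_sub hin]
    rw [h4] at h3
    have h5 : (0 : ℝ) < 2 * ((n : ℝ) - i + q + 1) + 1 := by
      have h6 : (i : ℝ) ≤ n := by exact_mod_cast hin
      have h7 : (0 : ℝ) ≤ q := Nat.cast_nonneg q
      linarith
    refine mul_left_cancel₀ h5.ne' ?_
    rw [← mul_assoc, h2, ← add_assoc (n - i) q 1]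
    linear_combination (2 * ((n : ℝ) - i + q + 1)) * h1 -
      (gg (fun a : Fin i => vf n 0 a) (fun a : Fin i => st n a)) * h3

theorem fun_iso (hi : 0 < i) (hin : i ≤ n) : ∃ c : ℝ, 0 < c ∧ ∀ e : Fin i → Cn n,
    Orthonormal ℝ e → IsoF e → ∀ (w : Fin i → Cn n) (p : Polynomial ℝ),
      (∀ z : ℝ, p.eval (z ^ 2) = dz w z) →
        gg e w * √(GG w) =
          c * ∫ x in (-1 : ℝ)..1, (1 - x ^ 2) ^ (n - i) * p.eval (-(x ^ 2)) := by
  obtain ⟨Γ, hΓ⟩ := gg_str (n := n) hi hin
  set β : ℕ → ℝ := fun l => ∑ k ∈ Finset.range (i / 2 + 1), Γ k l with hβ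
  have hG : ∀ e : Fin i → Cn n, Orthonormal ℝ e → IsoF e → ∀ w : Fin i → Cn n,
      gg e w * √(GG w) = ∑ l ∈ Finset.range (i / 2 + 1), β l * dz w l := by
    intro e he hiso w
    rw [hΓ e he w]
    refine Finset.sum_congr rfl fun l _ => ?_
    simp only [fl_dz_iso he hiso, mul_one, hβ]
  have hst := fl_st_orth (i := i) hin
  have hsti : IsoF (fun a : Fin i => st n a) := fun a b =>
    om_st n a b (lt_of_lt_of_le a.2 hin)
  have hJ := J_pos (n - i)
  set a0 := gg (fun a : Fin i => vf n 0 a) (fun a : Fin i => st n a) with ha0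
  have hvf0 : (fun a : Fin i => vf n 0 a) = fun a : Fin i => st n a := by
    funext a
    unfold vf
    rw [if_neg (by omega)]
    simp
  have ha0p : 0 < a0 := by
    rw [ha0, hvf0]
    exact gg_self_pos hst
  refine ⟨a0 / ∫ x in (-1 : ℝ)..1, (1 - x ^ 2) ^ (n - i), div_pos ha0p hJ,
    fun e he hiso w p hp => ?_⟩
  set c := a0 / ∫ x in (-1 : ℝ)..1, (1 - x ^ 2) ^ (n - i) with hc
  -- the values on `(1 + X)^q`
  have hq : ∀ q ∈ Finset.range (i / 2 + 1),
      ∑ l ∈ Finset.range (i / 2 + 1), β l * (1 + (l : ℝ) ^ 2) ^ q =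
        c * ∫ x in (-1 : ℝ)..1, (1 - x ^ 2) ^ (n - i + q) := by
    intro q hq
    have hq2 : 2 * q ≤ i := by
      have := Finset.mem_range.1 hq
      omega
    have h1 := hG _ hst hsti (fun a : Fin i => vf n q a)
    have hGG : GG (fun a : Fin i => vf n q a) = 1 := by
      rw [← dz_zero, fl_dz hin hq2]
      norm_num
    rw [hGG, Real.sqrt_one, mul_one, gg_symm] at h1
    simp only [fl_dz hin hq2] at h1
    rw [← h1, hc, div_mul_eq_mul_div, eq_div_iff hJ.ne', ha0]
    exact fl_aq hin hq2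
  -- the polynomial
  obtain ⟨p0, hp0, hp0'⟩ := exists_pol w
  have hpp : p = p0 := pol_unique fun z => by rw [hp, hp0']
  have hdeg : p.natDegree < i / 2 + 1 := by
    rw [hpp]
    omega
  set t : ℕ → ℝ := fun q => (Polynomial.taylor (-1) p).coeff q with ht
  have hev : ∀ y : ℝ, p.eval y = ∑ q ∈ Finset.range (i / 2 + 1), t q * (1 + y) ^ q := by
    intro y
    have h1 := Polynomial.sum_taylor_eq p (-1)
    rw [Polynomial.sum_over_range' _ (fun q => by simp) (i / 2 + 1)
      (by rw [Polynomial.natDegree_taylor]; exact hdeg)] at h1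
    conv_lhs => rw [← h1]
    rw [Polynomial.eval_finsetSum]
    refine Finset.sum_congr rfl fun q _ => ?_
    rw [Polynomial.eval_mul, Polynomial.eval_C, Polynomial.eval_pow, Polynomial.eval_sub,
      Polynomial.eval_X, Polynomial.eval_C]
    congr 2
    ring
  rw [hG e he hiso w]
  have h2 : ∀ l ∈ Finset.range (i / 2 + 1), β l * dz w l =
      ∑ q ∈ Finset.range (i / 2 + 1), t q * (β l * (1 + (l : ℝ) ^ 2) ^ q) := by
    intro l _
    rw [← hp, hev, Finset.mul_sum]
    refine Finset.sum_congr rfl fun q _ => ?_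
    ring
  rw [Finset.sum_congr rfl h2, Finset.sum_comm]
  simp_rw [← Finset.mul_sum]
  rw [Finset.sum_congr rfl (fun q hq' => by rw [hq q hq'])]
  have h3 : ∀ x : ℝ, (1 - x ^ 2) ^ (n - i) * p.eval (-(x ^ 2)) =
      ∑ q ∈ Finset.range (i / 2 + 1), t q * (1 - x ^ 2) ^ (n - i + q) := by
    intro x
    rw [hev, Finset.mul_sum]
    refine Finset.sum_congr rfl fun q _ => ?_
    rw [pow_add, ← sub_eq_add_neg]
    ring
  simp only [h3]
  rw [intervalIntegral.integral_finsetSum
    (fun q _ => Continuous.intervalIntegrable (by fun_prop) _ _), Finset.mul_sum]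
  refine Finset.sum_congr rfl fun q _ => ?_
  rw [intervalIntegral.integral_const_mul]
  ring

end Pool.Agent.H35.ISO
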