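import Mathlib
import Pool.Agent.H35.ISO.Shf
import Pool.Agent.H35.ISO.FunL

set_option autoImplicit false

/-!
# Zve: the charge-free part at the vertices

`m = |Z|`, `J_m = ∫_{-1}^1 (1-x²)^m` (`J_succ`, `J_pos` in `FunL`); `γ_k = 1` for `k ∈ Z`, else `0`:
`G1 γ k = J_m` (`k ∉ Z`), `J_(m-1)` (`k ∈ Z`); `G2 γ k l = J_m, J_(m-1), J_(m-2)` (none, one, both in `Z`,
`k ≠ l`).  `j(ν) = ∑_{k ∉ Z} 2ν_k`, `l(ν) = ∑_{k ∈ Z} 2ν_k`, `N = j + l = 2|ν|`,
`A(ν) = ∑_{k ∉ Z} f(u1 ν k)`, `C(ν) = ∑_{k ∈ Z} f(u1 ν k)`, `A + C = f(ν)`.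
Put back the diagonal terms (`mm_u1`, `sum_u1`; coefficient `α0` outside `Z`, `α2` in `Z`):
`Zf = ∑_p [dd p/((2p+2)(2p+1)) ∑_{|ν|=p+1} mm f² (α0(j²-j) + 2α1 jl + α2 l² - α1 l)
       - dd p ∑_{|ν|=p} mm (α0 A² + 2 α1 A C + α2 C²)]`,
`α0 = J_m`, `α1 = J_(m-1)`, `α2 = J_(m-2)` (`m ≥ 2`).  `α0 = α1 (1-a)`, `a = 1/(2m+1)`; `α2 = α1 (1+b)`,
`b = 1/(2m-2)`; for `m = 1` there are no pairs in `Z` and one may take `α2 = α1`, `b = 0`; for `m = 0`
everything is `J_0 (…)` with `C = 0`: `Zf = J_0 ∑_p dd p (∑_{|ν|=p+1} mm f² - ∑_{|ν|=p} mm f²) ≥ 0`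
(`dd` decreasing, `f 0 = 0`).
`W(ν) = dd (p-1)/(2p(2p-1)) mm (dbl ν)` for `|ν| = p ≥ 1`; `dd p mm (dbl ν) = (N-1)² W(ν)` (`dd_succ`).
`Zf/α1 ≥ ∑_{1≤|ν|≤M+1} W f² (N-1 + a(j-j²) + b l²) + ∑_{1≤|ν|≤M} (N-1)² W (a A² - b C²) - (b-a) C(0)²`
(`f² - aA² + bC² = (1-a)A² + 2AC + (1+b)C²`; for `ν = 0`: `A = -C`; top level `N²-N ≥ N-1`).
`A² ≥ (1-p) f² + (1 - 1/p) C²` (`p > 0`), so with `q = b - a(1 - 1/p) ≥ 0` and the Cauchy inequality
`C(ν)² ≤ (l + 2m) ∑_{k∈Z} f(u1 ν k)²/(2ν_k + 2)`, shifted (`mm_u1`):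
`∑_{|ν|=p} dd p mm q(j,l) C(ν)² ≤ ∑_{|ν'|=p+1} W(ν') l'(l'+2m-2) q(j, l'-2) f(ν')²`;
coefficient `c(j,l) = N-1 + a(j-j²) + b l² + a(1-p(j,l))(N-1)² - q(j,l-2) l(l+2m-2) ≥ 0` (`j, l` even):
* `m ≥ 2`.  `2 ≤ j ≤ 2m`: `p = 1`, `q = b`: `c = (j-1)(1-aj) ≥ 0`.  `j ≥ 2m+2`: `p = (l+2m)/(N-1)`,
  `q = b-a+a(N-1)/(l+2m)`: `c = 0` (also for `l = 0`).  `j = 0`, `l ≥ 2`: `p = (l+2m-2)/(l-1)`,
  `q = b-a+a(l-1)/(l+2m-2)`, `q(0,0) = b-a`: `c(0,2) = 0`, `l ≥ 4`:
  `c = -1 + ((2m-1)/(2m+1))(1 + 2l/(l+2m-4)) ≥ 0`.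
* `m = 1`, `a = 1/3`, `b = 0`.  `j = 0, 2`: `p = 1`, `q = 0`: `c = l - 1`, resp. `l + 1/3` (`l ≥ 2` if
  `j = 0`); the term `-(b-a)C(0)²` is `≥ 0`.  `j ≥ 4`: `p = (l+2)/(N-1)`, `q = a(j-3)/(l+2)`: `c = l`.
-/

open MeasureTheory Pool.Agent.H89.CZ

noncomputable section

namespace Pool.Agent.H35.ISO

variable {B : ℕ}

/-! ### Private notation -/

/-- Half of `j`. -/
private def jh (Z : Finset (Fin B)) (ν : Fin B → ℕ) : ℕ := ∑ k ∈ Zᶜ, ν k

/-- Half of `l`. -/
private def lh (Z : Finset (Fin B)) (ν : Fin B → ℕ) : ℕ := ∑ k ∈ Z, ν k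

private def Ay (Z : Finset (Fin B)) (f : (Fin B → ℕ) → ℝ) (ν : Fin B → ℕ) : ℝ :=
  ∑ k ∈ Zᶜ, f (u1 ν k)

private def Cy (Z : Finset (Fin B)) (f : (Fin B → ℕ) → ℝ) (ν : Fin B → ℕ) : ℝ :=
  ∑ k ∈ Z, f (u1 ν k)

private lemma jh_add_lh (Z : Finset (Fin B)) (ν : Fin B → ℕ) : jh Z ν + lh Z ν = ∑ k, ν k := by
  unfold jh lh
  rw [add_comm]
  exact Finset.sum_add_sum_compl Z ν

private lemma jl_of_mem {Z : Finset (Fin B)} {p : ℕ} {ν : Fin B → ℕ}
    (hν : ν ∈ (Finset.univ : Finset (Fin B)).piAntidiag p) : jh Z ν + lh Z ν = p := by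
  rw [jh_add_lh]
  exact (Finset.mem_piAntidiag.1 hν).1

private lemma sum_u1_mem {S : Finset (Fin B)} (ν : Fin B → ℕ) {k : Fin B} (hk : k ∈ S) :
    ∑ i ∈ S, u1 ν k i = ∑ i ∈ S, ν i + 1 := by
  simp only [u1, Finset.sum_add_distrib, Finset.sum_ite_eq', hk, if_true]

private lemma sum_u1_not {S : Finset (Fin B)} (ν : Fin B → ℕ) {k : Fin B} (hk : k ∉ S) :
    ∑ i ∈ S, u1 ν k i = ∑ i ∈ S, ν i := by
  simp only [u1, Finset.sum_add_distrib, Finset.sum_ite_eq', hk, if_false, add_zero]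

private lemma jh_u1 {Z : Finset (Fin B)} (ν : Fin B → ℕ) {k : Fin B} (hk : k ∈ Z) :
    jh Z (u1 ν k) = jh Z ν := by
  unfold jh
  exact sum_u1_not ν (by simpa using hk)

private lemma lh_u1 {Z : Finset (Fin B)} (ν : Fin B → ℕ) {k : Fin B} (hk : k ∈ Z) :
    lh Z (u1 ν k) = lh Z ν + 1 := by
  unfold lh
  exact sum_u1_mem ν hk

/-- The Cauchy inequality and the shift. -/
private lemma stepV (Z : Finset (Fin B)) (f : (Fin B → ℕ) → ℝ) (Q : ℕ → ℕ → ℝ)
    (hQ : ∀ j l, 0 ≤ Q j l) (p : ℕ) :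
    dd p * ∑ ν ∈ (Finset.univ : Finset (Fin B)).piAntidiag p,
        mm (dbl ν) * (Q (jh Z ν) (lh Z ν) * Cy Z f ν ^ 2) ≤
      dd p / ((2 * p + 2) * (2 * p + 1)) *
        ∑ ν ∈ (Finset.univ : Finset (Fin B)).piAntidiag (p + 1), mm (dbl ν) * f ν ^ 2 *
          (Q (jh Z ν) (lh Z ν - 1) * (2 * (lh Z ν : ℝ)) *
            (2 * (lh Z ν : ℝ) + 2 * (Z.card : ℝ) - 2)) := by
  set g : (Fin B → ℕ) → Fin B → ℝ := fun ν k => if k ∈ Z then
      mm (dbl ν) * f ν ^ 2 * (Q (jh Z ν) (lh Z ν - 1) * (2 * (ν k : ℝ)) *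
        (2 * (lh Z ν : ℝ) + 2 * (Z.card : ℝ) - 2)) else 0 with hg
  have h1 : ∀ ν, ∑ k, g ν k = mm (dbl ν) * f ν ^ 2 *
          (Q (jh Z ν) (lh Z ν - 1) * (2 * (lh Z ν : ℝ)) *
            (2 * (lh Z ν : ℝ) + 2 * (Z.card : ℝ) - 2)) := by
    intro ν
    rw [hg]
    simp only
    rw [← Finset.sum_filter, Finset.filter_mem_eq_inter, Finset.univ_inter]
    rw [← Finset.mul_sum, ← Finset.sum_mul, ← Finset.mul_sum, ← Finset.mul_sum]
    have : ((lh Z ν : ℕ) : ℝ) = ∑ k ∈ Z, (ν k : ℝ) := by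
      unfold lh
      push_cast
      rfl
    rw [this]
  have h2 : ∑ ν ∈ (Finset.univ : Finset (Fin B)).piAntidiag (p + 1), mm (dbl ν) * f ν ^ 2 *
          (Q (jh Z ν) (lh Z ν - 1) * (2 * (lh Z ν : ℝ)) *
            (2 * (lh Z ν : ℝ) + 2 * (Z.card : ℝ) - 2)) =
      ∑ ν ∈ (Finset.univ : Finset (Fin B)).piAntidiag p, ∑ k, g (u1 ν k) k := by
    rw [sum_u1 p g]
    · exact Finset.sum_congr rfl fun ν _ => (h1 ν).symm
    · intro ν k hk
      rw [hg]
      simp [hk]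
  rw [h2, Finset.mul_sum, Finset.mul_sum]
  apply Finset.sum_le_sum
  intro ν hν
  have hpp : (0 : ℝ) < (2 * (p : ℝ) + 2) * (2 * p + 1) := by positivity
  have h3 : dd p / ((2 * (p : ℝ) + 2) * (2 * p + 1)) * ∑ k, g (u1 ν k) k =
      dd p * (mm (dbl ν) * (Q (jh Z ν) (lh Z ν) * ((2 * (lh Z ν : ℝ) + 2 * (Z.card : ℝ)) *
        ∑ k ∈ Z, f (u1 ν k) ^ 2 / (2 * ((ν k : ℝ) + 1))))) := by
    rw [hg]
    simp only
    rw [← Finset.sum_filter, Finset.filter_mem_eq_inter, Finset.univ_inter]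
    rw [Finset.mul_sum, Finset.mul_sum, Finset.mul_sum, Finset.mul_sum, Finset.mul_sum]
    refine Finset.sum_congr rfl fun k hk => ?_
    rw [jh_u1 ν hk, lh_u1 ν hk, Nat.add_sub_cancel]
    have hm := mm_u1 hν k
    have hk1 : ((u1 ν k k : ℕ) : ℝ) = (ν k : ℝ) + 1 := by simp [u1]
    rw [hk1]
    have hν1 : (0 : ℝ) < (ν k : ℝ) + 1 := by positivity
    have h4 : mm (dbl (u1 ν k)) = mm (dbl ν) * ((2 * (p : ℝ) + 2) * (2 * p + 1)) /
        (4 * ((ν k : ℝ) + 1) ^ 2) := by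
      rw [eq_div_iff (by positivity), hm]
    rw [h4]
    push_cast
    field_simp
    ring
  rw [h3]
  have hc : Cy Z f ν ^ 2 ≤ (2 * (lh Z ν : ℝ) + 2 * (Z.card : ℝ)) *
        ∑ k ∈ Z, f (u1 ν k) ^ 2 / (2 * ((ν k : ℝ) + 1)) := by
    have e1 : 2 * (lh Z ν : ℝ) + 2 * (Z.card : ℝ) = ∑ k ∈ Z, 2 * ((ν k : ℝ) + 1) := by
      rw [← Finset.mul_sum, Finset.sum_add_distrib]
      unfold lh
      push_cast
      simp
      ring
    rw [e1]
    unfold Cy
    apply Finset.sum_sq_le_sum_mul_sum_of_sq_le_mul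
    · intro k _
      positivity
    · intro k _
      positivity
    · intro k _
      have hν1 : (0 : ℝ) < (ν k : ℝ) + 1 := by positivity
      apply le_of_eq
      field_simp
  have hd := (dd_pos p).le
  have hm := (mm_pos (dbl ν)).le
  have hq := hQ (jh Z ν) (lh Z ν)
  gcongr

private theorem core (M : ℕ) (f : (Fin B → ℕ) → ℝ) (hf : ∀ ν, f ν = ∑ k, f (u1 ν k))
    (h0 : f 0 = 0) (Z : Finset (Fin B)) (a b : ℝ) (P Q : ℕ → ℕ → ℝ) (ha0 : 0 ≤ a) (ha1 : a ≤ 1)
    (hP : ∀ j l, 1 ≤ j + l → 0 < P j l)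
    (hQ : ∀ j l, 1 ≤ j + l → b - a * (1 - 1 / P j l) ≤ Q j l) (hQ0 : b - a ≤ Q 0 0)
    (hQn : ∀ j l, 0 ≤ Q j l)
    (hc : ∀ j l : ℕ, 1 ≤ j + l → 0 ≤ 2 * ((j : ℝ) + l) - 1 + a * (2 * (j : ℝ) - 4 * (j : ℝ) ^ 2) +
      b * (4 * (l : ℝ) ^ 2) + a * (1 - P j l) * (2 * ((j : ℝ) + l) - 1) ^ 2 -
      Q j (l - 1) * (2 * (l : ℝ)) * (2 * (l : ℝ) + 2 * (Z.card : ℝ) - 2)) :
    0 ≤ ∑ p ∈ Finset.range (M + 1), (dd p / ((2 * p + 2) * (2 * p + 1)) *
        ∑ ν ∈ (Finset.univ : Finset (Fin B)).piAntidiag (p + 1), mm (dbl ν) * f ν ^ 2 *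
          ((2 * ((jh Z ν : ℝ) + lh Z ν)) ^ 2 - 2 * ((jh Z ν : ℝ) + lh Z ν) +
            a * (2 * (jh Z ν : ℝ) - 4 * (jh Z ν : ℝ) ^ 2) + b * (4 * (lh Z ν : ℝ) ^ 2)) -
      dd p * ∑ ν ∈ (Finset.univ : Finset (Fin B)).piAntidiag p, mm (dbl ν) *
        (f ν ^ 2 - a * Ay Z f ν ^ 2 + b * Cy Z f ν ^ 2)) := by
  set X : ℕ → ℝ := fun p => dd p / ((2 * p + 2) * (2 * p + 1)) *
        ∑ ν ∈ (Finset.univ : Finset (Fin B)).piAntidiag (p + 1), mm (dbl ν) * f ν ^ 2 *
          ((2 * ((jh Z ν : ℝ) + lh Z ν)) ^ 2 - 2 * ((jh Z ν : ℝ) + lh Z ν) +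
            a * (2 * (jh Z ν : ℝ) - 4 * (jh Z ν : ℝ) ^ 2) + b * (4 * (lh Z ν : ℝ) ^ 2)) with hX
  set Y : ℕ → ℝ := fun p => dd p * ∑ ν ∈ (Finset.univ : Finset (Fin B)).piAntidiag p,
      mm (dbl ν) * (f ν ^ 2 - a * Ay Z f ν ^ 2 + b * Cy Z f ν ^ 2) with hY
  set U : ℕ → ℝ := fun p => dd p * ∑ ν ∈ (Finset.univ : Finset (Fin B)).piAntidiag p,
      mm (dbl ν) * (f ν ^ 2 * (1 - a * (1 - P (jh Z ν) (lh Z ν)))) with hU
  set V : ℕ → ℝ := fun p => dd p / ((2 * p + 2) * (2 * p + 1)) *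
        ∑ ν ∈ (Finset.univ : Finset (Fin B)).piAntidiag (p + 1), mm (dbl ν) * f ν ^ 2 *
          (Q (jh Z ν) (lh Z ν - 1) * (2 * (lh Z ν : ℝ)) *
            (2 * (lh Z ν : ℝ) + 2 * (Z.card : ℝ) - 2)) with hV
  have hAC : ∀ ν, f ν = Ay Z f ν + Cy Z f ν := by
    intro ν
    unfold Ay Cy
    rw [add_comm, Finset.sum_add_sum_compl]
    exact hf ν
  have hYle : ∀ p, Y p ≤ U p + V p := by
    intro p
    have h1 := stepV Z f Q hQn p
    have h2 : Y p ≤ U p + dd p * ∑ ν ∈ (Finset.univ : Finset (Fin B)).piAntidiag p,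
        mm (dbl ν) * (Q (jh Z ν) (lh Z ν) * Cy Z f ν ^ 2) := by
      rw [hY, hU]
      simp only
      rw [← mul_add, ← Finset.sum_add_distrib]
      apply mul_le_mul_of_nonneg_left _ (dd_pos p).le
      apply Finset.sum_le_sum
      intro ν hν
      rw [← mul_add]
      apply mul_le_mul_of_nonneg_left _ (mm_pos (dbl ν)).le
      have hjl := jl_of_mem (Z := Z) hν
      by_cases hp : p = 0
      · subst hp
        have hν0 : ν = 0 := by
          have := (Finset.mem_piAntidiag.1 hν).1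
          funext i
          exact Nat.eq_zero_of_le_zero
            (this ▸ Finset.single_le_sum (fun _ _ => Nat.zero_le _) (Finset.mem_univ i))
        have hj : jh Z ν = 0 := by omega
        have hl : lh Z ν = 0 := by omega
        rw [hj, hl]
        have hfν : f ν = 0 := by rw [hν0, h0]
        have hA : Ay Z f ν = - Cy Z f ν := by
          have := hAC ν
          rw [hfν] at this
          linarith
        rw [hfν, hA]
        have hC := sq_nonneg (Cy Z f ν)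
        nlinarith [mul_le_mul_of_nonneg_right hQ0 hC]
      · have hjl1 : 1 ≤ jh Z ν + lh Z ν := by omega
        have hPp := hP _ _ hjl1
        have hQq := hQ _ _ hjl1
        set P' := P (jh Z ν) (lh Z ν)
        set Q' := Q (jh Z ν) (lh Z ν)
        have hA : Ay Z f ν = f ν - Cy Z f ν := by
          have := hAC ν
          linarith
        rw [hA]
        set F := f ν
        set C := Cy Z f ν
        -- (F - C)^2 ≥ (1 - P') F^2 + (1 - 1/P') C^2
        have h3 : (1 - P') * F ^ 2 + (1 - 1 / P') * C ^ 2 ≤ (F - C) ^ 2 := by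
          have h4 : (F - C) ^ 2 - ((1 - P') * F ^ 2 + (1 - 1 / P') * C ^ 2) =
              (P' * F - C) ^ 2 / P' := by
            field_simp
            ring
          have h5 : 0 ≤ (P' * F - C) ^ 2 / P' := div_nonneg (sq_nonneg _) hPp.le
          linarith
        have h6 := mul_le_mul_of_nonneg_left h3 ha0
        have h7 := mul_le_mul_of_nonneg_right hQq (sq_nonneg C)
        nlinarith [h6, h7]
    have h3 : dd p * ∑ ν ∈ (Finset.univ : Finset (Fin B)).piAntidiag p,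
        mm (dbl ν) * (Q (jh Z ν) (lh Z ν) * Cy Z f ν ^ 2) ≤ V p := h1
    linarith
  have hU0 : U 0 = 0 := by
    rw [hU]
    simp only
    rw [Finset.sum_eq_zero, mul_zero]
    intro ν hν
    have hν0 : ν = 0 := by
      have := (Finset.mem_piAntidiag.1 hν).1
      funext i
      exact Nat.eq_zero_of_le_zero
        (this ▸ Finset.single_le_sum (fun _ _ => Nat.zero_le _) (Finset.mem_univ i))
    rw [hν0, h0]
    ring
  have hUn : ∀ p, 0 ≤ U (p + 1) := by
    intro p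
    rw [hU]
    apply mul_nonneg (dd_pos _).le
    apply Finset.sum_nonneg
    intro ν hν
    have hjl := jl_of_mem (Z := Z) hν
    have hPp := hP (jh Z ν) (lh Z ν) (by omega)
    apply mul_nonneg (mm_pos _).le
    apply mul_nonneg (sq_nonneg _)
    nlinarith [mul_nonneg ha0 hPp.le]
  have hXge : ∀ p, U (p + 1) + V p ≤ X p := by
    intro p
    have hpp : (0 : ℝ) < (2 * (p : ℝ) + 2) * (2 * p + 1) := by positivity
    have hd : dd (p + 1) = dd p / ((2 * (p : ℝ) + 2) * (2 * p + 1)) * (2 * (p : ℝ) + 1) ^ 2 := by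
      rw [dd_succ]
      field_simp
    have hU' : U (p + 1) = dd p / ((2 * (p : ℝ) + 2) * (2 * p + 1)) *
        ∑ ν ∈ (Finset.univ : Finset (Fin B)).piAntidiag (p + 1), mm (dbl ν) * f ν ^ 2 *
          ((1 - a * (1 - P (jh Z ν) (lh Z ν))) * (2 * (p : ℝ) + 1) ^ 2) := by
      rw [hU]
      simp only
      rw [hd, mul_assoc, Finset.mul_sum]
      congr 1
      refine Finset.sum_congr rfl fun ν _ => ?_
      ring
    rw [hU', hV, hX]
    simp only
    rw [← mul_add, ← Finset.sum_add_distrib]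
    apply mul_le_mul_of_nonneg_left _ (div_nonneg (dd_pos p).le hpp.le)
    apply Finset.sum_le_sum
    intro ν hν
    have hjl := jl_of_mem (Z := Z) hν
    rw [← mul_add]
    apply mul_le_mul_of_nonneg_left _ (mul_nonneg (mm_pos _).le (sq_nonneg _))
    have hcc := hc (jh Z ν) (lh Z ν) (by omega)
    have hN : (2 * (p : ℝ) + 1) = 2 * ((jh Z ν : ℝ) + lh Z ν) - 1 := by
      have : ((jh Z ν : ℝ) + lh Z ν) = (p : ℝ) + 1 := by exact_mod_cast hjl
      rw [this]
      ring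
    rw [hN]
    nlinarith [hcc]
  have hsum : ∑ p ∈ Finset.range (M + 1), (U (p + 1) - U p) ≤
      ∑ p ∈ Finset.range (M + 1), (X p - Y p) := by
    apply Finset.sum_le_sum
    intro p _
    linarith [hYle p, hXge p]
  rw [Finset.sum_range_sub, hU0] at hsum
  have := hUn M
  have h9 : 0 ≤ ∑ p ∈ Finset.range (M + 1), (X p - Y p) := by linarith
  exact h9

/-! ### The values at a vertex -/

private def Jm (m : ℕ) : ℝ := ∫ x in (-1 : ℝ)..1, (1 - x ^ 2) ^ m

private lemma prod_vert (Z S : Finset (Fin B)) (x : ℝ) :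
    ∏ l ∈ S, (1 - x ^ 2 * (if l ∈ Z then (1 : ℝ) else 0)) = (1 - x ^ 2) ^ (S ∩ Z).card := by
  have h : ∀ l, 1 - x ^ 2 * (if l ∈ Z then (1 : ℝ) else 0) = if l ∈ Z then (1 - x ^ 2) else 1 := by
    intro l
    split_ifs <;> ring
  simp only [h]
  rw [Finset.prod_ite, Finset.prod_const, Finset.prod_const_one, mul_one,
    Finset.filter_mem_eq_inter]

private lemma G1_vert (Z : Finset (Fin B)) (k : Fin B) :
    G1 (fun k => if k ∈ Z then (1 : ℝ) else 0) k = Jm (Z.erase k).card := by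
  unfold G1 Jm
  simp only [prod_vert, Finset.erase_inter, Finset.univ_inter]

private lemma G2_vert (Z : Finset (Fin B)) (k l : Fin B) :
    G2 (fun k => if k ∈ Z then (1 : ℝ) else 0) k l = Jm ((Z.erase k).erase l).card := by
  unfold G2 Jm
  simp only [prod_vert, Finset.erase_inter, Finset.univ_inter]

private lemma quad (Z : Finset (Fin B)) (α0 α1 α2 : ℝ) (G : Fin B → Fin B → ℝ)
    (h : ∀ k l, k ≠ l → G k l =
      if k ∈ Z then (if l ∈ Z then α2 else α1) else (if l ∈ Z then α1 else α0))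
    (x : Fin B → ℝ) :
    ∑ k, ∑ l ∈ Finset.univ.erase k, x k * x l * G k l =
      α0 * (∑ k ∈ Zᶜ, x k) ^ 2 + 2 * α1 * (∑ k ∈ Zᶜ, x k) * (∑ k ∈ Z, x k) +
        α2 * (∑ k ∈ Z, x k) ^ 2 - ∑ k, (if k ∈ Z then α2 else α0) * x k ^ 2 := by
  set g : Fin B → Fin B → ℝ := fun k l =>
    if k ∈ Z then (if l ∈ Z then α2 else α1) else (if l ∈ Z then α1 else α0) with hg
  have e1 : ∀ k, ∑ l ∈ Finset.univ.erase k, x k * x l * G k l =
      ∑ l, x k * x l * g k l - (if k ∈ Z then α2 else α0) * x k ^ 2 := by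
    intro k
    have : ∑ l ∈ Finset.univ.erase k, x k * x l * G k l =
        ∑ l ∈ Finset.univ.erase k, x k * x l * g k l := by
      refine Finset.sum_congr rfl fun l hl => ?_
      rw [h k l (Finset.ne_of_mem_erase hl).symm]
    rw [this, Finset.sum_erase_eq_sub (Finset.mem_univ k)]
    congr 1
    rw [hg]
    simp only
    split_ifs <;> ring
  rw [Finset.sum_congr rfl fun k _ => e1 k, Finset.sum_sub_distrib]
  congr 1
  have e2 : ∀ k, ∑ l, x k * x l * g k l =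
      if k ∈ Z then x k * (α2 * ∑ l ∈ Z, x l + α1 * ∑ l ∈ Zᶜ, x l)
      else x k * (α1 * ∑ l ∈ Z, x l + α0 * ∑ l ∈ Zᶜ, x l) := by
    intro k
    rw [← Finset.sum_add_sum_compl Z]
    have a1 : ∑ l ∈ Z, x k * x l * g k l = ∑ l ∈ Z, x k * x l * (if k ∈ Z then α2 else α1) := by
      refine Finset.sum_congr rfl fun l hl => ?_
      rw [hg]
      simp only [hl, if_true]
    have a2 : ∑ l ∈ Zᶜ, x k * x l * g k l =
        ∑ l ∈ Zᶜ, x k * x l * (if k ∈ Z then α1 else α0) := by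
      refine Finset.sum_congr rfl fun l hl => ?_
      rw [hg]
      simp only [Finset.mem_compl.1 hl, if_false]
    rw [a1, a2, ← Finset.sum_mul, ← Finset.sum_mul, ← Finset.mul_sum, ← Finset.mul_sum]
    split_ifs <;> ring
  rw [Finset.sum_congr rfl fun k _ => e2 k, ← Finset.sum_add_sum_compl Z]
  have b1 : ∑ k ∈ Z, (if k ∈ Z then x k * (α2 * ∑ l ∈ Z, x l + α1 * ∑ l ∈ Zᶜ, x l)
      else x k * (α1 * ∑ l ∈ Z, x l + α0 * ∑ l ∈ Zᶜ, x l)) =
      (∑ k ∈ Z, x k) * (α2 * ∑ l ∈ Z, x l + α1 * ∑ l ∈ Zᶜ, x l) := by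
    rw [Finset.sum_mul]
    refine Finset.sum_congr rfl fun l hl => ?_
    simp only [hl, if_true]
  have b2 : ∑ k ∈ Zᶜ, (if k ∈ Z then x k * (α2 * ∑ l ∈ Z, x l + α1 * ∑ l ∈ Zᶜ, x l)
      else x k * (α1 * ∑ l ∈ Z, x l + α0 * ∑ l ∈ Zᶜ, x l)) =
      (∑ k ∈ Zᶜ, x k) * (α1 * ∑ l ∈ Z, x l + α0 * ∑ l ∈ Zᶜ, x l) := by
    rw [Finset.sum_mul]
    refine Finset.sum_congr rfl fun l hl => ?_
    simp only [Finset.mem_compl.1 hl, if_false]
  rw [b1, b2]
  ring

/-- The diagonal terms cancel. -/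
private lemma diag (p : ℕ) (f : (Fin B → ℕ) → ℝ) (δ : Fin B → ℝ) :
    dd p / ((2 * p + 2) * (2 * p + 1)) *
        ∑ ν ∈ (Finset.univ : Finset (Fin B)).piAntidiag (p + 1), mm (dbl ν) * f ν ^ 2 *
          ∑ k, δ k * (2 * (ν k : ℝ)) ^ 2 =
      dd p * ∑ ν ∈ (Finset.univ : Finset (Fin B)).piAntidiag p, mm (dbl ν) *
        ∑ k, δ k * f (u1 ν k) ^ 2 := by
  set g : (Fin B → ℕ) → Fin B → ℝ := fun ν k =>
      mm (dbl ν) * f ν ^ 2 * (δ k * (2 * (ν k : ℝ)) ^ 2) with hg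
  have h2 : ∑ ν ∈ (Finset.univ : Finset (Fin B)).piAntidiag (p + 1), mm (dbl ν) * f ν ^ 2 *
          ∑ k, δ k * (2 * (ν k : ℝ)) ^ 2 =
      ∑ ν ∈ (Finset.univ : Finset (Fin B)).piAntidiag p, ∑ k, g (u1 ν k) k := by
    rw [sum_u1 p g]
    · refine Finset.sum_congr rfl fun ν _ => ?_
      rw [hg]
      simp only
      rw [Finset.mul_sum]
    · intro ν k hk
      rw [hg]
      simp [hk]
  rw [h2, Finset.mul_sum, Finset.mul_sum]
  refine Finset.sum_congr rfl fun ν hν => ?_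
  rw [Finset.mul_sum, Finset.mul_sum, Finset.mul_sum]
  refine Finset.sum_congr rfl fun k _ => ?_
  rw [hg]
  simp only
  have hm := mm_u1 hν k
  have hk1 : ((u1 ν k k : ℕ) : ℝ) = (ν k : ℝ) + 1 := by simp [u1]
  rw [hk1]
  have hpp : (0 : ℝ) < (2 * (p : ℝ) + 2) * (2 * p + 1) := by positivity
  have h4 : mm (dbl (u1 ν k)) * f (u1 ν k) ^ 2 * (δ k * (2 * ((ν k : ℝ) + 1)) ^ 2) =
      mm (dbl ν) * ((2 * (p : ℝ) + 2) * (2 * p + 1)) * (δ k * f (u1 ν k) ^ 2) := by
    rw [← hm]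
    ring
  rw [h4]
  field_simp

private lemma zf_form (M : ℕ) (f : (Fin B → ℕ) → ℝ) (hf : ∀ ν, f ν = ∑ k, f (u1 ν k))
    (Z : Finset (Fin B)) (γ : Fin B → ℝ) (α a b : ℝ)
    (h1 : ∀ k, G1 γ k = if k ∈ Z then α else α * (1 - a))
    (h2 : ∀ k l, k ≠ l → G2 γ k l =
      if k ∈ Z then (if l ∈ Z then α * (1 + b) else α)
      else (if l ∈ Z then α else α * (1 - a))) :
    Zf γ M f = α * ∑ p ∈ Finset.range (M + 1), (dd p / ((2 * p + 2) * (2 * p + 1)) *
        ∑ ν ∈ (Finset.univ : Finset (Fin B)).piAntidiag (p + 1), mm (dbl ν) * f ν ^ 2 *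
          ((2 * ((jh Z ν : ℝ) + lh Z ν)) ^ 2 - 2 * ((jh Z ν : ℝ) + lh Z ν) +
            a * (2 * (jh Z ν : ℝ) - 4 * (jh Z ν : ℝ) ^ 2) + b * (4 * (lh Z ν : ℝ) ^ 2)) -
      dd p * ∑ ν ∈ (Finset.univ : Finset (Fin B)).piAntidiag p, mm (dbl ν) *
        (f ν ^ 2 - a * Ay Z f ν ^ 2 + b * Cy Z f ν ^ 2)) := by
  unfold Zf
  rw [Finset.mul_sum]
  refine Finset.sum_congr rfl fun p _ => ?_
  set δ : Fin B → ℝ := fun k => if k ∈ Z then α * (1 + b) else α * (1 - a) with hδ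
  have hd := diag p f δ
  have e1 : ∑ ν ∈ (Finset.univ : Finset (Fin B)).piAntidiag (p + 1), mm (dbl ν) * f ν ^ 2 *
        ((∑ k, ∑ l ∈ Finset.univ.erase k, 4 * (ν k : ℝ) * ν l * G2 γ k l) -
          ∑ k, 2 * (ν k : ℝ) * G1 γ k) =
      α * (∑ ν ∈ (Finset.univ : Finset (Fin B)).piAntidiag (p + 1), mm (dbl ν) * f ν ^ 2 *
          ((2 * ((jh Z ν : ℝ) + lh Z ν)) ^ 2 - 2 * ((jh Z ν : ℝ) + lh Z ν) +
            a * (2 * (jh Z ν : ℝ) - 4 * (jh Z ν : ℝ) ^ 2) + b * (4 * (lh Z ν : ℝ) ^ 2))) -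
      ∑ ν ∈ (Finset.univ : Finset (Fin B)).piAntidiag (p + 1), mm (dbl ν) * f ν ^ 2 *
          ∑ k, δ k * (2 * (ν k : ℝ)) ^ 2 := by
    rw [Finset.mul_sum, ← Finset.sum_sub_distrib]
    refine Finset.sum_congr rfl fun ν _ => ?_
    have q := quad Z (α * (1 - a)) α (α * (1 + b)) (G2 γ) h2 (fun k => 2 * (ν k : ℝ))
    have q' : ∑ k, ∑ l ∈ Finset.univ.erase k, 4 * (ν k : ℝ) * ν l * G2 γ k l =
        ∑ k, ∑ l ∈ Finset.univ.erase k, 2 * (ν k : ℝ) * (2 * (ν l : ℝ)) * G2 γ k l := by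
      refine Finset.sum_congr rfl fun k _ => Finset.sum_congr rfl fun l _ => ?_
      ring
    have ej : ∑ k ∈ Zᶜ, 2 * (ν k : ℝ) = 2 * (jh Z ν : ℝ) := by
      unfold jh
      push_cast
      rw [Finset.mul_sum]
    have el : ∑ k ∈ Z, 2 * (ν k : ℝ) = 2 * (lh Z ν : ℝ) := by
      unfold lh
      push_cast
      rw [Finset.mul_sum]
    have q1 : ∑ k, 2 * (ν k : ℝ) * G1 γ k = α * (2 * (lh Z ν : ℝ)) +
        α * (1 - a) * (2 * (jh Z ν : ℝ)) := by
      rw [← ej, ← el, ← Finset.sum_add_sum_compl Z, Finset.mul_sum, Finset.mul_sum]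
      congr 1
      · refine Finset.sum_congr rfl fun k hk => ?_
        rw [h1, if_pos hk]
        ring
      · refine Finset.sum_congr rfl fun k hk => ?_
        rw [h1, if_neg (Finset.mem_compl.1 hk)]
        ring
    rw [q', q, q1, ej, el]
    ring
  have e2 : ∑ ν ∈ (Finset.univ : Finset (Fin B)).piAntidiag p, mm (dbl ν) *
      ∑ k, ∑ l ∈ Finset.univ.erase k, G2 γ k l * (f (u1 ν k) * f (u1 ν l)) =
      α * (∑ ν ∈ (Finset.univ : Finset (Fin B)).piAntidiag p, mm (dbl ν) *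
        (f ν ^ 2 - a * Ay Z f ν ^ 2 + b * Cy Z f ν ^ 2)) -
      ∑ ν ∈ (Finset.univ : Finset (Fin B)).piAntidiag p, mm (dbl ν) *
        ∑ k, δ k * f (u1 ν k) ^ 2 := by
    rw [Finset.mul_sum, ← Finset.sum_sub_distrib]
    refine Finset.sum_congr rfl fun ν _ => ?_
    have q := quad Z (α * (1 - a)) α (α * (1 + b)) (G2 γ) h2 (fun k => f (u1 ν k))
    have q' : ∑ k, ∑ l ∈ Finset.univ.erase k, G2 γ k l * (f (u1 ν k) * f (u1 ν l)) =
        ∑ k, ∑ l ∈ Finset.univ.erase k, f (u1 ν k) * f (u1 ν l) * G2 γ k l := by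
      refine Finset.sum_congr rfl fun k _ => Finset.sum_congr rfl fun l _ => ?_
      ring
    have hAC : f ν = Ay Z f ν + Cy Z f ν := by
      unfold Ay Cy
      rw [add_comm, Finset.sum_add_sum_compl]
      exact hf ν
    rw [q', q, hAC]
    unfold Ay Cy
    ring
  rw [e1, e2, mul_sub, mul_sub, mul_sub, hd]
  ring

private lemma Jm_pos (m : ℕ) : 0 < Jm m := J_pos m

private lemma Jm_succ (m : ℕ) : (2 * (m : ℝ) + 3) * Jm (m + 1) = (2 * m + 2) * Jm m := J_succ m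


private lemma vert_zero (M : ℕ) (f : (Fin B → ℕ) → ℝ) (hf : ∀ ν, f ν = ∑ k, f (u1 ν k))
    (h0 : f 0 = 0) (Z : Finset (Fin B)) (hZ : Z.card = 0) :
    0 ≤ Zf (fun k => if k ∈ Z then 1 else 0) M f := by
  obtain rfl := Finset.card_eq_zero.1 hZ
  rw [zf_form M f hf ∅ _ (Jm 0) 0 0]
  · apply mul_nonneg (Jm_pos 0).le
    apply core M f hf h0 ∅ 0 0 (fun _ _ => 1) (fun _ _ => 0)
    · exact le_rfl
    · exact zero_le_one
    · intro _ _ _
      exact one_pos
    · intro _ _ _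
      simp
    · simp
    · intro _ _
      exact le_rfl
    · intro j l hjl
      have : (1 : ℝ) ≤ (j : ℝ) + l := by exact_mod_cast hjl
      simp only [zero_mul, add_zero, sub_zero]
      linarith
  · intro k
    rw [G1_vert]
    simp
  · intro k l _
    rw [G2_vert]
    simp

private lemma vert_one (M : ℕ) (f : (Fin B → ℕ) → ℝ) (hf : ∀ ν, f ν = ∑ k, f (u1 ν k))
    (h0 : f 0 = 0) (Z : Finset (Fin B)) (hZ : Z.card = 1) :
    0 ≤ Zf (fun k => if k ∈ Z then 1 else 0) M f := by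
  have hJ : Jm 1 = Jm 0 * (1 - 1 / 3) := by
    have := Jm_succ 0
    norm_num at this
    linarith
  rw [zf_form M f hf Z _ (Jm 0) (1 / 3) 0]
  · apply mul_nonneg (Jm_pos 0).le
    apply core M f hf h0 Z (1 / 3) 0
      (fun j l => if j ≤ 1 then 1 else (2 * (l : ℝ) + 2) / (2 * ((j : ℝ) + l) - 1))
      (fun j l => if j ≤ 1 then 0 else 1 / 3 * (2 * (j : ℝ) - 3) / (2 * (l : ℝ) + 2))
    · norm_num
    · norm_num
    · intro j l hjl
      split_ifs with hj
      · exact one_pos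
      · have h2 : (2 : ℝ) ≤ j := by exact_mod_cast (by omega : 2 ≤ j)
        apply div_pos (by positivity)
        have : (0 : ℝ) ≤ l := by positivity
        linarith
    · intro j l hjl
      split_ifs with hj
      · norm_num
      · have h2 : (2 : ℝ) ≤ j := by exact_mod_cast (by omega : 2 ≤ j)
        have h3 : (0 : ℝ) ≤ l := by positivity
        have h4 : (0 : ℝ) < 2 * ((j : ℝ) + l) - 1 := by linarith
        have h5 : (0 : ℝ) < 2 * (l : ℝ) + 2 := by linarith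
        apply le_of_eq
        field_simp
        ring
    · norm_num
    · intro j l
      split_ifs with hj
      · exact le_rfl
      · have h2 : (2 : ℝ) ≤ j := by exact_mod_cast (by omega : 2 ≤ j)
        have h3 : (0 : ℝ) ≤ l := by positivity
        apply div_nonneg _ (by linarith)
        linarith
    · intro j l hjl
      rw [hZ]
      rcases Nat.lt_or_ge 1 j with hj | hj
      · simp only [if_neg (not_le.2 hj)]
        have h2 : (2 : ℝ) ≤ j := by exact_mod_cast hj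
        have h3 : (0 : ℝ) ≤ l := by positivity
        have h4 : (0 : ℝ) < 2 * ((j : ℝ) + l) - 1 := by linarith
        rcases Nat.eq_zero_or_pos l with hl | hl
        · subst hl
          have e : (2 * ((j : ℝ) + (0 : ℕ)) - 1 + 1 / 3 * (2 * (j : ℝ) - 4 * (j : ℝ) ^ 2) +
              0 * (4 * ((0 : ℕ) : ℝ) ^ 2) +
              1 / 3 * (1 - (2 * ((0 : ℕ) : ℝ) + 2) / (2 * ((j : ℝ) + (0 : ℕ)) - 1)) *
                (2 * ((j : ℝ) + (0 : ℕ)) - 1) ^ 2 -
              1 / 3 * (2 * (j : ℝ) - 3) / (2 * ((0 - 1 : ℕ) : ℝ) + 2) * (2 * ((0 : ℕ) : ℝ)) *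
                (2 * ((0 : ℕ) : ℝ) + 2 * ((1 : ℕ) : ℝ) - 2)) = 0 := by
            push_cast at h4 ⊢
            field_simp
            ring
          rw [e]
        · have hl1 : ((l - 1 : ℕ) : ℝ) = (l : ℝ) - 1 := by
            push_cast [Nat.cast_sub hl]
            ring
          have h5 : (1 : ℝ) ≤ l := by exact_mod_cast hl
          have e : (2 * ((j : ℝ) + l) - 1 + 1 / 3 * (2 * (j : ℝ) - 4 * (j : ℝ) ^ 2) +
              0 * (4 * (l : ℝ) ^ 2) +
              1 / 3 * (1 - (2 * (l : ℝ) + 2) / (2 * ((j : ℝ) + l) - 1)) *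
                (2 * ((j : ℝ) + l) - 1) ^ 2 -
              1 / 3 * (2 * (j : ℝ) - 3) / (2 * ((l - 1 : ℕ) : ℝ) + 2) * (2 * (l : ℝ)) *
                (2 * (l : ℝ) + 2 * ((1 : ℕ) : ℝ) - 2)) = 2 * (l : ℝ) := by
            rw [hl1]
            have h6 : 2 * ((l : ℝ) - 1) + 2 = 2 * (l : ℝ) := by ring
            have h7 : (l : ℝ) ≠ 0 := by linarith
            rw [h6]
            push_cast
            field_simp
            ring
          rw [e]
          linarith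
      · simp only [if_pos hj]
        have h3 : (1 : ℝ) ≤ (j : ℝ) + l := by exact_mod_cast hjl
        have h4 : (j : ℝ) = 0 ∨ (j : ℝ) = 1 := by
          rcases Nat.le_one_iff_eq_zero_or_eq_one.1 hj with h | h
          · left; exact_mod_cast h
          · right; exact_mod_cast h
        have h5 : (0 : ℝ) ≤ l := by positivity
        rcases h4 with h | h
        · rw [h] at h3 ⊢
          norm_num
          linarith
        · rw [h] at h3 ⊢
          norm_num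
          linarith
  · intro k
    rw [G1_vert]
    split_ifs with hk
    · rw [Finset.card_erase_of_mem hk, hZ]
    · rw [Finset.erase_eq_of_notMem hk, hZ, hJ]
  · intro k l hkl
    rw [G2_vert]
    by_cases hk : k ∈ Z
    · have hl : l ∉ Z := by
        intro hl
        exact hkl (Finset.card_le_one.1 hZ.le k hk l hl)
      rw [if_pos hk, if_neg hl, Finset.erase_eq_of_notMem (fun h => hl (Finset.mem_of_mem_erase h)),
        Finset.card_erase_of_mem hk, hZ]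
    · rw [if_neg hk, Finset.erase_eq_of_notMem hk]
      by_cases hl : l ∈ Z
      · rw [if_pos hl, Finset.card_erase_of_mem hl, hZ]
      · rw [if_neg hl, Finset.erase_eq_of_notMem hl, hZ, hJ]

private lemma vert_two (M : ℕ) (f : (Fin B → ℕ) → ℝ) (hf : ∀ ν, f ν = ∑ k, f (u1 ν k))
    (h0 : f 0 = 0) (Z : Finset (Fin B)) (m : ℕ) (hZ : Z.card = m + 2) :
    0 ≤ Zf (fun k => if k ∈ Z then 1 else 0) M f := by
  have hm0 : (0 : ℝ) ≤ m := by positivity
  have hJ0 : Jm (m + 2) = Jm (m + 1) * (1 - 1 / (2 * (m : ℝ) + 5)) := by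
    have h := Jm_succ (m + 1)
    push_cast at h
    have h5 : (0 : ℝ) < 2 * (m : ℝ) + 5 := by positivity
    field_simp
    linarith
  have hJ2 : Jm m = Jm (m + 1) * (1 + 1 / (2 * (m : ℝ) + 2)) := by
    have h := Jm_succ m
    have h5 : (0 : ℝ) < 2 * (m : ℝ) + 2 := by positivity
    field_simp
    linarith
  have hba : 1 / (2 * (m : ℝ) + 5) ≤ 1 / (2 * (m : ℝ) + 2) := by
    apply one_div_le_one_div_of_le (by positivity)
    linarith
  rw [zf_form M f hf Z _ (Jm (m + 1)) (1 / (2 * (m : ℝ) + 5)) (1 / (2 * (m : ℝ) + 2))]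
  · apply mul_nonneg (Jm_pos (m + 1)).le
    apply core M f hf h0 Z (1 / (2 * (m : ℝ) + 5)) (1 / (2 * (m : ℝ) + 2))
      (fun j l => if j = 0 then (2 * (l : ℝ) + 2 * m + 2) / (2 * (l : ℝ) - 1) else
        if j ≤ m + 2 then 1 else (2 * (l : ℝ) + 2 * m + 4) / (2 * ((j : ℝ) + l) - 1))
      (fun j l => if j = 0 then (if l = 0 then 1 / (2 * (m : ℝ) + 2) - 1 / (2 * (m : ℝ) + 5) else
          1 / (2 * (m : ℝ) + 2) - 1 / (2 * (m : ℝ) + 5) +
            1 / (2 * (m : ℝ) + 5) * (2 * (l : ℝ) - 1) / (2 * (l : ℝ) + 2 * m + 2)) else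
        if j ≤ m + 2 then 1 / (2 * (m : ℝ) + 2) else
          1 / (2 * (m : ℝ) + 2) - 1 / (2 * (m : ℝ) + 5) +
            1 / (2 * (m : ℝ) + 5) * (2 * ((j : ℝ) + l) - 1) / (2 * (l : ℝ) + 2 * m + 4))
    · positivity
    · rw [div_le_one (by positivity)]
      linarith
    · intro j l hjl
      have h3 : (0 : ℝ) ≤ l := by positivity
      have h3' : (0 : ℝ) ≤ j := by positivity
      have h4 : (1 : ℝ) ≤ (j : ℝ) + l := by exact_mod_cast hjl
      split_ifs with hj hj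
      · subst hj
        have h5 : (1 : ℝ) ≤ l := by
          push_cast at h4
          linarith
        apply div_pos (by positivity)
        linarith
      · exact one_pos
      · apply div_pos (by positivity)
        linarith
    · intro j l hjl
      have h3 : (0 : ℝ) ≤ l := by positivity
      have h4 : (1 : ℝ) ≤ (j : ℝ) + l := by exact_mod_cast hjl
      by_cases hj : j = 0
      · subst hj
        have h5 : (1 : ℝ) ≤ l := by
          push_cast at h4
          linarith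
        have hl : l ≠ 0 := by
          rintro rfl
          norm_num at h5
        simp only [if_true, if_neg hl]
        have h6 : (0 : ℝ) < 2 * (l : ℝ) - 1 := by linarith
        have h7 : (0 : ℝ) < 2 * (l : ℝ) + 2 * m + 2 := by positivity
        apply le_of_eq
        field_simp
        ring
      · simp only [if_neg hj]
        by_cases hj2 : j ≤ m + 2
        · simp only [if_pos hj2]
          norm_num
        · simp only [if_neg hj2]
          have h6 : (0 : ℝ) < 2 * ((j : ℝ) + l) - 1 := by linarith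
          have h7 : (0 : ℝ) < 2 * (l : ℝ) + 2 * m + 4 := by positivity
          apply le_of_eq
          field_simp
          ring
    · simp
    · intro j l
      have h3 : (0 : ℝ) ≤ l := by positivity
      split_ifs with hj hl hj2
      · linarith
      · have h5 : (1 : ℝ) ≤ l := by exact_mod_cast Nat.one_le_iff_ne_zero.2 hl
        have h6 : 0 ≤ 1 / (2 * (m : ℝ) + 5) * (2 * (l : ℝ) - 1) / (2 * (l : ℝ) + 2 * m + 2) := by
          apply div_nonneg _ (by positivity)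
          apply mul_nonneg (by positivity)
          linarith
        linarith
      · positivity
      · have h5 : (1 : ℝ) ≤ j := by exact_mod_cast Nat.one_le_iff_ne_zero.2 hj
        have h6 : 0 ≤ 1 / (2 * (m : ℝ) + 5) * (2 * ((j : ℝ) + l) - 1) /
            (2 * (l : ℝ) + 2 * m + 4) := by
          apply div_nonneg _ (by positivity)
          apply mul_nonneg (by positivity)
          linarith
        linarith
    · intro j l hjl
      have h3 : (0 : ℝ) ≤ l := by positivity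
      have h4 : (1 : ℝ) ≤ (j : ℝ) + l := by exact_mod_cast hjl
      rw [hZ]
      push_cast
      by_cases hj : j = 0
      · subst hj
        simp only [if_true]
        have h5 : (1 : ℝ) ≤ l := by
          push_cast at h4
          linarith
        have hl : 1 ≤ l := by exact_mod_cast h5
        rcases Nat.lt_or_ge 1 l with hl2 | hl2
        · have hl1 : ((l - 1 : ℕ) : ℝ) = (l : ℝ) - 1 := by
            push_cast [Nat.cast_sub hl]
            ring
          have h6 : (2 : ℝ) ≤ l := by exact_mod_cast hl2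
          rw [if_neg (by omega), hl1]
          have h7 : (0 : ℝ) < 2 * (l : ℝ) - 1 := by linarith
          have h8 : (0 : ℝ) < 2 * ((l : ℝ) - 1) + 2 * m + 2 := by linarith
          have h9 : (0 : ℝ) < (l : ℝ) + m := by linarith
          have e : 2 * (((0 : ℕ) : ℝ) + l) - 1 +
              1 / (2 * (m : ℝ) + 5) * (2 * ((0 : ℕ) : ℝ) - 4 * ((0 : ℕ) : ℝ) ^ 2) +
              1 / (2 * (m : ℝ) + 2) * (4 * (l : ℝ) ^ 2) +
              1 / (2 * (m : ℝ) + 5) * (1 - (2 * (l : ℝ) + 2 * m + 2) / (2 * (l : ℝ) - 1)) *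
                (2 * (((0 : ℕ) : ℝ) + l) - 1) ^ 2 -
              (1 / (2 * (m : ℝ) + 2) - 1 / (2 * (m : ℝ) + 5) +
                1 / (2 * (m : ℝ) + 5) * (2 * ((l : ℝ) - 1) - 1) /
                  (2 * ((l : ℝ) - 1) + 2 * m + 2)) * (2 * (l : ℝ)) *
                (2 * (l : ℝ) + 2 * ((m : ℝ) + 2) - 2) =
              ((2 * (m : ℝ) + 3) * (1 + 2 * (l : ℝ) / ((l : ℝ) + m)) - (2 * (m : ℝ) + 5)) /
                (2 * (m : ℝ) + 5) := by
            push_cast
            have h8' : 2 * ((l : ℝ) - 1) + 2 * m + 2 = 2 * ((l : ℝ) + m) := by ring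
            rw [h8']
            field_simp
            ring
          have h10 : 0 ≤ ((2 * (m : ℝ) + 3) * (1 + 2 * (l : ℝ) / ((l : ℝ) + m)) -
              (2 * (m : ℝ) + 5)) / (2 * (m : ℝ) + 5) := by
            apply div_nonneg _ (by positivity)
            have h11 : (2 * (m : ℝ) + 3) * (1 + 2 * (l : ℝ) / ((l : ℝ) + m)) -
              (2 * (m : ℝ) + 5) = ((2 * (m : ℝ) + 3) * (2 * (l : ℝ)) - 2 * ((l : ℝ) + m)) /
                ((l : ℝ) + m) := by
              field_simp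
              ring
            rw [h11]
            apply div_nonneg _ h9.le
            nlinarith [mul_nonneg hm0 h3]
          have := e ▸ h10
          convert this using 1
        · have hl1 : l = 1 := by omega
          subst hl1
          apply le_of_eq
          norm_num
          field_simp
          ring
      · have hj1 : (1 : ℝ) ≤ j := by exact_mod_cast Nat.one_le_iff_ne_zero.2 hj
        simp only [if_neg hj]
        by_cases hj2 : j ≤ m + 2
        · simp only [if_pos hj2]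
          have hj3 : (j : ℝ) ≤ m + 2 := by exact_mod_cast hj2
          have e : 2 * ((j : ℝ) + l) - 1 +
              1 / (2 * (m : ℝ) + 5) * (2 * (j : ℝ) - 4 * (j : ℝ) ^ 2) +
              1 / (2 * (m : ℝ) + 2) * (4 * (l : ℝ) ^ 2) +
              1 / (2 * (m : ℝ) + 5) * (1 - 1) * (2 * ((j : ℝ) + l) - 1) ^ 2 -
              1 / (2 * (m : ℝ) + 2) * (2 * (l : ℝ)) * (2 * (l : ℝ) + 2 * ((m : ℝ) + 2) - 2) =
              (2 * (j : ℝ) - 1) * (2 * ((m : ℝ) + 2 - j) + 1) / (2 * (m : ℝ) + 5) := by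
            field_simp
            ring
          rw [e]
          apply div_nonneg _ (by positivity)
          apply mul_nonneg <;> linarith
        · simp only [if_neg hj2]
          have h6 : (0 : ℝ) < 2 * ((j : ℝ) + l) - 1 := by linarith
          rcases Nat.eq_zero_or_pos l with hl | hl
          · subst hl
            apply le_of_eq
            push_cast at h6 ⊢
            have h6' : 2 * (j : ℝ) - 1 ≠ 0 := by linarith
            field_simp
            ring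
          · have hl1 : ((l - 1 : ℕ) : ℝ) = (l : ℝ) - 1 := by
              push_cast [Nat.cast_sub hl]
              ring
            have h5 : (1 : ℝ) ≤ l := by exact_mod_cast hl
            rw [hl1]
            have h7 : 2 * ((l : ℝ) - 1) + 2 * m + 4 = 2 * ((l : ℝ) + m + 1) := by ring
            have h8 : (0 : ℝ) < (l : ℝ) + m + 1 := by positivity
            rw [h7]
            apply le_of_eq
            field_simp
            ring
  · intro k
    rw [G1_vert]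
    split_ifs with hk
    · rw [Finset.card_erase_of_mem hk, hZ]
      rfl
    · rw [Finset.erase_eq_of_notMem hk, hZ, hJ0]
  · intro k l hkl
    rw [G2_vert]
    by_cases hk : k ∈ Z
    · rw [if_pos hk]
      by_cases hl : l ∈ Z
      · rw [if_pos hl, Finset.card_erase_of_mem (Finset.mem_erase.2 ⟨hkl.symm, hl⟩),
          Finset.card_erase_of_mem hk, hZ, ← hJ2]
        rfl
      · rw [if_neg hl, Finset.erase_eq_of_notMem (fun h => hl (Finset.mem_of_mem_erase h)),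
          Finset.card_erase_of_mem hk, hZ]
        rfl
    · rw [if_neg hk, Finset.erase_eq_of_notMem hk]
      by_cases hl : l ∈ Z
      · rw [if_pos hl, Finset.card_erase_of_mem hl, hZ]
        rfl
      · rw [if_neg hl, Finset.erase_eq_of_notMem hl, hZ, hJ0]

theorem zf_vert (M : ℕ) (f : (Fin B → ℕ) → ℝ) (hf : ∀ ν, f ν = ∑ k, f (u1 ν k)) (h0 : f 0 = 0)
    (Z : Finset (Fin B)) : 0 ≤ Zf (fun k => if k ∈ Z then 1 else 0) M f := by
  obtain h | h | h : Z.card = 0 ∨ Z.card = 1 ∨ 2 ≤ Z.card := by omega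
  · exact vert_zero M f hf h0 Z h
  · exact vert_one M f hf h0 Z h
  · obtain ⟨m, hm⟩ := Nat.exists_eq_add_of_le h
    exact vert_two M f hf h0 Z m (by omega)

end Pool.Agent.H35.ISO
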