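import Mathlib
import Pool.Agent.H35.ISO.Exp
import Pool.Agent.H35.ISO.Nz
import Pool.Agent.H35.ISO.Zeq
import Pool.Agent.H35.ISO.Zaf
import Pool.Agent.H35.ISO.Zve

set_option autoImplicit false

/-!
# Cor: the kernel inequality for `c_k < 1`

`Q(M) = -(∑∑ λ_j λ_k KK 0 c (u_j) (u_k) tr M (t_jk)) = EE c` of the left side of `expand`
(`(1-x²)^0 = 1`) `=` (integrate `expand` term by term: `EE_sum`, `EE_sub`, `EE_mul`, everything continuous
on `[-1,1]`) the sum of the forms; `sum_split` for each `p` (`2p+2 = 2(p+1)`): the charged part is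
`nz_nonneg` (`F = FF u lam`, `FF_up`), the charge-free part is `z_eq` (`CC c (dbl ν) = S² - S` with
`nk (dbl ν) = 2ν`, `ek = 0`; `FF_dbl`, `up_dbl`, real `f ν = ∑ λ_j ∏ (‖u_j k‖²)^ν_k`, `f 0 = ∑ λ_j = 0`,
`f ν = ∑_k f(u1 ν k)`), `zf_of_vert`, `zf_vert`: `0 ≤ Q(M)`.
`M → ∞`: if `|t_jk| < 1`, `tr M (t) → 1/√(1-t²)` (`hasSum_inv_sqrt`); if `|t_jk| = 1` (unit vectors,
Cauchy-Schwarz equality) `u_k = ± u_j` and `qq = 0`, `KK = 0`.  `|t_jk| ≤ 1` always.
-/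

open MeasureTheory Pool.Agent.H89.CZ
open scoped ComplexConjugate

noncomputable section

namespace Pool.Agent.H35.ISO

variable {B : ℕ}

/-! ### Continuity on `[-1,1]` -/

theorem Cor_contSS {c : Fin B → ℝ} (hc : ∀ k, 0 ≤ c k ∧ c k < 1) (N : Fin B → ℕ) :
    ContinuousOn (fun x => SS c N x) (Set.Icc (-1 : ℝ) 1) := by
  unfold SS
  exact continuousOn_finsetSum _ (fun k _ => continuousOn_const.mul (continuousOn_La hc k))

theorem Cor_contCC {c : Fin B → ℝ} (hc : ∀ k, 0 ≤ c k ∧ c k < 1) (n : Md B) :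
    ContinuousOn (fun x => CC c n x) (Set.Icc (-1 : ℝ) 1) := by
  unfold CC
  have h1 : ContinuousOn (fun x : ℝ => x ^ 2) (Set.Icc (-1 : ℝ) 1) :=
    (continuous_id.pow 2).continuousOn
  have h2 : ContinuousOn (fun x => ∑ k, ek n k * c k * La c x k) (Set.Icc (-1 : ℝ) 1) :=
    continuousOn_finsetSum _ (fun k _ => continuousOn_const.mul (continuousOn_La hc k))
  exact (((Cor_contSS hc (nk n)).pow 2).sub (Cor_contSS hc (nk n))).sub (h1.mul (h2.pow 2))

theorem Cor_contqq {c : Fin B → ℝ} (hc : ∀ k, 0 ≤ c k ∧ c k < 1) (a b : Fin B → ℂ) :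
    ContinuousOn (fun x => qq c a b x) (Set.Icc (-1 : ℝ) 1) := by
  unfold qq
  have h1 : ContinuousOn (fun x : ℝ => x ^ 2) (Set.Icc (-1 : ℝ) 1) :=
    (continuous_id.pow 2).continuousOn
  have h2 : ∀ g : Fin B → ℝ, ContinuousOn (fun x => ∑ k, La c x k * g k) (Set.Icc (-1 : ℝ) 1) :=
    fun g => continuousOn_finsetSum _ (fun k _ => (continuousOn_La hc k).mul continuousOn_const)
  have h3 : ContinuousOn (fun x => ∑ k, c k * La c x k * (a k * conj (b k)).im)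
      (Set.Icc (-1 : ℝ) 1) :=
    continuousOn_finsetSum _ (fun k _ =>
      (continuousOn_const.mul (continuousOn_La hc k)).mul continuousOn_const)
  exact (((h2 _).mul (h2 _)).sub ((h2 _).pow 2)).sub (h1.mul (h3.pow 2))

theorem Cor_contN {c : Fin B → ℝ} (hc : ∀ k, 0 ≤ c k ∧ c k < 1) (G : Fin B → ℂ) :
    ContinuousOn (fun x => ‖∑ k, (La c x k : ℂ) * G k‖ ^ 2) (Set.Icc (-1 : ℝ) 1) := by
  have h : ContinuousOn (fun x => ∑ k, (La c x k : ℂ) * G k) (Set.Icc (-1 : ℝ) 1) :=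
    continuousOn_finsetSum _ (fun k _ =>
      (Complex.continuous_ofReal.comp_continuousOn (continuousOn_La hc k)).mul continuousOn_const)
  exact h.norm.pow 2

theorem Cor_EE_congr (c : Fin B → ℝ) {f g : ℝ → ℝ} (h : ∀ x ∈ Set.Icc (-1 : ℝ) 1, f x = g x) :
    EE c f = EE c g := by
  unfold EE
  refine intervalIntegral.integral_congr (fun x hx => ?_)
  rw [Set.uIcc_of_le (by norm_num)] at hx
  simp only [h x hx]

theorem Cor_KK (c : Fin B → ℝ) (a b : Fin B → ℂ) : KK 0 c a b = EE c (fun x => qq c a b x) := by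
  unfold KK EE
  simp only [pow_zero, one_mul]

/-! ### The truncated form in modes -/

theorem Cor_left {c : Fin B → ℝ} (hc : ∀ k, 0 ≤ c k ∧ c k < 1) {N : ℕ} (u : Fin N → Fin B → ℂ)
    (lam : Fin N → ℝ) (M : ℕ) :
    EE c (fun x => -(∑ j, ∑ k, lam j * lam k * (qq c (u j) (u k) x * tr M (tt (u j) (u k))))) =
      -(∑ j, ∑ k, lam j * lam k * (KK 0 c (u j) (u k) * tr M (tt (u j) (u k)))) := by
  have e1 : (fun x => -(∑ j, ∑ k, lam j * lam k * (qq c (u j) (u k) x *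
      tr M (tt (u j) (u k))))) = fun x => ∑ j, ∑ k,
      (-(lam j * lam k * tr M (tt (u j) (u k)))) * qq c (u j) (u k) x := by
    funext x
    rw [← Finset.sum_neg_distrib]
    refine Finset.sum_congr rfl (fun j _ => ?_)
    rw [← Finset.sum_neg_distrib]
    refine Finset.sum_congr rfl (fun k _ => ?_)
    ring
  have hq : ∀ j k, ContinuousOn (fun x => (-(lam j * lam k * tr M (tt (u j) (u k)))) *
      qq c (u j) (u k) x) (Set.Icc (-1 : ℝ) 1) :=
    fun j k => continuousOn_const.mul (Cor_contqq hc _ _)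
  rw [e1, EE_sum c _ (fun j _ => continuousOn_finsetSum _ (fun k _ => hq j k)),
    ← Finset.sum_neg_distrib]
  refine Finset.sum_congr rfl (fun j _ => ?_)
  rw [EE_sum c _ (fun k _ => hq j k), ← Finset.sum_neg_distrib]
  refine Finset.sum_congr rfl (fun k _ => ?_)
  rw [EE_mul, Cor_KK]
  ring

theorem Cor_right {c : Fin B → ℝ} (hc : ∀ k, 0 ≤ c k ∧ c k < 1) (M : ℕ) (F : Md B → ℂ) :
    EE c (fun x => ∑ p ∈ Finset.range (M + 1), (dd p / ((2 * p + 2) * (2 * p + 1)) *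
          ∑ n ∈ lev B (2 * p + 2), mm n * CC c n x * ‖F n‖ ^ 2 -
        dd p * ∑ n ∈ lev B (2 * p), mm n * ‖∑ k, (La c x k : ℂ) * F (up n k)‖ ^ 2)) =
      ∑ p ∈ Finset.range (M + 1), (dd p / ((2 * p + 2) * (2 * p + 1)) *
          ∑ n ∈ lev B (2 * p + 2), mm n * EE c (CC c n) * ‖F n‖ ^ 2 -
        dd p * ∑ n ∈ lev B (2 * p), mm n *
          EE c (fun x => ‖∑ k, (La c x k : ℂ) * F (up n k)‖ ^ 2)) := by
  have h1 : ∀ n : Md B, ContinuousOn (fun x => mm n * CC c n x * ‖F n‖ ^ 2)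
      (Set.Icc (-1 : ℝ) 1) :=
    fun n => (continuousOn_const.mul (Cor_contCC hc n)).mul continuousOn_const
  have h2 : ∀ n : Md B, ContinuousOn (fun x => mm n * ‖∑ k, (La c x k : ℂ) * F (up n k)‖ ^ 2)
      (Set.Icc (-1 : ℝ) 1) :=
    fun n => continuousOn_const.mul (Cor_contN hc _)
  have h3 : ∀ p : ℕ, ContinuousOn (fun x => dd p / ((2 * (p : ℝ) + 2) * (2 * p + 1)) *
          ∑ n ∈ lev B (2 * p + 2), mm n * CC c n x * ‖F n‖ ^ 2) (Set.Icc (-1 : ℝ) 1) :=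
    fun p => continuousOn_const.mul (continuousOn_finsetSum _ (fun n _ => h1 n))
  have h4 : ∀ p : ℕ, ContinuousOn (fun x => dd p *
          ∑ n ∈ lev B (2 * p), mm n * ‖∑ k, (La c x k : ℂ) * F (up n k)‖ ^ 2)
          (Set.Icc (-1 : ℝ) 1) :=
    fun p => continuousOn_const.mul (continuousOn_finsetSum _ (fun n _ => h2 n))
  refine (EE_sum c (Finset.range (M + 1)) (f := fun p x =>
    dd p / ((2 * (p : ℝ) + 2) * (2 * p + 1)) *
      ∑ n ∈ lev B (2 * p + 2), mm n * CC c n x * ‖F n‖ ^ 2 -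
    dd p * ∑ n ∈ lev B (2 * p), mm n * ‖∑ k, (La c x k : ℂ) * F (up n k)‖ ^ 2)
    (fun p _ => (h3 p).sub (h4 p))).trans ?_
  refine Finset.sum_congr rfl (fun p _ => ?_)
  rw [EE_sub c (h3 p) (h4 p), EE_mul, EE_mul, EE_sum c _ (fun n _ => h1 n),
    EE_sum c _ (fun n _ => h2 n)]
  congr 2
  · refine Finset.sum_congr rfl (fun n _ => ?_)
    have : (fun x => mm n * CC c n x * ‖F n‖ ^ 2) = fun x => (mm n * ‖F n‖ ^ 2) * CC c n x := by
      funext x
      ring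
    rw [this, EE_mul]
    ring
  · refine Finset.sum_congr rfl (fun n _ => ?_)
    rw [EE_mul]

/-! ### The charge-free modes -/

theorem Cor_nk (ν : Fin B → ℕ) : nk (dbl ν) = fun k => 2 * ν k := by
  funext k
  simp only [nk, dbl]
  ring

theorem Cor_ek (ν : Fin B → ℕ) (k : Fin B) : ek (dbl ν) k = 0 := by
  simp only [ek, dbl, sub_self]

theorem Cor_CC (c : Fin B → ℝ) (ν : Fin B → ℕ) : CC c (dbl ν) =
    fun x => SS c (fun k => 2 * ν k) x ^ 2 - SS c (fun k => 2 * ν k) x := by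
  funext x
  simp only [CC, Cor_nk, Cor_ek, zero_mul, Finset.sum_const_zero]
  ring

theorem Cor_norm (c : Fin B → ℝ) {F : Md B → ℂ} {f : (Fin B → ℕ) → ℝ}
    (hFf : ∀ ν, F (dbl ν) = (f ν : ℂ)) (ν : Fin B → ℕ) :
    (fun x => ‖∑ k, (La c x k : ℂ) * F (up (dbl ν) k)‖ ^ 2) =
      fun x => (∑ k, La c x k * f (u1 ν k)) ^ 2 := by
  funext x
  have : ∑ k, (La c x k : ℂ) * F (up (dbl ν) k) = ((∑ k, La c x k * f (u1 ν k) : ℝ) : ℂ) := by
    push_cast
    refine Finset.sum_congr rfl (fun k _ => ?_)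
    rw [up_dbl, hFf]
  rw [this, Complex.norm_real, Real.norm_eq_abs, sq_abs]

theorem Cor_modes {c : Fin B → ℝ} (hc : ∀ k, 0 ≤ c k ∧ c k < 1) (M : ℕ) (F : Md B → ℂ)
    (hF : ∀ n, F n = ∑ k, F (up n k)) (f : (Fin B → ℕ) → ℝ)
    (hFf : ∀ ν, F (dbl ν) = (f ν : ℂ)) (h0 : f 0 = 0) :
    0 ≤ ∑ p ∈ Finset.range (M + 1), (dd p / ((2 * p + 2) * (2 * p + 1)) *
          ∑ n ∈ lev B (2 * p + 2), mm n * EE c (CC c n) * ‖F n‖ ^ 2 -
        dd p * ∑ n ∈ lev B (2 * p), mm n *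
          EE c (fun x => ‖∑ k, (La c x k : ℂ) * F (up n k)‖ ^ 2)) := by
  have hf : ∀ ν, f ν = ∑ k, f (u1 ν k) := by
    intro ν
    have h := hF (dbl ν)
    rw [hFf] at h
    have h' : (f ν : ℂ) = ((∑ k, f (u1 ν k) : ℝ) : ℂ) := by
      rw [h]
      push_cast
      refine Finset.sum_congr rfl (fun k _ => ?_)
      rw [up_dbl, hFf]
    exact_mod_cast h'
  have hN := nz_nonneg hc M F hF
  have hZ : 0 ≤ Zf (fun k => c k ^ 2) M f :=
    zf_of_vert M f (fun Z => zf_vert M f hf h0 Z) (fun k => ⟨by positivity, by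
      have := hc k
      nlinarith⟩)
  rw [← z_eq hc M f] at hZ
  refine (add_nonneg hN hZ).trans (le_of_eq ?_)
  rw [← Finset.sum_add_distrib]
  refine Finset.sum_congr rfl (fun p _ => ?_)
  have s1 := sum_split (B := B) (p + 1) (fun n => mm n * EE c (CC c n) * ‖F n‖ ^ 2)
  have s2 := sum_split (B := B) p (fun n => mm n *
    EE c (fun x => ‖∑ k, (La c x k : ℂ) * F (up n k)‖ ^ 2))
  have t1 : ∑ ν ∈ (Finset.univ : Finset (Fin B)).piAntidiag (p + 1),
      mm (dbl ν) * EE c (CC c (dbl ν)) * ‖F (dbl ν)‖ ^ 2 =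
      ∑ ν ∈ (Finset.univ : Finset (Fin B)).piAntidiag (p + 1), mm (dbl ν) *
            EE c (fun x => SS c (fun k => 2 * ν k) x ^ 2 - SS c (fun k => 2 * ν k) x) *
              f ν ^ 2 := by
    refine Finset.sum_congr rfl (fun ν _ => ?_)
    rw [Cor_CC, hFf, Complex.norm_real, Real.norm_eq_abs, sq_abs]
  have t2 : ∑ ν ∈ (Finset.univ : Finset (Fin B)).piAntidiag p, mm (dbl ν) *
      EE c (fun x => ‖∑ k, (La c x k : ℂ) * F (up (dbl ν) k)‖ ^ 2) =
      ∑ ν ∈ (Finset.univ : Finset (Fin B)).piAntidiag p, mm (dbl ν) *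
          EE c (fun x => (∑ k, La c x k * f (u1 ν k)) ^ 2) := by
    refine Finset.sum_congr rfl (fun ν _ => ?_)
    rw [Cor_norm c hFf]
  rw [t1] at s1
  rw [t2] at s2
  have e : 2 * (p + 1) = 2 * p + 2 := by ring
  rw [e] at s1
  rw [s1, s2]
  ring

theorem Cor_trunc {c : Fin B → ℝ} (hc : ∀ k, 0 ≤ c k ∧ c k < 1) {N : ℕ} (u : Fin N → Fin B → ℂ)
    (hu : ∀ j, ∑ k, ‖u j k‖ ^ 2 = 1) (lam : Fin N → ℝ) (hl : ∑ j, lam j = 0) (M : ℕ) :
    ∑ j, ∑ k, lam j * lam k * (KK 0 c (u j) (u k) * tr M (tt (u j) (u k))) ≤ 0 := by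
  have h1 := Cor_left hc u lam M
  have h2 := Cor_right hc M (FF u lam)
  have h3 : EE c (fun x => -(∑ j, ∑ k, lam j * lam k * (qq c (u j) (u k) x *
      tr M (tt (u j) (u k))))) =
      EE c (fun x => ∑ p ∈ Finset.range (M + 1), (dd p / ((2 * p + 2) * (2 * p + 1)) *
          ∑ n ∈ lev B (2 * p + 2), mm n * CC c n x * ‖FF u lam n‖ ^ 2 -
        dd p * ∑ n ∈ lev B (2 * p), mm n *
          ‖∑ k, (La c x k : ℂ) * FF u lam (up n k)‖ ^ 2)) :=
    Cor_EE_congr c (fun x hx => expand c M u lam (fun k => by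
      have := dk_pos hc hx k
      linarith))
  have h4 := Cor_modes hc M (FF u lam) (FF_up u hu lam)
    (fun ν => ∑ j, lam j * ∏ k, (‖u j k‖ ^ 2) ^ ν k) (fun ν => FF_dbl u lam ν) (by
      simp [hl])
  rw [← h2, ← h3, h1] at h4
  linarith

/-! ### The limit -/

theorem Cor_eq_of_le {a b : Fin B → ℂ} (ha : ∑ k, ‖a k‖ ^ 2 = 1) (hb : ∑ k, ‖b k‖ ^ 2 = 1)
    (h : 1 ≤ tt a b) : b = a := by
  have e : ∑ k, ‖b k - a k‖ ^ 2 = 2 - 2 * tt a b := by
    have : ∀ k, ‖b k - a k‖ ^ 2 = ‖b k‖ ^ 2 + ‖a k‖ ^ 2 - 2 * (a k * conj (b k)).re := by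
      intro k
      rw [Complex.sq_norm, Complex.sq_norm, Complex.sq_norm, Complex.normSq_sub]
      have : (b k * conj (a k)).re = (a k * conj (b k)).re := by
        simp [Complex.mul_re]
        ring
      rw [this]
    rw [Finset.sum_congr rfl (fun k _ => this k), Finset.sum_sub_distrib,
      Finset.sum_add_distrib, ha, hb, ← Finset.mul_sum]
    unfold tt
    ring
  have h0 : ∑ k, ‖b k - a k‖ ^ 2 = 0 :=
    le_antisymm (by rw [e]; linarith) (Finset.sum_nonneg (fun k _ => by positivity))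
  funext k
  have h1 := (Finset.sum_eq_zero_iff_of_nonneg (fun k _ => by positivity)).1 h0 k
    (Finset.mem_univ k)
  have h2 : ‖b k - a k‖ = 0 := by
    simpa using h1
  exact sub_eq_zero.1 (norm_eq_zero.1 h2)

theorem Cor_qq_self (c : Fin B → ℝ) (a : Fin B → ℂ) (x : ℝ) : qq c a a x = 0 := by
  unfold qq
  have h1 : ∀ k, (a k * conj (a k)).re = ‖a k‖ ^ 2 := by
    intro k
    rw [Complex.mul_conj, Complex.sq_norm, Complex.ofReal_re]
  have h2 : ∀ k, (a k * conj (a k)).im = 0 := by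
    intro k
    rw [Complex.mul_conj, Complex.ofReal_im]
  simp only [h1, h2, mul_zero, Finset.sum_const_zero]
  ring

theorem Cor_qq_neg (c : Fin B → ℝ) (a b : Fin B → ℂ) (x : ℝ) :
    qq c a (-b) x = qq c a b x := by
  unfold qq
  simp only [Pi.neg_apply, norm_neg, map_neg, mul_neg, Complex.neg_re, Complex.neg_im,
    Finset.sum_neg_distrib]
  ring

theorem Cor_tt_neg (a b : Fin B → ℂ) : tt a (-b) = -tt a b := by
  unfold tt
  simp only [Pi.neg_apply, map_neg, mul_neg, Complex.neg_re, Finset.sum_neg_distrib]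

theorem Cor_KK_zero (c : Fin B → ℝ) {a b : Fin B → ℂ} (ha : ∑ k, ‖a k‖ ^ 2 = 1)
    (hb : ∑ k, ‖b k‖ ^ 2 = 1) (h : 1 ≤ |tt a b|) : KK 0 c a b = 0 := by
  rw [Cor_KK]
  have h0 : ∀ x, qq c a b x = 0 := by
    intro x
    rcases le_abs.1 h with h | h
    · rw [Cor_eq_of_le ha hb h]
      exact Cor_qq_self c a x
    · have hb' : ∑ k, ‖(-b) k‖ ^ 2 = 1 := by
        simpa using hb
      have := Cor_eq_of_le ha hb' (by rw [Cor_tt_neg]; exact h)
      rw [← Cor_qq_neg, this]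
      exact Cor_qq_self c a x
  simp only [h0]
  unfold EE
  simp

theorem Cor_lim (c : Fin B → ℝ) {a b : Fin B → ℂ} (ha : ∑ k, ‖a k‖ ^ 2 = 1)
    (hb : ∑ k, ‖b k‖ ^ 2 = 1) :
    Filter.Tendsto (fun M => KK 0 c a b * tr M (tt a b)) Filter.atTop
      (nhds (KK 0 c a b / √(1 - tt a b ^ 2))) := by
  by_cases h : |tt a b| < 1
  · have h1 := (hasSum_inv_sqrt h).tendsto_sum_nat
    have h2 := (h1.comp (Filter.tendsto_add_atTop_nat 1)).const_mul (KK 0 c a b)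
    rw [mul_one_div] at h2
    exact h2
  · rw [Cor_KK_zero c ha hb (not_lt.1 h)]
    simp

theorem core_lt {c : Fin B → ℝ} (hc : ∀ k, 0 ≤ c k ∧ c k < 1) {N : ℕ} (u : Fin N → Fin B → ℂ)
    (hu : ∀ j, ∑ k, ‖u j k‖ ^ 2 = 1) (lam : Fin N → ℝ) (hl : ∑ j, lam j = 0) :
    ∑ j, ∑ k, lam j * lam k * (KK 0 c (u j) (u k) / √(1 - tt (u j) (u k) ^ 2)) ≤ 0 := by
  have h : Filter.Tendsto
      (fun M => ∑ j, ∑ k, lam j * lam k * (KK 0 c (u j) (u k) * tr M (tt (u j) (u k))))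
      Filter.atTop
      (nhds (∑ j, ∑ k, lam j * lam k * (KK 0 c (u j) (u k) / √(1 - tt (u j) (u k) ^ 2)))) :=
    tendsto_finsetSum _ (fun j _ => tendsto_finsetSum _ (fun k _ =>
      (Cor_lim c (hu j) (hu k)).const_mul (lam j * lam k)))
  exact le_of_tendsto' h (fun M => Cor_trunc hc u hu lam hl M)

end Pool.Agent.H35.ISO
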