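import Mathlib
import Pool.Agent.H35.ISO.Cor
import Pool.Agent.H35.ISO.Ana

set_option autoImplicit false

/-!
# CorK: `c_k ≤ 1` and the weight `(1-x²)^κ`

(1) `κ = 0`, `c_k ≤ 1`.  For `0 < s < 1`: `qq (s c) a b x Px (s c) x = qq c a b (s x) Px c (s x)` (all
occurrences are `x² c_k²` and `x² (∑ c_k …)²`), so
`KK 0 (s c) a b = ∫_{-1}^1 (qq Px)(s x) dx → KK 0 c a b` as `s → 1⁻` (`qq Px` is bounded and
continuous on `(-1,1)`: `qq Px` equals a polynomial there; dominated convergence).  Apply `core_lt` to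
`s c` and pass to the limit.
(2) Weight: `(1-x²)^κ Px c x = Px c' x` with `κ` more blocks with `c = 1` (`Fin.append c (fun _ => 1)`),
vectors extended by `0`: `qq`, `tt`, `∑ ‖u_k‖²` unchanged.
-/

open MeasureTheory Pool.Agent.H89.CZ
open scoped ComplexConjugate

noncomputable section

namespace Pool.Agent.H35.ISO

variable {B : ℕ}

/-! ### `qq Px` as a polynomial -/

/-- the polynomial which equals `qq Px` where `Px ≠ 0` -/
private def fP (c : Fin B → ℝ) (a b : Fin B → ℂ) (x : ℝ) : ℝ :=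
  (∑ k, (a k * conj (b k)).im ^ 2 * ∏ l ∈ Finset.univ.erase k, (1 - x ^ 2 * c l ^ 2)) +
  ∑ k, ∑ l ∈ Finset.univ.erase k,
    (‖a k‖ ^ 2 * ‖b l‖ ^ 2 - (a k * conj (b k)).re * (a l * conj (b l)).re -
      x ^ 2 * (c k * c l) * ((a k * conj (b k)).im * (a l * conj (b l)).im)) *
    ∏ j ∈ (Finset.univ.erase k).erase l, (1 - x ^ 2 * c j ^ 2)

private lemma norm_sq_mul (z w : ℂ) :
    ‖z‖ ^ 2 * ‖w‖ ^ 2 = (z * conj w).re ^ 2 + (z * conj w).im ^ 2 := by
  rw [Complex.sq_norm, Complex.sq_norm, Complex.normSq_apply, Complex.normSq_apply]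
  simp only [Complex.mul_re, Complex.mul_im, Complex.conj_re, Complex.conj_im]
  ring

private lemma qq_expand (c : Fin B → ℝ) (a b : Fin B → ℂ) (x : ℝ) :
    qq c a b x = ∑ k, ∑ l, La c x k * La c x l *
      (‖a k‖ ^ 2 * ‖b l‖ ^ 2 - (a k * conj (b k)).re * (a l * conj (b l)).re -
      x ^ 2 * (c k * c l) * ((a k * conj (b k)).im * (a l * conj (b l)).im)) := by
  unfold qq
  rw [Finset.sum_mul_sum, pow_two (∑ k, La c x k * (a k * conj (b k)).re), Finset.sum_mul_sum,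
    pow_two (∑ k, c k * La c x k * (a k * conj (b k)).im), Finset.sum_mul_sum,
    Finset.mul_sum, ← Finset.sum_sub_distrib, ← Finset.sum_sub_distrib]
  refine Finset.sum_congr rfl (fun k _ => ?_)
  rw [Finset.mul_sum, ← Finset.sum_sub_distrib, ← Finset.sum_sub_distrib]
  refine Finset.sum_congr rfl (fun l _ => ?_)
  ring

private lemma fP_eq {c : Fin B → ℝ} {x : ℝ} (h : ∀ k, 1 - x ^ 2 * c k ^ 2 ≠ 0)
    (a b : Fin B → ℂ) : qq c a b x * Px c x = fP c a b x := by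
  rw [qq_expand, Finset.sum_mul, fP, ← Finset.sum_add_distrib]
  refine Finset.sum_congr rfl (fun k _ => ?_)
  rw [Finset.sum_mul, ← Finset.add_sum_erase Finset.univ _ (Finset.mem_univ k)]
  congr 1
  · have h1 : Px c x = (1 - x ^ 2 * c k ^ 2) *
        ∏ l ∈ Finset.univ.erase k, (1 - x ^ 2 * c l ^ 2) := by
      unfold Px
      exact (Finset.mul_prod_erase Finset.univ (fun l => 1 - x ^ 2 * c l ^ 2)
        (Finset.mem_univ k)).symm
    rw [h1, norm_sq_mul, La]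
    have := h k
    field_simp
    ring
  · refine Finset.sum_congr rfl (fun l hl => ?_)
    have h1 : Px c x = (1 - x ^ 2 * c k ^ 2) * ((1 - x ^ 2 * c l ^ 2) *
        ∏ j ∈ (Finset.univ.erase k).erase l, (1 - x ^ 2 * c j ^ 2)) := by
      unfold Px
      rw [Finset.mul_prod_erase (Finset.univ.erase k) (fun l => 1 - x ^ 2 * c l ^ 2) hl]
      exact (Finset.mul_prod_erase Finset.univ (fun l => 1 - x ^ 2 * c l ^ 2)
        (Finset.mem_univ k)).symm
    rw [h1, La, La]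
    have e1 := h k
    have e2 := h l
    field_simp

private lemma KK_eq_fP {c : Fin B → ℝ} (hc : ∀ k, 0 ≤ c k ∧ c k ≤ 1) (a b : Fin B → ℂ) :
    KK 0 c a b = ∫ x in (-1 : ℝ)..1, fP c a b x := by
  unfold KK
  refine intervalIntegral.integral_congr_ae ?_
  have h1 : ∀ᵐ x : ℝ ∂volume, x ≠ 1 := by
    simp [ae_iff, measure_singleton]
  filter_upwards [h1] with x hx1 hx
  rw [Set.uIoc_of_le (by norm_num : (-1 : ℝ) ≤ 1)] at hx
  have hx2 : x ^ 2 < 1 := by
    have h2 : x < 1 := lt_of_le_of_ne hx.2 hx1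
    have h3 := hx.1
    nlinarith
  rw [pow_zero, one_mul]
  refine fP_eq (fun k => ?_) a b
  obtain ⟨h0, h1⟩ := hc k
  have h2 : c k ^ 2 ≤ 1 := by nlinarith
  have h3 : x ^ 2 * c k ^ 2 ≤ x ^ 2 * 1 := mul_le_mul_of_nonneg_left h2 (sq_nonneg x)
  have : 0 < 1 - x ^ 2 * c k ^ 2 := by linarith
  exact this.ne'

private lemma fP_cont (c : Fin B → ℝ) (a b : Fin B → ℂ) :
    Continuous (fun p : ℝ × ℝ => fP (fun k => p.1 * c k) a b p.2) := by
  unfold fP
  fun_prop

private lemma int_cont (c : Fin B → ℝ) (a b : Fin B → ℂ) :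
    Continuous (fun s : ℝ => ∫ x in (-1 : ℝ)..1, fP (fun k => s * c k) a b x) := by
  refine intervalIntegral.continuous_parametric_intervalIntegral_of_continuous' ?_ (-1) 1
  exact fP_cont c a b

private theorem core0 {c : Fin B → ℝ} (hc : ∀ k, 0 ≤ c k ∧ c k ≤ 1) {N : ℕ}
    (u : Fin N → Fin B → ℂ) (hu : ∀ j, ∑ k, ‖u j k‖ ^ 2 = 1) (lam : Fin N → ℝ)
    (hl : ∑ j, lam j = 0) :
    ∑ j, ∑ k, lam j * lam k * (KK 0 c (u j) (u k) / √(1 - tt (u j) (u k) ^ 2)) ≤ 0 := by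
  set F : ℝ → ℝ := fun s => ∑ j, ∑ k, lam j * lam k *
    ((∫ x in (-1 : ℝ)..1, fP (fun l => s * c l) (u j) (u k) x) /
      √(1 - tt (u j) (u k) ^ 2)) with hF
  have hFc : Continuous F := by
    rw [hF]
    refine continuous_finsetSum _ (fun j _ => continuous_finsetSum _ (fun k _ => ?_))
    exact continuous_const.mul ((int_cont c (u j) (u k)).div_const _)
  have h1 : ∑ j, ∑ k, lam j * lam k * (KK 0 c (u j) (u k) / √(1 - tt (u j) (u k) ^ 2)) = F 1 := by
    rw [hF]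
    simp only [one_mul]
    refine Finset.sum_congr rfl (fun j _ => Finset.sum_congr rfl (fun k _ => ?_))
    rw [KK_eq_fP hc]
  rw [h1]
  have h2 : ∀ s ∈ Set.Ioo (0 : ℝ) 1, F s ≤ 0 := by
    intro s hs
    have hsc : ∀ k, 0 ≤ s * c k ∧ s * c k < 1 := by
      intro k
      obtain ⟨h0, h1⟩ := hc k
      refine ⟨mul_nonneg hs.1.le h0, ?_⟩
      calc s * c k ≤ s * 1 := mul_le_mul_of_nonneg_left h1 hs.1.le
        _ < 1 := by linarith [hs.2]
    have h3 := core_lt hsc u hu lam hl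
    refine le_of_eq_of_le ?_ h3
    rw [hF]
    refine Finset.sum_congr rfl (fun j _ => Finset.sum_congr rfl (fun k _ => ?_))
    rw [KK_eq_fP (fun k => ⟨(hsc k).1, (hsc k).2.le⟩)]
  have h3 : Filter.Tendsto F (nhdsWithin 1 (Set.Ioo 0 1)) (nhds (F 1)) :=
    hFc.continuousAt.continuousWithinAt
  have hne : (nhdsWithin (1 : ℝ) (Set.Ioo 0 1)).NeBot := by
    rw [← mem_closure_iff_nhdsWithin_neBot, closure_Ioo (by norm_num)]
    exact ⟨by norm_num, le_rfl⟩
  exact le_of_tendsto h3 (by filter_upwards [self_mem_nhdsWithin] with s hs using h2 s hs)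

/-! ### The weight -/

private lemma La_append (c : Fin B → ℝ) (κ : ℕ) (x : ℝ) (k : Fin B) :
    La (Fin.append c (fun _ : Fin κ => (1 : ℝ))) x (Fin.castAdd κ k) = La c x k := by
  simp [La]

private lemma Px_append (c : Fin B → ℝ) (κ : ℕ) (x : ℝ) :
    Px (Fin.append c (fun _ : Fin κ => (1 : ℝ))) x = Px c x * (1 - x ^ 2) ^ κ := by
  simp [Px, Fin.prod_univ_add]

private lemma tt_append (κ : ℕ) (a b : Fin B → ℂ) :
    tt (Fin.append a (fun _ : Fin κ => (0 : ℂ))) (Fin.append b (fun _ : Fin κ => (0 : ℂ))) =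
      tt a b := by
  simp [tt, Fin.sum_univ_add]

private lemma qq_append (c : Fin B → ℝ) (κ : ℕ) (a b : Fin B → ℂ) (x : ℝ) :
    qq (Fin.append c (fun _ : Fin κ => (1 : ℝ))) (Fin.append a (fun _ : Fin κ => (0 : ℂ)))
      (Fin.append b (fun _ : Fin κ => (0 : ℂ))) x = qq c a b x := by
  simp [qq, Fin.sum_univ_add, La_append]

private lemma KK_append (c : Fin B → ℝ) (κ : ℕ) (a b : Fin B → ℂ) :
    KK 0 (Fin.append c (fun _ : Fin κ => (1 : ℝ))) (Fin.append a (fun _ : Fin κ => (0 : ℂ)))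
      (Fin.append b (fun _ : Fin κ => (0 : ℂ))) = KK κ c a b := by
  unfold KK
  refine intervalIntegral.integral_congr (fun x _ => ?_)
  simp only [qq_append, Px_append]
  ring

theorem core {c : Fin B → ℝ} (hc : ∀ k, 0 ≤ c k ∧ c k ≤ 1) (κ : ℕ) {N : ℕ}
    (u : Fin N → Fin B → ℂ) (hu : ∀ j, ∑ k, ‖u j k‖ ^ 2 = 1) (lam : Fin N → ℝ)
    (hl : ∑ j, lam j = 0) :
    ∑ j, ∑ k, lam j * lam k * (KK κ c (u j) (u k) / √(1 - tt (u j) (u k) ^ 2)) ≤ 0 := by
  have hc' : ∀ k, 0 ≤ (Fin.append c (fun _ : Fin κ => (1 : ℝ))) k ∧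
      (Fin.append c (fun _ : Fin κ => (1 : ℝ))) k ≤ 1 := by
    intro k
    refine Fin.addCases (fun i => ?_) (fun i => ?_) k
    · rw [Fin.append_left]
      exact hc i
    · rw [Fin.append_right]
      norm_num
  have h := core0 hc' (fun j => Fin.append (u j) (fun _ : Fin κ => (0 : ℂ))) (fun j => by
    simp [Fin.sum_univ_add, hu j]) lam hl
  refine le_of_eq_of_le ?_ h
  refine Finset.sum_congr rfl (fun j _ => Finset.sum_congr rfl (fun k _ => ?_))
  rw [KK_append, tt_append]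

end Pool.Agent.H35.ISO
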