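import Mathlib
import Pool.Agent.H35.ISO.FunL
import Pool.Agent.H35.NI.Dua

set_option autoImplicit false

/-!
# FunD: isotropic or coisotropic frames

`e` isotropic: then `i ≤ n` (`e` is complex orthonormal) and this is `fun_iso`.
Complement `e'` isotropic, `i + j = 2n`: `j ≤ n ≤ i`, `n - i = 0`, `j > 0`.  If `GG w = 0`: `dz w = 0`, `p = 0`
(`frame`, `pol_unique`).  Else `w = t f` (`frame`), `f` orthonormal with complement `f'`
(`exists_cpl`): `gg e w = t gg e f = t gg e' f'` (`Cpl.gg_eq`), `√GG w = t`, `dz w z = t² dz f z`,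
`(1+z²)^i dz f' z = (1+z²)^n dz f z` (`Cpl.dz_eq` for `Cpl f' f` or `f f'`), so with `p' (z²) = dz f' z`
(`exists_pol`): `p = t² (1+X)^(n-j) p'` (`pol_unique`; `i - n = n - j`) and
`(1-x²)^(n-j) t² p'(-x²) = p(-x²)`.  `fun_iso` for `e', f'`.

`gg_lower`: orthonormal `f`: `p(-x²) = ∏ (1 - x² c_k²) ≥ (1-x²)^(i/2)` (`orth_pol`,
`pol_unique`), so `gg e f ≥ c J_(n-i+i/2) > 0`; general `w` by `frame`.
-/

open MeasureTheory Pool.Agent.H61.UProj Pool.Agent.H89.CZ Pool.Agent.H35.NI

noncomputable section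

namespace Pool.Agent.H35.ISO

variable {n i : ℕ}

/-- An isotropic orthonormal frame has `dz = 1`. -/
private theorem dz_isoF {e : Fin i → Cn n} (he : Orthonormal ℝ e) (h : IsoF e) (z : ℝ) :
    dz e z = 1 := by
  have h1 := orthonormal_iff_ite.1 he
  unfold dz
  have h2 : (Matrix.of fun a b => (inner ℝ (e a) (e b) : ℝ) + z * om (e a) (e b)) = 1 := by
    ext a b
    simp only [Matrix.of_apply, h1, h a b, mul_zero, add_zero, Matrix.one_apply]
  rw [h2, Matrix.det_one]

private theorem le_two_mul {e : Fin i → Cn n} (he : Orthonormal ℝ e) : i ≤ 2 * n := by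
  have h1 := he.linearIndependent.fintype_card_le_finrank
  rwa [Fintype.card_fin, finrank_real_of_complex, finrank_euclideanSpace_fin] at h1

/-- An isotropic orthonormal frame has at most `n` vectors. -/
private theorem isoF_le {e : Fin i → Cn n} (he : Orthonormal ℝ e) (h : IsoF e) : i ≤ n := by
  have h1 := le_two_mul he
  obtain ⟨j, hj⟩ := Nat.exists_eq_add_of_le h1
  have hij : i + j = 2 * n := hj.symm
  obtain ⟨e', he'⟩ := exists_cpl hij he
  have h2 := Cpl.dz_eq hij he' 1
  rw [dz_isoF he h, mul_one] at h2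
  obtain ⟨c, -, hc⟩ := orth_pol he'.2.1
  have h3 : (1 : ℝ) ≤ dz e' 1 := by
    rw [hc]
    calc (1 : ℝ) = ∏ _k : Fin (j / 2), (1 : ℝ) := by rw [Finset.prod_const_one]
      _ ≤ _ := Finset.prod_le_prod (fun _ _ => zero_le_one) fun k _ => by
        have : 0 ≤ c k ^ 2 := sq_nonneg _
        linarith
  have h4 : ((1 : ℝ) + 1 ^ 2) ^ n ≤ (1 + 1 ^ 2) ^ j := by
    rw [h2]
    have : (0 : ℝ) ≤ (1 + 1 ^ 2) ^ n := by positivity
    nlinarith
  have h5 : n ≤ j := by
    by_contra hlt
    have := pow_lt_pow_right₀ (a := (1 : ℝ) + 1 ^ 2) (by norm_num) (not_le.1 hlt)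
    linarith
  omega

private theorem gg_scale {e w f : Fin i → Cn n} {t : ℝ} (ht : 0 < t)
    (hD : ∀ x, DD x w = t * DD x f) : gg e w = t * gg e f := by
  unfold gg
  rw [← integral_const_mul]
  refine integral_congr_ae (Filter.Eventually.of_forall fun φ => ?_)
  simp only []
  rw [hD, abs_mul, abs_of_pos ht]

theorem fun_isoC (hi : 0 < i) (hin : i < 2 * n) {e : Fin i → Cn n} (he : Orthonormal ℝ e)
    (h : IsoC e) : ∃ c : ℝ, 0 < c ∧ ∀ (w : Fin i → Cn n) (p : Polynomial ℝ),
      (∀ z : ℝ, p.eval (z ^ 2) = dz w z) →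
        gg e w * √(GG w) =
          c * ∫ x in (-1 : ℝ)..1, (1 - x ^ 2) ^ (n - i) * p.eval (-(x ^ 2)) := by
  rcases h with h | ⟨j, e', hij, hc, hiso⟩
  · obtain ⟨c, hc, hf⟩ := fun_iso (n := n) hi (isoF_le he h)
    exact ⟨c, hc, hf e he h⟩
  · have hj : j ≤ n := isoF_le hc.2.1 hiso
    have hj0 : 0 < j := by omega
    obtain ⟨c, hc0, hf⟩ := fun_iso (n := n) hj0 hj
    refine ⟨c, hc0, fun w p hp => ?_⟩
    rcases frame hi w with ⟨h0, _, hz⟩ | ⟨f, t, hfo, ht, hG, hD, hz⟩
    · have hp0 : p = 0 := pol_unique fun z => by rw [hp, hz, Polynomial.eval_zero]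
      rw [h0, Real.sqrt_zero, mul_zero, hp0]
      simp
    · obtain ⟨f', hf'⟩ := exists_cpl hij hfo
      obtain ⟨p', -, hp'⟩ := exists_pol f'
      have h1 := hf e' hc.2.1 hiso f' p' hp'
      rw [GG_orth hf'.2.1, Real.sqrt_one, mul_one] at h1
      have hdz : ∀ z, dz f z = (1 + z ^ 2) ^ (n - j) * dz f' z := by
        intro z
        have h2 := Cpl.dz_eq hij hf' z
        have h3 : (0 : ℝ) < (1 + z ^ 2) ^ j := by positivity
        have h4 : (1 + z ^ 2) ^ n = (1 + z ^ 2) ^ j * (1 + z ^ 2) ^ (n - j) := by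
          rw [← pow_add]
          congr 1
          omega
        rw [h4, mul_assoc] at h2
        exact mul_left_cancel₀ h3.ne' h2
      have hpp : p = Polynomial.C (t ^ 2) * ((1 + Polynomial.X) ^ (n - j) * p') := by
        refine pol_unique fun z => ?_
        rw [hp, hz, hdz, Polynomial.eval_mul, Polynomial.eval_mul, Polynomial.eval_pow,
          Polynomial.eval_add, Polynomial.eval_X, Polynomial.eval_one, Polynomial.eval_C, hp']
      have hni : n - i = 0 := by omega
      rw [gg_scale ht hD, hG, Real.sqrt_sq ht.le, Cpl.gg_eq hij hc hf', h1, hni]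
      have h5 : ∀ x : ℝ, (1 - x ^ 2) ^ 0 * p.eval (-(x ^ 2)) =
          t ^ 2 * ((1 - x ^ 2) ^ (n - j) * p'.eval (-(x ^ 2))) := by
        intro x
        rw [hpp, Polynomial.eval_mul, Polynomial.eval_mul, Polynomial.eval_pow,
          Polynomial.eval_add, Polynomial.eval_X, Polynomial.eval_one, Polynomial.eval_C,
          pow_zero, one_mul, ← sub_eq_add_neg]
      simp only [h5]
      rw [intervalIntegral.integral_const_mul]
      ring

theorem gg_lower (hi : 0 < i) (hin : i < 2 * n) {e : Fin i → Cn n} (he : Orthonormal ℝ e)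
    (h : IsoC e) : ∃ C : ℝ, 0 < C ∧ ∀ w : Fin i → Cn n, C * √(GG w) ≤ gg e w := by
  obtain ⟨c, hc, hf⟩ := fun_isoC hi hin he h
  refine ⟨c * ∫ x in (-1 : ℝ)..1, (1 - x ^ 2) ^ (n - i + i / 2), mul_pos hc (J_pos _), ?_⟩
  have hmain : ∀ f : Fin i → Cn n, Orthonormal ℝ f →
      c * ∫ x in (-1 : ℝ)..1, (1 - x ^ 2) ^ (n - i + i / 2) ≤ gg e f := by
    intro f hfo
    obtain ⟨k, hk, hz⟩ := orth_pol hfo
    have hp : ∀ y : ℝ, (∏ l, (1 + Polynomial.C (k l ^ 2) * Polynomial.X) : Polynomial ℝ).eval y =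
        ∏ l, (1 + y * k l ^ 2) := by
      intro y
      rw [Polynomial.eval_prod]
      refine Finset.prod_congr rfl fun l _ => ?_
      rw [Polynomial.eval_add, Polynomial.eval_mul, Polynomial.eval_one, Polynomial.eval_C,
        Polynomial.eval_X]
      ring
    have h1 := hf f (∏ l, (1 + Polynomial.C (k l ^ 2) * Polynomial.X))
      (fun z => by rw [hp, hz])
    rw [GG_orth hfo, Real.sqrt_one, mul_one] at h1
    rw [h1]
    refine mul_le_mul_of_nonneg_left ?_ hc.le
    refine intervalIntegral.integral_mono_on (by norm_num) ?_ ?_ ?_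
    · exact Continuous.intervalIntegrable (by fun_prop) _ _
    · refine Continuous.intervalIntegrable ?_ _ _
      simp only [hp]
      fun_prop
    · intro x hx
      have hx2 : x ^ 2 ≤ 1 := by
        have := hx.1
        have := hx.2
        nlinarith
      rw [pow_add, hp]
      refine mul_le_mul_of_nonneg_left ?_ (pow_nonneg (by linarith) _)
      have h2 : (1 - x ^ 2) ^ (i / 2) = ∏ _l : Fin (i / 2), (1 - x ^ 2) := by
        rw [Finset.prod_const, Finset.card_univ, Fintype.card_fin]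
      rw [h2]
      refine Finset.prod_le_prod (fun l _ => by linarith) fun l _ => ?_
      have hk1 : k l ^ 2 ≤ 1 := by
        have := (hk l).1
        have := (hk l).2
        nlinarith
      nlinarith [sq_nonneg x]
  intro w
  rcases frame hi w with ⟨h0, _, _⟩ | ⟨f, t, hfo, ht, hG, hD, _⟩
  · rw [h0, Real.sqrt_zero, mul_zero]
    exact gg_nonneg e w
  · rw [gg_scale ht hD, hG, Real.sqrt_sq ht.le, mul_comm t]
    exact mul_le_mul_of_nonneg_right (hmain f hfo) ht.le

end Pool.Agent.H35.ISO
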