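import Mathlib
import Pool.Agent.H35.ISO.Defs
import Pool.Agent.H35.NI.Lin
import Pool.Agent.H35.NI.NFa
import Pool.Agent.H35.NI.NF
import Pool.Agent.H35.NI.Dua

set_option autoImplicit false

/-!
# Lnk: the determinant in the link of an orthonormal family `W`

`D = 2n - m`, `b' = R b` an orthonormal basis of `W^⊥` in normal form (`exists_cpl`, `antisymm_nf`):
`om (b'_(2k)) (b'_(2k+1)) = c_k`, other pairs `0`; `B = (D+1)/2`,
`ζ u k = ⟨b'_(2k), u⟩ + i ⟨b'_(2k+1), u⟩` (second term `0` if `2k+1 = D`, then also `c_k = 0`).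
`c_k ≤ 1`: `|om x y| ≤ |x||y|`.  Parseval: `tt (ζ u) (ζ v) = ⟨u, v⟩`.

Determinant.  In the orthonormal basis `(W, b')` of `ℂⁿ` the matrix of `om` has square `-1`
(`OmD_sq` in `NI/Dua`, private: copy).  Blocks of `1 + s Om`: `A = 1 + s Om_W`, `Q = s Om_(W b')`,
`-Qᵀ`, `1 + s Ω`.  `(1 + s Om)(1 - s Om) = 1 + s²` gives `A Q = Q (1 - sΩ)`,
`Qᵀ Q + (1 + sΩ)(1 - sΩ) = 1 + s²`, hence (`E = (1 - sΩ)⁻¹`, `U` the 2 × D matrix of the
coordinates of `u, v`) `N (1 0; -Q E Uᵀ 1) = ((1+s²) U E Uᵀ, U C; 0, A)` for the matrix `N` of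
`dz (u, v, W) s`, so `dz (u, v, W) s = det A (1+s²)² det (U (1 - sΩ)⁻¹ Uᵀ)`.
`(1 - sΩ)⁻¹` has the blocks `LT_k (1, s c; -s c, 1)`, so the 2 × 2 determinant is
`σσ' - (∑ LT_k Re)² + s² (∑ c_k LT_k Im)² = qT c (ζ u) (ζ v) (s²)`.  `det A = dz W s`,
`(1+s²)^D dz W s = (1+s²)^n dz b' s` (`Cpl.dz_eq`), `dz b' s = PT c (s²)`, so
`(1+s²)^n det A = (1+s²)^m PT`.
-/

open MeasureTheory Pool.Agent.H61.UProj Pool.Agent.H89.CZ Pool.Agent.H35.NI
open scoped ComplexConjugate

noncomputable section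

namespace Pool.Agent.H35.ISO

variable {n : ℕ}

private theorem om_innerL (x y : Cn n) : om x y = (inner ℝ (Complex.I • x) y : ℝ) := by
  rw [real_inner_eq, om, PiLp.inner_apply, Complex.im_sum, Complex.re_sum]
  refine Finset.sum_congr rfl fun j _ => ?_
  rw [RCLike.inner_apply, PiLp.smul_apply, smul_eq_mul, map_mul, Complex.conj_I]
  simp only [Complex.mul_re, Complex.mul_im, Complex.neg_re, Complex.neg_im, Complex.I_re,
    Complex.I_im, Complex.conj_re, Complex.conj_im]
  ring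

private theorem inner_IL (x y : Cn n) :
    (inner ℝ (Complex.I • x) (Complex.I • y) : ℝ) = inner ℝ x y := by
  rw [real_inner_eq, real_inner_eq]
  congr 1
  refine Finset.sum_congr rfl fun j _ => ?_
  rw [PiLp.smul_apply, PiLp.smul_apply, smul_eq_mul, smul_eq_mul, map_mul, Complex.conj_I]
  have h := Complex.I_mul_I
  linear_combination (-((starRingEnd ℂ) (x j) * y j)) * h

private theorem finrank_CnL : Module.finrank ℝ (Cn n) = 2 * n := by
  rw [finrank_real_of_complex, finrank_euclideanSpace_fin]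

private theorem onb_ofL {ι : Type*} [Fintype ι] {o : ι → Cn n} (ho : Orthonormal ℝ o)
    (hc : Fintype.card ι = 2 * n) :
    ∃ b : OrthonormalBasis ι ℝ (Cn n), ∀ a, b a = o a := by
  have hsp : Submodule.span ℝ (Set.range o) = ⊤ :=
    ho.linearIndependent.span_eq_top_of_card_eq_finrank' (by rw [finrank_CnL, hc])
  exact ⟨OrthonormalBasis.mk ho hsp.ge, fun a => by rw [OrthonormalBasis.coe_mk]⟩

private theorem orth_sumL {i j : ℕ} {e : Fin i → Cn n} {e' : Fin j → Cn n} (h : Cpl e e') :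
    Orthonormal ℝ (Sum.elim e e') := by
  rw [orthonormal_iff_ite]
  rintro (a | a) (b | b)
  · simp [orthonormal_iff_ite.1 h.1]
  · simp [h.2.2]
  · rw [real_inner_comm]
    simp [h.2.2]
  · simp [orthonormal_iff_ite.1 h.2.1]

private def OmL {ι : Type*} (o : ι → Cn n) : Matrix ι ι ℝ :=
  Matrix.of fun a b => om (o a) (o b)

private theorem OmL_sq {ι : Type*} [Fintype ι] [DecidableEq ι] {o : ι → Cn n}
    (ho : Orthonormal ℝ o) (hc : Fintype.card ι = 2 * n) : OmL o * OmL o = -1 := by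
  obtain ⟨b, hb⟩ := onb_ofL ho hc
  ext a c
  rw [Matrix.mul_apply, Matrix.neg_apply]
  have h1 : ∀ j, OmL o a j * OmL o j c =
      -((inner ℝ (Complex.I • o a) (b j) : ℝ) * inner ℝ (b j) (Complex.I • o c)) := fun j => by
    change om (o a) (o j) * om (o j) (o c) = _
    rw [om_swap (o c) (o j), om_innerL, om_innerL, hb, real_inner_comm (o j) (Complex.I • o c)]
    ring
  rw [Finset.sum_congr rfl fun j _ => h1 j, Finset.sum_neg_distrib, b.sum_inner_mul_inner,
    inner_IL, orthonormal_iff_ite.1 ho a c, Matrix.one_apply]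

private theorem OmL_mul {ι : Type*} [Fintype ι] [DecidableEq ι] {o : ι → Cn n}
    (ho : Orthonormal ℝ o) (hc : Fintype.card ι = 2 * n) (z : ℝ) :
    (1 + z • OmL o) * (1 + (-z) • OmL o) = (1 + z ^ 2) • (1 : Matrix ι ι ℝ) := by
  rw [add_mul, mul_add, mul_add]
  simp only [Matrix.smul_mul, Matrix.mul_smul, OmL_sq ho hc, Matrix.one_mul, Matrix.mul_one]
  module

/-! ### the normal form matrix -/

private def wf (c : ℕ → ℝ) (a b : ℕ) : ℝ :=
  if a % 2 = 0 ∧ b = a + 1 then c (a / 2)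
  else if b % 2 = 0 ∧ a = b + 1 then -c (b / 2) else 0

/-- block diagonal determinant -/
private theorem det_wf : ∀ (m : ℕ) (c : ℕ → ℝ) (z : ℝ),
    (Matrix.of fun a b : Fin m => (if a = b then (1 : ℝ) else 0) + z * wf c a b).det =
      ∏ j ∈ Finset.range (m / 2), (1 + z ^ 2 * c j ^ 2)
  | 0, c, z => by simp
  | 1, c, z => by
    rw [Matrix.det_fin_one]
    simp [wf]
  | (m + 2), c, z => by
    have ih := det_wf m (fun j => c (j + 1)) z
    have e : m + 2 = 2 + m := by omega
    rw [← Matrix.det_reindex_self ((finCongr e).trans finSumFinEquiv.symm)]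
    have hM : (Matrix.reindex ((finCongr e).trans finSumFinEquiv.symm)
        ((finCongr e).trans finSumFinEquiv.symm))
        (Matrix.of fun a b : Fin (m + 2) => (if a = b then (1 : ℝ) else 0) + z * wf c a b) =
        Matrix.fromBlocks !![1, z * c 0; -(z * c 0), 1] 0 0
          (Matrix.of fun a b : Fin m => (if a = b then (1 : ℝ) else 0) +
            z * wf (fun j => c (j + 1)) a b) := by
      ext p q
      have hs : ∀ r : Fin 2 ⊕ Fin m, ((((finCongr e).trans finSumFinEquiv.symm).symm r : Fin (m + 2)) : ℕ)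
          = Sum.elim (fun k : Fin 2 => (k : ℕ)) (fun k : Fin m => 2 + (k : ℕ)) r := by
        intro r
        rcases r with k | k
        · simp
        · simp [add_comm]
      have hq : ∀ r s : Fin 2 ⊕ Fin m, (if ((finCongr e).trans finSumFinEquiv.symm).symm r =
          ((finCongr e).trans finSumFinEquiv.symm).symm s then (1 : ℝ) else 0) =
          if r = s then 1 else 0 := by
        intro r s
        exact if_congr (Equiv.apply_eq_iff_eq _) rfl rfl
      rw [Matrix.reindex_apply, Matrix.submatrix_apply, Matrix.of_apply, hs, hs, hq]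
      rcases p with p | p <;> rcases q with q | q
      · rw [Matrix.fromBlocks_apply₁₁]
        fin_cases p <;> fin_cases q <;> simp [wf]
      · rw [Matrix.fromBlocks_apply₁₂]
        have h1 : ¬ ((p : ℕ) % 2 = 0 ∧ 2 + (q : ℕ) = p + 1) := by omega
        have h2 : ¬ ((2 + (q : ℕ)) % 2 = 0 ∧ (p : ℕ) = 2 + q + 1) := by omega
        rw [Sum.elim_inl, Sum.elim_inr, wf, if_neg h1, if_neg h2, if_neg (by simp)]
        simp
      · rw [Matrix.fromBlocks_apply₂₁]
        have h1 : ¬ ((2 + (p : ℕ)) % 2 = 0 ∧ (q : ℕ) = 2 + p + 1) := by omega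
        have h2 : ¬ ((q : ℕ) % 2 = 0 ∧ 2 + (p : ℕ) = q + 1) := by omega
        rw [Sum.elim_inl, Sum.elim_inr, wf, if_neg h1, if_neg h2, if_neg (by simp)]
        simp
      · rw [Matrix.fromBlocks_apply₂₂]
        have h1 : ∀ x : ℕ, (2 + x) % 2 = x % 2 := by intro x; omega
        have h2 : ∀ x : ℕ, (2 + x) / 2 = x / 2 + 1 := by intro x; omega
        have h3 : ∀ x y : ℕ, (2 + x = 2 + y + 1) = (x = y + 1) := by
          intro x y
          exact propext ⟨fun h => by omega, fun h => by omega⟩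
        simp only [wf, Sum.elim_inr, h1, h2, h3, Matrix.of_apply, Sum.inr.injEq]
    rw [hM, Matrix.det_fromBlocks_zero₂₁, ih, Matrix.det_fin_two]
    have h4 : (m + 2) / 2 = m / 2 + 1 := by omega
    rw [h4, Finset.prod_range_succ']
    simp
    ring

/-- the matrix `(wf c a b)` -/
private def Wm (D : ℕ) (c : ℕ → ℝ) : Matrix (Fin D) (Fin D) ℝ := Matrix.of fun a b => wf c a b

/-- row sums against `wf` -/
private theorem wf_sum {D : ℕ} {c : ℕ → ℝ} (hcz : ∀ j, D / 2 ≤ j → c j = 0) (a : Fin D)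
    (f : ℕ → ℝ) : ∑ b : Fin D, wf c a b * f b =
      if (a : ℕ) % 2 = 0 then c ((a : ℕ) / 2) * f (a + 1) else -c ((a : ℕ) / 2) * f (a - 1) := by
  by_cases ha : (a : ℕ) % 2 = 0
  · rw [if_pos ha]
    by_cases h1 : (a : ℕ) + 1 < D
    · rw [Finset.sum_eq_single (⟨a + 1, h1⟩ : Fin D)]
      · rw [wf, if_pos ⟨ha, rfl⟩]
      · intro b _ hb
        have h2 : (b : ℕ) ≠ a + 1 := fun h => hb (Fin.ext h)
        rw [wf, if_neg (fun h => h2 h.2), if_neg (by omega), zero_mul]
      · intro h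
        exact absurd (Finset.mem_univ _) h
    · rw [hcz _ (by omega), zero_mul]
      refine Finset.sum_eq_zero fun b _ => ?_
      rw [wf, if_neg (by omega), if_neg (by omega), zero_mul]
  · rw [if_neg ha]
    have h1 : (a : ℕ) - 1 < D := by omega
    rw [Finset.sum_eq_single (⟨a - 1, h1⟩ : Fin D)]
    · have h3 : ((⟨a - 1, h1⟩ : Fin D) : ℕ) = a - 1 := rfl
      rw [wf, h3, if_neg (by omega), if_pos (by omega)]
      have h4 : ((a : ℕ) - 1) / 2 = a / 2 := by omega
      rw [h4]
    · intro b _ hb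
      have h2 : (b : ℕ) ≠ a - 1 := fun h => hb (Fin.ext h)
      rw [wf, if_neg (fun h => ha h.1), if_neg (by omega), zero_mul]
    · intro h
      exact absurd (Finset.mem_univ _) h

/-- `(1 - s Wm)⁻¹` -/
private def Em (D : ℕ) (c : ℕ → ℝ) (s : ℝ) : Matrix (Fin D) (Fin D) ℝ :=
  Matrix.of fun a b => (if (a : ℕ) = b then 1 / (1 + s ^ 2 * c ((a : ℕ) / 2) ^ 2) else 0) +
    s * (1 / (1 + s ^ 2 * c ((a : ℕ) / 2) ^ 2)) * wf c a b

private theorem Em_inv {D : ℕ} {c : ℕ → ℝ} (hcz : ∀ j, D / 2 ≤ j → c j = 0) (s : ℝ) :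
    (1 + (-s) • Wm D c) * Em D c s = 1 := by
  ext a b
  have hf : ∀ k : Fin D, (Wm D c) a k * Em D c s k b = wf c a k *
      (fun x : ℕ => (if x = (b : ℕ) then 1 / (1 + s ^ 2 * c (x / 2) ^ 2) else 0) +
        s * (1 / (1 + s ^ 2 * c (x / 2) ^ 2)) * wf c x b) k := fun k => rfl
  rw [Matrix.add_mul, Matrix.one_mul, Matrix.smul_mul, Matrix.add_apply, Matrix.smul_apply,
    Matrix.mul_apply, Finset.sum_congr rfl fun k _ => hf k,
    wf_sum hcz a (fun x : ℕ => (if x = (b : ℕ) then 1 / (1 + s ^ 2 * c (x / 2) ^ 2) else 0) +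
        s * (1 / (1 + s ^ 2 * c (x / 2) ^ 2)) * wf c x b), Matrix.one_apply]
  have hE : Em D c s a b = (if (a : ℕ) = b then 1 / (1 + s ^ 2 * c ((a : ℕ) / 2) ^ 2) else 0) +
    s * (1 / (1 + s ^ 2 * c ((a : ℕ) / 2) ^ 2)) * wf c a b := rfl
  rw [hE]
  have hpos : (1 + s ^ 2 * c ((a : ℕ) / 2) ^ 2) ≠ 0 := by positivity
  have hab : (a = b) ↔ (a : ℕ) = b := Fin.ext_iff
  by_cases ha : (a : ℕ) % 2 = 0
  · have h1 : ((a : ℕ) + 1) / 2 = (a : ℕ) / 2 := by omega
    rw [if_pos ha]
    simp only [h1, smul_eq_mul]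
    have h2 : wf c a b = if (b : ℕ) = a + 1 then c ((a : ℕ) / 2) else 0 := by
      unfold wf
      by_cases h : (b : ℕ) = a + 1
      · rw [if_pos ⟨ha, h⟩, if_pos h]
      · rw [if_neg (fun hh => h hh.2), if_neg h, if_neg (by omega)]
    have h3 : wf c ((a : ℕ) + 1) b = if (a : ℕ) = b then -c ((a : ℕ) / 2) else 0 := by
      unfold wf
      rw [if_neg (by omega)]
      by_cases h : (a : ℕ) = b
      · rw [if_pos (by omega), if_pos h, h]
      · rw [if_neg (by omega), if_neg h]
    rw [h2, h3]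
    by_cases hb : (a : ℕ) = b
    · rw [if_pos hb, if_neg (by omega), if_neg (by omega), if_pos hb, if_pos (hab.2 hb)]
      field_simp
      ring
    · rw [if_neg hb, if_neg hb, if_neg (fun h => hb (hab.1 h))]
      by_cases hb1 : (b : ℕ) = a + 1
      · rw [if_pos hb1, if_pos hb1.symm]
        ring
      · rw [if_neg hb1, if_neg (fun h => hb1 h.symm)]
        ring
  · have h1 : ((a : ℕ) - 1) / 2 = (a : ℕ) / 2 := by omega
    rw [if_neg ha]
    simp only [h1, smul_eq_mul]
    have h2 : wf c a b = if (b : ℕ) + 1 = a then -c ((a : ℕ) / 2) else 0 := by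
      unfold wf
      rw [if_neg (fun hh => ha hh.1)]
      by_cases h : (b : ℕ) + 1 = a
      · rw [if_pos (by omega), if_pos h]
        have h4 : (b : ℕ) / 2 = a / 2 := by omega
        rw [h4]
      · rw [if_neg (by omega), if_neg h]
    have h3 : wf c ((a : ℕ) - 1) b = if (a : ℕ) = b then c ((a : ℕ) / 2) else 0 := by
      unfold wf
      by_cases h : (a : ℕ) = b
      · rw [if_pos (by omega), if_pos h, h1]
      · rw [if_neg (by omega), if_neg (by omega), if_neg h]
    rw [h2, h3]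
    by_cases hb : (a : ℕ) = b
    · rw [if_pos hb, if_neg (by omega), if_neg (by omega), if_pos hb, if_pos (hab.2 hb)]
      field_simp
      ring
    · rw [if_neg hb, if_neg hb, if_neg (fun h => hb (hab.1 h))]
      by_cases hb1 : (b : ℕ) + 1 = a
      · rw [if_pos hb1, if_pos (by omega)]
        ring
      · rw [if_neg hb1, if_neg (by omega)]
        ring

/-- sums over pairs -/
private theorem sum_pairs {D : ℕ} (g : ℕ → ℝ) (hg : ∀ a, D ≤ a → g a = 0) :
    ∑ a : Fin D, g a = ∑ k : Fin ((D + 1) / 2), (g (2 * k) + g (2 * k + 1)) := by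
  have h1 : ∀ B : ℕ, ∑ k ∈ Finset.range B, (g (2 * k) + g (2 * k + 1)) =
      ∑ a ∈ Finset.range (2 * B), g a := by
    intro B
    induction B with
    | zero => simp
    | succ B ih =>
      have h2 : 2 * (B + 1) = 2 * B + 1 + 1 := by ring
      rw [Finset.sum_range_succ, ih, h2, Finset.sum_range_succ, Finset.sum_range_succ]
      ring
  rw [Finset.sum_fin_eq_sum_range, Finset.sum_fin_eq_sum_range]
  have h3 : ∀ a ∈ Finset.range D, (if h : a < D then g ((⟨a, h⟩ : Fin D) : ℕ) else 0) = g a := by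
    intro a ha
    rw [dif_pos (Finset.mem_range.1 ha)]
  have h4 : ∀ k ∈ Finset.range ((D + 1) / 2), (if h : k < (D + 1) / 2 then
      (g (2 * ((⟨k, h⟩ : Fin ((D + 1) / 2)) : ℕ)) +
        g (2 * ((⟨k, h⟩ : Fin ((D + 1) / 2)) : ℕ) + 1)) else 0) = g (2 * k) + g (2 * k + 1) := by
    intro a ha
    rw [dif_pos (Finset.mem_range.1 ha)]
  rw [Finset.sum_congr rfl h3, Finset.sum_congr rfl h4, h1]
  refine Finset.sum_subset (fun a ha => ?_) (fun a _ ha => ?_)
  · rw [Finset.mem_range] at ha ⊢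
    omega
  · rw [Finset.mem_range, not_lt] at ha
    exact hg a ha

/-- the bilinear form of `Em` -/
private theorem Em_bil {D : ℕ} {c : ℕ → ℝ} (hcz : ∀ j, D / 2 ≤ j → c j = 0) (s : ℝ)
    (x y : ℕ → ℝ) (hx : ∀ a, D ≤ a → x a = 0) :
    ∑ a : Fin D, ∑ b : Fin D, x a * Em D c s a b * y b =
      ∑ k : Fin ((D + 1) / 2), 1 / (1 + s ^ 2 * c k ^ 2) *
        ((x (2 * k) * y (2 * k) + x (2 * k + 1) * y (2 * k + 1)) +
          s * (c k * (x (2 * k) * y (2 * k + 1) - x (2 * k + 1) * y (2 * k)))) := by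
  have h1 : ∀ a : Fin D, ∑ b : Fin D, x a * Em D c s a b * y b =
      (fun a : ℕ => x a * (1 / (1 + s ^ 2 * c (a / 2) ^ 2)) * (y a + s *
        (if a % 2 = 0 then c (a / 2) * y (a + 1) else -c (a / 2) * y (a - 1)))) a := by
    intro a
    have h2 : ∀ b : Fin D, x a * Em D c s a b * y b =
        (x a * (1 / (1 + s ^ 2 * c ((a : ℕ) / 2) ^ 2))) *
          ((if (a : ℕ) = b then y b else 0) + s * (wf c a b * y b)) := by
      intro b
      have hE : Em D c s a b = (if (a : ℕ) = b then 1 / (1 + s ^ 2 * c ((a : ℕ) / 2) ^ 2) else 0) +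
        s * (1 / (1 + s ^ 2 * c ((a : ℕ) / 2) ^ 2)) * wf c a b := rfl
      rw [hE]
      by_cases h : (a : ℕ) = b
      · rw [if_pos h, if_pos h]
        ring
      · rw [if_neg h, if_neg h]
        ring
    rw [Finset.sum_congr rfl fun b _ => h2 b, ← Finset.mul_sum, Finset.sum_add_distrib,
      ← Finset.mul_sum, wf_sum hcz a y]
    congr 2
    rw [Finset.sum_eq_single a]
    · rw [if_pos rfl]
    · intro b _ hb
      rw [if_neg (fun h => hb (Fin.ext h.symm))]
    · intro h
      exact absurd (Finset.mem_univ _) h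
  rw [Finset.sum_congr rfl fun a _ => h1 a,
    sum_pairs (fun a : ℕ => x a * (1 / (1 + s ^ 2 * c (a / 2) ^ 2)) * (y a + s *
        (if a % 2 = 0 then c (a / 2) * y (a + 1) else -c (a / 2) * y (a - 1))))]
  · refine Finset.sum_congr rfl fun k _ => ?_
    have h3 : (2 * (k : ℕ)) / 2 = k := by omega
    have h4 : (2 * (k : ℕ) + 1) / 2 = k := by omega
    have h5 : (2 * (k : ℕ)) % 2 = 0 := by omega
    have h6 : ¬ (2 * (k : ℕ) + 1) % 2 = 0 := by omega
    simp only [h3, h4]
    rw [if_pos h5, if_neg h6, Nat.add_sub_cancel]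
    ring
  · intro a ha
    simp only [hx a ha, zero_mul]

/-! ### the normal form of the complement -/

private theorem om_sum_leftL {ι : Type*} (s : Finset ι) (r : ι → ℝ) (x : ι → Cn n) (y : Cn n) :
    om (∑ b ∈ s, r b • x b) y = ∑ b ∈ s, r b * om (x b) y := by
  classical
  induction s using Finset.induction_on with
  | empty => simp [om]
  | insert a s ha ih =>
    rw [Finset.sum_insert ha, Finset.sum_insert ha, om_add_left, om_smul_left, ih]

private theorem om_sum_rightL {ι : Type*} (s : Finset ι) (r : ι → ℝ) (x : ι → Cn n) (y : Cn n) :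
    om y (∑ b ∈ s, r b • x b) = ∑ b ∈ s, r b * om y (x b) := by
  classical
  induction s using Finset.induction_on with
  | empty => simp [om]
  | insert a s ha ih =>
    rw [Finset.sum_insert ha, Finset.sum_insert ha, om_add_right, om_smul_right, ih]

private theorem exists_nf {m : ℕ} (W : Fin m → Cn n) (hW : Orthonormal ℝ W) :
    ∃ (D : ℕ) (b' : Fin D → Cn n) (c : ℕ → ℝ), m + D = 2 * n ∧ Cpl W b' ∧
      (∀ j, 0 ≤ c j ∧ c j ≤ 1) ∧ (∀ j, D / 2 ≤ j → c j = 0) ∧
      ∀ a b, om (b' a) (b' b) = wf c a b := by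
  have hm : m ≤ 2 * n := by
    have h := hW.linearIndependent.fintype_card_le_finrank
    rwa [Fintype.card_fin, finrank_CnL] at h
  obtain ⟨D, hD⟩ := Nat.exists_eq_add_of_le hm
  obtain ⟨e, he⟩ := exists_cpl (j := D) hD.symm hW
  obtain ⟨R, c, hR, hc0, hcz, hRO⟩ := antisymm_nf D (Matrix.of fun a b => om (e a) (e b)) (by
    ext a b
    rw [Matrix.transpose_apply, Matrix.neg_apply, Matrix.of_apply, Matrix.of_apply, om_swap])
  set e' : Fin D → Cn n := fun a => ∑ b, R a b • e b with he'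
  have hin' : ∀ a b, (inner ℝ (e' a) (e' b) : ℝ) = if a = b then 1 else 0 := by
    intro a b
    have h1 : (inner ℝ (e' a) (e' b) : ℝ) = (R * R.transpose) a b := by
      simp only [he']
      rw [sum_inner, Matrix.mul_apply]
      refine Finset.sum_congr rfl fun k _ => ?_
      rw [inner_sum, Finset.sum_eq_single k]
      · rw [inner_smul_left, inner_smul_right, orthonormal_iff_ite.1 he.2.1, if_pos rfl,
          Matrix.transpose_apply]
        simp
      · intro l _ hl
        rw [inner_smul_left, inner_smul_right, orthonormal_iff_ite.1 he.2.1, if_neg (Ne.symm hl)]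
        simp
      · intro h
        exact absurd (Finset.mem_univ k) h
    rw [h1, hR, Matrix.one_apply]
  have hom' : ∀ a b, om (e' a) (e' b) = wf c a b := by
    intro a b
    have h1 : om (e' a) (e' b) =
        (R * (Matrix.of fun a b => om (e a) (e b)) * R.transpose) a b := by
      simp only [he']
      rw [om_sum_rightL, Matrix.mul_apply]
      refine Finset.sum_congr rfl fun l _ => ?_
      rw [om_sum_leftL, Matrix.mul_apply, Matrix.transpose_apply, Finset.sum_mul, Finset.mul_sum]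
      refine Finset.sum_congr rfl fun k _ => ?_
      rw [Matrix.of_apply]
      ring
    rw [h1, hRO]
    rfl
  have hnorm : ∀ a, ‖e' a‖ = 1 := by
    intro a
    have h1 := hin' a a
    rw [if_pos rfl, real_inner_self_eq_norm_sq] at h1
    have h2 := norm_nonneg (e' a)
    nlinarith [sq_nonneg (‖e' a‖ - 1)]
  refine ⟨D, e', c, hD.symm, ⟨hW, orthonormal_iff_ite.2 hin', ?_⟩, ?_, hcz, hom'⟩
  · intro a b
    simp only [he']
    rw [inner_sum]
    refine Finset.sum_eq_zero fun k _ => ?_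
    rw [real_inner_smul_right, he.2.2, mul_zero]
  · intro j
    refine ⟨hc0 j, ?_⟩
    by_cases hj : 2 * j + 1 < D
    · have h1 := hom' ⟨2 * j, by omega⟩ ⟨2 * j + 1, hj⟩
      have h2 : wf c (2 * j) (2 * j + 1) = c j := by
        rw [wf, if_pos ⟨by omega, rfl⟩]
        congr 1
        omega
      have h3 := abs_om_le (e' ⟨2 * j, by omega⟩) (e' ⟨2 * j + 1, hj⟩)
      rw [hnorm, hnorm, h1] at h3
      have h4 : c j ≤ |wf c (2 * j) (2 * j + 1)| := by
        rw [h2]
        exact le_abs_self _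
      linarith
    · rw [hcz j (by omega)]
      exact zero_le_one

/-! ### the determinant -/

private def gf (s : ℝ) (x y : Cn n) : ℝ := (inner ℝ x y : ℝ) + s * om x y

private theorem gf_left {ι : Type*} (t : Finset ι) (s : ℝ) (r : ι → ℝ) (x : ι → Cn n) (y : Cn n) :
    gf s (∑ b ∈ t, r b • x b) y = ∑ b ∈ t, r b * gf s (x b) y := by
  unfold gf
  rw [om_sum_leftL, sum_inner, Finset.mul_sum, ← Finset.sum_add_distrib]
  refine Finset.sum_congr rfl fun b _ => ?_
  rw [real_inner_smul_left]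
  ring

private theorem gf_right {ι : Type*} (t : Finset ι) (s : ℝ) (r : ι → ℝ) (x : ι → Cn n) (y : Cn n) :
    gf s y (∑ b ∈ t, r b • x b) = ∑ b ∈ t, r b * gf s y (x b) := by
  unfold gf
  rw [om_sum_rightL, inner_sum, Finset.mul_sum, ← Finset.sum_add_distrib]
  refine Finset.sum_congr rfl fun b _ => ?_
  rw [real_inner_smul_right]
  ring

private theorem expand {m D : ℕ} {W : Fin m → Cn n} {b' : Fin D → Cn n} (hD : m + D = 2 * n)
    (h : Cpl W b') {u : Cn n} (hu : ∀ a, (inner ℝ (W a) u : ℝ) = 0) :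
    u = ∑ a, (inner ℝ (b' a) u : ℝ) • b' a := by
  have hc : Fintype.card (Fin m ⊕ Fin D) = 2 * n := by
    rw [Fintype.card_sum, Fintype.card_fin, Fintype.card_fin, hD]
  obtain ⟨b, hb⟩ := onb_ofL (orth_sumL h) hc
  have h1 := b.sum_repr' u
  rw [Fintype.sum_sum_type] at h1
  simp only [hb, Sum.elim_inl, Sum.elim_inr, hu, zero_smul, Finset.sum_const_zero, zero_add] at h1
  exact h1.symm

private theorem parseval {m D : ℕ} {W : Fin m → Cn n} {b' : Fin D → Cn n} (hD : m + D = 2 * n)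
    (h : Cpl W b') {u v : Cn n} (hu : ∀ a, (inner ℝ (W a) u : ℝ) = 0) :
    ∑ a, (inner ℝ (b' a) u : ℝ) * inner ℝ (b' a) v = inner ℝ u v := by
  conv_rhs => rw [expand hD h hu, sum_inner]
  refine Finset.sum_congr rfl fun a _ => ?_
  rw [real_inner_smul_left]

private theorem link_det {m D : ℕ} {W : Fin m → Cn n} {b' : Fin D → Cn n} {c : ℕ → ℝ}
    (hD : m + D = 2 * n) (h : Cpl W b') (hcz : ∀ j, D / 2 ≤ j → c j = 0)
    (hom : ∀ a b, om (b' a) (b' b) = wf c a b) (U : Fin 2 → Cn n)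
    (hU : ∀ p a, (inner ℝ (W a) (U p) : ℝ) = 0) (s : ℝ) :
    (Matrix.of fun p q : Fin 2 ⊕ Fin m => gf s (Sum.elim U W p) (Sum.elim U W q)).det =
      ((1 + s ^ 2) • ((Matrix.of fun p a => (inner ℝ (b' a) (U p) : ℝ)) * Em D c s *
        (Matrix.of fun p a => (inner ℝ (b' a) (U p) : ℝ)).transpose)).det * dz W s := by
  classical
  set X : Matrix (Fin 2) (Fin D) ℝ := Matrix.of fun p a => (inner ℝ (b' a) (U p) : ℝ) with hX
  set A : Matrix (Fin m) (Fin m) ℝ := Matrix.of fun a b => gf s (W a) (W b) with hA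
  set Q : Matrix (Fin m) (Fin D) ℝ := Matrix.of fun a b => gf s (W a) (b' b) with hQ
  set C : Matrix (Fin D) (Fin m) ℝ := Matrix.of fun a b => gf s (b' a) (W b) with hC
  set F : Matrix (Fin D) (Fin D) ℝ := Matrix.of fun a b => gf s (b' a) (b' b) with hF
  set E : Matrix (Fin D) (Fin D) ℝ := Em D c s with hE
  have hc : Fintype.card (Fin m ⊕ Fin D) = 2 * n := by
    rw [Fintype.card_sum, Fintype.card_fin, Fintype.card_fin, hD]
  have ho := orth_sumL h
  have hoi := orthonormal_iff_ite.1 ho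
  have hb : ∀ t : ℝ, 1 + t • OmL (Sum.elim W b') =
      Matrix.fromBlocks (Matrix.of fun a b => gf t (W a) (W b))
        (Matrix.of fun a b => gf t (W a) (b' b))
        (Matrix.of fun a b => gf t (b' a) (W b))
        (Matrix.of fun a b => gf t (b' a) (b' b)) := by
    intro t
    ext x y
    rw [Matrix.add_apply, Matrix.one_apply, ← hoi x y]
    rcases x with x | x <;> rcases y with y | y <;> rfl
  have h1 := OmL_mul ho hc s
  rw [hb s, hb (-s), Matrix.fromBlocks_multiply, ← Matrix.fromBlocks_one, Matrix.fromBlocks_smul,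
    Matrix.fromBlocks_inj] at h1
  obtain ⟨-, h12, -, h22⟩ := h1
  have hQ' : (Matrix.of fun a b => gf (-s) (W a) (b' b) : Matrix (Fin m) (Fin D) ℝ) = -Q := by
    ext a b
    rw [Matrix.neg_apply, hQ, Matrix.of_apply, Matrix.of_apply, gf, gf, h.2.2]
    ring
  have hD' : (Matrix.of fun a b => gf (-s) (b' a) (b' b) : Matrix (Fin D) (Fin D) ℝ) =
      1 + (-s) • Wm D c := by
    ext a b
    rw [Matrix.of_apply, gf, orthonormal_iff_ite.1 h.2.1, hom, Matrix.add_apply,
      Matrix.one_apply, Matrix.smul_apply, smul_eq_mul]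
    rfl
  rw [hQ', hD'] at h12 h22
  have hinv := Em_inv hcz s
  have h3 : A * (Q * E) = Q := by
    have h4 : A * Q = Q * (1 + (-s) • Wm D c) := by
      have h5 : -(A * Q) + Q * (1 + (-s) • Wm D c) = 0 := by
        rw [← Matrix.mul_neg]
        simpa using h12
      exact (neg_add_eq_zero.1 h5)
    rw [← Matrix.mul_assoc, h4, Matrix.mul_assoc, hinv, Matrix.mul_one]
  have h6 : F = (1 + s ^ 2) • E + C * (Q * E) := by
    have h7 : F * (1 + (-s) • Wm D c) = (1 + s ^ 2) • (1 : Matrix (Fin D) (Fin D) ℝ) + C * Q := by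
      rw [Matrix.mul_neg] at h22
      rw [← h22]
      simp [hF, hC]
    calc F = F * ((1 + (-s) • Wm D c) * E) := by rw [hinv, Matrix.mul_one]
      _ = (F * (1 + (-s) • Wm D c)) * E := by rw [Matrix.mul_assoc]
      _ = _ := by rw [h7, Matrix.add_mul, Matrix.smul_mul, Matrix.one_mul, Matrix.mul_assoc]
  have hUe : ∀ p, U p = ∑ a, X p a • b' a := fun p => expand hD h (hU p)
  have hN : (Matrix.of fun p q : Fin 2 ⊕ Fin m => gf s (Sum.elim U W p) (Sum.elim U W q)) =
      Matrix.fromBlocks (X * F * X.transpose) (X * C) (Q * X.transpose) A := by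
    ext p q
    rcases p with p | p <;> rcases q with q | q
    · rw [Matrix.fromBlocks_apply₁₁, Matrix.of_apply, Sum.elim_inl, Sum.elim_inl]
      conv_lhs => rw [hUe p, hUe q, gf_right]
      rw [Matrix.mul_apply]
      refine Finset.sum_congr rfl fun b _ => ?_
      rw [gf_left, Matrix.mul_apply, Matrix.transpose_apply, mul_comm]
      rfl
    · rw [Matrix.fromBlocks_apply₁₂, Matrix.of_apply, Sum.elim_inl, Sum.elim_inr]
      conv_lhs => rw [hUe p, gf_left]
      rw [Matrix.mul_apply]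
      rfl
    · rw [Matrix.fromBlocks_apply₂₁, Matrix.of_apply, Sum.elim_inl, Sum.elim_inr]
      conv_lhs => rw [hUe q, gf_right]
      rw [Matrix.mul_apply]
      refine Finset.sum_congr rfl fun b _ => ?_
      rw [Matrix.transpose_apply, mul_comm]
      rfl
    · rfl
  have hmul : Matrix.fromBlocks (X * F * X.transpose) (X * C) (Q * X.transpose) A *
      Matrix.fromBlocks 1 0 (-(Q * E * X.transpose)) 1 =
      Matrix.fromBlocks ((1 + s ^ 2) • (X * E * X.transpose)) (X * C) 0 A := by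
    rw [Matrix.fromBlocks_multiply]
    have e1 : X * F * X.transpose * (1 : Matrix (Fin 2) (Fin 2) ℝ) + X * C * (-(Q * E * X.transpose)) =
        (1 + s ^ 2) • (X * E * X.transpose) := by
      rw [h6]
      simp only [Matrix.mul_add, Matrix.add_mul, Matrix.mul_smul, Matrix.smul_mul, Matrix.mul_neg,
        Matrix.mul_assoc, Matrix.mul_one]
      abel
    have e2 : Q * X.transpose * (1 : Matrix (Fin 2) (Fin 2) ℝ) + A * (-(Q * E * X.transpose)) = 0 := by
      rw [Matrix.mul_one, Matrix.mul_neg, ← Matrix.mul_assoc, h3, add_neg_cancel]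
    rw [e1, e2]
    simp
  have hdet := congrArg Matrix.det hmul
  rw [Matrix.det_mul, Matrix.det_fromBlocks_zero₁₂, Matrix.det_fromBlocks_zero₂₁, Matrix.det_one,
    Matrix.det_one, mul_one, mul_one] at hdet
  rw [hN, hdet]
  rfl

theorem link {m : ℕ} (W : Fin m → Cn n) (hW : Orthonormal ℝ W) :
    ∃ (B : ℕ) (c : Fin B → ℝ) (ζ : Cn n →ₗ[ℝ] (Fin B → ℂ)), (∀ k, 0 ≤ c k ∧ c k ≤ 1) ∧
      (∀ u v : Cn n, (∀ a, (inner ℝ (W a) u : ℝ) = 0) → (∀ a, (inner ℝ (W a) v : ℝ) = 0) →
        tt (ζ u) (ζ v) = inner ℝ u v) ∧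
      ∀ u v : Cn n, (∀ a, (inner ℝ (W a) u : ℝ) = 0) → (∀ a, (inner ℝ (W a) v : ℝ) = 0) →
        ∀ s : ℝ, (1 + s ^ 2) ^ n *
            dz (Fin.cons u (Fin.cons v W : Fin (m + 1) → Cn n) : Fin (m + 2) → Cn n) s =
          (1 + s ^ 2) ^ (m + 2) * (PT c (s ^ 2) * qT c (ζ u) (ζ v) (s ^ 2)) := by
  obtain ⟨D, b', c, hD, hcpl, hc, hcz, hom⟩ := exists_nf W hW
  let xc : Cn n → ℕ → ℝ := fun u a => if h : a < D then (inner ℝ (b' ⟨a, h⟩) u : ℝ) else 0
  have xc0 : ∀ u a, D ≤ a → xc u a = 0 := fun u a ha => dif_neg (not_lt.2 ha)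
  have xcf : ∀ u (a : Fin D), xc u a = inner ℝ (b' a) u := fun u a => dif_pos a.2
  have xca : ∀ u v a, xc (u + v) a = xc u a + xc v a := by
    intro u v a
    by_cases ha : a < D
    · simp only [xc, dif_pos ha, inner_add_right]
    · simp only [xc, dif_neg ha, add_zero]
  have xcs : ∀ (t : ℝ) u a, xc (t • u) a = t * xc u a := by
    intro t u a
    by_cases ha : a < D
    · simp only [xc, dif_pos ha, real_inner_smul_right]
    · simp only [xc, dif_neg ha, mul_zero]
  let ζ : Cn n →ₗ[ℝ] (Fin ((D + 1) / 2) → ℂ) :=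
    { toFun := fun u k => (xc u (2 * k) : ℂ) + (xc u (2 * k + 1) : ℂ) * Complex.I
      map_add' := by
        intro u v
        funext k
        simp only [Pi.add_apply, xca]
        push_cast
        ring
      map_smul' := by
        intro t u
        funext k
        simp only [Pi.smul_apply, xcs, RingHom.id_apply, Complex.real_smul]
        push_cast
        ring }
  have hζ : ∀ u k, ζ u k = (xc u (2 * k) : ℂ) + (xc u (2 * k + 1) : ℂ) * Complex.I :=
    fun u k => rfl
  have hre : ∀ u v k, (ζ u k * conj (ζ v k)).re =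
      xc u (2 * k) * xc v (2 * k) + xc u (2 * k + 1) * xc v (2 * k + 1) := by
    intro u v k
    rw [hζ, hζ]
    simp
  have him : ∀ u v k, (ζ u k * conj (ζ v k)).im =
      xc u (2 * k + 1) * xc v (2 * k) - xc u (2 * k) * xc v (2 * k + 1) := by
    intro u v k
    rw [hζ, hζ]
    simp
    ring
  have hnorm : ∀ u k, ‖ζ u k‖ ^ 2 =
      xc u (2 * k) * xc u (2 * k) + xc u (2 * k + 1) * xc u (2 * k + 1) := by
    intro u k
    rw [← Complex.normSq_eq_norm_sq, hζ, Complex.normSq_apply]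
    simp
  refine ⟨(D + 1) / 2, fun k => c k, ζ, fun k => hc k, ?_, ?_⟩
  · intro u v hu hv
    unfold tt
    rw [← parseval hD hcpl hu]
    have h1 : ∀ a : Fin D, (inner ℝ (b' a) u : ℝ) * inner ℝ (b' a) v =
        (fun a : ℕ => xc u a * xc v a) a := by
      intro a
      simp only [xcf]
    rw [Finset.sum_congr rfl fun a _ => h1 a,
      sum_pairs (fun a : ℕ => xc u a * xc v a) (fun a ha => by simp only [xc0 u a ha, zero_mul])]
    exact Finset.sum_congr rfl fun k _ => hre u v k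
  · intro u v hu hv s
    have hU : ∀ p a, (inner ℝ (W a) ((![u, v] : Fin 2 → Cn n) p) : ℝ) = 0 := by
      intro p a
      fin_cases p
      · exact hu a
      · exact hv a
    have hdz : dz (Fin.cons u (Fin.cons v W : Fin (m + 1) → Cn n) : Fin (m + 2) → Cn n) s =
        (Matrix.of fun p q : Fin 2 ⊕ Fin m =>
          gf s (Sum.elim ![u, v] W p) (Sum.elim ![u, v] W q)).det := by
      have e : 2 + m = m + 2 := by omega
      unfold dz
      rw [← Matrix.det_submatrix_equiv_self (finSumFinEquiv.trans (finCongr e))]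
      congr 1
      have hx : ∀ p : Fin 2 ⊕ Fin m,
          (Fin.cons u (Fin.cons v W : Fin (m + 1) → Cn n) : Fin (m + 2) → Cn n)
            ((finSumFinEquiv.trans (finCongr e)) p) = Sum.elim ![u, v] W p := by
        rintro (p | p)
        · fin_cases p
          · rfl
          · rfl
        · have h2 : (finSumFinEquiv.trans (finCongr e)) (Sum.inr p) = p.succ.succ := by
            apply Fin.ext
            simp only [Equiv.trans_apply, finSumFinEquiv_apply_right, finCongr_apply_coe,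
              Fin.val_natAdd, Fin.val_succ]
            omega
          rw [h2, Fin.cons_succ, Fin.cons_succ, Sum.elim_inr]
      ext p q
      rw [Matrix.submatrix_apply, Matrix.of_apply, Matrix.of_apply, hx, hx]
      rfl
    have hM : ∀ p q : Fin 2, ((Matrix.of fun p a => (inner ℝ (b' a) ((![u, v] : Fin 2 → Cn n) p) : ℝ)) *
        Em D c s * (Matrix.of fun p a =>
          (inner ℝ (b' a) ((![u, v] : Fin 2 → Cn n) p) : ℝ)).transpose) p q =
        ∑ k : Fin ((D + 1) / 2), 1 / (1 + s ^ 2 * c k ^ 2) *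
          ((xc ((![u, v] : Fin 2 → Cn n) p) (2 * k) * xc ((![u, v] : Fin 2 → Cn n) q) (2 * k) +
            xc ((![u, v] : Fin 2 → Cn n) p) (2 * k + 1) *
              xc ((![u, v] : Fin 2 → Cn n) q) (2 * k + 1)) +
          s * (c k * (xc ((![u, v] : Fin 2 → Cn n) p) (2 * k) *
            xc ((![u, v] : Fin 2 → Cn n) q) (2 * k + 1) -
              xc ((![u, v] : Fin 2 → Cn n) p) (2 * k + 1) *
                xc ((![u, v] : Fin 2 → Cn n) q) (2 * k)))) := by
      intro p q
      rw [← Em_bil hcz s _ _ (xc0 _), Matrix.mul_apply, Finset.sum_comm]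
      refine Finset.sum_congr rfl fun b _ => ?_
      rw [Matrix.mul_apply, Finset.sum_mul]
      refine Finset.sum_congr rfl fun a _ => ?_
      rw [Matrix.transpose_apply, Matrix.of_apply, Matrix.of_apply, xcf, xcf]
    have hpos : (0 : ℝ) < 1 + s ^ 2 := by positivity
    have hW2 : (1 + s ^ 2) ^ n * dz W s = (1 + s ^ 2) ^ m * PT (fun k : Fin ((D + 1) / 2) => c k) (s ^ 2) := by
      have h1 := Cpl.dz_eq hD hcpl s
      have h2 : dz b' s = ∏ j ∈ Finset.range (D / 2), (1 + s ^ 2 * c j ^ 2) := by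
        rw [← det_wf D c s, dz]
        congr 1
        ext a b
        rw [Matrix.of_apply, Matrix.of_apply, hom, orthonormal_iff_ite.1 hcpl.2.1]
      have h3 : PT (fun k : Fin ((D + 1) / 2) => c k) (s ^ 2) =
          ∏ j ∈ Finset.range (D / 2), (1 + s ^ 2 * c j ^ 2) := by
        unfold PT
        rw [Fin.prod_univ_eq_prod_range (fun j => 1 + s ^ 2 * c j ^ 2) ((D + 1) / 2)]
        symm
        refine Finset.prod_subset (fun a ha => ?_) (fun a _ ha => ?_)
        · rw [Finset.mem_range] at ha ⊢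
          omega
        · rw [Finset.mem_range, not_lt] at ha
          rw [hcz a ha]
          ring
      rw [h3, ← h2]
      have hp : (1 + s ^ 2) ^ D ≠ 0 := by positivity
      apply mul_left_cancel₀ hp
      calc (1 + s ^ 2) ^ D * ((1 + s ^ 2) ^ n * dz W s) =
          (1 + s ^ 2) ^ n * ((1 + s ^ 2) ^ D * dz W s) := by ring
        _ = (1 + s ^ 2) ^ (n + n) * dz b' s := by rw [h1, pow_add]; ring
        _ = (1 + s ^ 2) ^ (m + D) * dz b' s := by
            have : n + n = m + D := by omega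
            rw [this]
        _ = _ := by rw [pow_add]; ring
    rw [hdz, link_det hD hcpl hcz hom _ hU s, Matrix.det_smul, Fintype.card_fin, Matrix.det_fin_two,
      hM, hM, hM, hM]
    simp only [Matrix.cons_val_zero, Matrix.cons_val_one]
    have hq : qT (fun k : Fin ((D + 1) / 2) => c k) (ζ u) (ζ v) (s ^ 2) =
        (∑ k : Fin ((D + 1) / 2), 1 / (1 + s ^ 2 * c k ^ 2) *
          ((xc u (2 * k) * xc u (2 * k) + xc u (2 * k + 1) * xc u (2 * k + 1)) +
            s * (c k * (xc u (2 * k) * xc u (2 * k + 1) - xc u (2 * k + 1) * xc u (2 * k))))) *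
        (∑ k : Fin ((D + 1) / 2), 1 / (1 + s ^ 2 * c k ^ 2) *
          ((xc v (2 * k) * xc v (2 * k) + xc v (2 * k + 1) * xc v (2 * k + 1)) +
            s * (c k * (xc v (2 * k) * xc v (2 * k + 1) - xc v (2 * k + 1) * xc v (2 * k))))) -
        (∑ k : Fin ((D + 1) / 2), 1 / (1 + s ^ 2 * c k ^ 2) *
          ((xc u (2 * k) * xc v (2 * k) + xc u (2 * k + 1) * xc v (2 * k + 1)) +
            s * (c k * (xc u (2 * k) * xc v (2 * k + 1) - xc u (2 * k + 1) * xc v (2 * k))))) *
        (∑ k : Fin ((D + 1) / 2), 1 / (1 + s ^ 2 * c k ^ 2) *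
          ((xc v (2 * k) * xc u (2 * k) + xc v (2 * k + 1) * xc u (2 * k + 1)) +
            s * (c k * (xc v (2 * k) * xc u (2 * k + 1) - xc v (2 * k + 1) * xc u (2 * k))))) := by
      unfold qT LT
      have a1 : ∀ w : Cn n, (∑ k : Fin ((D + 1) / 2), 1 / (1 + s ^ 2 * c k ^ 2) *
          ((xc w (2 * k) * xc w (2 * k) + xc w (2 * k + 1) * xc w (2 * k + 1)) +
            s * (c k * (xc w (2 * k) * xc w (2 * k + 1) - xc w (2 * k + 1) * xc w (2 * k))))) =
          ∑ k : Fin ((D + 1) / 2), 1 / (1 + s ^ 2 * c k ^ 2) * ‖ζ w k‖ ^ 2 := by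
        intro w
        refine Finset.sum_congr rfl fun k _ => ?_
        rw [hnorm]
        ring
      have a2 : (∑ k : Fin ((D + 1) / 2), 1 / (1 + s ^ 2 * c k ^ 2) *
          ((xc u (2 * k) * xc v (2 * k) + xc u (2 * k + 1) * xc v (2 * k + 1)) +
            s * (c k * (xc u (2 * k) * xc v (2 * k + 1) - xc u (2 * k + 1) * xc v (2 * k))))) =
          (∑ k : Fin ((D + 1) / 2), 1 / (1 + s ^ 2 * c k ^ 2) * (ζ u k * conj (ζ v k)).re) -
          s * ∑ k : Fin ((D + 1) / 2), c k * (1 / (1 + s ^ 2 * c k ^ 2)) *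
            (ζ u k * conj (ζ v k)).im := by
        rw [Finset.mul_sum, ← Finset.sum_sub_distrib]
        refine Finset.sum_congr rfl fun k _ => ?_
        rw [hre, him]
        ring
      have a3 : (∑ k : Fin ((D + 1) / 2), 1 / (1 + s ^ 2 * c k ^ 2) *
          ((xc v (2 * k) * xc u (2 * k) + xc v (2 * k + 1) * xc u (2 * k + 1)) +
            s * (c k * (xc v (2 * k) * xc u (2 * k + 1) - xc v (2 * k + 1) * xc u (2 * k))))) =
          (∑ k : Fin ((D + 1) / 2), 1 / (1 + s ^ 2 * c k ^ 2) * (ζ u k * conj (ζ v k)).re) +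
          s * ∑ k : Fin ((D + 1) / 2), c k * (1 / (1 + s ^ 2 * c k ^ 2)) *
            (ζ u k * conj (ζ v k)).im := by
        rw [Finset.mul_sum, ← Finset.sum_add_distrib]
        refine Finset.sum_congr rfl fun k _ => ?_
        rw [hre, him]
        ring
      rw [a1, a1, a2, a3]
      ring
    rw [← hq]
    calc (1 + s ^ 2) ^ n * ((1 + s ^ 2) ^ 2 *
          qT (fun k : Fin ((D + 1) / 2) => c k) (ζ u) (ζ v) (s ^ 2) * dz W s) =
        (1 + s ^ 2) ^ 2 * qT (fun k : Fin ((D + 1) / 2) => c k) (ζ u) (ζ v) (s ^ 2) *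
          ((1 + s ^ 2) ^ n * dz W s) := by ring
      _ = _ := by
        rw [hW2, pow_add]
        ring

end Pool.Agent.H35.ISO
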