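import Mathlib
import Pool.Agent.H35.ISO.FunD
import Pool.Agent.H35.ISO.Lnk
import Pool.Agent.H35.ISO.Ana
import Pool.Agent.H35.ISO.Pol
import Pool.Agent.H35.NI.Lin

set_option autoImplicit false

/-!
# Ker: the kernel in the link

`link`, `exists_pol`, `fun_isoC`, `ana` (with `m + 2` for `m`): for `|x| < 1`, `i = m + 2`:
`(1-x²)^n p(-x²) = (1-x²)^i (qq Px)`, so (divide by a power of `1 - x² > 0`)
`(1-x²)^(n-i) p(-x²) = (1-x²)^(i-n) (qq Px)` (natural subtractions; `(n-i)+i = (i-n)+n`), and the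
integrals agree (`intervalIntegral.integral_congr_ae` or `integral_Icc_eq_integral_Ioo`).
`GG (u, v, W) = |u|²|v|² - ⟨u,v⟩²` (block determinant, or `H35/NI/Hyp` private `GG_block`).
-/

open MeasureTheory Pool.Agent.H61.UProj Pool.Agent.H89.CZ Pool.Agent.H35.NI
open scoped ComplexConjugate

noncomputable section

namespace Pool.Agent.H35.ISO

variable {n : ℕ}

private theorem DD_rowK {k : ℕ} {a b : Cn n} (z w : Fin k → Cn n)
    (h : ∀ j, (inner ℝ a (w j) : ℝ) = 0) :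
    DD (Fin.cons a z : Fin (k + 1) → Cn n) (Fin.cons b w : Fin (k + 1) → Cn n) =
      inner ℝ a b * DD z w := by
  unfold DD
  rw [Matrix.det_succ_row_zero, Fin.sum_univ_succ]
  have h1 : ∀ j : Fin k, (-1 : ℝ) ^ ((j.succ : Fin (k + 1)) : ℕ) *
      (Matrix.of fun s t => (inner ℝ ((Fin.cons a z : Fin (k + 1) → Cn n) s)
        ((Fin.cons b w : Fin (k + 1) → Cn n) t) : ℝ)) 0 j.succ *
      ((Matrix.of fun s t => (inner ℝ ((Fin.cons a z : Fin (k + 1) → Cn n) s)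
        ((Fin.cons b w : Fin (k + 1) → Cn n) t) : ℝ)).submatrix Fin.succ
          (j.succ).succAbove).det = 0 := by
    intro j
    rw [Matrix.of_apply, Fin.cons_zero, Fin.cons_succ, h j, mul_zero, zero_mul]
  rw [Finset.sum_eq_zero fun j _ => h1 j, add_zero, Fin.val_zero, pow_zero, one_mul,
    Matrix.of_apply, Fin.cons_zero, Fin.cons_zero]
  congr 2

private theorem GG_blockK {m : ℕ} {a b : Cn n} (W : Fin m → Cn n)
    (ha : ∀ j, (inner ℝ a (W j) : ℝ) = 0) (hb : ∀ j, (inner ℝ b (W j) : ℝ) = 0) :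
    GG (Fin.cons a (Fin.cons b W : Fin (m + 1) → Cn n) : Fin (m + 2) → Cn n) =
      (‖a‖ ^ 2 * ‖b‖ ^ 2 - (inner ℝ a b : ℝ) ^ 2) * GG W := by
  have h1 : DD (Fin.cons b W : Fin (m + 1) → Cn n) (Fin.cons b W : Fin (m + 1) → Cn n) =
      inner ℝ b b * DD W W := DD_rowK W W hb
  have h2 : DD (Fin.cons b W : Fin (m + 1) → Cn n) (Fin.cons a W : Fin (m + 1) → Cn n) =
      inner ℝ b a * DD W W := DD_rowK W W hb
  have h0 : ∀ j : Fin (m + 1), (Fin.cons a (Fin.cons b W : Fin (m + 1) → Cn n) :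
      Fin (m + 2) → Cn n) j.succ = (Fin.cons b W : Fin (m + 1) → Cn n) j := fun j => rfl
  unfold GG
  unfold DD at h1 h2 ⊢
  rw [Matrix.det_succ_row_zero, Fin.sum_univ_succ, Fin.sum_univ_succ]
  have h3 : ∀ j : Fin m, (-1 : ℝ) ^ ((j.succ.succ : Fin (m + 2)) : ℕ) *
      (Matrix.of fun s t => (inner ℝ ((Fin.cons a (Fin.cons b W : Fin (m + 1) → Cn n) :
        Fin (m + 2) → Cn n) s) ((Fin.cons a (Fin.cons b W : Fin (m + 1) → Cn n) :
        Fin (m + 2) → Cn n) t) : ℝ)) 0 j.succ.succ *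
      ((Matrix.of fun s t => (inner ℝ ((Fin.cons a (Fin.cons b W : Fin (m + 1) → Cn n) :
        Fin (m + 2) → Cn n) s) ((Fin.cons a (Fin.cons b W : Fin (m + 1) → Cn n) :
        Fin (m + 2) → Cn n) t) : ℝ)).submatrix Fin.succ
          (j.succ.succ).succAbove).det = 0 := by
    intro j
    rw [Matrix.of_apply]
    show _ * (inner ℝ a (W j) : ℝ) * _ = 0
    rw [ha j, mul_zero, zero_mul]
  rw [Finset.sum_eq_zero fun j _ => h3 j, add_zero]
  have h4 : ((Matrix.of fun s t => (inner ℝ ((Fin.cons a (Fin.cons b W : Fin (m + 1) → Cn n) :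
        Fin (m + 2) → Cn n) s) ((Fin.cons a (Fin.cons b W : Fin (m + 1) → Cn n) :
        Fin (m + 2) → Cn n) t) : ℝ)).submatrix Fin.succ
          (0 : Fin (m + 2)).succAbove) =
      Matrix.of fun s t => (inner ℝ ((Fin.cons b W : Fin (m + 1) → Cn n) s)
        ((Fin.cons b W : Fin (m + 1) → Cn n) t) : ℝ) := rfl
  have h5 : ((Matrix.of fun s t => (inner ℝ ((Fin.cons a (Fin.cons b W : Fin (m + 1) → Cn n) :
        Fin (m + 2) → Cn n) s) ((Fin.cons a (Fin.cons b W : Fin (m + 1) → Cn n) :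
        Fin (m + 2) → Cn n) t) : ℝ)).submatrix Fin.succ
          (Fin.succ (0 : Fin (m + 1))).succAbove) =
      Matrix.of fun s t => (inner ℝ ((Fin.cons b W : Fin (m + 1) → Cn n) s)
        ((Fin.cons a W : Fin (m + 1) → Cn n) t) : ℝ) := by
    ext s t
    refine Fin.cases ?_ (fun t => ?_) t
    · rfl
    · rfl
  rw [h4, h5, h1, h2]
  simp only [Matrix.of_apply]
  show (-1 : ℝ) ^ 0 * (inner ℝ a a : ℝ) * _ + (-1 : ℝ) ^ 1 * (inner ℝ a b : ℝ) * _ = _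
  rw [real_inner_self_eq_norm_sq, real_inner_self_eq_norm_sq, real_inner_comm a b]
  ring

theorem GG_link {m : ℕ} (W : Fin m → Cn n) (hW : Orthonormal ℝ W) (u v : Cn n)
    (hu : ∀ a, (inner ℝ (W a) u : ℝ) = 0) (hv : ∀ a, (inner ℝ (W a) v : ℝ) = 0) :
    GG (Fin.cons u (Fin.cons v W : Fin (m + 1) → Cn n) : Fin (m + 2) → Cn n) =
      ‖u‖ ^ 2 * ‖v‖ ^ 2 - (inner ℝ u v : ℝ) ^ 2 := by
  have h1 : ∀ j, (inner ℝ u (W j) : ℝ) = 0 := fun j => by rw [real_inner_comm]; exact hu j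
  have h2 : ∀ j, (inner ℝ v (W j) : ℝ) = 0 := fun j => by rw [real_inner_comm]; exact hv j
  rw [GG_blockK W h1 h2, GG_orth hW, mul_one]

theorem kernel {m : ℕ} (hm : m + 2 < 2 * n) {e : Fin (m + 2) → Cn n} (he : Orthonormal ℝ e)
    (h : IsoC e) (W : Fin m → Cn n) (hW : Orthonormal ℝ W) :
    ∃ (B : ℕ) (c : Fin B → ℝ) (ζ : Cn n →ₗ[ℝ] (Fin B → ℂ)) (C : ℝ), 0 < C ∧
      (∀ k, 0 ≤ c k ∧ c k ≤ 1) ∧
      (∀ u v : Cn n, (∀ a, (inner ℝ (W a) u : ℝ) = 0) → (∀ a, (inner ℝ (W a) v : ℝ) = 0) →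
        tt (ζ u) (ζ v) = inner ℝ u v) ∧
      ∀ u v : Cn n, (∀ a, (inner ℝ (W a) u : ℝ) = 0) → (∀ a, (inner ℝ (W a) v : ℝ) = 0) →
        gg e (Fin.cons u (Fin.cons v W : Fin (m + 1) → Cn n) : Fin (m + 2) → Cn n) *
            √(‖u‖ ^ 2 * ‖v‖ ^ 2 - (inner ℝ u v : ℝ) ^ 2) =
          C * KK (m + 2 - n) c (ζ u) (ζ v) := by
  obtain ⟨C, hC, hf⟩ := fun_isoC (n := n) (i := m + 2) (by omega) hm he h
  obtain ⟨B, c, ζ, hc, htt, hl⟩ := link W hW
  refine ⟨B, c, ζ, C, hC, hc, htt, fun u v hu hv => ?_⟩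
  obtain ⟨p, -, hp⟩ := exists_pol
    (Fin.cons u (Fin.cons v W : Fin (m + 1) → Cn n) : Fin (m + 2) → Cn n)
  have h1 := hf _ p hp
  rw [GG_link W hW u v hu hv] at h1
  rw [h1]
  congr 1
  unfold KK
  rw [intervalIntegral.integral_of_le (by norm_num), intervalIntegral.integral_of_le (by norm_num),
    integral_Ioc_eq_integral_Ioo, integral_Ioc_eq_integral_Ioo]
  refine setIntegral_congr_fun measurableSet_Ioo fun x hx => ?_
  have hx2 : x ^ 2 < 1 := by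
    have := hx.1
    have := hx.2
    nlinarith
  have h2 := ana (n := n) (m := m + 2) hc (ζ u) (ζ v) p
    (fun s => by rw [hp]; exact hl u v hu hv s) hx2
  have hpos : (0 : ℝ) < 1 - x ^ 2 := by linarith
  have h3 : n - (m + 2) + (m + 2) = m + 2 - n + n := by omega
  have h4 : (1 - x ^ 2) ^ (m + 2) * (1 - x ^ 2) ^ (n - (m + 2)) =
      (1 - x ^ 2) ^ n * (1 - x ^ 2) ^ (m + 2 - n) := by
    rw [← pow_add, ← pow_add]
    congr 1
    omega
  refine mul_left_cancel₀ (pow_pos hpos (m + 2)).ne' ?_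
  rw [← mul_assoc, h4]
  calc (1 - x ^ 2) ^ n * (1 - x ^ 2) ^ (m + 2 - n) * p.eval (-(x ^ 2)) =
      (1 - x ^ 2) ^ (m + 2 - n) * ((1 - x ^ 2) ^ n * p.eval (-(x ^ 2))) := by ring
    _ = _ := by
      rw [h2]
      ring

end Pool.Agent.H35.ISO
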