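import Mathlib

set_option autoImplicit false

/-!
# Rev: reverse Cauchy-Schwarz from conditional negativity

`T = ∑ t_j r_j ≥ 0`.  If `T = 0`: `t_j r_j = 0`, so `t_j ≠ 0 → r_j = 0 → k = 0`, left side `0`.  Else
`α = (∑ u_j r_j)/T`, `s = u - α t`, `∑ s_j r_j = 0`: `B(s,s) = B(u,u) - 2α B(u,t) + α² B(t,t) ≤ 0` and
`B(t,t) ≥ 0`; discriminant.
-/

namespace Pool.Agent.H35.ISO

theorem rev_cs {N : ℕ} (k : Fin N → Fin N → ℝ) (hs : ∀ a b, k a b = k b a)
    (h0 : ∀ a b, 0 ≤ k a b) (r : Fin N → ℝ) (hr : ∀ j, 0 ≤ r j) (hz : ∀ a b, r a = 0 → k a b = 0)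
    (hc : ∀ lam : Fin N → ℝ, ∑ j, lam j * r j = 0 → ∑ a, ∑ b, lam a * lam b * k a b ≤ 0)
    (u t : Fin N → ℝ) (ht : ∀ j, 0 ≤ t j) :
    (∑ a, ∑ b, u a * u b * k a b) * (∑ a, ∑ b, t a * t b * k a b) ≤
      (∑ a, ∑ b, u a * t b * k a b) ^ 2 := by
  have hT0 : ∀ j ∈ Finset.univ, 0 ≤ t j * r j := fun j _ => mul_nonneg (ht j) (hr j)
  have hTn : 0 ≤ ∑ j, t j * r j := Finset.sum_nonneg hT0
  have htt : 0 ≤ ∑ a, ∑ b, t a * t b * k a b :=
    Finset.sum_nonneg fun a _ => Finset.sum_nonneg fun b _ =>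
      mul_nonneg (mul_nonneg (ht a) (ht b)) (h0 a b)
  rcases hTn.eq_or_lt with hT | hT
  · have h1 := (Finset.sum_eq_zero_iff_of_nonneg hT0).1 hT.symm
    have h2 : ∑ a, ∑ b, t a * t b * k a b = 0 := by
      refine Finset.sum_eq_zero fun a _ => Finset.sum_eq_zero fun b _ => ?_
      rcases mul_eq_zero.1 (h1 a (Finset.mem_univ a)) with h3 | h3
      · rw [h3]
        ring
      · rw [hz a b h3, mul_zero]
    rw [h2, mul_zero]
    exact sq_nonneg _
  · set T := ∑ j, t j * r j with hTd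
    set α := (∑ j, u j * r j) / T with hα
    have hs0 : ∑ j, (u j - α * t j) * r j = 0 := by
      have h1 : ∑ j, (u j - α * t j) * r j = ∑ j, u j * r j - α * T := by
        rw [hTd, Finset.mul_sum, ← Finset.sum_sub_distrib]
        refine Finset.sum_congr rfl fun j _ => ?_
        ring
      rw [h1, hα, div_mul_cancel₀ _ hT.ne', sub_self]
    have h1 := hc _ hs0
    have hsym : ∑ a, ∑ b, t a * u b * k a b = ∑ a, ∑ b, u a * t b * k a b := by
      rw [Finset.sum_comm]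
      refine Finset.sum_congr rfl fun a _ => Finset.sum_congr rfl fun b _ => ?_
      rw [hs b a]
      ring
    have h2 : ∑ a, ∑ b, (u a - α * t a) * (u b - α * t b) * k a b =
        ∑ a, ∑ b, u a * u b * k a b - α * ∑ a, ∑ b, u a * t b * k a b -
          α * ∑ a, ∑ b, t a * u b * k a b + α ^ 2 * ∑ a, ∑ b, t a * t b * k a b := by
      simp only [Finset.mul_sum]
      rw [← Finset.sum_sub_distrib, ← Finset.sum_sub_distrib, ← Finset.sum_add_distrib]
      refine Finset.sum_congr rfl fun a _ => ?_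
      rw [← Finset.sum_sub_distrib, ← Finset.sum_sub_distrib, ← Finset.sum_add_distrib]
      refine Finset.sum_congr rfl fun b _ => ?_
      ring
    rw [h2, hsym] at h1
    generalize ∑ a, ∑ b, u a * u b * k a b = U at *
    generalize ∑ a, ∑ b, u a * t b * k a b = V at *
    generalize ∑ a, ∑ b, t a * t b * k a b = W at *
    have h3 : U * W ≤ (2 * α * V - α ^ 2 * W) * W :=
      mul_le_mul_of_nonneg_right (by linarith) htt
    nlinarith [sq_nonneg (V - α * W)]

end Pool.Agent.H35.ISO
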