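import Mathlib
import Pool.Agent.H35.ISO.Ker
import Pool.Agent.H35.ISO.CorK
import Pool.Agent.H35.ISO.Rev

set_option autoImplicit false

/-!
# HypI: the reverse Cauchy-Schwarz inequality for isotropic frames

If `W` is linearly dependent: all `gg e (p_j, p_k, W) = 0` (`DD = 0`).  Else `W = R f`, `f`
orthonormal with the same span (as in `NI/Lin` `frame`), `gg e (p, q, W) = |det R| gg e (p, q, f)`
(`gg_comb` with the matrix `1 ⊕ R`, or multilinearity), and `p, q` may be replaced by their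
components orthogonal to `f` (row operations; `gg_comb` with a unipotent matrix).  So let `W` be
orthonormal, `p_j ⊥ W`.  `kernel`.  `r_j = |p_j|`; `rev_cs` with `k a b = gg e (p_a, p_b, W)`: symmetric
(transposition of two vectors: `gg_comb`), `≥ 0` (`gg_nonneg`), `0` if `p_a = 0`.  Conditional
negativity: for `r_j > 0` put `û_j = ζ(p_j)/r_j`, `λ_j = lam_j r_j`; `∑ λ_j = 0`;
`gg e (p_a, p_b, W) √(r_a² r_b² - ⟨p_a,p_b⟩²) = C r_a² r_b² KK κ c (û_a) (û_b)` (`qq` is homogeneous), so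
`gg e (p_a, p_b, W) = C r_a r_b KK(û_a, û_b)/√(1 - tt(û_a, û_b)²)` if the root is positive; if it is
`0` the vectors `p_a, p_b` are dependent, both sides are `0` (`x/0 = 0`).  Indices with `r_j = 0`
contribute `0`: replace them by any unit vector with `λ_j = 0`, or restrict to a subtype (`core` for
`Fin N'`).  `∑_k ‖û_k‖² = tt û û = 1`.
-/

open MeasureTheory Pool.Agent.H61.UProj Pool.Agent.H89.CZ Pool.Agent.H35.NI
open scoped ComplexConjugate

noncomputable section

namespace Pool.Agent.H35.ISO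

variable {n : ℕ}

/-! ### Row operations -/

/-- the tuple `x, y, W` -/
private abbrev ws {m : ℕ} (x y : Cn n) (W : Fin m → Cn n) : Fin (m + 2) → Cn n :=
  Fin.cons x (Fin.cons y W : Fin (m + 1) → Cn n)

/-- the space spanned by `W` -/
private abbrev sW {m : ℕ} (W : Fin m → Cn n) : Submodule ℝ (Cn n) :=
  Submodule.span ℝ (Set.range W)

/-- the projection on the orthogonal complement -/
private def pW {m : ℕ} (W : Fin m → Cn n) (x : Cn n) : Cn n := (sW W)ᗮ.starProjection x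

private theorem pW_orth {m : ℕ} (W : Fin m → Cn n) (x : Cn n) (k : Fin m) :
    (inner ℝ (W k) (pW W x) : ℝ) = 0 := by
  have h1 := Submodule.starProjection_apply_mem (sW W)ᗮ x
  exact h1 (W k) (Submodule.subset_span ⟨k, rfl⟩)

private theorem pW_sub {m : ℕ} (W : Fin m → Cn n) (x : Cn n) : x - pW W x ∈ sW W := by
  have h1 := Submodule.sub_starProjection_mem_orthogonal (K := (sW W)ᗮ) x
  rwa [Submodule.orthogonal_orthogonal] at h1

/-- the bilinear form `B (x, y, W)` -/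
private def bW {m : ℕ} (B : (Cn n) [⋀^Fin (m + 2)]→ₗ[ℝ] ℝ) (W : Fin m → Cn n) :
    Cn n →ₗ[ℝ] Cn n →ₗ[ℝ] ℝ :=
  LinearMap.mk₂ ℝ (fun x y => B (ws x y W))
    (fun x x' y => by
      have h := B.toMultilinearMap.map_update_add (ws 0 y W) 0 x x'
      simpa only [Fin.update_cons_zero, AlternatingMap.coe_multilinearMap] using h)
    (fun c x y => by
      have h := B.toMultilinearMap.map_update_smul (ws 0 y W) 0 c x
      simpa only [Fin.update_cons_zero, AlternatingMap.coe_multilinearMap] using h)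
    (fun x y y' => by
      have h := B.toMultilinearMap.map_update_add (ws x 0 W) 1 y y'
      have e : ∀ z : Cn n, Function.update (ws x 0 W) 1 z = ws x z W := by
        intro z
        have h1 := Fin.cons_update (α := fun _ => Cn n) x (Fin.cons 0 W : Fin (m + 1) → Cn n) 0 z
        rw [Fin.update_cons_zero] at h1
        exact h1.symm
      simpa only [e, AlternatingMap.coe_multilinearMap] using h)
    (fun c x y => by
      have h := B.toMultilinearMap.map_update_smul (ws x 0 W) 1 c y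
      have e : ∀ z : Cn n, Function.update (ws x 0 W) 1 z = ws x z W := by
        intro z
        have h1 := Fin.cons_update (α := fun _ => Cn n) x (Fin.cons 0 W : Fin (m + 1) → Cn n) 0 z
        rw [Fin.update_cons_zero] at h1
        exact h1.symm
      simpa only [e, AlternatingMap.coe_multilinearMap] using h)

private theorem bW_apply {m : ℕ} (B : (Cn n) [⋀^Fin (m + 2)]→ₗ[ℝ] ℝ) (W : Fin m → Cn n)
    (x y : Cn n) : bW B W x y = B (ws x y W) := rfl

private theorem bW_swap {m : ℕ} (B : (Cn n) [⋀^Fin (m + 2)]→ₗ[ℝ] ℝ) (W : Fin m → Cn n)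
    (x y : Cn n) : bW B W x y = -bW B W y x := by
  have h0 : ∀ z : Cn n, bW B W z z = 0 := fun z =>
    B.map_eq_zero_of_eq (ws z z W) (i := 0) (j := 1) rfl (by simp)
  have h1 := h0 (x + y)
  simp only [map_add, LinearMap.add_apply, h0] at h1
  linarith

private theorem bW_left {m : ℕ} (B : (Cn n) [⋀^Fin (m + 2)]→ₗ[ℝ] ℝ) (W : Fin m → Cn n)
    {z : Cn n} (hz : z ∈ sW W) (y : Cn n) : bW B W z y = 0 := by
  refine Submodule.span_induction (p := fun z _ => bW B W z y = 0) ?_ ?_ ?_ ?_ hz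
  · rintro _ ⟨k, rfl⟩
    exact B.map_eq_zero_of_eq (ws (W k) y W) (i := 0) (j := k.succ.succ) rfl
      (Fin.succ_ne_zero _).symm
  · simp
  · intro x x' _ _ h h'
    rw [map_add, LinearMap.add_apply, h, h', add_zero]
  · intro c x _ h
    rw [map_smul, LinearMap.smul_apply, h, smul_zero]

private theorem bW_proj {m : ℕ} (B : (Cn n) [⋀^Fin (m + 2)]→ₗ[ℝ] ℝ) (W : Fin m → Cn n)
    (x y : Cn n) : bW B W x y = bW B W (pW W x) (pW W y) := by
  have h1 : ∀ x y, bW B W x y = bW B W (pW W x) y := by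
    intro x y
    have h2 := bW_left B W (pW_sub W x) y
    rw [map_sub, LinearMap.sub_apply] at h2
    linarith
  rw [h1 x y, bW_swap, h1 y, ← bW_swap]

/-- `DD z` as an alternating map -/
private def dA {i : ℕ} (z : Fin i → Cn n) : (Cn n) [⋀^Fin i]→ₗ[ℝ] ℝ :=
  Matrix.detRowAlternating.compLinearMap (LinearMap.pi fun a => (innerₗ (Cn n)) (z a))

private theorem dA_apply {i : ℕ} (z w : Fin i → Cn n) : dA z w = DD z w := by
  unfold DD
  rw [← Matrix.det_transpose]
  rfl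

private theorem gg_of_DD {i : ℕ} (e w : Fin i → Cn n) (h : ∀ z, DD z w = 0) : gg e w = 0 := by
  unfold gg
  simp only [h, abs_zero, integral_zero]

private theorem gg_swap {m : ℕ} (e : Fin (m + 2) → Cn n) (W : Fin m → Cn n) (x y : Cn n) :
    gg e (ws x y W) = gg e (ws y x W) := by
  unfold gg
  refine integral_congr_ae (Filter.Eventually.of_forall fun φ => ?_)
  simp only []
  rw [← dA_apply, ← dA_apply, ← bW_apply, bW_swap, abs_neg, bW_apply]

private theorem gg_proj {m : ℕ} (e : Fin (m + 2) → Cn n) (W : Fin m → Cn n) (x y : Cn n) :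
    gg e (ws x y W) = gg e (ws (pW W x) (pW W y) W) := by
  unfold gg
  refine integral_congr_ae (Filter.Eventually.of_forall fun φ => ?_)
  simp only []
  rw [← dA_apply, ← dA_apply, ← bW_apply, bW_proj, bW_apply]

private theorem gg_zero {m : ℕ} (e : Fin (m + 2) → Cn n) (W : Fin m → Cn n) (y : Cn n) :
    gg e (ws 0 y W) = 0 := by
  refine gg_of_DD _ _ fun z => ?_
  rw [← dA_apply, ← bW_apply, map_zero, LinearMap.zero_apply]

private theorem gg_dep {m : ℕ} (e : Fin (m + 2) → Cn n) {W : Fin m → Cn n}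
    (hW : ¬ LinearIndependent ℝ W) (x y : Cn n) : gg e (ws x y W) = 0 := by
  refine gg_of_DD _ _ fun z => ?_
  rw [← dA_apply]
  refine (dA z).map_linearDependent _ fun h => hW ?_
  have h1 := h.comp (fun k : Fin m => k.succ.succ)
    (fun a b hab => Fin.succ_injective _ (Fin.succ_injective _ hab))
  exact h1

private theorem gg_basis {m : ℕ} (e : Fin (m + 2) → Cn n) {W : Fin m → Cn n}
    (hW : LinearIndependent ℝ W) :
    ∃ (f : Fin m → Cn n) (ρ : ℝ), Orthonormal ℝ f ∧ 0 ≤ ρ ∧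
      ∀ x y, gg e (ws x y W) = ρ * gg e (ws x y f) := by
  set S := Submodule.span ℝ (Set.range W) with hS
  have hfr : Module.finrank ℝ S = m := by
    rw [hS, finrank_span_eq_card hW, Fintype.card_fin]
  set b := (stdOrthonormalBasis ℝ S).reindex (finCongr hfr) with hb
  set f : Fin m → Cn n := fun j => (b j : Cn n) with hfd
  have hf : Orthonormal ℝ f := b.orthonormal.comp_linearIsometry S.subtypeₗᵢ
  have hwS : ∀ k, W k ∈ S := fun k => Submodule.subset_span ⟨k, rfl⟩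
  obtain ⟨R', hR'⟩ : ∃ R' : Fin m → Fin m → ℝ, ∀ k, W k = ∑ j, R' k j • f j := by
    refine ⟨fun k j => (inner ℝ (b j) (⟨W k, hwS k⟩ : S) : ℝ), fun k => ?_⟩
    have h1 := b.sum_repr' (⟨W k, hwS k⟩ : S)
    have h2 := congrArg (fun x : S => (x : Cn n)) h1
    simp only [Submodule.coe_sum, Submodule.coe_smul] at h2
    exact h2.symm
  obtain ⟨R, hR⟩ : ∃ R : Matrix (Fin (m + 2)) (Fin (m + 2)) ℝ, R =
    (Matrix.of (Fin.cons (Fin.cons 1 (Fin.cons 0 fun _ => 0))
      (Fin.cons (Fin.cons 0 (Fin.cons 1 fun _ => 0))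
        (fun k => (Fin.cons 0 (Fin.cons 0 (R' k) : Fin (m + 1) → ℝ) : Fin (m + 2) → ℝ)) :
          Fin (m + 1) → Fin (m + 2) → ℝ) : Fin (m + 2) → Fin (m + 2) → ℝ)) := ⟨_, rfl⟩
  refine ⟨f, |R.det|, hf, abs_nonneg _, fun x y => ?_⟩
  rw [gg_symm e, gg_symm e]
  refine gg_comb (fun a => ?_) e
  rw [Fin.sum_univ_succ, Fin.sum_univ_succ, hR]
  refine Fin.cases ?_ (fun a => Fin.cases ?_ (fun a => ?_) a) a
  · simp [Matrix.of_apply]
  · simp [Matrix.of_apply]
  · simp [Matrix.of_apply, hR']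

/-! ### Homogeneity -/

private theorem qq_smul {B : ℕ} (c : Fin B → ℝ) (a b : Fin B → ℂ) (s t x : ℝ) :
    qq c (s • a) (t • b) x = s ^ 2 * t ^ 2 * qq c a b x := by
  unfold qq
  have h1 : ∀ (r : ℝ) (v : Fin B → ℂ), ∑ k, La c x k * ‖(r • v) k‖ ^ 2 =
      r ^ 2 * ∑ k, La c x k * ‖v k‖ ^ 2 := by
    intro r v
    rw [Finset.mul_sum]
    refine Finset.sum_congr rfl fun k _ => ?_
    rw [Pi.smul_apply, norm_smul, mul_pow, Real.norm_eq_abs, sq_abs]
    ring
  have h2 : ∀ k, (s • a) k * conj ((t • b) k) = ((s * t : ℝ) : ℂ) * (a k * conj (b k)) := by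
    intro k
    rw [Pi.smul_apply, Pi.smul_apply, Complex.real_smul, Complex.real_smul, map_mul,
      Complex.conj_ofReal]
    push_cast
    ring
  simp only [h1, h2, Complex.re_ofReal_mul, Complex.im_ofReal_mul]
  have h3 : ∑ k, La c x k * (s * t * (a k * conj (b k)).re) =
      s * t * ∑ k, La c x k * (a k * conj (b k)).re := by
    rw [Finset.mul_sum]
    exact Finset.sum_congr rfl fun k _ => by ring
  have h4 : ∑ k, c k * La c x k * (s * t * (a k * conj (b k)).im) =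
      s * t * ∑ k, c k * La c x k * (a k * conj (b k)).im := by
    rw [Finset.mul_sum]
    exact Finset.sum_congr rfl fun k _ => by ring
  rw [h3, h4]
  ring

private theorem KK_smul {B : ℕ} (κ : ℕ) (c : Fin B → ℝ) (a b : Fin B → ℂ) (s t : ℝ) :
    KK κ c (s • a) (t • b) = s ^ 2 * t ^ 2 * KK κ c a b := by
  unfold KK
  rw [← intervalIntegral.integral_const_mul]
  refine intervalIntegral.integral_congr fun x _ => ?_
  simp only [qq_smul]
  ring

private theorem tt_smul {B : ℕ} (a b : Fin B → ℂ) (s t : ℝ) :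
    tt (s • a) (t • b) = s * t * tt a b := by
  unfold tt
  rw [Finset.mul_sum]
  refine Finset.sum_congr rfl fun k _ => ?_
  have h2 : (s • a) k * conj ((t • b) k) = ((s * t : ℝ) : ℂ) * (a k * conj (b k)) := by
    rw [Pi.smul_apply, Pi.smul_apply, Complex.real_smul, Complex.real_smul, map_mul,
      Complex.conj_ofReal]
    push_cast
    ring
  rw [h2, Complex.re_ofReal_mul]

private theorem tt_self {B : ℕ} (a : Fin B → ℂ) : tt a a = ∑ k, ‖a k‖ ^ 2 := by
  unfold tt
  refine Finset.sum_congr rfl fun k _ => ?_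
  rw [Complex.mul_conj, Complex.ofReal_re, Complex.normSq_eq_norm_sq]

/-! ### Orthonormal `W` -/

private theorem hyp_orth {m : ℕ} (hm : m + 2 < 2 * n) {e : Fin (m + 2) → Cn n}
    (he : Orthonormal ℝ e) (h : IsoC e) {W : Fin m → Cn n} (hW : Orthonormal ℝ W) {N : ℕ}
    (p : Fin N → Cn n) (hp : ∀ j a, (inner ℝ (W a) (p j) : ℝ) = 0) (u t : Fin N → ℝ)
    (ht : ∀ j, 0 ≤ t j) :
    (∑ j, ∑ k, u j * u k * gg e (ws (p j) (p k) W)) *
      (∑ j, ∑ k, t j * t k * gg e (ws (p j) (p k) W)) ≤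
    (∑ j, ∑ k, u j * t k * gg e (ws (p j) (p k) W)) ^ 2 := by
  obtain ⟨B, c, ζ, C, hC, hc, hζ, hk⟩ := kernel hm he h W hW
  have hz : ∀ a b, ‖p a‖ = 0 → gg e (ws (p a) (p b) W) = 0 := by
    intro a b hab
    rw [norm_eq_zero.1 hab]
    exact gg_zero e W _
  refine rev_cs (fun a b => gg e (ws (p a) (p b) W)) (fun a b => gg_swap e W _ _)
    (fun a b => gg_nonneg _ _) (fun j => ‖p j‖) (fun j => norm_nonneg _) hz ?_ u t ht
  intro lam hlam
  by_cases hall : ∀ j, ‖p j‖ = 0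
  · refine le_of_eq (Finset.sum_eq_zero fun a _ => Finset.sum_eq_zero fun b _ => ?_)
    rw [hz a b (hall a), mul_zero]
  push Not at hall
  obtain ⟨j0, hj0⟩ := hall
  -- unit vectors
  have hunit : ∀ j, ∃ v : Fin B → ℂ, ∑ k, ‖v k‖ ^ 2 = 1 ∧
      (‖p j‖ ≠ 0 → v = (‖p j‖)⁻¹ • ζ (p j)) := by
    have h1 : ∀ j, ‖p j‖ ≠ 0 → ∑ k, ‖((‖p j‖)⁻¹ • ζ (p j)) k‖ ^ 2 = 1 := by
      intro j hj
      rw [← tt_self, tt_smul, hζ _ _ (hp j) (hp j), real_inner_self_eq_norm_sq]
      field_simp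
    intro j
    by_cases hj : ‖p j‖ = 0
    · exact ⟨_, h1 j0 hj0, fun h => absurd hj h⟩
    · exact ⟨_, h1 j hj, fun _ => rfl⟩
  choose v hv1 hv2 using hunit
  have key : ∀ a b, gg e (ws (p a) (p b) W) =
      C * (‖p a‖ * ‖p b‖ * (KK (m + 2 - n) c (v a) (v b) / √(1 - tt (v a) (v b) ^ 2))) := by
    intro a b
    by_cases ha : ‖p a‖ = 0
    · rw [hz a b ha, ha]
      ring
    by_cases hb : ‖p b‖ = 0
    · rw [gg_swap, hz b a hb, hb]
      ring
    have hva : ζ (p a) = ‖p a‖ • v a := by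
      rw [hv2 a ha, smul_smul, mul_inv_cancel₀ ha, one_smul]
    have hvb : ζ (p b) = ‖p b‖ • v b := by
      rw [hv2 b hb, smul_smul, mul_inv_cancel₀ hb, one_smul]
    have h1 := hk (p a) (p b) (hp a) (hp b)
    have h2 : (inner ℝ (p a) (p b) : ℝ) = ‖p a‖ * ‖p b‖ * tt (v a) (v b) := by
      rw [← hζ _ _ (hp a) (hp b), hva, hvb, tt_smul]
    have h3 : √(‖p a‖ ^ 2 * ‖p b‖ ^ 2 - (inner ℝ (p a) (p b) : ℝ) ^ 2) =
        ‖p a‖ * ‖p b‖ * √(1 - tt (v a) (v b) ^ 2) := by
      rw [h2]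
      have h4 : ‖p a‖ ^ 2 * ‖p b‖ ^ 2 - (‖p a‖ * ‖p b‖ * tt (v a) (v b)) ^ 2 =
          (‖p a‖ * ‖p b‖) ^ 2 * (1 - tt (v a) (v b) ^ 2) := by ring
      rw [h4, Real.sqrt_mul (sq_nonneg _), Real.sqrt_sq (by positivity)]
    have hab : 0 < ‖p a‖ * ‖p b‖ := by
      have ha' := lt_of_le_of_ne (norm_nonneg (p a)) (Ne.symm ha)
      have hb' := lt_of_le_of_ne (norm_nonneg (p b)) (Ne.symm hb)
      exact mul_pos ha' hb'
    rcases (Real.sqrt_nonneg (1 - tt (v a) (v b) ^ 2)).eq_or_lt with h0 | h0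
    · rw [← h0, div_zero, mul_zero, mul_zero]
      have h5 : ‖p a‖ ^ 2 * ‖p b‖ ^ 2 - (inner ℝ (p a) (p b) : ℝ) ^ 2 ≤ 0 := by
        rw [← h0, mul_zero] at h3
        exact Real.sqrt_eq_zero'.1 h3
      have h6 := GG_link W hW (p a) (p b) (hp a) (hp b)
      rcases frame (by omega) (ws (p a) (p b) W) with h7 | ⟨f, τ, -, hτ, h7, -⟩
      · exact gg_of_DD _ _ h7.2.1
      · exfalso
        rw [h7] at h6
        have := pow_pos hτ 2
        linarith
    · rw [h3, hva, hvb, KK_smul] at h1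
      have h5 : gg e (ws (p a) (p b) W) * √(1 - tt (v a) (v b) ^ 2) =
          C * (‖p a‖ * ‖p b‖ * KK (m + 2 - n) c (v a) (v b)) := by
        refine mul_left_cancel₀ hab.ne' ?_
        linear_combination h1
      rw [← mul_div_assoc, ← mul_div_assoc, eq_div_iff h0.ne']
      exact h5
  have h1 := core hc (m + 2 - n) v hv1 (fun j => lam j * ‖p j‖) hlam
  have h2 : ∑ a, ∑ b, lam a * lam b * gg e (ws (p a) (p b) W) =
      C * ∑ j, ∑ k, lam j * ‖p j‖ * (lam k * ‖p k‖) *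
        (KK (m + 2 - n) c (v j) (v k) / √(1 - tt (v j) (v k) ^ 2)) := by
    rw [Finset.mul_sum]
    refine Finset.sum_congr rfl fun a _ => ?_
    rw [Finset.mul_sum]
    refine Finset.sum_congr rfl fun b _ => ?_
    rw [key a b]
    ring
  rw [h2]
  exact mul_nonpos_of_nonneg_of_nonpos hC.le h1

theorem hyp_iso {m : ℕ} (hm : m + 2 < 2 * n) {e : Fin (m + 2) → Cn n} (he : Orthonormal ℝ e)
    (h : IsoC e) (W : Fin m → Cn n) {N : ℕ} (p : Fin N → Cn n) (u t : Fin N → ℝ)
    (ht : ∀ j, 0 ≤ t j) :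
    (∑ j, ∑ k, u j * u k * gg e
        (Fin.cons (p j) (Fin.cons (p k) W : Fin (m + 1) → Cn n) : Fin (m + 2) → Cn n)) *
      (∑ j, ∑ k, t j * t k * gg e
        (Fin.cons (p j) (Fin.cons (p k) W : Fin (m + 1) → Cn n) : Fin (m + 2) → Cn n)) ≤
    (∑ j, ∑ k, u j * t k * gg e
        (Fin.cons (p j) (Fin.cons (p k) W : Fin (m + 1) → Cn n) : Fin (m + 2) → Cn n)) ^ 2 := by
  by_cases hW : LinearIndependent ℝ W
  · obtain ⟨f, ρ, hf, hρ, hg⟩ := gg_basis e hW
    have h1 := hyp_orth hm he h hf (fun j => pW f (p j)) (fun j a => pW_orth f _ a) u t ht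
    simp only [← gg_proj] at h1
    have h2 : ∀ a b : Fin N → ℝ, ∑ j, ∑ k, a j * b k * gg e (ws (p j) (p k) W) =
        ρ * ∑ j, ∑ k, a j * b k * gg e (ws (p j) (p k) f) := by
      intro a b
      rw [Finset.mul_sum]
      refine Finset.sum_congr rfl fun j _ => ?_
      rw [Finset.mul_sum]
      refine Finset.sum_congr rfl fun k _ => ?_
      rw [hg]
      ring
    show (∑ j, ∑ k, u j * u k * gg e (ws (p j) (p k) W)) *
      (∑ j, ∑ k, t j * t k * gg e (ws (p j) (p k) W)) ≤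
      (∑ j, ∑ k, u j * t k * gg e (ws (p j) (p k) W)) ^ 2
    rw [h2, h2, h2, mul_pow]
    have h3 := mul_le_mul_of_nonneg_left h1 (sq_nonneg ρ)
    refine le_trans (le_of_eq ?_) h3
    ring
  · have h1 : ∀ j k, gg e
        (Fin.cons (p j) (Fin.cons (p k) W : Fin (m + 1) → Cn n) : Fin (m + 2) → Cn n) = 0 :=
      fun j k => gg_dep e hW (p j) (p k)
    simp only [h1, mul_zero, Finset.sum_const_zero]
    norm_num

end Pool.Agent.H35.ISO
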