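import Mathlib
import Pool.Agent.H35.ISO.HypI
import Pool.Agent.H35.NI.BMI
import Pool.Agent.H61.UProj.StmtEquiv

set_option autoImplicit false

/-!
# Main: assembly (as `NI/Main`)

`SD.IsONB e E`; `hyp_iso`, `gg_lower`, `bm_zonoidI`.
-/

open MeasureTheory Pool.Agent.H61.UProj Pool.Agent.H89.CZ Pool.Agent.H35.NI
open scoped ENNReal Pointwise

noncomputable section

namespace Pool.Agent.H35.ISO

theorem mainISO (n i : ℕ) (hi : 2 ≤ i) (hin : i < 2 * n) (E : Submodule ℝ (Cn n))
    (e : Fin i → Cn n) (he : SD.IsONB e E) (h : IsoC e) : SD.HasBMZonoid E := by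
  obtain ⟨m, rfl⟩ : ∃ m, i = m + 2 := ⟨i - 2, by omega⟩
  obtain ⟨hon, hsp⟩ := he
  obtain ⟨J, hJe, hJ⟩ := exists_iso hon
  rw [hsp] at hJ
  have hfr : Module.finrank ℝ E = m + 2 := by
    rw [← hsp, finrank_span_eq_card hon.linearIndependent, Fintype.card_fin]
  have hJe' : (fun k => J (EuclideanSpace.single k 1)) = e := by
    funext k
    rw [hJe, Finset.sum_eq_single k]
    · simp
    · intro j _ hj
      simp [hj]
    · intro hk
      exact absurd (Finset.mem_univ k) hk
  intro K L hK hL hKz hLz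
  have h4 := bm_zonoidI J (by
      obtain ⟨C, hC, hlow⟩ := gg_lower (by omega) hin hon h
      refine ⟨C, hC, fun w => ?_⟩
      rw [hJe']
      exact hlow w) (by
      intro W N p u t ht
      simp only [hJe']
      exact hyp_iso hin hon h W p u t ht) hKz hLz
  have hp : (1 / (Module.finrank ℝ E : ℝ)) = 1 / ((m : ℝ) + 2) := by
    rw [hfr]
    push_cast
    ring
  rw [hp, Stmt.VE_eq, Stmt.VE_eq, Stmt.VE_eq]
  rw [hJ] at h4
  exact h4

end Pool.Agent.H35.ISO
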